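import Pool.Agent.W_MP_aeed81_al_h89.MotX
import Pool.Agent.W_MP_aeed81_al.HClassThm

/-!
# A labelling satisfying the square relations gives an action of `PG(P(M_n))`
-/

set_option linter.unusedVariables false
set_option linter.unusedSectionVars false
set_option warn.classDefReducibility false

namespace Pool.Agent.W_MP_aeed81_al_h89

open Pool.Agent.W_MP_aeed81_al Sum Pat

variable {n : ℕ}

/-- Products of two projections are idempotent. -/
theorem pq_sq (p q : Pat n) : p.D * q.D * (p.D * q.D) = p.D * q.D := by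
  have h := mul_st_mul (p.D * q.D)
  rw [st_mul, st_D, st_D] at h
  calc p.D * q.D * (p.D * q.D) = p.D * (q.D * q.D) * (p.D * p.D) * q.D := by
        rw [D_idem, D_idem]; simp only [mul_assoc]
    _ = p.D * q.D * (q.D * p.D) * (p.D * q.D) := by simp only [mul_assoc]
    _ = p.D * q.D := h

theorem D_idem' (p : Pat n) (x : Dg n) : p.D * (p.D * x) = p.D * x := by
  rw [← mul_assoc, D_idem]

theorem pq_sq' (p q : Pat n) (x : Dg n) : p.D * (q.D * (p.D * (q.D * x))) = p.D * (q.D * x) := by
  have := congrArg (· * x) (pq_sq p q)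
  simpa only [mul_assoc] using this

theorem pq_sq'' (p q : Pat n) : p.D * (q.D * (p.D * q.D)) = p.D * q.D := by
  have := pq_sq p q
  simpa only [mul_assoc] using this

/-- right-associated forms of an equation `a b c = d` -/
theorem rA {a b c d : Dg n} (h : a * b * c = d) : a * (b * c) = d := by
  rw [← h, mul_assoc]

theorem rA' {a b c d : Dg n} (h : a * b * c = d) (x : Dg n) : a * (b * (c * x)) = d * x := by
  rw [← h]; simp only [mul_assoc]

/-- If `e (p q p) e = e` then `e p e = e`. -/
theorem sub_of_conj {e p q s : Pat n} (hs : p.D * q.D * p.D = s.D) (h : e.D * s.D * e.D = e.D) :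
    e.D * p.D * e.D = e.D := by
  rw [← hs] at h
  have h1 : e.D * p.D * e.D * (p.D * q.D * p.D * e.D) = e.D := by
    calc e.D * p.D * e.D * (p.D * q.D * p.D * e.D)
        = (e.D * p.D * (e.D * p.D)) * (q.D * p.D * e.D) := by simp only [mul_assoc]
      _ = (e.D * p.D) * (q.D * p.D * e.D) := by rw [pq_sq]
      _ = e.D * (p.D * q.D * p.D) * e.D := by simp only [mul_assoc]
      _ = e.D := h
  have h2 : e.D * p.D * e.D * (e.D * p.D * e.D) = e.D * p.D * e.D := by
    simp only [mul_assoc, D_idem', pq_sq']
  calc e.D * p.D * e.D = e.D * p.D * e.D * e.D := by simp only [mul_assoc, D_idem]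
    _ = e.D * p.D * e.D * (e.D * p.D * e.D * (p.D * q.D * p.D * e.D)) := by rw [h1]
    _ = e.D * p.D * e.D * (e.D * p.D * e.D) * (p.D * q.D * p.D * e.D) := by
        simp only [mul_assoc]
    _ = e.D := by rw [h2, h1]

section conj

variable {F : Type*} [Group F] {c : Pat n → Pat n → F}

theorem Sq_conj (c_self : ∀ e, c e e = 1) (c_inv : ∀ e f, c e f * c f e = 1) {q s p : Pat n}
    (hq : Sq c q) (hs : Sq c s) (hp : q.D * s.D * q.D = p.D) : Sq c p := by
  intro e f a b ha hb hea hfa
  obtain ⟨e1, he1⟩ := exists_cj q e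
  obtain ⟨f1, hf1⟩ := exists_cj q f
  obtain ⟨h, hh⟩ := exists_cj s e1
  obtain ⟨h', hh'⟩ := exists_cj s f1
  have hpe : e.D * p.D * e.D = e.D := sub_of_conj hb hea
  have hpf : f.D * p.D * f.D = f.D := sub_of_conj ha hfa
  have hqe : e.D * q.D * e.D = e.D := sub_of_conj hp hpe
  have hqf : f.D * q.D * f.D = f.D := sub_of_conj hp hpf
  have A1 : q.D * h.D * q.D = a.D := by
    rw [← hh, ← he1, ← ha, ← hp]; simp only [mul_assoc]
  have A2 : q.D * h'.D * q.D = b.D := by
    rw [← hh', ← hf1, ← hb, ← hp]; simp only [mul_assoc]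
  have B1 : e1.D * s.D * e1.D = e1.D := by
    calc e1.D * s.D * e1.D = q.D * (e.D * (q.D * s.D * q.D) * e.D) * q.D := by
          rw [← he1]; simp only [mul_assoc]
      _ = e1.D := by rw [hp, hpe, he1]
  have B2 : f1.D * s.D * f1.D = f1.D := by
    calc f1.D * s.D * f1.D = q.D * (f.D * (q.D * s.D * q.D) * f.D) * q.D := by
          rw [← hf1]; simp only [mul_assoc]
      _ = f1.D := by rw [hp, hpf, hf1]
  have C1 : e1.D * h'.D * e1.D = e1.D := by
    calc e1.D * h'.D * e1.D = q.D * (e.D * ((q.D * s.D * q.D) * f.D * (q.D * s.D * q.D)) * e.D) *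
          q.D := by rw [← hh', ← he1, ← hf1]; simp only [mul_assoc]
      _ = e1.D := by rw [hp, hb, hea, he1]
  have C2 : f1.D * h.D * f1.D = f1.D := by
    calc f1.D * h.D * f1.D = q.D * (f.D * ((q.D * s.D * q.D) * e.D * (q.D * s.D * q.D)) * f.D) *
          q.D := by rw [← hh, ← he1, ← hf1]; simp only [mul_assoc]
      _ = f1.D := by rw [hp, ha, hfa, hf1]
  have C3 : h.D * f1.D * h.D = h.D := by
    calc h.D * f1.D * h.D = s.D * (e1.D * (s.D * f1.D * s.D) * e1.D) * s.D := by
          rw [← hh]; simp only [mul_assoc]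
      _ = h.D := by rw [hh', C1, hh]
  have C4 : h'.D * e1.D * h'.D = h'.D := by
    calc h'.D * e1.D * h'.D = s.D * (f1.D * (s.D * e1.D * s.D) * f1.D) * s.D := by
          rw [← hh']; simp only [mul_assoc]
      _ = h'.D := by rw [hh, C2, hh']
  have C5 : h.D * e1.D * h.D = h.D := by
    calc h.D * e1.D * h.D = s.D * ((e1.D * s.D * e1.D) * s.D * e1.D) * s.D := by
          rw [← hh]; simp only [mul_assoc]
      _ = h.D := by rw [B1, B1, hh]
  have C6 : h'.D * f1.D * h'.D = h'.D := by
    calc h'.D * f1.D * h'.D = s.D * ((f1.D * s.D * f1.D) * s.D * f1.D) * s.D := by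
          rw [← hh']; simp only [mul_assoc]
      _ = h'.D := by rw [B2, B2, hh']
  have D1 : e.D * a.D * e.D = e.D := by
    calc e.D * a.D * e.D = (e.D * p.D * e.D) * p.D * e.D := by
          rw [← ha]; simp only [mul_assoc]
      _ = e.D := by rw [hpe, hpe]
  have D2 : f.D * b.D * f.D = f.D := by
    calc f.D * b.D * f.D = (f.D * p.D * f.D) * p.D * f.D := by
          rw [← hb]; simp only [mul_assoc]
      _ = f.D := by rw [hpf, hpf]
  have E1 := hq e h e1 a he1 A1 D1 C5
  have E2 := hq h f a f1 A1 hf1 C3 hfa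
  have E3 := hs e1 f1 h h' hh hh' C1 C2
  have E4 := hq e h' e1 b he1 A2 hea C4
  have E5 := hq h' f b f1 A2 hf1 C6 D2
  calc c e a * c a f = (c e a * (c a h * c h a)) * c a f := by rw [c_inv, mul_one]
    _ = (c e a * c a h) * (c h a * c a f) := by simp only [mul_assoc]
    _ = (c e e1 * c e1 h) * (c h f1 * c f1 f) := by rw [← E1, E2]
    _ = c e e1 * (c e1 h * c h f1) * c f1 f := by simp only [mul_assoc]
    _ = c e e1 * (c e1 h' * c h' f1) * c f1 f := by rw [E3]
    _ = (c e e1 * c e1 h') * (c h' f1 * c f1 f) := by simp only [mul_assoc]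
    _ = (c e b * c b h') * (c h' b * c b f) := by rw [E4, ← E5]
    _ = c e b * (c b h' * c h' b) * c b f := by simp only [mul_assoc]
    _ = c e b * c b f := by rw [c_inv, mul_one]

theorem kill_empty (e : Pat n) : kill e ∅ = e := by
  apply ext'
  · intro k
    change (if k ∈ (∅ : Finset (Fin n)) ∨ e.q k ∈ (∅ : Finset (Fin n)) then k else e.q k) = e.q k
    simp
  · change e.T \ _ = e.T
    simp

theorem sg_empty_conj (e : Pat n) : (sg ∅).D * e.D * (sg ∅).D = e.D := by
  rw [D_kill, kill_empty]

theorem Sq_all (c_self : ∀ e, c e e = 1) (c_inv : ∀ e f, c e f * c f e = 1)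
    (h1 : ∀ i, Sq c (sg {i})) (h2 : ∀ i j, i ≠ j → Sq c (AZ i j ∅)) : ∀ p, Sq c p := by
  apply pat_induction (fun p => Sq c p)
  · intro e f a b ha hb _ _
    rw [sg_empty_conj] at ha hb
    have ha' := D_injective ha
    have hb' := D_injective hb
    subst ha'
    subst hb'
    rw [c_self, c_self, one_mul, mul_one]
  · intro e i he
    exact Sq_conj c_self c_inv (h1 i) he (D_kill e {i})
  · intro e i j hij he
    have hne : i ≠ j := by omega
    rw [join_eq_jn]
    exact Sq_conj c_self c_inv (h2 i j hne) he (D_jn e hne)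

open Classical in
/-- the operator of a pattern -/
noncomputable def opOf (c : Pat n → Pat n → F) (p : Pat n) : ROp (Pat n × F) :=
  ⟨fun x => match x with
    | none => none
    | some (e, g) => if e.D * p.D * e.D = e.D then some (cj p e, g * c e (cj p e)) else none, rfl⟩

theorem opOf_pos (c : Pat n → Pat n → F) {p e a : Pat n} (g : F) (h : e.D * p.D * e.D = e.D)
    (ha : p.D * e.D * p.D = a.D) : (opOf c p).1 (some (e, g)) = some (a, g * c e a) := by
  refine (if_pos h).trans ?_
  rw [cj_eq ha]

theorem opOf_neg (c : Pat n → Pat n → F) {p e : Pat n} (g : F) (h : ¬ e.D * p.D * e.D = e.D) :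
    (opOf c p).1 (some (e, g)) = none :=
  if_neg h

theorem prep_opOf (c_self : ∀ e, c e e = 1) (c_inv : ∀ e f, c e f * c f e = 1)
    (h : ∀ p, Sq c p) : PRep (opOf c) := by
  constructor
  · intro p
    apply ROp.ext
    rintro ⟨e, g⟩
    rw [ROp.mul_val]
    by_cases he : e.D * p.D * e.D = e.D
    · obtain ⟨a, ha⟩ := exists_cj p e
      rw [opOf_pos c g he ha]
      have h1 : a.D * p.D * a.D = a.D := by
        calc a.D * p.D * a.D = p.D * (e.D * (p.D * (p.D * p.D)) * e.D) * p.D := by
              rw [← ha]; simp only [mul_assoc]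
          _ = a.D := by rw [D_idem, D_idem, he, ha]
      have h2 : p.D * a.D * p.D = a.D := by
        calc p.D * a.D * p.D = (p.D * p.D) * e.D * (p.D * p.D) := by
              rw [← ha]; simp only [mul_assoc]
          _ = a.D := by rw [D_idem, ha]
      rw [opOf_pos c _ h1 h2, c_self, mul_one]
    · rw [opOf_neg c g he]; exact (opOf c p).2
  · intro p q
    apply ROp.ext
    rintro ⟨e, g⟩
    simp only [ROp.mul_val]
    by_cases he : e.D * p.D * e.D = e.D
    · obtain ⟨f1, hf1⟩ := exists_cj p e
      rw [opOf_pos c g he hf1]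
      by_cases hq : f1.D * q.D * f1.D = f1.D
      · obtain ⟨f2, hf2⟩ := exists_cj q f1
        rw [opOf_pos c _ hq hf2]
        obtain ⟨f3, hf3⟩ := exists_cj p f2
        have pf1 : p.D * f1.D * p.D = f1.D := by
          calc p.D * f1.D * p.D = (p.D * p.D) * e.D * (p.D * p.D) := by
                rw [← hf1]; simp only [mul_assoc]
            _ = f1.D := by rw [D_idem, hf1]
        have h1 : f2.D * p.D * f2.D = f2.D := by
          calc f2.D * p.D * f2.D = q.D * (p.D * f1.D * p.D) * q.D * p.D * q.D *
                (p.D * f1.D * p.D) * q.D := by rw [pf1, ← hf2]; simp only [mul_assoc]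
            _ = q.D * p.D * f1.D * ((p.D * q.D) * (p.D * q.D)) * p.D * f1.D * p.D * q.D := by
                simp only [mul_assoc]
            _ = q.D * (p.D * f1.D * p.D) * q.D * (p.D * f1.D * p.D) * q.D := by
                rw [pq_sq]; simp only [mul_assoc]
            _ = q.D * (f1.D * q.D * f1.D) * q.D := by rw [pf1]; simp only [mul_assoc]
            _ = f2.D := by rw [hq, hf2]
        have qf2 : q.D * f2.D * q.D = f2.D := by
          calc q.D * f2.D * q.D = (q.D * q.D) * f1.D * (q.D * q.D) := by
                rw [← hf2]; simp only [mul_assoc]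
            _ = f2.D := by rw [D_idem, hf2]
        rw [opOf_pos c _ h1 hf3]
        have h2 : f3.D * q.D * f3.D = f3.D := by
          calc f3.D * q.D * f3.D = p.D * (q.D * f2.D * q.D) * p.D * q.D * p.D *
                (q.D * f2.D * q.D) * p.D := by rw [qf2, ← hf3]; simp only [mul_assoc]
            _ = p.D * q.D * f2.D * ((q.D * p.D) * (q.D * p.D)) * q.D * f2.D * q.D * p.D := by
                simp only [mul_assoc]
            _ = p.D * (q.D * f2.D * q.D) * p.D * (q.D * f2.D * q.D) * p.D := by
                rw [pq_sq]; simp only [mul_assoc]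
            _ = p.D * (f2.D * p.D * f2.D) * p.D := by rw [qf2]; simp only [mul_assoc]
            _ = f3.D := by rw [h1, hf3]
        have h3 : q.D * f3.D * q.D = f2.D := by
          calc q.D * f3.D * q.D = q.D * p.D * q.D * (p.D * f1.D * p.D) * q.D * p.D * q.D := by
                rw [pf1, ← hf3, ← hf2]; simp only [mul_assoc]
            _ = (q.D * p.D * (q.D * p.D)) * f1.D * ((p.D * q.D) * (p.D * q.D)) := by
                simp only [mul_assoc]
            _ = q.D * (p.D * f1.D * p.D) * q.D := by rw [pq_sq, pq_sq]; simp only [mul_assoc]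
            _ = f2.D := by rw [pf1, hf2]
        rw [opOf_pos c _ h2 h3]
        have : g * c e f1 * c f1 f2 * c f2 f3 * c f3 f2 = g * c e f1 * c f1 f2 := by
          rw [mul_assoc (g * c e f1 * c f1 f2), c_inv, mul_one]
        rw [this]
      · rw [opOf_neg c _ hq, (opOf c p).2, (opOf c q).2]
    · rw [opOf_neg c g he, (opOf c q).2, (opOf c p).2, (opOf c q).2]
  · intro p q s hs
    apply ROp.ext
    rintro ⟨e, g⟩
    simp only [ROp.mul_val]
    by_cases he : e.D * p.D * e.D = e.D
    · obtain ⟨f1, hf1⟩ := exists_cj p e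
      rw [opOf_pos c g he hf1]
      by_cases hq : f1.D * q.D * f1.D = f1.D
      · obtain ⟨f2, hf2⟩ := exists_cj q f1
        rw [opOf_pos c _ hq hf2]
        obtain ⟨f3, hf3⟩ := exists_cj p f2
        have pf1 : p.D * f1.D * p.D = f1.D := by
          calc p.D * f1.D * p.D = (p.D * p.D) * e.D * (p.D * p.D) := by
                rw [← hf1]; simp only [mul_assoc]
            _ = f1.D := by rw [D_idem, hf1]
        have h1 : f2.D * p.D * f2.D = f2.D := by
          calc f2.D * p.D * f2.D = q.D * (p.D * f1.D * p.D) * q.D * p.D * q.D *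
                (p.D * f1.D * p.D) * q.D := by rw [pf1, ← hf2]; simp only [mul_assoc]
            _ = q.D * p.D * f1.D * ((p.D * q.D) * (p.D * q.D)) * p.D * f1.D * p.D * q.D := by
                simp only [mul_assoc]
            _ = q.D * (p.D * f1.D * p.D) * q.D * (p.D * f1.D * p.D) * q.D := by
                rw [pq_sq]; simp only [mul_assoc]
            _ = q.D * (f1.D * q.D * f1.D) * q.D := by rw [pf1]; simp only [mul_assoc]
            _ = f2.D := by rw [hq, hf2]
        rw [opOf_pos c _ h1 hf3]
        have h4 : s.D * e.D * s.D = f3.D := by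
          rw [← hf3, ← hf2, ← hf1, ← hs]; simp only [mul_assoc]
        have h5 : e.D * s.D * e.D = e.D := by
          calc e.D * s.D * e.D = (e.D * p.D * e.D) * (p.D * q.D * p.D) * (e.D * p.D * e.D) := by
                rw [he, hs]
            _ = e.D * ((p.D * e.D * p.D) * q.D * (p.D * e.D * p.D)) * e.D := by
                simp only [mul_assoc]
            _ = e.D * (p.D * e.D * p.D) * e.D := by rw [hf1, hq]
            _ = (e.D * p.D * e.D) * p.D * e.D := by simp only [mul_assoc]
            _ = e.D := by rw [he, he]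
        rw [opOf_pos c _ h5 h4]
        have h6 : e.D * f3.D * e.D = e.D := by
          calc e.D * f3.D * e.D = (e.D * s.D * e.D) * s.D * e.D := by
                rw [← h4]; simp only [mul_assoc]
            _ = e.D := by rw [h5, h5]
        have h7 : f2.D * f1.D * f2.D = f2.D := by
          calc f2.D * f1.D * f2.D = q.D * ((f1.D * q.D * f1.D) * q.D * f1.D) * q.D := by
                rw [← hf2]; simp only [mul_assoc]
            _ = f2.D := by rw [hq, hq, hf2]
        have h8 := h p e f2 f1 f3 hf1 hf3 h6 h7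
        have : g * c e f1 * c f1 f2 * c f2 f3 = g * c e f3 := by
          calc g * c e f1 * c f1 f2 * c f2 f3 = g * (c e f1 * c f1 f2) * c f2 f3 := by
                simp only [mul_assoc]
            _ = g * c e f3 * (c f3 f2 * c f2 f3) := by rw [h8]; simp only [mul_assoc]
            _ = g * c e f3 := by rw [c_inv, mul_one]
        rw [this]
      · rw [opOf_neg c _ hq, (opOf c p).2, opOf_neg]
        intro h5
        apply hq
        calc f1.D * q.D * f1.D = p.D * (e.D * (p.D * q.D * p.D) * e.D) * p.D := by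
              rw [← hf1]; simp only [mul_assoc]
          _ = f1.D := by rw [hs, h5, hf1]
    · rw [opOf_neg c g he, (opOf c q).2, (opOf c p).2, opOf_neg]
      intro h5
      exact he (sub_of_conj hs h5)

open Classical in
/-- A labelling of pairs of patterns that satisfies all square relations gives an action of
`PG(P(M_n))`. -/
theorem action_of_sq (c_self : ∀ e, c e e = 1) (c_inv : ∀ e f, c e f * c f e = 1)
    (h : ∀ p, Sq c p) :
    ∃ Φ : PG (Motzkin n) → ROp (Pat n × F), (∀ a b, Φ (a * b) = Φ a * Φ b) ∧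
      ∀ p e g, (Φ (xm p)).1 (some (e, g)) =
        if e.D * p.D * e.D = e.D then some (cj p e, g * c e (cj p e)) else none := by
  obtain ⟨Φ, h1, h2⟩ := lift_xm (opOf c) (prep_opOf c_self c_inv h)
  refine ⟨Φ, h1, fun p e g => ?_⟩
  rw [h2]
  rfl

end conj

end Pool.Agent.W_MP_aeed81_al_h89
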