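import Pool.Agent.W_MP_aeed81_al_h89.MotPat

/-!
# The projections of the Motzkin monoid are the patterns
-/

set_option linter.unusedVariables false
set_option linter.unusedSectionVars false
set_option warn.classDefReducibility false

namespace Pool.Agent.W_MP_aeed81_al_h89

open Pool.Agent.W_MP_aeed81_al Sum Pat

variable {n : ℕ}

theorem D_rel (e : Pat n) (x y : Fin n ⊕ Fin n) :
    (show Diagram n from e.D) x y ↔ y = x ∨ y = e.w x := Iff.rfl

theorem w_inl_T (e : Pat n) {i : Fin n} (h : i ∈ e.T) : e.w (inl i) = inr i := by simp [w, h]
theorem w_inl (e : Pat n) {i : Fin n} (h : i ∉ e.T) : e.w (inl i) = inl (e.q i) := by simp [w, h]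
theorem w_inr_T (e : Pat n) {i : Fin n} (h : i ∈ e.T) : e.w (inr i) = inl i := by simp [w, h]
theorem w_inr (e : Pat n) {i : Fin n} (h : i ∉ e.T) : e.w (inr i) = inr (e.q i) := by simp [w, h]

theorem D_mem (e : Pat n) : (show Diagram n from e.D) ∈ Motzkin n := by
  constructor
  · rintro B ⟨y, rfl⟩
    have : {x | (show Diagram n from e.D) x y} = {y, e.w y} := by
      ext x
      constructor
      · rintro (h | h)
        · left; exact h.symm
        · right; rw [h, e.w_inv]; rfl
      · rintro (rfl | rfl)
        · exact Or.inl rfl
        · right; rw [e.w_inv]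
    rw [this]
    refine (Set.ncard_insert_le _ _).trans ?_
    rw [Set.ncard_singleton]
  · rintro x y u v (h1 | h1) (h2 | h2) ⟨h3, h4, h5⟩
    · subst h1; omega
    · subst h1; omega
    · subst h2; omega
    · subst h1 h2
      rcases x with i | i
      · by_cases hi : i ∈ e.T
        · rw [w_inl_T e hi] at h4 h5
          rcases u with j | j
          · by_cases hj : j ∈ e.T
            · rw [w_inl_T e hj] at h5
              simp only [bpos] at h3 h4 h5
              omega
            · rw [w_inl e hj] at h5
              simp only [bpos] at h3 h4 h5
              omega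
          · by_cases hj : j ∈ e.T
            · rw [w_inr_T e hj] at h5
              simp only [bpos] at h3 h4 h5
              omega
            · rw [w_inr e hj] at h5
              simp only [bpos] at h3 h4 h5
              exact e.nt' j i (by omega) (by omega) hi
        · rw [w_inl e hi] at h4 h5
          rcases u with j | j
          · by_cases hj : j ∈ e.T
            · rw [w_inl_T e hj] at h5
              simp only [bpos] at h3 h4 h5
              exact e.nt i j (by omega) (by omega) hj
            · rw [w_inl e hj] at h5
              simp only [bpos] at h3 h4 h5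
              have := e.nc i j (by omega) (by omega)
              omega
          · simp only [bpos] at h3 h4 h5
            omega
      · by_cases hi : i ∈ e.T
        · rw [w_inr_T e hi] at h4 h5
          simp only [bpos] at h3 h4 h5
          omega
        · rw [w_inr e hi] at h4 h5
          rcases u with j | j
          · simp only [bpos] at h3 h4 h5
            omega
          · by_cases hj : j ∈ e.T
            · rw [w_inr_T e hj] at h5
              simp only [bpos] at h3 h4 h5
              omega
            · rw [w_inr e hj] at h5
              simp only [bpos] at h3 h4 h5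
              have := e.nc' i j (by omega) (by omega)
              omega

theorem D_idem (e : Pat n) : e.D * e.D = e.D := by
  apply Cl_ext
  intro s t
  rw [Cl_mul]
  simp only [Cl_D]
  constructor
  · rintro ⟨u, ⟨h1, h2, h3⟩, h4, h5, h6⟩
    exact ⟨h1, h5, fun i hi => (h3 i hi).trans (h6 i hi)⟩
  · rintro ⟨h1, h2, h3⟩
    exact ⟨s, ⟨h1, h1, fun _ _ => Iff.rfl⟩, h1, h2, h3⟩

/-- the star on the semigroup of diagrams -/
def st (a : Dg n) : Dg n := dstar (n := n) a

theorem st_mul (a b : Dg n) : st (a * b) = st b * st a := dstar_dmul _ _

theorem st_st (a : Dg n) : st (st a) = a := dstar_dstar _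

theorem Cl_st (a : Dg n) (s t : Fin n → Prop) : Cl (st a) s t ↔ Cl a t s := closed_dstar _ _ _

theorem st_D (e : Pat n) : st e.D = e.D := by
  apply Cl_ext
  intro s t
  rw [Cl_st]
  simp only [Cl_D]
  constructor
  · rintro ⟨h1, h2, h3⟩
    exact ⟨h2, h1, fun i hi => (h3 i hi).symm⟩
  · rintro ⟨h1, h2, h3⟩
    exact ⟨h2, h1, fun i hi => (h3 i hi).symm⟩

/-- The diagrams form a regular star-semigroup. -/
theorem mul_st_mul (a : Dg n) : a * st a * a = a := by
  apply Cl_ext
  intro s t
  rw [Cl_mul]
  simp only [Cl_mul, Cl_st]
  constructor
  · rintro ⟨v, ⟨u, h1, h2⟩, h3⟩ x y hxy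
    rcases x with i | i <;> rcases y with j | j
    · exact h1 (inl i) (inl j) hxy
    · have a1 : s i ↔ u j := h1 (inl i) (inr j) hxy
      have a2 : v i ↔ u j := h2 (inl i) (inr j) hxy
      have a3 : v i ↔ t j := h3 (inl i) (inr j) hxy
      exact a1.trans (a2.symm.trans a3)
    · have a1 : u i ↔ s j := h1 (inr i) (inl j) hxy
      have a2 : u i ↔ v j := h2 (inr i) (inl j) hxy
      have a3 : t i ↔ v j := h3 (inr i) (inl j) hxy
      exact a3.trans (a2.symm.trans a1)
    · exact h3 (inr i) (inr j) hxy
  · intro h
    exact ⟨s, ⟨t, h, h⟩, h⟩

theorem exists_pat {a : Diagram n} (ha : a ∈ Motzkin n) (h1 : dmul a a = a) (h2 : dstar a = a) :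
    ∃ e : Pat n, a = relOf e.w e.w_inv := by
  have key : ∀ x, ∃ y, a x y ∧ ∀ z, a x z → z = x ∨ z = y := by
    intro x
    have h3 := ha.1 {z | a z x} ⟨x, rfl⟩
    have hne : {z | a z x}.Nonempty := ⟨x, a.refl x⟩
    have hpos : 0 < {z | a z x}.ncard := (Set.ncard_pos (Set.toFinite _)).2 hne
    have h4 : {z | a z x}.ncard = 1 ∨ {z | a z x}.ncard = 2 := by omega
    rcases h4 with h4 | h4
    · rw [Set.ncard_eq_one] at h4
      obtain ⟨y, hy⟩ := h4
      have hx : x ∈ ({y} : Set (Fin n ⊕ Fin n)) := by rw [← hy]; exact a.refl x
      have hxy : x = y := hx
      subst hxy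
      refine ⟨x, a.refl x, fun z hz => ?_⟩
      have : z ∈ ({x} : Set (Fin n ⊕ Fin n)) := by rw [← hy]; exact a.symm hz
      left; exact this
    · rw [Set.ncard_eq_two] at h4
      obtain ⟨y, z, hyz, hc⟩ := h4
      have hx : x ∈ ({y, z} : Set (Fin n ⊕ Fin n)) := by rw [← hc]; exact a.refl x
      have hall : ∀ u, a x u → u = y ∨ u = z := by
        intro u hu
        have : u ∈ ({y, z} : Set (Fin n ⊕ Fin n)) := by rw [← hc]; exact a.symm hu
        simpa using this
      have hy : a x y := by
        have : y ∈ {z | a z x} := by rw [hc]; simp
        exact a.symm this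
      have hz : a x z := by
        have : z ∈ {z | a z x} := by rw [hc]; simp
        exact a.symm this
      rcases hx with rfl | hx
      · exact ⟨z, hz, hall⟩
      · have hx' : x = z := hx
        subst hx'
        exact ⟨y, hy, fun u hu => (hall u hu).symm⟩
  choose w k1 k2 using key
  have inv : ∀ x, w (w x) = x := by
    intro x
    rcases k2 (w x) x (a.symm (k1 x)) with h | h
    · rw [← h, ← h]
    · exact h.symm
  have hr : a = relOf w inv := by
    ext x y
    constructor
    · intro h; exact k2 x y h
    · rintro (rfl | rfl)
      · exact a.refl _
      · exact k1 _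
  have hsw : ∀ x y, a x y → a x.swap y.swap := by
    intro x y hxy
    have h3 : (dstar a) x y := by rw [h2]; exact hxy
    exact h3
  have sw : ∀ x, w x.swap = (w x).swap := by
    intro x
    rcases k2 x.swap (w x).swap (hsw _ _ (k1 x)) with h | h
    · have hx : w x = x := by
        have := congrArg Sum.swap h
        simpa using this
      have h3 := hsw _ _ (k1 x.swap)
      rw [Sum.swap_swap] at h3
      rcases k2 x _ h3 with h4 | h4
      · rw [hx]
        have := congrArg Sum.swap h4
        rwa [Sum.swap_swap] at this
      · rw [hx]
        rw [hx] at h4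
        have := congrArg Sum.swap h4
        rwa [Sum.swap_swap] at this
    · exact h.symm
  have diag : ∀ i j, w (inl i) = inr j → i = j := by
    intro i j hij
    have hji : w (inr j) = inl i := by rw [← hij, inv]
    have hc : Closed a (two (fun k => k = i) (fun k => k = j)) := by
      rw [hr, closed_relOf]
      rintro (k | k)
      · constructor
        · intro h
          have h' : k = i := h
          subst h'; rw [hij]; rfl
        · intro h
          rcases hk : w (inl k) with l | l
          · rw [hk] at h
            have h' : l = i := h
            subst h'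
            have := inv (inl k)
            rw [hk, hij] at this
            simp at this
          · rw [hk] at h
            have h' : l = j := h
            subst h'
            have := inv (inl k)
            rw [hk, hji] at this
            have h2 : i = k := by simpa using this
            exact h2.symm
      · constructor
        · intro h
          have h' : k = j := h
          subst h'; rw [hji]; rfl
        · intro h
          rcases hk : w (inr k) with l | l
          · rw [hk] at h
            have h' : l = i := h
            subst h'
            have := inv (inr k)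
            rw [hk, hij] at this
            have h2 : j = k := by simpa using this
            exact h2.symm
          · rw [hk] at h
            have h' : l = j := h
            subst h'
            have := inv (inr k)
            rw [hk, hji] at this
            simp at this
    rw [← h1, closed_dmul] at hc
    obtain ⟨u, c1, c2⟩ := hc
    have a1 : (i = i) ↔ u j := c1 (inl i) (inr j) (by rw [← hij]; exact k1 _)
    have hji' : w (inl j) = inr i := by
      have := sw (inr j)
      rw [hji] at this
      exact this
    have a2 : u j ↔ i = j := c2 (inl j) (inr i) (by rw [← hji']; exact k1 _)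
    exact a2.1 (a1.1 rfl)
  let q : Fin n → Fin n := fun i => match w (inl i) with
    | inl j => j
    | inr _ => i
  have q1 : ∀ i j, w (inl i) = inl j → q i = j := by
    intro i j h; simp only [q, h]
  have q2 : ∀ i j, w (inl i) = inr j → q i = i := by
    intro i j h; simp only [q, h]
  have hT : ∀ i, w (inl i) = inr i ∨ w (inl i) = inl (q i) := by
    intro i
    rcases h : w (inl i) with j | j
    · right; rw [q1 i j h]
    · left; rw [← diag i j h]
  have hq : ∀ i, q (q i) = i := by
    intro i
    rcases h : w (inl i) with j | j
    · rw [q1 i j h]
      apply q1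
      rw [← h, inv]
    · rw [q2 i j h, q2 i j h]
  classical
  let T : Finset (Fin n) := Finset.univ.filter fun i => w (inl i) = inr i
  have memT : ∀ i, i ∈ T ↔ w (inl i) = inr i := by intro i; simp [T]
  have notT : ∀ i, q i ≠ i → w (inl i) = inl (q i) := by
    intro i hi
    rcases hT i with h | h
    · exact absurd (q2 i i h) hi
    · exact h
  refine ⟨⟨q, T, hq, fun i hi => q2 i i ((memT i).1 hi), ?_, ?_⟩, ?_⟩
  · intro u x h3 h4
    have e1 := notT u (by omega)
    by_cases hx : q x = x
    · rw [hx]; exact ⟨h3, h4⟩
    have e2 := notT x hx
    have e3 : w (inl (q x)) = inl x := by rw [← e2, inv]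
    have e4 : w (inl (q u)) = inl u := by rw [← e1, inv]
    constructor
    · by_contra hc
      have hne : q x ≠ u := by
        intro h
        have := hq x
        rw [h] at this
        omega
      apply ha.2 (inl (q x)) (inl x) (inl u) (inl (q u))
      · rw [← e3]; exact k1 _
      · rw [← e1]; exact k1 _
      · simp only [bpos]; omega
    · by_contra hc
      have hne : q x ≠ q u := by
        intro h
        have : x = u := by rw [← hq x, h, hq]
        omega
      apply ha.2 (inl u) (inl (q u)) (inl x) (inl (q x))
      · rw [← e1]; exact k1 _
      · rw [← e2]; exact k1 _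
      · simp only [bpos]; omega
  · intro u x h3 h4 hx
    have e1 := notT u (by omega)
    have e2 := (memT x).1 hx
    apply ha.2 (inl u) (inl (q u)) (inl x) (inr x)
    · rw [← e1]; exact k1 _
    · rw [← e2]; exact k1 _
    · simp only [bpos]; omega
  · refine hr.trans ?_
    congr 1
    funext x
    have up : ∀ i, w (inl i) = if w (inl i) = inr i then inr i else inl (q i) := by
      intro i
      by_cases h : w (inl i) = inr i
      · rw [if_pos h]; exact h
      · rw [if_neg h]
        rcases hT i with h' | h'
        · exact absurd h' h
        · exact h'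
    rcases x with i | i
    · change _ = if i ∈ T then inr i else inl (q i)
      rw [up i]
      simp only [memT]
    · change _ = if i ∈ T then inl i else inr (q i)
      have := sw (inl i)
      simp only [Sum.swap_inl] at this
      rw [this, up i]
      by_cases h : w (inl i) = inr i
      · simp [memT, h]
      · simp [memT, h]

theorem drank_D (e : Pat n) : drank (n := n) e.D = e.T.card := by
  have he : {B : Set (Fin n ⊕ Fin n) | B ∈ (show Diagram n from e.D).classes ∧
      (∃ i, inl i ∈ B) ∧ ∃ j, inr j ∈ B} =
      (fun i : Fin n => ({inl i, inr i} : Set (Fin n ⊕ Fin n))) '' (e.T : Set (Fin n)) := by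
    ext B
    constructor
    · rintro ⟨⟨y, rfl⟩, ⟨i, hi⟩, ⟨j, hj⟩⟩
      have hij : (show Diagram n from e.D) (inl i) (inr j) := Setoid.trans' _ hi (Setoid.symm' _ hj)
      rcases hij with h | h
      · simp at h
      · have hiT : i ∈ e.T := by
          by_contra hc
          rw [w_inl e hc] at h
          simp at h
        rw [w_inl_T e hiT] at h
        have hji : j = i := by simpa using h
        subst hji
        refine ⟨j, hiT, ?_⟩
        ext x
        constructor
        · rintro (rfl | h)
          · exact hi
          · have : x = inr j := h
            subst this; exact hj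
        · intro hx
          have : (show Diagram n from e.D) (inl j) x := Setoid.trans' _ hi (Setoid.symm' _ hx)
          rcases this with h | h
          · left; exact h
          · right
            rw [h, w_inl_T e hiT]; rfl
    · rintro ⟨i, hi, rfl⟩
      have hi' : i ∈ e.T := hi
      refine ⟨⟨inl i, ?_⟩, ⟨i, by simp⟩, ⟨i, by simp⟩⟩
      ext x
      constructor
      · rintro (rfl | h)
        · exact (D_rel e (inl i) (inl i)).2 (Or.inl rfl)
        · have : x = inr i := h
          subst this
          right; rw [w_inr_T e hi']
      · intro hx
        rcases (Setoid.symm' _ hx : (show Diagram n from e.D) (inl i) x) with h | h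
        · left; exact h
        · right; rw [h, w_inl_T e hi']; rfl
  unfold drank
  change Set.ncard {B : Set (Fin n ⊕ Fin n) | B ∈ (show Diagram n from e.D).classes ∧
      (∃ i, inl i ∈ B) ∧ ∃ j, inr j ∈ B} = _
  rw [he, Set.ncard_image_of_injective, Set.ncard_coe_finset]
  intro i j h
  have h' : ({inl i, inr i} : Set (Fin n ⊕ Fin n)) = {inl j, inr j} := h
  have : inl i ∈ ({inl j, inr j} : Set (Fin n ⊕ Fin n)) := by rw [← h']; simp
  simpa using this

end Pool.Agent.W_MP_aeed81_al_h89
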