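import Pool.Agent.W_MP_aeed81_al_h89.MotJoin
import Pool.Agent.W_MP_aeed81_al_h89.MotProj

/-!
# Products of patterns: the identities needed for the upper bound
-/

set_option linter.unusedVariables false
set_option linter.unusedSectionVars false
set_option warn.classDefReducibility false

namespace Pool.Agent.W_MP_aeed81_al_h89

open Pool.Agent.W_MP_aeed81_al Sum Pat

variable {n : ℕ}

/-- strictly between -/
def sb (x j k : Fin n) : Prop := (x < k ∧ k < j) ∨ (j < k ∧ k < x)

/-- between, ends included -/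
def ib (x j k : Fin n) : Prop := (x ≤ k ∧ k ≤ j) ∨ (j ≤ k ∧ k ≤ x)

instance (x j : Fin n) : DecidablePred (sb x j) := fun _ => by unfold sb; infer_instance
instance (x j : Fin n) : DecidablePred (ib x j) := fun _ => by unfold ib; infer_instance

/-- the points strictly between -/
def sbF (x j : Fin n) : Finset (Fin n) := Finset.univ.filter (sb x j)

/-- the points between -/
def ibF (x j : Fin n) : Finset (Fin n) := Finset.univ.filter (ib x j)

theorem mem_sbF {x j k : Fin n} : k ∈ sbF x j ↔ sb x j k := by simp [sbF]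
theorem mem_ibF {x j k : Fin n} : k ∈ ibF x j ↔ ib x j k := by simp [ibF]

theorem ib_iff {x j k : Fin n} : ib x j k ↔ k = x ∨ k = j ∨ sb x j k := by
  unfold ib sb; omega

/-- `a_{xj} e a_{xj}` for unordered `x, j` -/
def jn (e : Pat n) (x j : Fin n) : Pat n :=
  if h : x < j then join e x j h else if h' : j < x then join e j x h' else e

/-- the pattern with one arc, singletons on `Z`, transversals elsewhere -/
def AZ (x j : Fin n) (Z : Finset (Fin n)) : Pat n := jn (sg Z) x j

theorem Cl_AZ_aux {i j : Fin n} (hij : i < j) (Z : Finset (Fin n)) (s t : Fin n → Prop) :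
    Cl (join (sg Z) i j hij).D s t ↔ (s i ↔ s j) ∧ (t i ↔ t j) ∧
      ∀ k, (k < i ∨ j < k) → k ∉ Z → (s k ↔ t k) := by
  rw [Cl_D]
  have hT : ∀ k, k ∈ (join (sg Z) i j hij).T ↔ (k < i ∨ j < k) ∧ k ∉ Z := by
    intro k
    change k ∈ joinT (sg Z) i j ↔ _
    unfold joinT
    simp only [sg, Finset.mem_filter, Finset.mem_univ, true_and, Finset.mem_compl, id]
    constructor
    · rintro ⟨h1, h2 | h2 | h2⟩
      · exact ⟨h1, h2⟩
      · omega
      · omega
    · rintro ⟨h1, h2⟩
      exact ⟨h1, Or.inl h2⟩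
  have hq : ∀ k, (k = i ∧ (join (sg Z) i j hij).q k = j) ∨ (k = j ∧ (join (sg Z) i j hij).q k = i) ∨
      (k ≠ i ∧ k ≠ j ∧ (join (sg Z) i j hij).q k = k) := by
    intro k
    rcases joinq_cases (sg Z) hij k with h | h | h | ⟨h1, h2, _⟩ | ⟨h1, h2, _⟩ | ⟨h1, h2, h3⟩
    · exact Or.inl h
    · exact Or.inr (Or.inl h)
    · exact Or.inr (Or.inr h)
    · change k = i at h2; omega
    · change k = j at h2; omega
    · exact Or.inr (Or.inr ⟨by omega, by omega, h3⟩)
  constructor
  · rintro ⟨h1, h2, h3⟩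
    refine ⟨?_, ?_, fun k hk hk' => h3 k ((hT k).2 ⟨hk, hk'⟩)⟩
    · have := h1 i
      rcases hq i with ⟨_, h⟩ | ⟨h, _⟩ | ⟨h, _⟩
      · rwa [h] at this
      · omega
      · omega
    · have := h2 i
      rcases hq i with ⟨_, h⟩ | ⟨h, _⟩ | ⟨h, _⟩
      · rwa [h] at this
      · omega
      · omega
  · rintro ⟨h1, h2, h3⟩
    refine ⟨?_, ?_, fun k hk => h3 k ((hT k).1 hk).1 ((hT k).1 hk).2⟩
    · intro k
      rcases hq k with ⟨h, h'⟩ | ⟨h, h'⟩ | ⟨_, _, h⟩
      · rw [h', h]; exact h1
      · rw [h', h]; exact h1.symm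
      · rw [h]
    · intro k
      rcases hq k with ⟨h, h'⟩ | ⟨h, h'⟩ | ⟨_, _, h⟩
      · rw [h', h]; exact h2
      · rw [h', h]; exact h2.symm
      · rw [h]

theorem Cl_AZ {x j : Fin n} (hxj : x ≠ j) (Z : Finset (Fin n)) (s t : Fin n → Prop) :
    Cl (AZ x j Z).D s t ↔ (s x ↔ s j) ∧ (t x ↔ t j) ∧
      ∀ k, ¬ ib x j k → k ∉ Z → (s k ↔ t k) := by
  unfold AZ jn
  by_cases h : x < j
  · rw [dif_pos h, Cl_AZ_aux h]
    have : ∀ k, (k < x ∨ j < k) ↔ ¬ ib x j k := by intro k; unfold ib; omega
    simp only [this]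
  · have h' : j < x := by omega
    rw [dif_neg h, dif_pos h', Cl_AZ_aux h']
    have : ∀ k, (k < j ∨ x < k) ↔ ¬ ib x j k := by intro k; unfold ib; omega
    simp only [this]
    constructor
    · rintro ⟨h1, h2, h3⟩; exact ⟨h1.symm, h2.symm, h3⟩
    · rintro ⟨h1, h2, h3⟩; exact ⟨h1.symm, h2.symm, h3⟩

theorem D_jn (e : Pat n) {x j : Fin n} (hxj : x ≠ j) :
    (AZ x j ∅).D * e.D * (AZ x j ∅).D = (jn e x j).D := by
  unfold AZ jn
  by_cases h : x < j
  · rw [dif_pos h, dif_pos h]; exact D_join e h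
  · have h' : j < x := by omega
    rw [dif_neg h, dif_pos h', dif_neg h, dif_pos h']; exact D_join e h'

theorem mem_jnT (e : Pat n) {x j : Fin n} (hxj : x ≠ j) (k : Fin n) :
    k ∈ (jn e x j).T ↔ ¬ ib x j k ∧ (k ∈ e.T ∨ (e.q k = x ∧ j ∈ e.T) ∨ (e.q k = j ∧ x ∈ e.T)) := by
  unfold jn
  by_cases h : x < j
  · rw [dif_pos h]
    change k ∈ joinT e x j ↔ _
    rw [mem_joinT]
    have : (k < x ∨ j < k) ↔ ¬ ib x j k := by unfold ib; omega
    rw [this]
  · have h' : j < x := by omega
    rw [dif_neg h, dif_pos h']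
    change k ∈ joinT e j x ↔ _
    rw [mem_joinT]
    have : (k < j ∨ x < k) ↔ ¬ ib x j k := by unfold ib; omega
    rw [this]
    tauto

theorem jnq_left (e : Pat n) {x j : Fin n} (hxj : x ≠ j) : (jn e x j).q x = j := by
  unfold jn
  by_cases h : x < j
  · rw [dif_pos h]
    change joinq e x j x = j
    simp [joinq]
  · have h' : j < x := by omega
    rw [dif_neg h, dif_pos h']
    change joinq e j x x = j
    simp [joinq, hxj]

theorem jnq_right (e : Pat n) {x j : Fin n} (hxj : x ≠ j) : (jn e x j).q j = x := by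
  have := (jn e x j).inv x
  rwa [jnq_left e hxj] at this

/-- inner points become singletons -/
theorem jnq_in (e : Pat n) {x j k : Fin n} (hk : sb x j k) : (jn e x j).q k = k := by
  unfold sb at hk
  unfold jn
  by_cases h : x < j
  · rw [dif_pos h]
    change joinq e x j k = k
    unfold joinq
    rw [if_neg (by omega), if_neg (by omega), if_pos (by omega)]
  · have h' : j < x := by omega
    rw [dif_neg h, dif_pos h']
    change joinq e j x k = k
    unfold joinq
    rw [if_neg (by omega), if_neg (by omega), if_pos (by omega)]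

/-- arcs away from `[x,j]` survive -/
theorem jnq_out (e : Pat n) {x j k : Fin n} (hxj : x ≠ j) (hk : ¬ ib x j k)
    (hk' : ¬ ib x j (e.q k)) : (jn e x j).q k = e.q k := by
  unfold ib at hk hk'
  unfold jn
  by_cases h : x < j
  · rw [dif_pos h]
    change joinq e x j k = _
    unfold joinq
    rw [if_neg (by omega), if_neg (by omega), if_neg (by omega), if_neg (by omega),
      if_neg (by omega)]
  · have h' : j < x := by omega
    rw [dif_neg h, dif_pos h']
    change joinq e j x k = _
    unfold joinq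
    rw [if_neg (by omega), if_neg (by omega), if_neg (by omega), if_neg (by omega),
      if_neg (by omega)]

/-- two arcs are joined -/
theorem jnq_join (e : Pat n) {x j : Fin n} (hxj : x ≠ j) (hk : ¬ ib x j (e.q x))
    (hk' : ¬ ib x j (e.q j)) : (jn e x j).q (e.q x) = e.q j := by
  have h1 := e.inv x
  have h2 := e.inv j
  unfold ib at hk hk'
  unfold jn
  by_cases h : x < j
  · rw [dif_pos h]
    change joinq e x j (e.q x) = _
    unfold joinq
    rw [if_neg (by omega), if_neg (by omega), if_neg (by omega), if_pos h1,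
      if_neg (by omega)]
  · have h' : j < x := by omega
    rw [dif_neg h, dif_pos h']
    change joinq e j x (e.q x) = _
    unfold joinq
    rw [if_neg (by omega), if_neg (by omega), if_neg (by omega), if_neg (by omega),
      if_pos h1, if_neg (by omega)]

theorem sg_mul_sg (Z W : Finset (Fin n)) : (sg Z).D * (sg W).D = (sg (Z ∪ W)).D := by
  apply Cl_ext
  intro s t
  rw [Cl_mul]
  simp only [Cl_sg]
  constructor
  · rintro ⟨u, h1, h2⟩ i hi
    simp only [Finset.mem_union, not_or] at hi
    exact (h1 i hi.1).trans (h2 i hi.2)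
  · intro h
    refine ⟨fun i => if i ∈ Z then t i else s i, ?_, ?_⟩
    · intro i hi
      simp [hi]
    · intro i hi
      by_cases hZ : i ∈ Z
      · simp [hZ]
      · have := h i (by simp [hZ, hi])
        simp [hZ, this]

/-- multiplying by singletons at singletons -/
theorem sg_mul (e : Pat n) (Z : Finset (Fin n)) (hZ : ∀ z ∈ Z, e.q z = z ∧ z ∉ e.T) :
    (sg Z).D * e.D = e.D := by
  apply Cl_ext
  intro s t
  rw [Cl_mul]
  simp only [Cl_sg]
  simp only [Cl_D]
  constructor
  · rintro ⟨u, h1, h2, h3, h4⟩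
    refine ⟨?_, h3, ?_⟩
    · intro i
      by_cases hi : i ∈ Z
      · rw [(hZ i hi).1]
      · have hq : e.q i ∉ Z := by
          intro h
          have := (hZ _ h).1
          rw [e.inv] at this
          apply hi; rw [this]; exact h
        rw [h1 i hi, h2 i, h1 _ hq]
    · intro i hi
      have hiZ : i ∉ Z := fun h => (hZ i h).2 hi
      rw [h1 i hiZ, h4 i hi]
  · rintro ⟨h1, h2, h3⟩
    exact ⟨s, fun _ _ => Iff.rfl, h1, h2, h3⟩

theorem e_sg_e (e : Pat n) (Z : Finset (Fin n)) (hZ : ∀ z ∈ Z, z ∉ e.T) :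
    e.D * (sg Z).D * e.D = e.D := by
  apply Cl_ext
  intro s t
  rw [Cl_mul]
  simp only [Cl_mul, Cl_sg]
  simp only [Cl_D]
  constructor
  · rintro ⟨v, ⟨u, ⟨h1, h2, h3⟩, h4⟩, h5, h6, h7⟩
    refine ⟨h1, h6, fun i hi => ?_⟩
    rw [h3 i hi, h4 i (fun h => hZ i h hi), h7 i hi]
  · rintro ⟨h1, h2, h3⟩
    exact ⟨s, ⟨s, ⟨h1, h1, fun _ _ => Iff.rfl⟩, fun _ _ => Iff.rfl⟩, h1, h2, h3⟩

theorem AZ_mul_sg {x j : Fin n} (hxj : x ≠ j) (Z W : Finset (Fin n)) (hx : x ∉ W) (hj : j ∉ W) :
    (AZ x j Z).D * (sg W).D = (AZ x j (Z ∪ W)).D := by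
  apply Cl_ext
  intro s t
  rw [Cl_mul]
  simp only [Cl_AZ hxj, Cl_sg]
  constructor
  · rintro ⟨u, ⟨h1, h2, h3⟩, h4⟩
    refine ⟨h1, ?_, ?_⟩
    · rw [← h4 x hx, ← h4 j hj]; exact h2
    · intro k hk hk'
      simp only [Finset.mem_union, not_or] at hk'
      exact (h3 k hk hk'.1).trans (h4 k hk'.2)
  · rintro ⟨h1, h2, h3⟩
    refine ⟨fun k => if ib x j k then t k else if k ∈ W then s k else t k, ⟨h1, ?_, ?_⟩, ?_⟩
    · have a1 : ib x j x := by unfold ib; omega
      have a2 : ib x j j := by unfold ib; omega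
      simp only [a1, a2, if_true]
      exact h2
    · intro k hk hkZ
      simp only [hk, if_false]
      by_cases hkW : k ∈ W
      · simp [hkW]
      · have := h3 k hk (by simp [hkZ, hkW])
        simp [hkW, this]
    · intro k hk
      simp [hk]

theorem sg_AZ_sg {x j : Fin n} (hxj : x ≠ j) (W : Finset (Fin n)) (h : x ∈ W ∨ j ∈ W) :
    (sg W).D * (AZ x j ∅).D * (sg W).D = (sg (W ∪ ibF x j)).D := by
  apply Cl_ext
  intro s t
  rw [Cl_mul]
  simp only [Cl_mul, Cl_sg, Cl_AZ hxj]
  constructor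
  · rintro ⟨v, ⟨u, h1, h2, h3, h4⟩, h5⟩ k hk
    simp only [Finset.mem_union, mem_ibF, not_or] at hk
    rw [h1 k hk.1, h4 k hk.2 (by simp), h5 k hk.1]
  · intro h3
    have h3' : ∀ k, k ∉ W → ¬ ib x j k → (s k ↔ t k) := fun k a b =>
      h3 k (by simp [mem_ibF, a, b])
    have key : ∀ s : Fin n → Prop, ∃ C : Prop, (x ∉ W → (C ↔ s x)) ∧ (j ∉ W → (C ↔ s j)) := by
      intro s
      by_cases hj : j ∈ W
      · exact ⟨s x, fun _ => Iff.rfl, fun h' => absurd hj h'⟩
      · have hx : x ∈ W := by tauto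
        exact ⟨s j, fun h' => absurd hx h', fun _ => Iff.rfl⟩
    obtain ⟨C, c1, c2⟩ := key s
    obtain ⟨C', c3, c4⟩ := key t
    refine ⟨fun k => if k = x ∨ k = j then C' else if k ∈ W then s k else t k,
        ⟨fun k => if k = x ∨ k = j then C else s k, ?_, ?_, ?_, ?_⟩, ?_⟩
    · intro k hk
      by_cases hk2 : k = x ∨ k = j
      · simp only [hk2, if_true]
        rcases hk2 with rfl | rfl
        · exact (c1 hk).symm
        · exact (c2 hk).symm
      · simp [hk2]
    · simp
    · simp
    · intro k hk _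
      have hk2 : ¬ (k = x ∨ k = j) := by rintro (rfl | rfl) <;> (apply hk; unfold ib; omega)
      by_cases hkW : k ∈ W
      · simp [hk2, hkW]
      · simp [hk2, hkW, h3' k hkW hk]
    · intro k hk
      by_cases hk2 : k = x ∨ k = j
      · simp only [hk2, if_true]
        rcases hk2 with rfl | rfl
        · exact c3 hk
        · exact c4 hk
      · simp [hk2, hk]

theorem AZ_sg_AZ {x j : Fin n} (hxj : x ≠ j) (Z : Finset (Fin n)) :
    (AZ x j ∅).D * (sg Z).D * (AZ x j ∅).D = (AZ x j Z).D := D_jn _ hxj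

/-- `a_{jy} a_{xj} a_{jy}` -/
theorem AZ_AZ_AZ {x j y : Fin n} (h : (x < j ∧ j < y) ∨ (y < j ∧ j < x)) :
    (AZ j y ∅).D * (AZ x j ∅).D * (AZ j y ∅).D = (AZ j y (sbF x j)).D := by
  have hxj : x ≠ j := by omega
  have hjy : j ≠ y := by omega
  have ny : ¬ ib x j y := by unfold ib; omega
  have nx : ¬ ib j y x := by unfold ib; omega
  apply Cl_ext
  intro s t
  rw [Cl_mul]
  simp only [Cl_mul, Cl_AZ hxj, Cl_AZ hjy]
  constructor
  · rintro ⟨v, ⟨u, ⟨h1, h2, h3⟩, h4, h5, h6⟩, h7, h8, h9⟩
    refine ⟨h1, h8, fun k hk hk' => ?_⟩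
    rw [mem_sbF] at hk'
    have a := h3 k hk (by simp)
    have b := h9 k hk (by simp)
    by_cases hkx : k = x
    · subst hkx
      have c := h6 y ny (by simp)
      rw [a, h4, h2, c, ← h7, ← h5, b]
    · have : ¬ ib x j k := by
        intro hc
        rcases ib_iff.1 hc with h | h | h
        · exact hkx h
        · subst h; apply hk; unfold ib; omega
        · exact hk' h
      rw [a, h6 k this (by simp), b]
  · rintro ⟨h1, h2, h3⟩
    have hx : s x ↔ t x := h3 x nx (by rw [mem_sbF]; unfold sb; omega)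
    have ex : ¬ (x = j ∨ x = y) := by omega
    have nx' : ¬ sb j y x := by unfold sb; omega
    refine ⟨fun k => if k = j ∨ k = y then t x else if sb j y k then False else t k,
      ⟨fun k => if k = j ∨ k = y then s x else if sb j y k then False else s k,
        ⟨h1, ?_, ?_⟩, ?_, ?_, ?_⟩, ?_, h2, ?_⟩
    · simp
    · intro k hk _
      have e1 : ¬ (k = j ∨ k = y) := by rintro (rfl | rfl) <;> (apply hk; unfold ib; omega)
      have e2 : ¬ sb j y k := fun h => hk (ib_iff.2 (Or.inr (Or.inr h)))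
      simp [e1, e2]
    · simp [ex, nx']
    · simp [ex, nx']
    · intro k hk _
      by_cases e1 : k = j ∨ k = y
      · simp [e1, hx]
      by_cases e2 : sb j y k
      · simp [e1, e2]
      · have := h3 k (by rw [ib_iff]; tauto) (by
          rw [mem_sbF]; intro h'; exact hk (ib_iff.2 (Or.inr (Or.inr h'))))
        simp [e1, e2, this]
    · simp
    · intro k hk _
      have e1 : ¬ (k = j ∨ k = y) := by rintro (rfl | rfl) <;> (apply hk; unfold ib; omega)
      have e2 : ¬ sb j y k := fun h => hk (ib_iff.2 (Or.inr (Or.inr h)))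
      simp [e1, e2]

/-- an arc with singletons inside is absorbed -/
theorem AZ_mul (e : Pat n) {x y : Fin n} (hxy : x ≠ y) (hq : e.q x = y)
    (hin : ∀ k, sb x y k → e.q k = k) : (AZ x y ∅).D * e.D = e.D := by
  have hqy : e.q y = x := by rw [← hq, e.inv]
  have hT : ∀ k, sb x y k → k ∉ e.T := by
    intro k hk hkT
    unfold sb at hk
    rcases hk with hk | hk
    · exact e.nt x k hk.1 (by rw [hq]; exact hk.2) hkT
    · exact e.nt' x k (by rw [hq]; exact hk.1) hk.2 hkT
  have hxT : x ∉ e.T := fun h => hxy (by rw [← hq, e.fix x h])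
  have hyT : y ∉ e.T := fun h => hxy (by rw [← hqy, e.fix y h])
  apply Cl_ext
  intro s t
  rw [Cl_mul]
  simp only [Cl_AZ hxy]
  simp only [Cl_D]
  constructor
  · rintro ⟨u, ⟨h1, h2, h3⟩, h4, h5, h6⟩
    refine ⟨?_, h5, ?_⟩
    · intro i
      by_cases h7 : sb x y i
      · rw [hin i h7]
      by_cases h8 : i = x
      · rw [h8, hq]; exact h1
      by_cases h9 : i = y
      · rw [h9, hqy]; exact h1.symm
      have h10 : ¬ ib x y i := by rw [ib_iff]; tauto
      have h11 : ¬ ib x y (e.q i) := by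
        rw [ib_iff]
        rintro (h | h | h)
        · apply h9; rw [← hq, ← h, e.inv]
        · apply h8; rw [← hqy, ← h, e.inv]
        · have := hin _ h
          rw [e.inv] at this
          rw [← this] at h
          exact h7 h
      rw [h3 i h10 (by simp), h4 i, h3 _ h11 (by simp)]
    · intro i hi
      have h10 : ¬ ib x y i := by
        rw [ib_iff]
        rintro (h | h | h)
        · exact hxT (h ▸ hi)
        · exact hyT (h ▸ hi)
        · exact hT i h hi
      rw [h3 i h10 (by simp), h6 i hi]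
  · rintro ⟨h1, h2, h3⟩
    have : s x ↔ s y := by have := h1 x; rwa [hq] at this
    exact ⟨s, ⟨this, this, fun _ _ _ => Iff.rfl⟩, h1, h2, h3⟩

/-- for an arc `(x,y)`, conjugation by `a_{xy}` breaks the inside -/
theorem jn_arc (e : Pat n) {x y : Fin n} (hxy : x ≠ y) (hq : e.q x = y) :
    jn e x y = kill e (sbF x y) := by
  have hqy : e.q y = x := by rw [← hq, e.inv]
  have hxT : x ∉ e.T := fun h => hxy (by rw [← hq, e.fix x h])
  have hyT : y ∉ e.T := fun h => hxy (by rw [← hqy, e.fix y h])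
  apply ext'
  · intro k
    change _ = if k ∈ sbF x y ∨ e.q k ∈ sbF x y then k else e.q k
    simp only [mem_sbF]
    by_cases h1 : k = x
    · rw [h1, jnq_left e hxy, hq, if_neg]
      unfold sb; omega
    by_cases h2 : k = y
    · rw [h2, jnq_right e hxy, hqy, if_neg]
      unfold sb; omega
    by_cases h3 : sb x y k
    · rw [jnq_in e h3, if_pos (Or.inl h3)]
    by_cases h4 : sb x y (e.q k)
    · rw [if_pos (Or.inr h4)]
      -- contradiction: `k` is outside, its partner inside
      exfalso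
      have a1 := e.nc x (e.q k)
      have a2 := e.nc' x (e.q k)
      rw [e.inv, hq] at a1 a2
      unfold sb at h3 h4
      omega
    · rw [jnq_out e hxy, if_neg (by tauto)]
      · rw [ib_iff]; tauto
      · rw [ib_iff]
        rintro (h | h | h)
        · apply h2; rw [← hq, ← h, e.inv]
        · apply h1; rw [← hqy, ← h, e.inv]
        · exact h4 h
  · ext k
    rw [mem_jnT e hxy]
    change _ ↔ k ∈ e.T \ sbF x y
    rw [Finset.mem_sdiff, mem_sbF, ib_iff]
    constructor
    · rintro ⟨h1, h2 | h2 | h2⟩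
      · exact ⟨h2, by tauto⟩
      · exact absurd h2.2 hyT
      · exact absurd h2.2 hxT
    · rintro ⟨h1, h2⟩
      refine ⟨?_, Or.inl h1⟩
      rintro (h | h | h)
      · exact hxT (h ▸ h1)
      · exact hyT (h ▸ h1)
      · exact h2 h

/-- `e m e = e` for `m = a_{xj}` with singletons between `j` and its partner -/
theorem e_AZ_e (e : Pat n) {x j y : Fin n} (hx : x ∈ e.T) (hj : e.q j = y)
    (h : (x < j ∧ j < y) ∨ (y < j ∧ j < x)) (hin : ∀ k, sb x j k → k ∉ e.T) :
    e.D * (AZ x j (sbF j y)).D * e.D = e.D := by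
  have hxj : x ≠ j := by omega
  have hjy : j ≠ y := by omega
  have hy : e.q y = j := by rw [← hj, e.inv]
  have hjT : j ∉ e.T := fun h => hjy (by rw [← hj, e.fix j h])
  have hyT : y ∉ e.T := fun h => hjy (by rw [← hy, e.fix y h])
  have hT : ∀ k, sb j y k → k ∉ e.T := by
    intro k hk hkT
    unfold sb at hk
    rcases hk with hk | hk
    · exact e.nt j k hk.1 (by rw [hj]; exact hk.2) hkT
    · exact e.nt' j k (by rw [hj]; exact hk.1) hk.2 hkT
  apply Cl_ext
  intro s t
  rw [Cl_mul]
  simp only [Cl_mul, Cl_AZ hxj]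
  simp only [Cl_D]
  constructor
  · rintro ⟨v, ⟨u, ⟨h1, h2, h3⟩, h4, h5, h6⟩, h7, h8, h9⟩
    refine ⟨h1, h8, fun k hk => ?_⟩
    by_cases hkx : k = x
    · subst hkx
      have c : u y ↔ v y := h6 y (by unfold ib; omega) (by rw [mem_sbF]; unfold sb; omega)
      have d := h2 j
      have f := h7 j
      rw [hj] at d f
      rw [h3 k hk, h4, d, c, ← f, ← h5, h9 k hk]
    · have : ¬ ib x j k := by
        rw [ib_iff]
        rintro (h | h | h)
        · exact hkx h
        · exact hjT (h ▸ hk)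
        · exact hin k h hk
      rw [h3 k hk, h6 k this (by rw [mem_sbF]; exact fun h' => hT k h' hk), h9 k hk]
  · rintro ⟨h1, h2, h3⟩
    have hu : ∀ i, (if i = j ∨ i = y then s x else s i) ↔
        (if e.q i = j ∨ e.q i = y then s x else s (e.q i)) := by
      intro i
      by_cases hi : i = j ∨ i = y
      · have : e.q i = j ∨ e.q i = y := by
          rcases hi with rfl | rfl
          · right; exact hj
          · left; exact hy
        simp [hi, this]
      · have : ¬ (e.q i = j ∨ e.q i = y) := by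
          rintro (h | h)
          · apply hi; right; rw [← hj, ← h, e.inv]
          · apply hi; left; rw [← hy, ← h, e.inv]
        simp only [hi, this, if_false]
        exact h1 i
    have hTu : ∀ i ∈ e.T, s i ↔ (if i = j ∨ i = y then s x else s i) := by
      intro i hi
      have : ¬ (i = j ∨ i = y) := by
        rintro (h | h)
        · exact hjT (h ▸ hi)
        · exact hyT (h ▸ hi)
      simp [this]
    have hxx : (if x = j ∨ x = y then s x else s x) ↔ (if j = j ∨ j = y then s x else s j) := by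
      simp
    exact ⟨fun i => if i = j ∨ i = y then s x else s i,
      ⟨fun i => if i = j ∨ i = y then s x else s i, ⟨h1, hu, hTu⟩, hxx, hxx,
        fun _ _ _ => Iff.rfl⟩, hu, h2, fun i hi => (hTu i hi).symm.trans (h3 i hi)⟩

end Pool.Agent.W_MP_aeed81_al_h89
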