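import Pool.Agent.W_MP_aeed81_al_h89.MotParity

set_option linter.unusedVariables false
set_option linter.unusedSectionVars false

namespace Pool.Agent.W_MP_aeed81_al_h89

open Classical symmDiff

variable {r : ℕ}

/-- add `d` points to gap `i` -/
def ad (η : Fin (r+1) → ℕ) (i : Fin (r+1)) (d : ℕ) : Fin (r+1) → ℕ :=
  Function.update η i (η i + d)

theorem ad_apply (η : Fin (r+1) → ℕ) (i : Fin (r+1)) (d : ℕ) (x : Fin (r+1)) :
    ad η i d x = if x = i then η x + d else η x := by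
  unfold ad
  by_cases h : x = i
  · subst h; simp
  · simp [h]

theorem sum_ad (η : Fin (r+1) → ℕ) (i : Fin (r+1)) (d : ℕ) : ∑ x, ad η i d x = ∑ x, η x + d := by
  have : ∀ x, ad η i d x = η x + if x = i then d else 0 := by
    intro x
    rw [ad_apply]
    split_ifs <;> rfl
  rw [Finset.sum_congr rfl (fun x _ => this x), Finset.sum_add_distrib]
  simp

theorem mv_ad (η : Fin (r+1) → ℕ) (j : Fin r) (d : ℕ) :
    mv (ad η j.succ d) j d = ad η j.castSucc d := by
  funext x
  have := castSucc_ne_succ' j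
  simp only [mv_apply, ad_apply]
  by_cases h1 : x = j.castSucc
  · subst h1; simp [this]
  · by_cases h2 : x = j.succ
    · subst h2; simp [this.symm]
    · simp [h1, h2]

theorem mv_ad_two (η : Fin (r+1) → ℕ) (i : Fin (r+1)) (l : Fin r) (d e : ℕ) (h : e ≤ η l.succ) :
    mv (ad η i d) l e = ad (mv η l e) i d := by
  funext x
  have := castSucc_ne_succ' l
  simp only [mv_apply, ad_apply]
  by_cases h1 : x = l.castSucc
  · subst h1
    simp only [if_true]
    split_ifs <;> omega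
  · by_cases h2 : x = l.succ
    · subst h2
      simp only [this.symm, if_false, if_true]
      split_ifs <;> omega
    · simp only [h1, h2, if_false]

theorem ad_comm (η : Fin (r+1) → ℕ) (i j : Fin (r+1)) (d e : ℕ) :
    ad (ad η i d) j e = ad (ad η j e) i d := by
  funext x
  simp only [ad_apply]
  split_ifs <;> omega

theorem odd_ad_odd (η : Fin (r+1) → ℕ) (i : Fin (r+1)) (d : ℕ) (hd : d % 2 = 1) :
    odd (ad η i d) = odd η ∆ {i} := by
  ext x
  rw [mem_symmDiff_singleton]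
  unfold odd
  simp only [Finset.mem_filter, Finset.mem_univ, true_and, ad_apply]
  by_cases h : x = i
  · subst h
    simp only [if_true, ne_eq, not_true, and_false, true_and, false_or]
    omega
  · simp [h]

theorem odd_ad_even (η : Fin (r+1) → ℕ) (i : Fin (r+1)) (d : ℕ) (hd : d % 2 = 0) :
    odd (ad η i d) = odd η := by
  unfold odd
  apply Finset.filter_congr
  intro x _
  rw [ad_apply]
  split_ifs
  · omega
  · rfl

/-- the composition of `K` with odd gaps `Z` and all remaining points in gap `0` -/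
def cp (K : ℕ) (Z : Finset (Fin (r+1))) : Fin (r+1) → ℕ :=
  ad (fun i => if i ∈ Z then 1 else 0) 0 (K - Z.card)

theorem sum_cp (K : ℕ) (Z : Finset (Fin (r+1))) (h : Z.card ≤ K) : ∑ i, cp K Z i = K := by
  unfold cp
  rw [sum_ad]
  have : ∑ x : Fin (r+1), (if x ∈ Z then 1 else 0) = Z.card := by simp
  rw [this]; omega

theorem odd_cp (K : ℕ) (Z : Finset (Fin (r+1))) (h : Z.card ≤ K) (hp : Z.card % 2 = K % 2) :
    odd (cp K Z) = Z := by
  unfold cp
  rw [odd_ad_even _ _ _ (by omega)]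
  ext x
  unfold odd
  simp only [Finset.mem_filter, Finset.mem_univ, true_and]
  by_cases hx : x ∈ Z <;> simp [hx]

theorem card_odd_le (η : Fin (r+1) → ℕ) :
    (odd η).card + 2 * ∑ i, η i / 2 = ∑ i, η i := by
  have h1 : ∀ i : Fin (r+1), η i = 2 * (η i / 2) + if η i % 2 = 1 then 1 else 0 := by
    intro i
    split_ifs <;> omega
  conv_rhs => rw [Finset.sum_congr rfl (fun i _ => h1 i)]
  rw [Finset.sum_add_distrib, ← Finset.mul_sum]
  unfold odd
  rw [Finset.card_filter]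
  ring

theorem card_odd_add_two_le {η : Fin (r+1) → ℕ} (h : ∃ i, 2 ≤ η i) :
    (odd η).card + 2 ≤ ∑ i, η i := by
  obtain ⟨i, hi⟩ := h
  have h1 := card_odd_le η
  have h2 : η i / 2 ≤ ∑ i, η i / 2 :=
    Finset.single_le_sum (f := fun i => η i / 2) (fun _ _ => Nat.zero_le _) (Finset.mem_univ i)
  omega

theorem odd_card_parity (η : Fin (r+1) → ℕ) : (odd η).card % 2 = (∑ i, η i) % 2 := by
  have h1 := card_odd_le η
  omega

variable {G : Type*} [Group G] {k : ℕ} {μ : (Fin (r+1) → ℕ) → Fin r → ℕ → ℕ → G}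

/-- the value of the 3-move in a context -/
def Sm (k : ℕ) (μ : (Fin (r+1) → ℕ) → Fin r → ℕ → ℕ → G) (j : Fin r) (Z : Finset (Fin (r+1))) :
    G := μ (ad (cp (k - 3) Z) j.succ 3) j 2 1

section
variable (H : IsTauCocycle k μ)
include H

theorem inv_ctx {j : Fin r} {a b d : ℕ} (ha : 1 ≤ a) (hb : 1 ≤ b) (hd : a + b = d)
    (hloc : ∀ κ : Fin (r+1) → ℕ, ∑ i, κ i = k → d + 2 ≤ κ j.succ →
      μ κ j a b = μ (mv κ j 2) j a b) (η : Fin (r+1) → ℕ)
    (hη : ∑ i, η i + d = k) (l : Fin r) (hl : 2 ≤ η l.succ) :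
    μ (ad η j.succ d) j a b = μ (ad (mv η l 2) j.succ d) j a b := by
  rw [← mv_ad_two η j.succ l d 2 hl]
  have hk : ∑ i, ad η j.succ d i = k := by rw [sum_ad]; exact hη
  by_cases hjl : j = l
  · subst hjl
    apply hloc _ hk
    rw [ad_apply]; simp only [if_true]; omega
  · apply inv_tau H hk hjl ha hb
    · rw [ad_apply]; simp only [if_true]; omega
    · rw [ad_apply]
      have : l.succ ≠ j.succ := fun h => hjl (Fin.succ_injective _ h).symm
      simp only [this, if_false]; exact hl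

theorem sigma_eq (j : Fin r) (η : Fin (r+1) → ℕ) (hη : ∑ i, η i + 3 = k) :
    μ (ad η j.succ 3) j 2 1 = Sm k μ j (odd η) := by
  unfold Sm
  have hc := card_odd_le η
  have hp := odd_card_parity η
  apply block_inv (fun η => μ (ad η j.succ 3) j 2 1) (k - 3)
  · intro η' h' l hl
    apply inv_ctx H (by norm_num) le_rfl rfl _ η' (by omega) l hl
    intro κ hk h5
    exact (G1 H hk h5).2.1.symm
  · omega
  · apply sum_cp; omega
  · rw [odd_cp _ _ (by omega) (by omega)]

theorem sigma'_eq (j : Fin r) (η : Fin (r+1) → ℕ) (hη : ∑ i, η i + 3 = k) (h2 : ∃ i, 2 ≤ η i) :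
    μ (ad η j.succ 3) j 1 2 = μ (ad η j.succ 3) j 2 1 := by
  have hc := card_odd_add_two_le h2
  have hp := odd_card_parity η
  have key : ∀ a b, a + b = 3 → (∀ κ : Fin (r+1) → ℕ, ∑ i, κ i = k → 5 ≤ κ j.succ →
      μ κ j a b = μ (mv κ j 2) j a b) → 1 ≤ a → 1 ≤ b →
      μ (ad η j.succ 3) j a b =
        μ (ad (ad (cp (k - 5) (odd η)) j.succ 2) j.succ 3) j a b := by
    intro a b hab hloc ha hb
    apply block_inv (fun η => μ (ad η j.succ 3) j a b) (k - 3)
    · intro η' h' l hl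
      exact inv_ctx H ha hb hab hloc η' (by omega) l hl
    · omega
    · rw [sum_ad, sum_cp _ _ (by omega)]; omega
    · rw [odd_ad_even _ _ _ rfl, odd_cp _ _ (by omega) (by omega)]
  have e1 := key 2 1 rfl (fun κ hk h5 => (G1 H hk h5).2.1.symm) (by norm_num) le_rfl
  have e2 := key 1 2 rfl (fun κ hk h5 => by rw [(G1 H hk h5).2.2, (G1 H hk h5).1]) le_rfl
    (by norm_num)
  rw [e1, e2]
  apply (G1 H _ _).1
  · rw [sum_ad, sum_ad, sum_cp _ _ (by omega)]; omega
  · rw [ad_apply, ad_apply]; simp only [if_true]; omega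

theorem rho_eq (j : Fin r) (η : Fin (r+1) → ℕ) (hη : ∑ i, η i + 4 = k) (h2 : ∃ i, 2 ≤ η i) :
    μ (ad η j.succ 4) j 2 2 = 1 := by
  have hc := card_odd_add_two_le h2
  have hp := odd_card_parity η
  have e1 : μ (ad η j.succ 4) j 2 2 =
      μ (ad (ad (cp (k - 6) (odd η)) j.succ 2) j.succ 4) j 2 2 := by
    apply block_inv (fun η => μ (ad η j.succ 4) j 2 2) (k - 4)
    · intro η' h' l hl
      apply inv_ctx H (a := 2) (b := 2) (d := 4) (by norm_num) (by norm_num) rfl _ η'
        (by omega) l hl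
      intro κ hk h6
      rw [(G3 H hk h6).1, (G3 H hk h6).2]
    · omega
    · rw [sum_ad, sum_cp _ _ (by omega)]; omega
    · rw [odd_ad_even _ _ _ rfl, odd_cp _ _ (by omega) (by omega)]
  rw [e1]
  apply (G3 H _ _).1
  · rw [sum_ad, sum_ad, sum_cp _ _ (by omega)]; omega
  · rw [ad_apply, ad_apply]; simp only [if_true]; omega

theorem Sm_R1 (w : Finset (Fin (r+1))) (j : Fin r) (h1 : w.card + 6 ≤ k)
    (h2 : w.card % 2 = k % 2) : Sm k μ j (w ∆ {j.succ}) * Sm k μ j (w ∆ {j.castSucc}) = 1 := by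
  have hs := sum_cp (k - 6) w (by omega)
  have ho := odd_cp (k - 6) w (by omega) (by omega)
  set c := cp (k - 6) w with hc
  have hk : ∑ i, ad (ad c j.succ 3) j.succ 3 i = k := by rw [sum_ad, sum_ad]; omega
  have e1 := sigma_eq H j (ad c j.succ 3) (by rw [sum_ad]; omega)
  have e2 := sigma_eq H j (ad c j.castSucc 3) (by rw [sum_ad]; omega)
  rw [odd_ad_odd _ _ _ rfl, ho] at e1 e2
  rw [← e1, ← e2]
  have e3 : ad (ad c j.castSucc 3) j.succ 3 = mv (ad (ad c j.succ 3) j.succ 3) j 3 := by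
    rw [mv_ad, ad_comm]
  rw [e3]
  have h6 : 6 ≤ (ad (ad c j.succ 3) j.succ 3) j.succ := by
    rw [ad_apply, ad_apply]; simp only [if_true]; omega
  have := H.K1 (ad (ad c j.succ 3) j.succ 3) j 2 1 2 1 hk (by norm_num) le_rfl (by norm_num)
    le_rfl (by omega)
  rw [show (2 + 1 : ℕ) = 3 from rfl, show (3 + 2 : ℕ) = 5 from rfl] at this
  rw [this, G4 H 6 (by norm_num) _ j 5 1 hk (by norm_num) le_rfl rfl h6]
  simp

theorem Sm_R2 (w : Finset (Fin (r+1))) (j l : Fin r) (hjl : j ≠ l) (h1 : w.card + 6 ≤ k)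
    (h2 : w.card % 2 = k % 2) : Sm k μ j (w ∆ {l.succ}) * Sm k μ l (w ∆ {j.castSucc}) =
      Sm k μ l (w ∆ {j.succ}) * Sm k μ j (w ∆ {l.castSucc}) := by
  have hs := sum_cp (k - 6) w (by omega)
  have ho := odd_cp (k - 6) w (by omega) (by omega)
  set c := cp (k - 6) w with hc
  set κ := ad (ad c l.succ 3) j.succ 3 with hκ
  have hκ' : κ = ad (ad c j.succ 3) l.succ 3 := by rw [hκ, ad_comm]
  have hk : ∑ i, κ i = k := by rw [hκ, sum_ad, sum_ad]; omega
  have e1 := sigma_eq H j (ad c l.succ 3) (by rw [sum_ad]; omega)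
  have e2 := sigma_eq H l (ad c j.castSucc 3) (by rw [sum_ad]; omega)
  have e3 := sigma_eq H l (ad c j.succ 3) (by rw [sum_ad]; omega)
  have e4 := sigma_eq H j (ad c l.castSucc 3) (by rw [sum_ad]; omega)
  rw [odd_ad_odd _ _ _ rfl, ho] at e1 e2 e3 e4
  rw [← e1, ← e2, ← e3, ← e4]
  have f1 : ad (ad c j.castSucc 3) l.succ 3 = mv κ j 3 := by
    rw [hκ, mv_ad, ad_comm]
  have f2 : ad (ad c l.castSucc 3) j.succ 3 = mv κ l 3 := by
    rw [hκ', mv_ad, ad_comm]
  rw [f1, f2, ← hκ, ← hκ']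
  have hj : 3 ≤ κ j.succ := by rw [hκ, ad_apply]; simp only [if_true]; omega
  have hl : 3 ≤ κ l.succ := by rw [hκ', ad_apply]; simp only [if_true]; omega
  exact H.K3 κ j l 2 1 2 1 hk hjl (by norm_num) le_rfl (by norm_num) le_rfl hj hl

end

end Pool.Agent.W_MP_aeed81_al_h89
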