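import Mathlib

/-!
# The groupoid on compositions (Motzkin half of MP_aeed81_al)

`κ : Fin (r+1) → ℕ` are the gap sizes between `r` transversals, with sum `k`.
An arrow `(κ, j, a, b)` moves transversal `j` to the right over `a + b` points of the gap
`j.succ` (the arc ends are after `a` and after `a+b` steps).
-/

set_option linter.unusedVariables false
set_option linter.unusedSectionVars false

namespace Pool.Agent.W_MP_aeed81_al_h89

variable {r : ℕ}

/-- move `d` points from the gap to the right of transversal `j` to the gap on its left -/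
def mv (κ : Fin (r+1) → ℕ) (j : Fin r) (d : ℕ) : Fin (r+1) → ℕ :=
  Function.update (Function.update κ j.succ (κ j.succ - d)) j.castSucc (κ j.castSucc + d)

theorem castSucc_ne_succ' (j : Fin r) : j.castSucc ≠ j.succ := by
  intro h
  have := congrArg Fin.val h
  simp at this

theorem mv_succ (κ : Fin (r+1) → ℕ) (j : Fin r) (d : ℕ) : mv κ j d j.succ = κ j.succ - d := by
  unfold mv
  rw [Function.update_of_ne (castSucc_ne_succ' j).symm, Function.update_self]

theorem mv_castSucc (κ : Fin (r+1) → ℕ) (j : Fin r) (d : ℕ) :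
    mv κ j d j.castSucc = κ j.castSucc + d := by
  unfold mv
  rw [Function.update_self]

theorem mv_of_ne (κ : Fin (r+1) → ℕ) (j : Fin r) (d : ℕ) {i : Fin (r+1)} (h1 : i ≠ j.succ)
    (h2 : i ≠ j.castSucc) : mv κ j d i = κ i := by
  unfold mv
  rw [Function.update_of_ne h2, Function.update_of_ne h1]

theorem mv_apply (κ : Fin (r+1) → ℕ) (j : Fin r) (d : ℕ) (i : Fin (r+1)) :
    mv κ j d i = if i = j.castSucc then κ i + d else if i = j.succ then κ i - d else κ i := by
  by_cases h1 : i = j.castSucc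
  · subst h1; rw [mv_castSucc]; simp
  · by_cases h2 : i = j.succ
    · subst h2; rw [mv_succ]; simp [(castSucc_ne_succ' j).symm]
    · rw [mv_of_ne _ _ _ h2 h1]; simp [h1, h2]

theorem mv_mv (κ : Fin (r+1) → ℕ) (j : Fin r) (d e : ℕ) :
    mv (mv κ j d) j e = mv κ j (d + e) := by
  funext i
  simp only [mv_apply]
  split_ifs <;> omega

theorem mv_comm (κ : Fin (r+1) → ℕ) {j l : Fin r} (h : j ≠ l) (d e : ℕ) (hd : d ≤ κ j.succ)
    (he : e ≤ κ l.succ) : mv (mv κ j d) l e = mv (mv κ l e) j d := by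
  funext i
  simp only [mv_apply]
  have hs : j.succ ≠ l.succ := fun h' => h (Fin.succ_injective _ h')
  have hc : j.castSucc ≠ l.castSucc := fun h' => h (Fin.castSucc_injective _ h')
  by_cases h1 : i = j.castSucc
  · subst h1
    have h3 := castSucc_ne_succ' j
    simp only [if_true, hc, if_false]
    by_cases h2 : j.castSucc = l.succ
    · simp only [h2, if_true]
      rw [← h2] at he
      rw [← h2]
      omega
    · simp [h2]
  · by_cases h2 : i = l.castSucc
    · subst h2
      simp only [if_true, h1, if_false]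
      by_cases h3 : l.castSucc = j.succ
      · simp only [h3, if_true]
        rw [← h3] at hd
        rw [← h3]
        omega
      · simp [h3]
    · simp only [h1, h2, if_false]
      by_cases h3 : i = j.succ
      · subst h3
        simp [hs]
      · simp [h3]

theorem sum_mv (κ : Fin (r+1) → ℕ) (j : Fin r) (d : ℕ) (hd : d ≤ κ j.succ) :
    ∑ i, mv κ j d i = ∑ i, κ i := by
  have h0 := castSucc_ne_succ' j
  have h1 : ∀ f : Fin (r+1) → ℕ, ∑ i, f i = f j.castSucc + (f j.succ +
      ∑ i ∈ (Finset.univ.erase j.castSucc).erase j.succ, f i) := by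
    intro f
    rw [← Finset.add_sum_erase Finset.univ f (Finset.mem_univ j.castSucc),
      ← Finset.add_sum_erase (Finset.univ.erase j.castSucc) f
        (Finset.mem_erase.2 ⟨h0.symm, Finset.mem_univ _⟩)]
  rw [h1, h1 κ, mv_castSucc, mv_succ]
  have h2 : ∑ i ∈ (Finset.univ.erase j.castSucc).erase j.succ, mv κ j d i =
      ∑ i ∈ (Finset.univ.erase j.castSucc).erase j.succ, κ i := by
    apply Finset.sum_congr rfl
    intro i hi
    rw [Finset.mem_erase, Finset.mem_erase] at hi
    exact mv_of_ne _ _ _ hi.1 hi.2.1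
  rw [h2]
  omega

/-- potential -/
def pot (κ : Fin (r+1) → ℕ) : ℕ := ∑ i : Fin (r+1), (i : ℕ) * κ i

theorem pot_mv (κ : Fin (r+1) → ℕ) (j : Fin r) (d : ℕ) (hd : d ≤ κ j.succ) :
    pot (mv κ j d) + d = pot κ := by
  have h0 := castSucc_ne_succ' j
  have h1 : ∀ f : Fin (r+1) → ℕ, ∑ i, f i = f j.castSucc + (f j.succ +
      ∑ i ∈ (Finset.univ.erase j.castSucc).erase j.succ, f i) := by
    intro f
    rw [← Finset.add_sum_erase Finset.univ f (Finset.mem_univ j.castSucc),
      ← Finset.add_sum_erase (Finset.univ.erase j.castSucc) f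
        (Finset.mem_erase.2 ⟨h0.symm, Finset.mem_univ _⟩)]
  unfold pot
  rw [h1, h1 (fun i => (i : ℕ) * κ i), mv_castSucc, mv_succ]
  have h2 : ∑ i ∈ (Finset.univ.erase j.castSucc).erase j.succ, ((i : Fin (r+1)) : ℕ) * mv κ j d i =
      ∑ i ∈ (Finset.univ.erase j.castSucc).erase j.succ, ((i : Fin (r+1)) : ℕ) * κ i := by
    apply Finset.sum_congr rfl
    intro i hi
    rw [Finset.mem_erase, Finset.mem_erase] at hi
    rw [mv_of_ne _ _ _ hi.1 hi.2.1]
  rw [h2]
  obtain ⟨e, he⟩ := Nat.exists_eq_add_of_le hd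
  rw [he, Fin.val_succ, Fin.val_castSucc]
  have : d + e - d = e := by omega
  rw [this]
  ring

/-- A cocycle on the groupoid of compositions of `k`. -/
structure IsCocycle {G : Type*} [Group G] (k : ℕ)
    (μ : (Fin (r+1) → ℕ) → Fin r → ℕ → ℕ → G) : Prop where
  K1 : ∀ κ j a b a' b', ∑ i, κ i = k → 1 ≤ a → 1 ≤ b → 1 ≤ a' → 1 ≤ b' →
    a + b + a' + b' ≤ κ (Fin.succ j) →
    μ κ j a b * μ (mv κ j (a + b)) j a' b' = μ κ j (a + b + a') b'
  K2 : ∀ κ j a b a' b', ∑ i, κ i = k → 1 ≤ a → 1 ≤ b → 1 ≤ a' → 1 ≤ b' →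
    a + b + a' + b' ≤ κ (Fin.succ j) →
    μ κ j a b * μ (mv κ j (a + b)) j a' b' = μ κ j a (b + a' + b')
  K3 : ∀ κ j l a b a' b', ∑ i, κ i = k → j ≠ l → 1 ≤ a → 1 ≤ b → 1 ≤ a' → 1 ≤ b' →
    a + b ≤ κ (Fin.succ j) → a' + b' ≤ κ (Fin.succ l) →
    μ κ j a b * μ (mv κ j (a + b)) l a' b' = μ κ l a' b' * μ (mv κ l (a' + b')) j a b

end Pool.Agent.W_MP_aeed81_al_h89
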