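import Pool.Agent.W_MP_aeed81_al_h89.MotLab

set_option linter.unusedVariables false
set_option linter.unusedSectionVars false

namespace Pool.Agent.W_MP_aeed81_al_h89

open Classical symmDiff

variable {r k : ℕ}

theorem label_one_one (κ : Fin (r+1) → ℕ) (j : Fin r) : label κ j 1 1 = none := by
  simp [label]

/-- compositions with the same odd gaps are connected by trivially labelled moves -/
theorem trivConn_of_odd {η η' : Fin (r+1) → ℕ} (h1 : ∑ i, η i = k) (h2 : ∑ i, η' i = k)
    (ho : odd η = odd η') : TrivConn k η η' := by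
  have := block_inv (fun η : Fin (r+1) → ℕ => Quot.mk (TrivMove k) η) k ?_ η η' h1 h2 ho
  · exact Quot.eqvGen_exact this
  · intro η hη l hl
    exact Quot.sound ⟨hη, l, 1, 1, le_rfl, le_rfl, hl, label_one_one η l, rfl⟩

theorem ctx_ad (w : Fin (r+1) → ℕ) (j : Fin r) (d : ℕ) : ctx (ad w j.succ d) j d = odd w := by
  unfold ctx
  congr 1
  funext x
  by_cases hx : x = j.succ
  · subst hx
    rw [Function.update_self, ad_apply]
    simp
  · rw [Function.update_of_ne hx, ad_apply, if_neg hx]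

theorem triv_step {κ : Fin (r+1) → ℕ} {j : Fin r} (hk : ∑ i, κ i = k) (h2 : ∃ i, 2 ≤ κ i)
    (hf : IsFirst (odd κ) j) : ∃ κ₁ : Fin (r+1) → ℕ, ∑ i, κ₁ i = k ∧ (∃ i, 2 ≤ κ₁ i) ∧
      odd κ₁ = odd κ ∆ {j.castSucc} ∆ {j.succ} ∧ TrivConn k κ κ₁ := by
  have hc := card_odd_add_two_le h2
  have hp := odd_card_parity κ
  rw [hk] at hc hp
  have hcard : (odd κ ∆ {j.castSucc}).card + 1 = (odd κ).card := by
    rw [symmDiff_singleton_of_mem hf.1, Finset.card_erase_of_mem hf.1]
    have := Finset.card_pos.2 ⟨_, hf.1⟩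
    omega
  set Z := odd κ ∆ {j.castSucc} with hZ
  -- the context
  set w : Fin (r+1) → ℕ := cp (k - 3) Z with hw
  have hws : ∑ i, w i = k - 3 := sum_cp _ _ (by omega)
  have hwo : odd w = Z := odd_cp _ _ (by omega) (by omega)
  have hs1 : ∑ i, ad w j.succ 3 i = k := by rw [sum_ad, hws]; omega
  have hs2 : ∑ i, ad w j.castSucc 3 i = k := by rw [sum_ad, hws]; omega
  refine ⟨ad w j.succ 3, hs1, ⟨j.succ, ?_⟩, ?_, ?_⟩
  · rw [ad_apply]; simp
  · rw [odd_ad_odd _ _ _ rfl, hwo]
  · have e1 : TrivConn k κ (ad w j.castSucc 3) := by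
      apply trivConn_of_odd hk hs2
      rw [odd_ad_odd _ _ _ rfl, hwo, hZ, sd_sd]
    have e2 : TrivMove k (ad w j.succ 3) (ad w j.castSucc 3) := by
      refine ⟨hs1, j, 2, 1, by norm_num, le_rfl, ?_, ?_, ?_⟩
      · rw [ad_apply]; simp
      · unfold label
        rw [if_neg (by simp), if_neg ?_, if_neg (by simp)]
        rintro ⟨-, -, -, i, hi, hij⟩
        rw [ctx_ad, hwo, hZ, symmDiff_singleton_of_mem hf.1, Finset.mem_erase] at hi
        exact hf.2 i (lt_of_le_of_ne hij hi.1) hi.2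
      · exact (mv_ad w j 3).symm
    exact e1.trans _ _ _ ((Relation.EqvGen.rel _ _ e2).symm _ _)

/-- every non-isolated composition is connected with one whose only odd gap is possibly the last -/
theorem triv_normal : ∀ m : ℕ, ∀ κ : Fin (r+1) → ℕ, pw (odd κ) = m → ∑ i, κ i = k →
    (∃ i, 2 ≤ κ i) → ∃ κ' : Fin (r+1) → ℕ, ∑ i, κ' i = k ∧ (∀ j : Fin r, j.castSucc ∉ odd κ') ∧
      TrivConn k κ κ' := by
  intro m
  induction m using Nat.strong_induction_on with
  | _ m ih =>
    intro κ hm hk h2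
    by_cases hex : ∃ j : Fin r, j.castSucc ∈ odd κ
    · obtain ⟨j, hj⟩ := hex
      have : ∃ j : Fin r, IsFirst (odd κ) j := by
        obtain ⟨y, hy, hmin⟩ := Finset.exists_min_image (odd κ) id ⟨_, hj⟩
        have hle : y ≤ j.castSucc := hmin _ hj
        have hylt : (y : ℕ) < r := by
          have h1 := j.2
          have h2 := Fin.le_def.1 hle
          simp at h2
          omega
        refine ⟨⟨y, hylt⟩, ?_, ?_⟩
        · exact hy
        · intro x hx hxo
          have := hmin x hxo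
          have hx' : x < y := hx
          exact absurd hx' (not_lt.2 this)
      obtain ⟨j, hf⟩ := this
      obtain ⟨κ₁, hs, h21, ho, hc⟩ := triv_step hk h2 hf
      have hlt : pw (odd κ₁) < m := by
        rw [ho, ← hm]
        exact pw_lt hf.1
      obtain ⟨κ', h1, h2', h3⟩ := ih _ hlt κ₁ rfl hs h21
      exact ⟨κ', h1, h2', hc.trans _ _ _ h3⟩
    · exact ⟨κ, hk, fun j hj => hex ⟨j, hj⟩, Relation.EqvGen.refl _⟩

theorem odd_subset_last {κ : Fin (r+1) → ℕ} (h : ∀ j : Fin r, j.castSucc ∉ odd κ) :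
    odd κ = if (∑ i, κ i) % 2 = 1 then {Fin.last r} else ∅ := by
  have hsub : odd κ ⊆ {Fin.last r} := by
    intro x hx
    rw [Finset.mem_singleton]
    by_contra hne
    have : (x : ℕ) < r := by
      have h1 := x.2
      have h2 : (x : ℕ) ≠ r := fun h => hne (Fin.ext h)
      omega
    exact h ⟨x, this⟩ hx
  have hp := odd_card_parity κ
  rcases Finset.subset_singleton_iff.1 hsub with h0 | h0
  · rw [h0] at hp ⊢
    rw [Finset.card_empty] at hp
    rw [if_neg (by omega)]
  · rw [h0] at hp ⊢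
    rw [Finset.card_singleton] at hp
    rw [if_pos (by omega)]

/-- all non-isolated compositions of `k` are connected by trivially labelled moves -/
theorem trivConn_of {κ κ' : Fin (r+1) → ℕ} (h : ∑ i, κ i = k) (h' : ∑ i, κ' i = k)
    (h2 : ∃ i, 2 ≤ κ i) (h2' : ∃ i, 2 ≤ κ' i) : TrivConn k κ κ' := by
  obtain ⟨κ₁, a1, a2, a3⟩ := triv_normal _ κ rfl h h2
  obtain ⟨κ₂, b1, b2, b3⟩ := triv_normal _ κ' rfl h' h2'
  refine a3.trans _ _ _ ((trivConn_of_odd a1 b1 ?_).trans _ _ _ (b3.symm _ _))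
  rw [odd_subset_last a2, odd_subset_last b2, a1, b1]

end Pool.Agent.W_MP_aeed81_al_h89
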