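import Pool.Agent.W_MP_aeed81_al_h89.MotLab

/-!
# The number of labels
-/

set_option linter.unusedVariables false
set_option linter.unusedSectionVars false

namespace Pool.Agent.W_MP_aeed81_al_h89

open Classical

variable {r : ℕ}

/-- splitting the labels by type -/
noncomputable def labEquiv (k : ℕ) : {l : Lab r // l.Valid k} ≃
    {p : Fin r × Finset (Fin (r+1)) // p.2.card + 3 = k} ⊕
    ({p : Fin r × Finset (Fin (r+1)) // p.2.card + 3 = k ∧ ∃ i ∈ p.2, i ≤ p.1.castSucc} ⊕
    {p : Fin r × Finset (Fin (r+1)) // p.2.card + 4 = k}) where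
  toFun l := match l with
    | ⟨.sp j Z, h⟩ => .inl ⟨(j, Z), h⟩
    | ⟨.sg j Z, h⟩ => .inr (.inl ⟨(j, Z), h⟩)
    | ⟨.rh j Z, h⟩ => .inr (.inr ⟨(j, Z), h⟩)
  invFun p := match p with
    | .inl ⟨(j, Z), h⟩ => ⟨.sp j Z, h⟩
    | .inr (.inl ⟨(j, Z), h⟩) => ⟨.sg j Z, h⟩
    | .inr (.inr ⟨(j, Z), h⟩) => ⟨.rh j Z, h⟩
  left_inv l := by
    obtain ⟨l, h⟩ := l
    cases l <;> rfl
  right_inv p := by
    rcases p with ⟨⟨j, Z⟩, h⟩ | ⟨⟨j, Z⟩, h⟩ | ⟨⟨j, Z⟩, h⟩ <;> rfl

theorem finite_valid (k : ℕ) : Finite {l : Lab r // l.Valid k} :=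
  Finite.of_equiv _ (labEquiv k).symm

theorem empty_valid {k : ℕ} (hk : k ≤ 2) : IsEmpty {l : Lab r // l.Valid k} := by
  constructor
  rintro ⟨l, h⟩
  cases l with
  | sp j Z => simp only [Lab.Valid] at h; omega
  | sg j Z => simp only [Lab.Valid] at h; omega
  | rh j Z => simp only [Lab.Valid] at h; omega

theorem card_pairs (m : ℕ) :
    Nat.card {p : Fin r × Finset (Fin (r+1)) // p.2.card = m} = r * (r+1).choose m := by
  rw [Nat.card_eq_fintype_card, Fintype.card_subtype]
  have : (Finset.univ.filter fun p : Fin r × Finset (Fin (r+1)) => p.2.card = m) =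
      (Finset.univ : Finset (Fin r)) ×ˢ
        Finset.powersetCard m (Finset.univ : Finset (Fin (r+1))) := by
    ext ⟨j, Z⟩
    simp [Finset.mem_powersetCard]
  rw [this, Finset.card_product, Finset.card_powersetCard, Finset.card_univ, Finset.card_univ,
    Fintype.card_fin, Fintype.card_fin]

theorem card_pairs_up (m : ℕ) :
    Nat.card {p : Fin r × Finset (Fin (r+1)) // p.2.card = m ∧ ∀ i ∈ p.2, p.1.castSucc < i} =
      ∑ j : Fin r, (r - (j : ℕ)).choose m := by
  rw [Nat.card_eq_fintype_card, Fintype.card_subtype, Finset.card_filter,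
    ← Finset.univ_product_univ, Finset.sum_product]
  apply Finset.sum_congr rfl
  intro j _
  rw [← Finset.card_filter]
  have : (Finset.univ.filter fun Z : Finset (Fin (r+1)) =>
      (j, Z).2.card = m ∧ ∀ i ∈ (j, Z).2, (j, Z).1.castSucc < i) =
      Finset.powersetCard m (Finset.Ioi j.castSucc) := by
    ext Z
    simp only [Finset.mem_filter, Finset.mem_univ, true_and, Finset.mem_powersetCard]
    constructor
    · rintro ⟨h1, h2⟩
      exact ⟨fun i hi => Finset.mem_Ioi.2 (h2 i hi), h1⟩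
    · rintro ⟨h1, h2⟩
      exact ⟨h2, fun i hi => Finset.mem_Ioi.1 (h1 hi)⟩
  rw [this, Finset.card_powersetCard, Fin.card_Ioi]
  congr 1

theorem hockey (m r : ℕ) (hm : 1 ≤ m) :
    ∑ t ∈ Finset.range r, (t + 1).choose m = (r + 1).choose (m + 1) := by
  induction r with
  | zero =>
    simp only [Finset.range_zero, Finset.sum_empty, zero_add]
    rw [Nat.choose_eq_zero_of_lt (by omega)]
  | succ r ih =>
    rw [Finset.sum_range_succ, ih, Nat.choose_succ_succ (r + 1) m]
    ring

theorem sum_choose (m : ℕ) (hm : 1 ≤ m) :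
    ∑ j : Fin r, (r - (j : ℕ)).choose m = (r + 1).choose (m + 1) := by
  rw [← hockey m r hm, ← Finset.sum_range_reflect, Finset.sum_range]
  apply Finset.sum_congr rfl
  intro j _
  have := j.2
  congr 1
  omega

/-- splitting by whether the context has an element on the left -/
noncomputable def splitEquiv (m : ℕ) :
    {p : Fin r × Finset (Fin (r+1)) // p.2.card = m} ≃
    {p : Fin r × Finset (Fin (r+1)) // p.2.card = m ∧ ∃ i ∈ p.2, i ≤ p.1.castSucc} ⊕
    {p : Fin r × Finset (Fin (r+1)) // p.2.card = m ∧ ∀ i ∈ p.2, p.1.castSucc < i} where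
  toFun p := if h : ∃ i ∈ p.1.2, i ≤ p.1.1.castSucc then .inl ⟨p.1, p.2, h⟩
    else .inr ⟨p.1, p.2, by push Not at h; exact h⟩
  invFun p := match p with
    | .inl q => ⟨q.1, q.2.1⟩
    | .inr q => ⟨q.1, q.2.1⟩
  left_inv p := by
    by_cases h : ∃ i ∈ p.1.2, i ≤ p.1.1.castSucc
    · simp [h]
    · simp [h]
  right_inv p := by
    rcases p with ⟨p, h⟩ | ⟨p, h⟩
    · simp [h.2]
    · have : ¬ ∃ i ∈ p.2, i ≤ p.1.castSucc := by
        push Not
        exact h.2
      simp [this]

theorem card_split (m : ℕ) :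
    Nat.card {p : Fin r × Finset (Fin (r+1)) // p.2.card = m ∧ ∃ i ∈ p.2, i ≤ p.1.castSucc} +
      ∑ j : Fin r, (r - (j : ℕ)).choose m = r * (r+1).choose m := by
  rw [← card_pairs, ← card_pairs_up, Nat.card_congr (splitEquiv m), Nat.card_sum]

theorem card_lab (k : ℕ) : Nat.card {l : Lab r // l.Valid k} =
    Nat.card {p : Fin r × Finset (Fin (r+1)) // p.2.card + 3 = k} +
    (Nat.card {p : Fin r × Finset (Fin (r+1)) // p.2.card + 3 = k ∧ ∃ i ∈ p.2, i ≤ p.1.castSucc} +
    Nat.card {p : Fin r × Finset (Fin (r+1)) // p.2.card + 4 = k}) := by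
  rw [Nat.card_congr (labEquiv k), Nat.card_sum, Nat.card_sum]

theorem card_valid_three : Nat.card {l : Lab r // l.Valid 3} = r := by
  rw [card_lab]
  have h1 : Nat.card {p : Fin r × Finset (Fin (r+1)) // p.2.card + 3 = 3} = r := by
    have := card_pairs (r := r) 0
    rw [Nat.choose_zero_right, mul_one] at this
    refine Eq.trans ?_ this
    exact Nat.card_congr (Equiv.subtypeEquivRight (p := fun p : Fin r × Finset (Fin (r+1)) =>
      p.2.card + 3 = 3) (q := fun p => p.2.card = 0) (fun p => by omega))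
  have h2 : Nat.card {p : Fin r × Finset (Fin (r+1)) //
      p.2.card + 3 = 3 ∧ ∃ i ∈ p.2, i ≤ p.1.castSucc} = 0 := by
    have : IsEmpty {p : Fin r × Finset (Fin (r+1)) //
      p.2.card + 3 = 3 ∧ ∃ i ∈ p.2, i ≤ p.1.castSucc} := by
      constructor
      rintro ⟨p, h, i, hi, _⟩
      have : p.2.card = 0 := by omega
      rw [Finset.card_eq_zero] at this
      rw [this] at hi
      simp at hi
    exact Nat.card_of_isEmpty
  have h3 : Nat.card {p : Fin r × Finset (Fin (r+1)) // p.2.card + 4 = 3} = 0 := by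
    have : IsEmpty {p : Fin r × Finset (Fin (r+1)) // p.2.card + 4 = 3} := by
      constructor
      rintro ⟨p, h⟩
      omega
    exact Nat.card_of_isEmpty
  omega

theorem card_valid {k : ℕ} (hk : 4 ≤ k) : Nat.card {l : Lab r // l.Valid k} =
    2 * r * (r+1).choose (k-3) + r * (r+1).choose (k-4) - (r+1).choose (k-2) := by
  rw [card_lab]
  obtain ⟨m, rfl⟩ : ∃ m, k = m + 4 := ⟨k - 4, by omega⟩
  have e1 : m + 4 - 3 = m + 1 := by omega
  have e2 : m + 4 - 4 = m := by omega
  have e3 : m + 4 - 2 = m + 1 + 1 := by omega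
  rw [e1, e2, e3]
  have h1 : Nat.card {p : Fin r × Finset (Fin (r+1)) // p.2.card + 3 = m + 4} =
      r * (r+1).choose (m+1) := by
    rw [← card_pairs (r := r) (m + 1)]
    apply Nat.card_congr
    apply Equiv.subtypeEquivRight
    intro p
    omega
  have h3 : Nat.card {p : Fin r × Finset (Fin (r+1)) // p.2.card + 4 = m + 4} =
      r * (r+1).choose m := by
    rw [← card_pairs (r := r) m]
    apply Nat.card_congr
    apply Equiv.subtypeEquivRight
    intro p
    omega
  have h2 : Nat.card {p : Fin r × Finset (Fin (r+1)) //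
      p.2.card + 3 = m + 4 ∧ ∃ i ∈ p.2, i ≤ p.1.castSucc} + (r + 1).choose (m + 1 + 1) =
      r * (r+1).choose (m+1) := by
    rw [← card_split (r := r) (m + 1), sum_choose (m + 1) (by omega)]
    congr 1
    apply Nat.card_congr
    apply Equiv.subtypeEquivRight
    intro p
    constructor
    · rintro ⟨h, h'⟩
      exact ⟨by omega, h'⟩
    · rintro ⟨h, h'⟩
      exact ⟨by omega, h'⟩
  rw [h1, h3, mul_assoc]
  omega

theorem sum_tc (j : Fin r) (Z : Finset (Fin (r+1))) (d : ℕ) : ∑ i, tc j Z d i = Z.card + d := by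
  unfold tc
  rw [sum_ad]
  simp

theorem sum_tight {κ : Fin (r+1) → ℕ} {j : Fin r} {d : ℕ} (h : Tight κ j d) :
    ∑ i, κ i = (ctx κ j d).card + d := by
  conv_lhs => rw [tight_eq_tc h]
  exact sum_tc j _ d

theorem label_valid {k : ℕ} (κ : Fin (r+1) → ℕ) (hκ : ∑ i, κ i = k) {j : Fin r} {a b : ℕ}
    (h : a + b ≤ κ j.succ) {l : Lab r} (hl : label κ j a b = some l) : l.Valid k := by
  unfold label at hl
  split_ifs at hl with h1 h2 h3
  · have := Option.some.inj hl
    subst this
    have h4 := sum_tight h1.2.2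
    show (ctx κ j 3).card + 3 = k
    omega
  · have := Option.some.inj hl
    subst this
    have h4 := sum_tight h2.2.2.1
    show (ctx κ j 3).card + 3 = k ∧ _
    exact ⟨by omega, h2.2.2.2⟩
  · have := Option.some.inj hl
    subst this
    have h4 := sum_tight h3.2.2
    show (ctx κ j 4).card + 4 = k
    omega

theorem tight_tc (j : Fin r) (Z : Finset (Fin (r+1))) (d : ℕ) : Tight (tc j Z d) j d := by
  unfold Tight tc
  simp only [ad_apply]
  refine ⟨?_, ?_, ?_⟩
  · simp
  · simp only [if_true]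
    split_ifs <;> omega
  · intro i hi
    simp only [hi, if_false]
    split_ifs <;> omega

theorem ctx_tc (j : Fin r) (Z : Finset (Fin (r+1))) (d : ℕ) : ctx (tc j Z d) j d = Z := by
  ext i
  unfold ctx odd tc
  simp only [Finset.mem_filter, Finset.mem_univ, true_and]
  by_cases hi : i = j.succ
  · subst hi
    rw [Function.update_self, ad_apply]
    simp only [if_true]
    split_ifs <;> simp_all
  · rw [Function.update_of_ne hi, ad_apply]
    simp only [hi, if_false]
    split_ifs <;> simp_all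

theorem exists_label {k : ℕ} {l : Lab r} (hl : l.Valid k) :
    ∃ (κ : Fin (r+1) → ℕ) (j : Fin r) (a b : ℕ), ∑ i, κ i = k ∧ 1 ≤ a ∧ 1 ≤ b ∧
      a + b ≤ κ j.succ ∧ label κ j a b = some l := by
  have hd : ∀ (j : Fin r) (Z : Finset (Fin (r+1))) (d : ℕ), d ≤ tc j Z d j.succ := fun j Z d =>
    (tight_tc j Z d).1
  cases l with
  | sp j Z =>
    refine ⟨tc j Z 3, j, 1, 2, ?_, le_rfl, by omega, hd j Z 3, ?_⟩
    · rw [sum_tc]; exact hl
    · have := tight_tc j Z 3
      unfold label
      rw [if_pos ⟨rfl, rfl, this⟩, ctx_tc]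
  | sg j Z =>
    refine ⟨tc j Z 3, j, 2, 1, ?_, by omega, le_rfl, hd j Z 3, ?_⟩
    · rw [sum_tc]; exact hl.1
    · have := tight_tc j Z 3
      unfold label
      rw [if_neg (by simp), if_pos ⟨rfl, rfl, this, by rw [ctx_tc]; exact hl.2⟩, ctx_tc]
  | rh j Z =>
    refine ⟨tc j Z 4, j, 2, 2, ?_, by omega, by omega, hd j Z 4, ?_⟩
    · rw [sum_tc]; exact hl
    · have := tight_tc j Z 4
      unfold label
      rw [if_neg (by simp), if_neg (by simp), if_pos ⟨rfl, rfl, this⟩, ctx_tc]

end Pool.Agent.W_MP_aeed81_al_h89
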