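import Pool.Agent.W_MP_aeed81_al.FreeThm

/-!
# A variant of `hclass_of_cover` with a restricted state space, and isomorphisms of idempotents
-/

set_option linter.unusedVariables false
set_option linter.unusedSectionVars false

namespace Pool.Agent.W_MP_aeed81_al_h89

open Pool.Agent.W_MP_aeed81_al

theorem hclass_of_cover' {S : Type*} [Semigroup S] {D F : Type*} [Group F]
    (Φ : S → ROp (D × F)) (Φm : ∀ a b, Φ (a * b) = Φ a * Φ b)
    (gens : Set S) (hgen : ∀ P : S → Prop, (∀ a ∈ gens, P a) → (∀ a b, P a → P b → P (a * b)) →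
      ∀ a, P a)
    (comm : ∀ a ∈ gens, ∀ (g : F) (d : D) (h : F), (Φ a).1 (some (d, g * h)) =
      ((Φ a).1 (some (d, h))).map (fun p => (p.1, g * p.2)))
    (e : S) (he : e * e = e) (d0 : D) (h0 : (Φ e).1 (some (d0, 1)) = some (d0, 1))
    (Good : D → Prop) (g0 : Good d0)
    (fix : ∀ d g, Good d → (Φ e).1 (some (d, g)) = some (d, g) → d = d0)
    (T : D → S) (ψ : F → S) (ψ1 : ψ 1 = e) (ψm : ∀ g h, ψ (g * h) = ψ g * ψ h)
    (T0 : T d0 = e) (ψact : ∀ g, (Φ (ψ g)).1 (some (d0, 1)) = some (d0, g))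
    (step : ∀ a ∈ gens, ∀ d d' h, Good d → (Φ a).1 (some (d, 1)) = some (d', h) →
      Good d' ∧ T d * a = ψ h * T d') : HClassIso e F := by
  have comm' : ∀ a, ∀ (g : F) (d : D) (h : F), (Φ a).1 (some (d, g * h)) =
      ((Φ a).1 (some (d, h))).map (fun p => (p.1, g * p.2)) := by
    apply hgen
    · exact comm
    · intro a b iha ihb g d h
      rw [Φm, ROp.mul_val, ROp.mul_val, iha]
      rcases hx : (Φ a).1 (some (d, h)) with _ | ⟨d', h'⟩
      · change (Φ b).1 none = ((Φ b).1 none).map _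
        rw [(Φ b).2]; rfl
      · exact ihb g d' h'
  have main : ∀ s, ∀ d g d' g', Good d → (Φ s).1 (some (d, g)) = some (d', g') →
      Good d' ∧ ψ g * T d * s = ψ g' * T d' := by
    apply hgen
    · intro a ha d g d' g' hd h
      have h1 := comm' a g d 1
      rw [mul_one, h] at h1
      rcases hx : (Φ a).1 (some (d, 1)) with _ | ⟨d1, g1⟩
      · rw [hx] at h1; simp at h1
      · rw [hx] at h1
        have h2 : (d', g') = (d1, g * g1) := Option.some.inj h1
        obtain ⟨h4, h3⟩ := step a ha d d1 g1 hd hx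
        have e1 : d' = d1 := congrArg Prod.fst h2
        have e2 : g' = g * g1 := congrArg Prod.snd h2
        refine ⟨e1 ▸ h4, ?_⟩
        rw [e1, e2, mul_assoc, h3, ψm, mul_assoc]
    · intro a b iha ihb d g d' g' hd h
      rw [Φm, ROp.mul_val] at h
      rcases hx : (Φ a).1 (some (d, g)) with _ | ⟨d1, g1⟩
      · rw [hx] at h
        have := (Φ b).2
        rw [this] at h; simp at h
      · rw [hx] at h
        obtain ⟨k1, k2⟩ := iha _ _ _ _ hd hx
        obtain ⟨k3, k4⟩ := ihb _ _ _ _ k1 h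
        refine ⟨k3, ?_⟩
        rw [← mul_assoc, k2, k4]
  have val : ∀ s d g, e * s = s → (Φ s).1 (some (d0, 1)) = some (d, g) → s = ψ g * T d := by
    intro s d g hs h
    have := (main s d0 1 d g g0 h).2
    rw [ψ1, T0, he, hs] at this
    exact this
  apply hclass_of_action (fun a x => (Φ a).1 x) (fun a b x => by rw [Φm]; rfl)
    (fun a => (Φ a).2) (G := F) (fun g p => (p.1, g * p.2))
    (fun g h x => by simp [mul_assoc]) (fun x => by simp)
    (fun g a x => comm' a g x.1 x.2) e he (d0, 1) h0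
  · intro g h
    have : g * 1 = 1 := congrArg Prod.snd h
    simpa using this
  · rintro s t ⟨d, g⟩ hs ht hsx htx
    rw [val s d g hs hsx, val t d g ht htx]
  · intro g
    refine ⟨ψ g, ?_, ?_⟩
    · have := ψm 1 g
      rw [one_mul, ψ1] at this
      exact this.symm
    · change (Φ (ψ g)).1 _ = some (d0, g * 1)
      rw [ψact, mul_one]
  · rintro ⟨d, g⟩ h ⟨s, hs, hs'⟩
    have := fix d g (main s d0 1 d g g0 hs').1 h
    exact ⟨g, by simp [this]⟩

/-- `u : e → f` is an isomorphism with inverse `v`. -/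
structure IsoP {S : Type*} [Mul S] (e f u v : S) : Prop where
  eu : e * u = u
  uf : u * f = u
  fv : f * v = v
  ve : v * e = v
  uv : u * v = e
  vu : v * u = f

namespace IsoP

variable {S : Type*} [Semigroup S] {e f g u v u' v' : S}

theorem symm (h : IsoP e f u v) : IsoP f e v u := ⟨h.fv, h.ve, h.eu, h.uf, h.vu, h.uv⟩

theorem trans (h : IsoP e f u v) (h' : IsoP f g u' v') : IsoP e g (u * u') (v' * v) where
  eu := by rw [← mul_assoc, h.eu]
  uf := by rw [mul_assoc, h'.uf]
  fv := by rw [← mul_assoc, h'.fv]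
  ve := by rw [mul_assoc, h.ve]
  uv := by
    calc u * u' * (v' * v) = u * (u' * v') * v := by simp only [mul_assoc]
      _ = e := by rw [h'.uv, h.uf, h.uv]
  vu := by
    calc v' * v * (u * u') = v' * (v * u) * u' := by simp only [mul_assoc]
      _ = g := by rw [h.vu, h'.ve, h'.vu]

theorem refl (h : e * e = e) : IsoP e e e e := ⟨h, h, h, h, h, h⟩

/-- the loop as an element of the group -/
def toHG (he : e * e = e) (h : IsoP e e u v) : HG e he :=
  ⟨(u, v), ⟨h.eu, h.uf⟩, ⟨h.fv, h.ve⟩, h.uv, h.vu⟩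

theorem ofHG {he : e * e = e} (x : HG e he) : IsoP e e x.1.1 x.1.2 :=
  ⟨x.2.1.1, x.2.1.2, x.2.2.1.1, x.2.2.1.2, x.2.2.2.1, x.2.2.2.2⟩

end IsoP

theorem HG_ext {S : Type*} [Semigroup S] {e : S} {he : e * e = e} {a b : HG e he}
    (h : a.1.1 = b.1.1) : a = b := by
  apply HG.ext h
  calc a.1.2 = a.1.2 * (b.1.1 * b.1.2) := by rw [b.2.2.2.1, a.2.2.1.2]
    _ = (a.1.2 * a.1.1) * b.1.2 := by rw [← h, mul_assoc]
    _ = b.1.2 := by rw [a.2.2.2.2, b.2.2.1.1]

theorem HG_mul {S : Type*} [Semigroup S] {e : S} {he : e * e = e} (a b : HG e he) :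
    (a * b).1.1 = a.1.1 * b.1.1 := rfl

theorem HG_inv {S : Type*} [Semigroup S] {e : S} {he : e * e = e} (a : HG e he) :
    (a⁻¹).1.1 = a.1.2 := rfl

theorem HG_one {S : Type*} [Semigroup S] {e : S} {he : e * e = e} :
    (1 : HG e he).1.1 = e := rfl

end Pool.Agent.W_MP_aeed81_al_h89
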