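import Pool.Agent.W_MP_aeed81_al_h89.MotLower

/-!
# The maximal subgroups of `PG(P(M_n))`: the non-isolated case
-/

set_option linter.unusedVariables false
set_option linter.unusedSectionVars false
set_option warn.classDefReducibility false

namespace Pool.Agent.W_MP_aeed81_al_h89

open Pool.Agent.W_MP_aeed81_al Sum Pat

variable {n r : ℕ}

/-- the minimal idempotent pattern -/
theorem eq_of_le {p d : Pat n} (h1 : d.D * p.D * d.D = d.D) (h2 : p.D * d.D * p.D = d.D)
    (hc : d.T.card = p.T.card) : d = p := by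
  have pd : p.D * d.D = d.D := by
    calc p.D * d.D = p.D * (p.D * d.D * p.D) := by rw [h2]
      _ = (p.D * p.D) * d.D * p.D := by simp only [mul_assoc]
      _ = d.D := by rw [D_idem, h2]
  have key : ∀ i, p.q i = i ∨ p.q i = d.q i := by
    intro i
    have c1 : Cl d.D (fun k => k = i ∨ k = d.q i) (fun k => k = i ∨ k = d.q i) := by
      rw [Cl_D]
      have : ∀ k, (k = i ∨ k = d.q i) ↔ (d.q k = i ∨ d.q k = d.q i) := by
        intro k
        constructor
        · rintro (h | h)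
          · right; rw [h]
          · left; rw [h, d.inv]
        · rintro (h | h)
          · right; rw [← h, d.inv]
          · left; rw [← d.inv k, h, d.inv]
      exact ⟨this, this, fun _ _ => Iff.rfl⟩
    rw [← pd, Cl_mul] at c1
    obtain ⟨u, c2, _⟩ := c1
    rw [Cl_D] at c2
    exact (c2.1 i).1 (Or.inl rfl)
  have sub : d.T ⊆ p.T := by
    intro t ht
    have dt := d.fix t ht
    have pt : p.q t = t := by
      rcases key t with h | h
      · exact h
      · rw [h, dt]
    obtain ⟨t', k1, k2⟩ := survive h1 (fun k => k = t) (closed_single dt) (closed_single pt) ht rfl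
    subst k2
    exact k1
  have hT : d.T = p.T := Finset.eq_of_subset_of_card_le sub hc.ge
  apply ext' _ hT
  intro i
  by_cases hi : d.q i = i
  · rcases key i with h | h
    · rw [hi, h]
    · exact h.symm
  · rcases key i with h | h
    · exfalso
      have hiT : i ∉ p.T := by
        rw [← hT]
        intro h'
        exact hi (d.fix i h')
      have c1 : Cl p.D (fun k => k = i) (fun _ => False) := by
        rw [Cl_D]
        refine ⟨closed_single h, fun _ => Iff.rfl, fun k hk => ?_⟩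
        constructor
        · intro h'
          have h'' : k = i := h'
          exact hiT (h'' ▸ hk)
        · exact fun h' => h'.elim
      have c2 : Cl d.D (fun _ => False) (fun _ => False) := by
        rw [Cl_D]
        exact ⟨fun _ => Iff.rfl, fun _ => Iff.rfl, fun _ _ => Iff.rfl⟩
      have c3 : Cl (p.D * d.D) (fun k => k = i) (fun _ => False) :=
        (Cl_mul _ _ _ _).2 ⟨_, c1, c2⟩
      rw [pd, Cl_D] at c3
      have := (c3.1 i).1 rfl
      exact hi this
    · exact h.symm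

theorem sgT_T (T : Finset (Fin n)) : (sg Tᶜ).T = T := compl_compl T

theorem b_e_b_D (e : Pat n) : (sg e.Tᶜ).D * e.D * (sg e.Tᶜ).D = (sg e.Tᶜ).D := by
  rw [D_kill]
  congr 1
  apply ext'
  · intro k
    change (if k ∈ e.Tᶜ ∨ e.q k ∈ e.Tᶜ then k else e.q k) = k
    split_ifs with h
    · rfl
    · simp only [Finset.mem_compl, not_or, not_not] at h
      exact e.fix k h.1
  · change e.T \ e.Tᶜ = e.Tᶜᶜ
    ext k; simp

theorem main_nonisolated (p : Pat n) {k : ℕ} (hr : p.T.card = r) (hk : k + r = n)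
    (hiso : ∃ u v : Fin n, (v : ℕ) = u + 1 ∧ u ∉ p.T ∧ v ∉ p.T) :
    HClassIso (xm p) (FL r k) := by
  classical
  obtain ⟨κ0, h0, hT0⟩ := Tof_surj p.T hr
  have h2 : ∃ i, 2 ≤ κ0 i := (two_le_iff h0).2 (by rw [hT0]; exact hiso)
  have R := prep_xm (n := n)
  obtain ⟨C, C', ψ, hC0, hC, hmu⟩ := ub_pg R p h0 hT0 h2
  obtain ⟨Φ, Φm, Φx⟩ := exists_action n r k
  -- equivariance
  have equiv : ∀ s, ∀ (g : FL r k) (d : Pat n) (h : FL r k), (Φ s).1 (some (d, g * h)) =
      ((Φ s).1 (some (d, h))).map (fun q => (q.1, g * q.2)) := by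
    apply xm_induction
    · intro q g d h
      rw [Φx, Φx]
      split_ifs with c
      · simp [mul_assoc]
      · rfl
    · intro a b iha ihb g d h
      rw [Φm, ROp.mul_val, ROp.mul_val, iha]
      rcases hx : (Φ a).1 (some (d, h)) with _ | ⟨d', h'⟩
      · change (Φ b).1 none = ((Φ b).1 none).map _
        rw [(Φ b).2]; rfl
      · exact ihb g d' h'
  have equiv1 : ∀ {s : PG (Motzkin n)} (g : FL r k) {d d' : Pat n} {h : FL r k},
      (Φ s).1 (some (d, 1)) = some (d', h) → (Φ s).1 (some (d, g)) = some (d', g * h) := by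
    intro s g d d' h hs
    have := equiv s g d 1
    rw [mul_one, hs] at this
    exact this
  have Φc : ∀ {s t : PG (Motzkin n)} {x y z : Pat n × FL r k}, (Φ s).1 (some x) = some y →
      (Φ t).1 (some y) = some z → (Φ (s * t)).1 (some x) = some z := by
    intro s t x y z h1 h2
    rw [Φm, ROp.mul_val, h1, h2]
  -- trivial steps
  have Φfix : ∀ {q e f : Pat n} (g : FL r k), e.D * q.D * e.D = e.D → q.D * e.D * q.D = f.D →
      e.T = f.T → (Φ (xm q)).1 (some (e, g)) = some (f, g) := by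
    intro q e f g h1 h2 h3
    rw [Φx, if_pos h1, cj_eq h2, cc_of_T _ h3, mul_one]
  have Φp : (Φ (xm p)).1 (some (p, 1)) = some (p, 1) :=
    Φfix 1 (by rw [D_idem, D_idem]) (by rw [D_idem, D_idem]) rfl
  have Φb : ∀ (κ : Fin (r+1) → ℕ), (Φ (BB xm κ)).1 (some (sg (Tof n κ)ᶜ, 1)) =
      some (sg (Tof n κ)ᶜ, 1) := fun κ =>
    Φfix 1 (by rw [D_idem, D_idem]) (by rw [D_idem, D_idem]) rfl
  -- the basic moves
  have Φmu : ∀ (κ : Fin (r+1) → ℕ) (j : Fin r) (a b : ℕ), ∑ i, κ i + r = n → 1 ≤ a → 1 ≤ b →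
      a + b ≤ κ j.succ → (Φ (muk xm κ j a b)).1 (some (sg (Tof n κ)ᶜ, 1)) =
        some (sg (Tof n (mv κ j (a + b)))ᶜ, toF k (label κ j a b)) := by
    intro κ j a b h ha hb hd
    obtain ⟨x, z, y, hx, hz, hy⟩ := exists_xzy (n := n) h hd
    rw [muk_eq hx hz hy]
    have hr := range_T h hd hx (y := y) (by omega)
    have hxT := mem_Tof_pos (n := n) hx
    have hTm := Tof_mv h j hd hx (y := y) (by omega)
    have hzy : z ≠ y := by omega
    have hxz : x ≠ z := by omega
    have nzy : ∀ m, ib z y m → m ∉ (sg (Tof n κ)ᶜ).T := by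
      intro m hm hmT
      rw [sgT_T] at hmT
      have := hr m (by unfold ib at hm ⊢; omega) hmT
      unfold ib at hm
      omega
    have t1 : (jn (sg (Tof n κ)ᶜ) z y).T = Tof n κ := by
      rw [jnT_fix _ hzy nzy, sgT_T]
    have q1 : (jn (sg (Tof n κ)ᶜ) z y).q z = y := jnq_left _ hzy
    have hin : ∀ m, sb x z m → m ∉ (jn (sg (Tof n κ)ᶜ) z y).T := by
      intro m hm hmT
      rw [t1] at hmT
      have := hr m (by unfold ib; unfold sb at hm; omega) hmT
      unfold sb at hm
      omega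
    have t2 : (jn (jn (sg (Tof n κ)ᶜ) z y) x z).T = Tof n (mv κ j (a + b)) := by
      rw [PRep.jnT_move _ (by rw [t1]; exact hxT) q1 (by omega) hin, t1, hTm]
    have s1 : (Φ (xm (sg (Tof n κ)ᶜ))).1 (some (sg (Tof n κ)ᶜ, 1)) =
      some (sg (Tof n κ)ᶜ, (1 : FL r k)) := Φb κ
    have s2 : (Φ (xm (AZ z y ∅))).1 (some (sg (Tof n κ)ᶜ, (1 : FL r k))) =
        some (jn (sg (Tof n κ)ᶜ) z y, 1) :=
      Φfix 1 (e_AZ_e_fix _ hzy nzy) (D_jn _ hzy) (by rw [t1, sgT_T])
    have s3 : (Φ (xm (AZ x z ∅))).1 (some (jn (sg (Tof n κ)ᶜ) z y, (1 : FL r k))) =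
        some (jn (jn (sg (Tof n κ)ᶜ) z y) x z, toF k (label κ j a b)) := by
      rw [Φx, if_pos (e_AZ_e_move _ (by rw [t1]; exact hxT) q1 (by omega) hin),
        cj_eq (D_jn _ hxz), one_mul]
      rw [cc_eq_label h k ha hb hx hz hy t1 (by rw [t2, t1, hTm]) (jnq_left _ hxz) q1]
    have s4 : (Φ (xm (sg (Tof n (mv κ j (a + b)))ᶜ))).1
        (some (jn (jn (sg (Tof n κ)ᶜ) z y) x z, (1 : FL r k))) =
        some (sg (Tof n (mv κ j (a + b)))ᶜ, 1) := by
      rw [← t2]
      exact Φfix 1 (e_sg_e _ _ (fun m hm => Finset.mem_compl.1 hm)) (b_e_b_D _) (sgT_T _).symm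
    have s5 := equiv1 (toF k (label κ j a b)) s4
    rw [mul_one] at s5
    unfold PRep.mu
    exact Φc (Φc (Φc s1 s2) s3) s5
  -- the connecting paths act trivially
  let Q : (Fin (r+1) → ℕ) → Prop := fun κ =>
    (Φ (C κ)).1 (some (p, 1)) = some (sg (Tof n κ)ᶜ, 1)
  have Q0 : Q κ0 := by
    change (Φ (C κ0)).1 (some (p, 1)) = some (sg (Tof n κ0)ᶜ, 1)
    rw [hC0]
    refine Φc Φp ?_
    unfold BB
    rw [hT0]
    exact Φfix 1 (e_sg_e _ _ (fun m hm => Finset.mem_compl.1 hm)) (b_e_b_D _) (sgT_T _).symm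
  have smv : ∀ {κ : Fin (r+1) → ℕ} {j : Fin r} {d : ℕ}, ∑ i, κ i + r = n → d ≤ κ j.succ →
      ∑ i, mv κ j d i + r = n := fun h hd => by rw [sum_mv _ _ _ hd]; exact h
  have Qstep : ∀ κ κ', TrivMove k κ κ' → (Q κ ↔ Q κ') := by
    rintro κ κ' ⟨hs, j, a, b, ha, hb, hd, hl, rfl⟩
    have h : ∑ i, κ i + r = n := by omega
    have i1 := hC κ h ⟨j.succ, by omega⟩
    have i2 := hC (mv κ j (a + b)) (smv h hd) (two_le_mv (by omega))
    have i3 := iso_muk R h ha hb hd
    have e1 : C κ * muk xm κ j a b = C (mv κ j (a + b)) := by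
      rw [hmu κ j a b h ha hb hd, hl, Option.elim_none, HG_one, i2.eu]
    have e2 : C κ = C (mv κ j (a + b)) * nuk xm κ j a b := by
      rw [← e1, mul_assoc, i3.uv, i1.uf]
    have f1 := Φmu κ j a b h ha hb hd
    rw [hl] at f1
    have f1' : (Φ (muk xm κ j a b)).1 (some (sg (Tof n κ)ᶜ, 1)) =
        some (sg (Tof n (mv κ j (a + b)))ᶜ, 1) := f1
    have f2 : (Φ (nuk xm κ j a b)).1 (some (sg (Tof n (mv κ j (a + b)))ᶜ, 1)) =
        some (sg (Tof n κ)ᶜ, 1) := by
      have := Φb κ
      rw [← i3.uv, Φm, ROp.mul_val, f1'] at this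
      exact this
    constructor
    · intro hQ
      change (Φ (C (mv κ j (a + b)))).1 (some (p, 1)) = _
      rw [← e1]
      exact Φc hQ f1'
    · intro hQ
      change (Φ (C κ)).1 (some (p, 1)) = _
      rw [e2]
      exact Φc hQ f2
  have Qconn : ∀ κ κ', TrivConn k κ κ' → (Q κ ↔ Q κ') := by
    intro κ κ' h
    induction h with
    | rel κ κ' h => exact Qstep κ κ' h
    | refl κ => exact Iff.rfl
    | symm _ _ _ ih => exact ih.symm
    | trans _ _ _ _ _ ih1 ih2 => exact ih1.trans ih2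
  have Qall : ∀ κ : Fin (r+1) → ℕ, ∑ i, κ i + r = n → (∃ i, 2 ≤ κ i) → Q κ := by
    intro κ h h'
    exact (Qconn κ0 κ (trivConn_of (k := k) (by omega) (by omega) h2 h')).1 Q0
  have Φ' : ∀ κ : Fin (r+1) → ℕ, ∑ i, κ i + r = n → (∃ i, 2 ≤ κ i) →
      (Φ (C' κ)).1 (some (sg (Tof n κ)ᶜ, 1)) = some (p, 1) := by
    intro κ h h'
    have := Φp
    rw [← (hC κ h h').uv, Φm, ROp.mul_val, Qall κ h h'] at this
    exact this
  -- the homomorphism
  obtain ⟨F, F1, Fm, Fof, Finv, Fe⟩ := exists_psi (R.idem p)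
    (fun l : {l : Lab r // l.Valid k} => (ψ l.1).1.1) (fun l => (ψ l.1).1.2)
    (fun l => (ψ l.1).2.1.1) (fun l => (ψ l.1).2.1.2) (fun l => (ψ l.1).2.2.1.1)
    (fun l => (ψ l.1).2.2.1.2) (fun l => (ψ l.1).2.2.2.1) (fun l => (ψ l.1).2.2.2.2)
  have Fval : ∀ o : Option (Lab r), (∀ l, o = some l → l.Valid k) →
      F (toF k o) = (o.elim 1 ψ).1.1 ∧ F (toF k o)⁻¹ = (o.elim 1 ψ).1.2 := by
    rintro (_ | l) h
    · have e1 : toF k (none : Option (Lab r)) = 1 := rfl
      rw [e1, inv_one, F1]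
      exact ⟨rfl, rfl⟩
    · have e1 : toF k (some l) = FreeGroup.of ⟨l, h l rfl⟩ := toF_some _
      rw [e1, Fof, Finv]
      exact ⟨rfl, rfl⟩
  have act_of : ∀ l : {l : Lab r // l.Valid k},
      (Φ (F (FreeGroup.of l))).1 (some (p, 1)) = some (p, FreeGroup.of l) := by
    intro l
    obtain ⟨κ, j, a, b, hs, ha, hb, hd, hl⟩ := exists_label l.2
    have h : ∑ i, κ i + r = n := by omega
    have i2 := hC (mv κ j (a + b)) (smv h hd) (two_le_mv (by omega))
    have e1 := hmu κ j a b h ha hb hd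
    rw [hl, Option.elim_some] at e1
    have f1 := Φmu κ j a b h ha hb hd
    have e2 : toF k (some l.1) = FreeGroup.of l := toF_some l.2
    rw [hl, e2] at f1
    have f2 := Φc (Qall κ h ⟨j.succ, by omega⟩) f1
    rw [e1] at f2
    have f3 := equiv1 (FreeGroup.of l) (Φ' _ (smv h hd) (two_le_mv (κ := κ) (j := j) (d := a + b)
      (by omega)))
    rw [mul_one] at f3
    have f4 := Φc f2 f3
    rw [mul_assoc, i2.uv, (ψ l.1).2.1.2] at f4
    rw [Fof]
    exact f4
  have act_inv : ∀ l : {l : Lab r // l.Valid k},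
      (Φ (F (FreeGroup.of l)⁻¹)).1 (some (p, 1)) = some (p, (FreeGroup.of l)⁻¹) := by
    intro l
    have e1 : F (FreeGroup.of l) * F (FreeGroup.of l)⁻¹ = xm p := by
      rw [← Fm, mul_inv_cancel, F1]
    have h1 := Φp
    rw [← e1, Φm, ROp.mul_val, act_of l] at h1
    have h2 := equiv (F (FreeGroup.of l)⁻¹) (FreeGroup.of l) p 1
    rw [mul_one, h1] at h2
    rcases hx : (Φ (F (FreeGroup.of l)⁻¹)).1 (some (p, 1)) with _ | ⟨d, g⟩
    · rw [hx] at h2; simp at h2
    · rw [hx] at h2
      have h3 : (p, (1 : FL r k)) = (d, FreeGroup.of l * g) := Option.some.inj h2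
      have e2 : p = d := congrArg Prod.fst h3
      have e3 : (1 : FL r k) = FreeGroup.of l * g := congrArg Prod.snd h3
      rw [← e2, eq_inv_of_mul_eq_one_right e3.symm]
  have Fact : ∀ g, (Φ (F g)).1 (some (p, 1)) = some (p, g) := by
    intro g
    induction g using FreeGroup.induction_on with
    | C1 => rw [F1]; exact Φp
    | of l => exact act_of l
    | inv_of l _ => exact act_inv l
    | mul g h ihg ihh =>
      rw [Fm]
      exact Φc ihg (equiv1 g ihh)
  -- the transversal
  let Good : Pat n → Prop := fun d => ∃ κ : Fin (r+1) → ℕ, ∑ i, κ i + r = n ∧ Tof n κ = d.T ∧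
    ∃ i, 2 ≤ κ i
  let kp : Pat n → (Fin (r+1) → ℕ) := fun d => if h : Good d then h.choose else κ0
  let T : Pat n → PG (Motzkin n) := fun d => C (kp d) * xm d
  have Tval : ∀ {d : Pat n} {κ : Fin (r+1) → ℕ}, ∑ i, κ i + r = n → Tof n κ = d.T →
      (∃ i, 2 ≤ κ i) → T d = C κ * xm d := by
    intro d κ h h' h''
    have hg : Good d := ⟨κ, h, h', h''⟩
    have : kp d = κ := by
      simp only [kp]
      rw [dif_pos hg]
      obtain ⟨a1, a2, a3⟩ := hg.choose_spec
      exact Tof_inj a1 h (a2.trans h'.symm)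
    change C (kp d) * xm d = _
    rw [this]
  have step_sg : ∀ (Z : Finset (Fin n)) (d d' : Pat n) (h : FL r k), Good d →
      (Φ (xm (sg Z))).1 (some (d, 1)) = some (d', h) → Good d' ∧ T d * xm (sg Z) = F h * T d' := by
    rintro Z d d' h ⟨κ, k1, k2, k3⟩ hΦ
    rw [Φx] at hΦ
    split_ifs at hΦ with c
    have hZ := sg_cases d c
    have hT := PRep.kill_T d hZ
    rw [cj_eq (D_kill d Z), cc_of_T _ hT.symm, one_mul] at hΦ
    have hp := Option.some.inj hΦ
    have e1 : kill d Z = d' := congrArg Prod.fst hp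
    have e2 : (1 : FL r k) = h := congrArg Prod.snd hp
    subst e1 e2
    refine ⟨⟨κ, k1, by rw [hT]; exact k2, k3⟩, ?_⟩
    have i1 := hC κ k1 k3
    rw [Tval k1 k2 k3, Tval k1 (by rw [hT]; exact k2) k3, F1, ← mul_assoc, i1.eu]
    have := R.fix_sg d hZ
    rw [← k2] at this
    calc C κ * xm d * xm (sg Z) = C κ * (BB xm κ * xm d * xm (sg Z)) := by
          simp only [← mul_assoc]; rw [i1.uf]
      _ = C κ * xm (kill d Z) := by
          unfold BB; rw [this, ← mul_assoc]; change C κ * BB xm κ * _ = _; rw [i1.uf]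
  have step_move : ∀ (d : Pat n) (x j y : Fin n), Good d → x ∈ d.T → d.q j = y →
      ((x < j ∧ j < y) ∨ (y < j ∧ j < x)) → (∀ m, sb x j m → m ∉ d.T) →
      Good (jn d x j) ∧ T d * xm (AZ x j ∅) = F (cc (chi r k) d (jn d x j)) * T (jn d x j) := by
    rintro d x j y ⟨κ, k1, k2, k3⟩ hx hj h hin
    have hxj : x ≠ j := by omega
    have hjy : j ≠ y := by omega
    have hyj : d.q y = j := by rw [← hj, d.inv]
    have hT' := PRep.jnT_move d hx hj h hin
    have arcT := PRep.not_mem_of_arc d hjy hj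
    have hyT : y ∉ d.T := arcT y (by unfold ib; omega)
    rcases h with h | h
    · -- right move
      have hx' : x ∈ Tof n κ := by rw [k2]; exact hx
      unfold Tof at hx'
      simp only [Finset.mem_filter, Finset.mem_univ, true_and] at hx'
      obtain ⟨l, hl⟩ := hx'
      obtain ⟨a, ha⟩ : ∃ a : ℕ, (j : ℕ) = x + a := ⟨j - x, by omega⟩
      obtain ⟨b, hb⟩ : ∃ b : ℕ, (y : ℕ) = j + b := ⟨y - j, by omega⟩
      have hd : a + b ≤ κ l.succ := by
        have := le_gap k1 l (y := y) (by omega) (by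
          intro m m1 m2 m3
          rw [k2] at m3
          by_cases m4 : m < j
          · exact hin m (by unfold sb; omega) m3
          · exact arcT m (by unfold ib; omega) m3)
        omega
      have hT2 : Tof n (mv κ l (a + b)) = (jn d x j).T := by
        rw [hT', Tof_mv k1 l hd hl.symm (y := y) (by omega), k2]
      have g3 : ∃ i, 2 ≤ mv κ l (a + b) i := two_le_mv (by omega)
      refine ⟨⟨mv κ l (a + b), smv k1 hd, hT2, g3⟩, ?_⟩
      have i1 := hC κ k1 k3
      have hm := R.main_move d hx hj (Or.inl h) hin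
      have hmk : muk xm κ l a b = PRep.mu xm d.T (jn d x j).T x j y := by
        rw [muk_eq hl.symm ha hb, k2, hT2]
      have hcc : cc (chi r k) d (jn d x j) = toF k (label κ l a b) :=
        cc_eq_label k1 k (by omega) (by omega) hl.symm ha hb k2.symm hT' (jnq_left d hxj) hj
      rw [hcc, (Fval (label κ l a b) (fun l' hl' => label_valid κ (by omega) hd hl')).1,
        Tval k1 k2 k3, Tval (smv k1 hd) hT2 g3, ← mul_assoc,
        ← hmu κ l a b k1 (by omega) (by omega) hd, hmk]
      calc C κ * xm d * xm (AZ x j ∅) = C κ * (BB xm κ * xm d * xm (AZ x j ∅)) := by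
            simp only [← mul_assoc]; rw [i1.uf]
        _ = _ := by unfold BB; rw [k2, hm, mul_assoc]
    · -- left move
      have hcard : (jn d x j).T.card = r := by
        rw [hT', Finset.card_insert_of_notMem, Finset.card_erase_of_mem hx, ← k2, Tof_card k1]
        · have : 0 < d.T.card := Finset.card_pos.2 ⟨x, hx⟩
          rw [← k2, Tof_card k1] at this
          omega
        · rw [Finset.mem_erase]; tauto
      obtain ⟨κ', l1, l2⟩ := Tof_surj (jn d x j).T hcard
      have hy' : y ∈ Tof n κ' := by rw [l2, hT']; exact Finset.mem_insert_self _ _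
      unfold Tof at hy'
      simp only [Finset.mem_filter, Finset.mem_univ, true_and] at hy'
      obtain ⟨l, hl⟩ := hy'
      obtain ⟨a, ha⟩ : ∃ a : ℕ, (j : ℕ) = y + a := ⟨j - y, by omega⟩
      obtain ⟨b, hb⟩ : ∃ b : ℕ, (x : ℕ) = j + b := ⟨x - j, by omega⟩
      have hd : a + b ≤ κ' l.succ := by
        have := le_gap l1 l (y := x) (by omega) (by
          intro m m1 m2 m3
          rw [l2, hT', Finset.mem_insert, Finset.mem_erase] at m3
          rcases m3 with m3 | m3
          · omega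
          · by_cases m4 : m ≤ j
            · exact arcT m (by unfold ib; omega) m3.2
            · exact hin m (by unfold sb; omega) m3.2)
        omega
      have hTd : Tof n (mv κ' l (a + b)) = d.T := by
        rw [Tof_mv l1 l hd hl.symm (y := x) (by omega), l2, hT', Finset.erase_insert,
          Finset.insert_erase hx]
        rw [Finset.mem_erase]; tauto
      have hκ : mv κ' l (a + b) = κ := Tof_inj (smv l1 hd) k1 (hTd.trans k2.symm)
      have g3 : ∃ i, 2 ≤ κ' i := ⟨l.succ, by omega⟩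
      refine ⟨⟨κ', l1, l2, g3⟩, ?_⟩
      have i1 := hC κ k1 k3
      have i2 := hC κ' l1 g3
      have i3 := iso_muk R l1 (j := l) (a := a) (b := b) (by omega) (by omega) hd
      have hm := R.main_move d hx hj (Or.inr h) hin
      have hnk : nuk xm κ' l a b = PRep.mu xm d.T (jn d x j).T x j y := by
        rw [nuk_eq hl.symm ha hb, hTd, l2]
      have hcc : cc (chi r k) (jn d x j) d = toF k (label κ' l a b) :=
        cc_eq_label l1 k (by omega) (by omega) hl.symm ha hb l2.symm (by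
          rw [hT', Finset.erase_insert, Finset.insert_erase hx]
          rw [Finset.mem_erase]; tauto) hyj (jnq_right d hxj)
      have hcc' : cc (chi r k) d (jn d x j) = (toF k (label κ' l a b))⁻¹ := by
        rw [← hcc]; exact eq_inv_of_mul_eq_one_left (cc_inv _ _ _)
      have e1 := hmu κ' l a b l1 (by omega) (by omega) hd
      rw [hκ] at e1
      set u := ((label κ' l a b).elim 1 ψ) with hu
      have e2 : C κ * nuk xm κ' l a b = u.1.2 * C κ' := by
        calc C κ * nuk xm κ' l a b = u.1.2 * u.1.1 * C κ * nuk xm κ' l a b := by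
              rw [u.2.2.2.2, i1.eu]
          _ = u.1.2 * (C κ' * muk xm κ' l a b) * nuk xm κ' l a b := by
              rw [e1]; simp only [mul_assoc]
          _ = u.1.2 * (C κ' * (muk xm κ' l a b * nuk xm κ' l a b)) := by simp only [mul_assoc]
          _ = _ := by rw [i3.uv, i2.uf]
      rw [hcc', (Fval (label κ' l a b) (fun l' hl' => label_valid κ' (by omega) hd hl')).2,
        Tval k1 k2 k3, Tval l1 l2 g3, ← mul_assoc, ← hu, ← e2, hnk]
      calc C κ * xm d * xm (AZ x j ∅) = C κ * (BB xm κ * xm d * xm (AZ x j ∅)) := by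
            simp only [← mul_assoc]; rw [i1.uf]
        _ = _ := by unfold BB; rw [k2, hm, mul_assoc]
  apply hclass_of_cover' Φ Φm
    ({a | a = xm (sg ∅) ∨ (∃ i, a = xm (sg {i})) ∨ ∃ i j, i ≠ j ∧ a = xm (AZ i j ∅)})
    (fun P h1 h2 => xm_generated (h1 _ (Or.inl rfl)) (fun i => h1 _ (Or.inr (Or.inl ⟨i, rfl⟩)))
      (fun i j hij => h1 _ (Or.inr (Or.inr ⟨i, j, hij, rfl⟩))) h2)
    (fun a _ => equiv a) (xm p) (R.idem p) p Φp Good ⟨κ0, h0, hT0, h2⟩ ?_ T F F1 Fm ?_ Fact ?_
  · rintro d g ⟨κ, k1, k2, k3⟩ hΦ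
    rw [Φx] at hΦ
    split_ifs at hΦ with c
    have hp := Option.some.inj hΦ
    have e1 : cj p d = d := congrArg Prod.fst hp
    exact eq_of_le c (by rw [cj_spec, e1]) (by rw [← k2, Tof_card k1, hr])
  · rw [Tval h0 hT0 h2, hC0]
    unfold BB
    rw [hT0, R.e_b_e]
  · rintro a (rfl | ⟨i, rfl⟩ | ⟨i, j, hij, rfl⟩) d d' h hg hΦ
    · exact step_sg ∅ d d' h hg hΦ
    · exact step_sg {i} d d' h hg hΦ
    · rw [Φx] at hΦ
      split_ifs at hΦ with c
      rw [cj_eq (D_jn d hij), one_mul] at hΦ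
      have hp := Option.some.inj hΦ
      have e1 : jn d i j = d' := congrArg Prod.fst hp
      have e2 : cc (chi r k) d (jn d i j) = h := congrArg Prod.snd hp
      subst e1 e2
      rcases AZ_cases d hij c with c1 | ⟨c1, c2, c3⟩ | ⟨c1, c2, c3⟩
      · obtain ⟨κ, k1, k2, k3⟩ := hg
        have hT := jnT_fix d hij c1
        refine ⟨⟨κ, k1, by rw [hT]; exact k2, k3⟩, ?_⟩
        have i1 := hC κ k1 k3
        rw [cc_of_T _ hT.symm, Tval k1 k2 k3, Tval k1 (by rw [hT]; exact k2) k3, F1, ← mul_assoc,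
          i1.eu]
        have := R.fix_AZ d hij c1
        rw [← k2] at this
        calc C κ * xm d * xm (AZ i j ∅) = C κ * (BB xm κ * xm d * xm (AZ i j ∅)) := by
              simp only [← mul_assoc]; rw [i1.uf]
          _ = C κ * xm (jn d i j) := by
              unfold BB; rw [this, ← mul_assoc]; change C κ * BB xm κ * _ = _; rw [i1.uf]
      · exact step_move d i j _ hg c1 rfl c3 c2
      · rw [jn_symm, AZ_symm]
        exact step_move d j i _ hg c1 rfl c3 (fun m hm => c2 m (by unfold sb at hm ⊢; omega))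

end Pool.Agent.W_MP_aeed81_al_h89
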