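import Pool.Agent.W_MP_aeed81_al_h89.MotComb

set_option linter.unusedVariables false
set_option linter.unusedSectionVars false

namespace Pool.Agent.W_MP_aeed81_al_h89

open Classical

variable {r : ℕ} {G : Type*} [Group G] {k : ℕ}

/-- product along the canonical path of 2-moves to the normal form -/
noncomputable def nfp (μ : (Fin (r+1) → ℕ) → Fin r → ℕ → ℕ → G) (κ : Fin (r+1) → ℕ) : G :=
  if h : ∃ j : Fin r, 2 ≤ κ j.succ then
    μ κ h.choose 1 1 * nfp μ (mv κ h.choose 2)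
  else 1
termination_by pot κ
decreasing_by
  have := pot_mv κ h.choose 2 h.choose_spec
  omega

theorem nfp_eq {μ : (Fin (r+1) → ℕ) → Fin r → ℕ → ℕ → G} (H : IsCocycle k μ) :
    ∀ κ : Fin (r+1) → ℕ, ∑ i, κ i = k → ∀ j : Fin r, 2 ≤ κ j.succ →
      μ κ j 1 1 * nfp μ (mv κ j 2) = nfp μ κ := by
  have main : ∀ m : ℕ, ∀ κ : Fin (r+1) → ℕ, pot κ = m → ∑ i, κ i = k → ∀ j : Fin r,
      2 ≤ κ j.succ → μ κ j 1 1 * nfp μ (mv κ j 2) = nfp μ κ := by
    intro m
    induction m using Nat.strong_induction_on with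
    | _ m ih =>
      intro κ hm hk j hj
      have hex : ∃ j : Fin r, 2 ≤ κ j.succ := ⟨j, hj⟩
      have e1 : nfp μ κ = μ κ hex.choose 1 1 * nfp μ (mv κ hex.choose 2) := by
        rw [nfp]; simp [hex]
      rw [e1]
      set l := hex.choose with hl
      have hl2 : 2 ≤ κ l.succ := hex.choose_spec
      by_cases hjl : j = l
      · rw [hjl]
      · have hjl' : l ≠ j := fun h => hjl h.symm
        -- κ_j keeps ≥ 2 after moving l and conversely
        have a1 : 2 ≤ (mv κ l 2) j.succ := by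
          rw [mv_apply]
          have : j.succ ≠ l.succ := fun h => hjl (Fin.succ_injective _ h)
          split_ifs <;> omega
        have a2 : 2 ≤ (mv κ j 2) l.succ := by
          rw [mv_apply]
          have : l.succ ≠ j.succ := fun h => hjl (Fin.succ_injective _ h).symm
          split_ifs <;> omega
        have p1 := pot_mv κ j 2 hj
        have p2 := pot_mv κ l 2 hl2
        have b1 := ih (pot (mv κ j 2)) (by omega) (mv κ j 2) rfl
          (by rw [sum_mv _ _ _ hj]; exact hk) l a2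
        have b2 := ih (pot (mv κ l 2)) (by omega) (mv κ l 2) rfl
          (by rw [sum_mv _ _ _ hl2]; exact hk) j a1
        rw [← b1, ← b2, ← mul_assoc, ← mul_assoc]
        have c := H.K3 κ j l 1 1 1 1 hk hjl le_rfl le_rfl le_rfl le_rfl hj hl2
        rw [show (1 + 1 : ℕ) = 2 from rfl] at c
        rw [c, mv_comm κ hjl 2 2 hj hl2]
  intro κ hk j hj
  exact main _ κ rfl hk j hj

/-- conjugating a cocycle by a gauge -/
def gauge (g : (Fin (r+1) → ℕ) → G) (μ : (Fin (r+1) → ℕ) → Fin r → ℕ → ℕ → G) :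
    (Fin (r+1) → ℕ) → Fin r → ℕ → ℕ → G :=
  fun κ j a b => g κ * μ κ j a b * (g (mv κ j (a + b)))⁻¹

theorem gauge_cocycle {μ : (Fin (r+1) → ℕ) → Fin r → ℕ → ℕ → G} (H : IsCocycle k μ)
    (g : (Fin (r+1) → ℕ) → G) : IsCocycle k (gauge g μ) := by
  refine ⟨?_, ?_, ?_⟩
  · intro κ j a b a' b' hk ha hb ha' hb' hle
    have := H.K1 κ j a b a' b' hk ha hb ha' hb' hle
    unfold gauge
    rw [← this, mv_mv]
    rw [show a + b + (a' + b') = a + b + a' + b' by ring]
    group
  · intro κ j a b a' b' hk ha hb ha' hb' hle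
    have := H.K2 κ j a b a' b' hk ha hb ha' hb' hle
    unfold gauge
    rw [← this, mv_mv]
    rw [show a + (b + a' + b') = a + b + (a' + b') by ring]
    group
  · intro κ j l a b a' b' hk hjl ha hb ha' hb' h1 h2
    have := H.K3 κ j l a b a' b' hk hjl ha hb ha' hb' h1 h2
    unfold gauge
    have e := mv_comm κ hjl (a + b) (a' + b') h1 h2
    rw [← e]
    calc g κ * μ κ j a b * (g (mv κ j (a + b)))⁻¹ *
          (g (mv κ j (a + b)) * μ (mv κ j (a + b)) l a' b' * (g (mv (mv κ j (a + b)) l (a' + b')))⁻¹)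
        = g κ * (μ κ j a b * μ (mv κ j (a + b)) l a' b') *
            (g (mv (mv κ j (a + b)) l (a' + b')))⁻¹ := by group
      _ = g κ * (μ κ l a' b' * μ (mv κ l (a' + b')) j a b) *
            (g (mv (mv κ j (a + b)) l (a' + b')))⁻¹ := by rw [this]
      _ = _ := by group

/-- A cocycle in which the 2-moves are trivial. -/
structure IsTauCocycle (k : ℕ) (μ : (Fin (r+1) → ℕ) → Fin r → ℕ → ℕ → G) : Prop
    extends IsCocycle k μ where
  tau : ∀ κ : Fin (r+1) → ℕ, ∑ i, κ i = k → ∀ j : Fin r, 2 ≤ κ j.succ → μ κ j 1 1 = 1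

theorem gauge_nfp {μ : (Fin (r+1) → ℕ) → Fin r → ℕ → ℕ → G} (H : IsCocycle k μ) :
    IsTauCocycle k (gauge (fun κ => (nfp μ κ)⁻¹) μ) := by
  refine ⟨gauge_cocycle H _, ?_⟩
  intro κ hk j hj
  unfold gauge
  rw [show (1 + 1 : ℕ) = 2 from rfl, inv_inv, mul_assoc, nfp_eq H κ hk j hj, inv_mul_cancel]

end Pool.Agent.W_MP_aeed81_al_h89
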