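import Pool.Agent.W_MP_aeed81_al_h89.MotPat

/-!
# Every pattern is obtained from the trivial one by killing points and joining
-/

set_option linter.unusedVariables false
set_option linter.unusedSectionVars false
set_option warn.classDefReducibility false

namespace Pool.Agent.W_MP_aeed81_al_h89

open Pool.Agent.W_MP_aeed81_al Sum Pat

variable {n : ℕ}

/-- arc length, counted at the left end -/
def alen (e : Pat n) (k : Fin n) : ℕ := if k < e.q k then (e.q k : ℕ) - k else 0

theorem sum_off {ι : Type*} [Fintype ι] [DecidableEq ι] (F G : ι → ℕ) (S : Finset ι)
    (h : ∀ k, k ∉ S → F k = G k) : ∑ k, F k + ∑ k ∈ S, G k = ∑ k, G k + ∑ k ∈ S, F k := by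
  rw [← Finset.sum_compl_add_sum S F, ← Finset.sum_compl_add_sum S G]
  have : ∑ k ∈ Sᶜ, F k = ∑ k ∈ Sᶜ, G k :=
    Finset.sum_congr rfl (fun k hk => h k (Finset.mem_compl.1 hk))
  omega

theorem sg_generated (P : Pat n → Prop) (h1 : P (sg ∅)) (hk : ∀ e i, P e → P (kill e {i}))
    (Z : Finset (Fin n)) : P (sg Z) := by
  induction Z using Finset.induction_on with
  | empty => exact h1
  | insert i Z hi ih =>
    have : sg (insert i Z) = kill (sg Z) {i} := by
      apply ext'
      · intro k
        change k = if _ then k else k
        simp
      · change (insert i Z)ᶜ = Zᶜ \ {i}
        ext k
        simp only [Finset.mem_compl, Finset.mem_insert, Finset.mem_sdiff, Finset.mem_singleton]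
        tauto
    rw [this]
    exact hk _ _ ih

/-- erase a flat outer arc -/
def unarc (e : Pat n) (u : Fin n) (hu : u < e.q u) (hin : ∀ k, u < k → k < e.q u → e.q k = k)
    (hout : ∀ w, ¬ (w < u ∧ e.q u < e.q w)) : Pat n where
  q k := if k = u ∨ k = e.q u then k else e.q k
  T := e.T ∪ {u, e.q u}
  inv i := by
    have h1 := e.inv i
    by_cases h : i = u ∨ i = e.q u
    · simp [h]
    · rw [if_neg h]
      have : ¬ (e.q i = u ∨ e.q i = e.q u) := by
        rintro (h2 | h2)
        · apply h; right; rw [← h2, h1]
        · apply h; left; rw [← h1, h2, e.inv]
      rw [if_neg this, h1]
  fix i hi := by
    simp only [Finset.mem_union, Finset.mem_insert, Finset.mem_singleton] at hi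
    split_ifs with h
    · rfl
    · rcases hi with hi | hi
      · exact e.fix i hi
      · exact absurd hi h
  nc w x h1 h2 := by
    by_cases h : w = u ∨ w = e.q u
    · rw [if_pos h] at h2; omega
    · rw [if_neg h] at h2 ⊢
      have n1 := e.nc w x h1 h2
      split_ifs with h'
      · exact ⟨h1, h2⟩
      · exact n1
  nt w x h1 h2 := by
    by_cases h : w = u ∨ w = e.q u
    · rw [if_pos h] at h2; omega
    · rw [if_neg h] at h2
      simp only [Finset.mem_union, Finset.mem_insert, Finset.mem_singleton]
      rintro (h3 | h3 | h3)
      · exact e.nt w x h1 h2 h3
      · subst h3
        exact hout w ⟨h1, (e.nc w x h1 h2).2⟩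
      · subst h3
        have n2 := e.nc w (e.q u) h1 h2
        rw [e.inv] at n2
        exact hout w ⟨n2.1, h2⟩

theorem pat_induction (P : Pat n → Prop) (h1 : P (sg ∅)) (hk : ∀ e i, P e → P (kill e {i}))
    (hj : ∀ e i j hij, P e → P (join e i j hij)) : ∀ e, P e := by
  have key : ∀ N : ℕ, ∀ e : Pat n, ∑ k, alen e k = N → P e := by
    intro N
    induction N using Nat.strong_induction_on with
    | _ N ih =>
      intro e hN
      by_cases c1 : ∃ i u, i < u ∧ u < e.q u ∧ e.q u < e.q i
      · -- nested arcs; choose the shortest arc that contains another arc
        obtain ⟨i, hi, hmin⟩ := Finset.exists_min_image
          (Finset.univ.filter fun i => ∃ u, i < u ∧ u < e.q u ∧ e.q u < e.q i)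
          (fun i => (e.q i : ℕ) - i) (by
            obtain ⟨i, h⟩ := c1
            exact ⟨i, by simpa using h⟩)
        rw [Finset.mem_filter] at hi
        obtain ⟨u, hu, hmin2⟩ := Finset.exists_min_image
          (Finset.univ.filter fun u => i < u ∧ u < e.q u ∧ e.q u < e.q i)
          (fun u => (u : ℕ)) (by
            obtain ⟨u, h⟩ := hi.2
            exact ⟨u, by simpa using h⟩)
        rw [Finset.mem_filter] at hu
        obtain ⟨_, h2, h3, h4⟩ := hu
        have hmin' : ∀ w x, w < x → x < e.q x → e.q x < e.q w → (e.q i : ℕ) - i ≤ (e.q w : ℕ) - w := by
          intro w x a b c
          exact hmin w (by simp only [Finset.mem_filter, Finset.mem_univ, true_and]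
                           exact ⟨x, a, b, c⟩)
        have hmin2' : ∀ x, i < x → x < e.q x → e.q x < e.q i → (u : ℕ) ≤ x := by
          intro x a b c
          exact hmin2 x (by simp only [Finset.mem_filter, Finset.mem_univ, true_and]
                            exact ⟨a, b, c⟩)
        -- `(u,v)` is flat, `(i,u)` has singletons inside
        have flat : ∀ k, u < k → k < e.q u → e.q k = k := by
          intro k a b
          have n1 := e.nc u k a b
          by_contra hne
          rcases lt_or_gt_of_ne hne with h | h
          · have := hmin' u (e.q k) n1.1 (by rw [e.inv]; exact h) (by rw [e.inv]; exact b)
            omega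
          · have := hmin' u k a h n1.2
            omega
        have flat2 : ∀ k, i < k → k < u → e.q k = k := by
          intro k a b
          have n1 := e.nc i k a (by omega)
          by_contra hne
          rcases lt_or_gt_of_ne hne with h | h
          · have := hmin2' (e.q k) n1.1 (by rw [e.inv]; exact h) (by rw [e.inv]; omega)
            omega
          · have := hmin2' k a h n1.2
            omega
        have ei := e.inv i
        have eu := e.inv u
        set j := e.q i with hjd
        set v := e.q u with hvd
        have tT : ∀ k, i ≤ k → k ≤ j → k ∉ e.T := by
          intro k a b hk
          have := e.fix k hk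
          by_cases h5 : k = i
          · subst h5; omega
          by_cases h6 : k = j
          · subst h6; omega
          · exact e.nt i k (by omega) (by omega) hk
        -- `f = join e i u`
        have f1 : ∀ k, (join e i u h2).q k = if k = i then u else if k = u then i else
            if k = v then j else if k = j then v else e.q k := by
          intro k
          change joinq e i u k = _
          rcases joinq_cases e h2 k with ⟨a1, a2⟩ | ⟨a1, a2⟩ | ⟨a1, a2, a3⟩ |
            ⟨a1, a2, a3, a4, a5⟩ | ⟨a1, a2, a3, a4, a5⟩ | ⟨a1, a2, a3⟩
          · rw [a2, if_pos a1]
          · rw [a2, if_neg (by omega), if_pos a1]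
          · have b1 : k ≠ v := by
              intro h
              unfold joinq at a3
              rw [if_neg a1, if_neg a2, if_neg (by rw [h, eu]; omega), if_neg (by rw [h, eu]; omega),
                if_pos (by rw [h, eu]), if_neg (by omega)] at a3
              omega
            have b2 : k ≠ j := by
              intro h
              unfold joinq at a3
              rw [if_neg a1, if_neg a2, if_neg (by rw [h, ei]; omega), if_pos (by rw [h, ei]),
                if_neg (by omega)] at a3
              omega
            rw [if_neg a1, if_neg a2, if_neg b1, if_neg b2, a3]
            unfold joinq at a3
            rw [if_neg a1, if_neg a2] at a3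
            by_cases c3 : (i < k ∧ k < u) ∨ (i < e.q k ∧ e.q k < u)
            · rcases c3 with c3 | c3
              · exact (flat2 k c3.1 c3.2).symm
              · have := flat2 _ c3.1 c3.2
                rw [e.inv] at this
                exact this
            rw [if_neg c3] at a3
            by_cases c4 : e.q k = i
            · exfalso; apply b2; rw [← e.inv k, c4]
            rw [if_neg c4] at a3
            by_cases c5 : e.q k = u
            · exfalso; apply b1; rw [← e.inv k, c5]
            rw [if_neg c5] at a3
            exact a3.symm
          · rw [if_neg (by omega), if_neg (by omega), if_neg (by omega), if_pos (by omega), a4]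
          · rw [if_neg (by omega), if_neg (by omega), if_pos (by omega), a4]
          · have b1 : k ≠ v := by rintro rfl; omega
            have b2 : k ≠ j := by rintro rfl; omega
            rw [a3, if_neg (by omega), if_neg (by omega), if_neg b1, if_neg b2]
        have f2 : (join e i u h2).T = e.T := by
          ext k
          change k ∈ joinT e i u ↔ _
          unfold joinT
          simp only [Finset.mem_filter, Finset.mem_univ, true_and]
          have ti : i ∉ e.T := tT i le_rfl (by omega)
          have tu : u ∉ e.T := tT u (by omega) (by omega)
          constructor
          · rintro ⟨_, h | h | h⟩
            · exact h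
            · exact absurd h.2 tu
            · exact absurd h.2 ti
          · intro h
            refine ⟨?_, Or.inl h⟩
            by_contra hc
            exact tT k (by omega) (by omega) h
        have hfP : P (join e i u h2) := by
          apply ih (∑ k, alen (join e i u h2) k) _ _ rfl
          rw [← hN]
          have := sum_off (alen (join e i u h2)) (alen e) {i, u, v, j} (by
            intro k hk
            simp only [Finset.mem_insert, Finset.mem_singleton, not_or] at hk
            unfold alen
            rw [f1 k, if_neg hk.1, if_neg hk.2.1, if_neg hk.2.2.1, if_neg hk.2.2.2])
          have e1 : i ≠ u := by omega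
          have e2 : i ≠ v := by omega
          have e3 : i ≠ j := by omega
          have e4 : u ≠ v := by omega
          have e5 : u ≠ j := by omega
          have e6 : v ≠ j := by omega
          have s0 : ∀ F : Fin n → ℕ, ∑ k ∈ ({i, u, v, j} : Finset (Fin n)), F k =
              F i + (F u + (F v + F j)) := by
            intro F
            rw [Finset.sum_insert (by simp [e1, e2, e3]), Finset.sum_insert (by simp [e4, e5]),
              Finset.sum_insert (by simp [e6]), Finset.sum_singleton]
          rw [s0, s0] at this
          have g1 : alen (join e i u h2) i = (u : ℕ) - i := by
            unfold alen
            rw [f1 i, if_pos rfl, if_pos h2]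
          have g2 : alen (join e i u h2) u = 0 := by
            unfold alen
            rw [f1 u, if_neg e1.symm, if_pos rfl, if_neg (by omega)]
          have g3 : alen (join e i u h2) v = (j : ℕ) - v := by
            unfold alen
            rw [f1 v, if_neg e2.symm, if_neg e4.symm, if_pos rfl, if_pos h4]
          have g4 : alen (join e i u h2) j = 0 := by
            unfold alen
            rw [f1 j, if_neg e3.symm, if_neg e5.symm, if_neg e6.symm, if_pos rfl,
              if_neg (by omega)]
          have g5 : alen e i = (j : ℕ) - i := by
            unfold alen
            rw [if_pos (by omega)]
          have g6 : alen e u = (v : ℕ) - u := by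
            unfold alen
            rw [if_pos (by omega)]
          have g7 : alen e v = 0 := by
            unfold alen
            rw [eu, if_neg (by omega)]
          have g8 : alen e j = 0 := by
            unfold alen
            rw [ei, if_neg (by omega)]
          omega
        have e' : e = join (join e i u h2) u v h3 := by
          apply ext'
          · intro k
            have q1 : (join e i u h2).q u = i := by rw [f1, if_neg (by omega), if_pos rfl]
            have q2 : (join e i u h2).q v = j := by
              rw [f1, if_neg (by omega), if_neg (by omega), if_pos rfl]
            change _ = joinq (join e i u h2) u v k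
            rcases joinq_cases (join e i u h2) h3 k with ⟨a1, a2⟩ | ⟨a1, a2⟩ | ⟨a1, a2, a3⟩ |
              ⟨a1, a2, a3, a4, a5⟩ | ⟨a1, a2, a3, a4, a5⟩ | ⟨a1, a2, a3⟩
            · rw [a2, a1]
            · rw [a2, a1, eu]
            · rw [a3]
              unfold joinq at a3
              rw [if_neg a1, if_neg a2] at a3
              by_cases c3 : (u < k ∧ k < v) ∨ (u < (join e i u h2).q k ∧ (join e i u h2).q k < v)
              · rcases c3 with c3 | c3
                · exact flat k c3.1 c3.2
                · have b1 : k ≠ i := by rintro rfl; rw [f1, if_pos rfl] at c3; omega
                  have b2 : k ≠ j := by
                    rintro rfl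
                    rw [f1, if_neg (by omega), if_neg (by omega), if_neg (by omega),
                      if_pos rfl] at c3; omega
                  rw [f1, if_neg b1, if_neg a1, if_neg a2, if_neg b2] at c3
                  have := flat _ c3.1 c3.2
                  rw [e.inv] at this
                  exact this.symm
              rw [if_neg c3] at a3
              by_cases c4 : (join e i u h2).q k = u
              · rw [if_pos c4, q2, if_neg (by omega)] at a3
                exfalso
                subst a3
                rw [f1, if_neg (by omega), if_neg (by omega), if_neg (by omega), if_pos rfl] at c4
                omega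
              rw [if_neg c4] at a3
              by_cases c5 : (join e i u h2).q k = v
              · rw [if_pos c5, q1, if_neg (by omega)] at a3
                exfalso
                subst a3
                rw [f1, if_pos rfl] at c5
                omega
              rw [if_neg c5] at a3
              have b1 : k ≠ i := by rintro rfl; rw [f1, if_pos rfl] at c4; exact c4 rfl
              have b2 : k ≠ j := by
                rintro rfl
                rw [f1, if_neg (by omega), if_neg (by omega), if_neg (by omega),
                  if_pos rfl] at c5
                exact c5 rfl
              rw [f1, if_neg b1, if_neg a1, if_neg a2, if_neg b2] at a3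
              exact a3
            · rw [a4, q2]
              rw [q1] at a3
              rw [← a3]
            · rw [a4, q1]
              rw [q2] at a3
              rw [← a3, ei]
            · rw [a3]
              have b1 : k ≠ i := by rintro rfl; rw [f1, if_pos rfl] at a2; omega
              have b2 : k ≠ j := by
                rintro rfl
                rw [f1, if_neg (by omega), if_neg (by omega), if_neg (by omega),
                  if_pos rfl] at a2; omega
              rw [f1, if_neg b1, if_neg (by omega), if_neg (by omega), if_neg b2]
          · ext k
            change _ ↔ k ∈ joinT (join e i u h2) u v
            unfold joinT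
            simp only [Finset.mem_filter, Finset.mem_univ, true_and, f2]
            have tv : v ∉ e.T := tT v (by omega) (by omega)
            have tu : u ∉ e.T := tT u (by omega) (by omega)
            constructor
            · intro h
              refine ⟨?_, Or.inl h⟩
              by_contra hc
              exact tT k (by omega) (by omega) h
            · rintro ⟨_, h | h | h⟩
              · exact h
              · exact absurd h.2 tv
              · exact absurd h.2 tu
        rw [e']
        exact hj _ _ _ _ hfP
      · -- all arcs are flat
        push Not at c1
        by_cases c2 : ∃ u, u < e.q u
        · obtain ⟨u, hu⟩ := c2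
          have hin : ∀ k, u < k → k < e.q u → e.q k = k := by
            intro k a b
            have n1 := e.nc u k a b
            by_contra hne
            rcases lt_or_gt_of_ne hne with h | h
            · have := c1 u (e.q k) n1.1 (by rw [e.inv]; exact h)
              rw [e.inv] at this
              omega
            · have := c1 u k a h
              omega
          have hout : ∀ w, ¬ (w < u ∧ e.q u < e.q w) := by
            rintro w ⟨a, b⟩
            have := c1 w u a hu
            omega
          have e' : e = join (unarc e u hu hin hout) u (e.q u) hu := by
            have q1 : ∀ k, (unarc e u hu hin hout).q k = if k = u ∨ k = e.q u then k else e.q k :=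
              fun _ => rfl
            apply ext'
            · intro k
              change _ = joinq _ u (e.q u) k
              rcases joinq_cases (unarc e u hu hin hout) hu k with ⟨a1, a2⟩ | ⟨a1, a2⟩ |
                ⟨a1, a2, a3⟩ | ⟨a1, a2, a3, a4, a5⟩ | ⟨a1, a2, a3, a4, a5⟩ | ⟨a1, a2, a3⟩
              · rw [a2, a1]
              · rw [a2, a1, e.inv]
              · rw [a3]
                have b : ¬ (k = u ∨ k = e.q u) := by tauto
                unfold joinq at a3
                rw [if_neg a1, if_neg a2] at a3
                rw [q1 k, if_neg b] at a3
                by_cases c3 : (u < k ∧ k < e.q u) ∨ (u < e.q k ∧ e.q k < e.q u)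
                · rcases c3 with c3 | c3
                  · exact hin k c3.1 c3.2
                  · have := hin _ c3.1 c3.2
                    rw [e.inv] at this
                    exact this.symm
                rw [if_neg c3] at a3
                by_cases c4 : e.q k = u
                · exfalso; apply a2; rw [← c4, e.inv]
                rw [if_neg c4] at a3
                by_cases c5 : e.q k = e.q u
                · exfalso; apply a1; rw [← e.inv k, c5, e.inv]
                rw [if_neg c5] at a3
                exact a3
              · exfalso
                rw [q1, if_pos (Or.inl rfl)] at a3
                omega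
              · exfalso
                rw [q1, if_pos (Or.inr rfl)] at a3
                omega
              · rw [a3, q1, if_neg (by omega)]
            · ext k
              change _ ↔ k ∈ joinT _ _ _
              unfold joinT
              simp only [Finset.mem_filter, Finset.mem_univ, true_and]
              have q2 : ∀ k, k ∈ (unarc e u hu hin hout).T ↔ k ∈ e.T ∨ k = u ∨ k = e.q u := by
                intro k
                change k ∈ e.T ∪ {u, e.q u} ↔ _
                simp only [Finset.mem_union, Finset.mem_insert, Finset.mem_singleton]
              rw [q2]
              constructor
              · intro h
                refine ⟨?_, Or.inl (Or.inl h)⟩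
                by_contra hc
                have := e.fix k h
                by_cases h5 : k = u
                · subst h5; omega
                by_cases h6 : k = e.q u
                · rw [h6, e.inv] at this; omega
                · exact e.nt u k (by omega) (by omega) h
              · rintro ⟨h0, (h | h | h) | h | h⟩
                · exact h
                · omega
                · omega
                · have := h.1
                  rw [q1, if_neg (by omega)] at this
                  have h2 : k = e.q u := by rw [← this, e.inv]
                  omega
                · have := h.1
                  rw [q1, if_neg (by omega)] at this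
                  have h2 : k = u := by rw [← e.inv k, this, e.inv]
                  omega
          rw [e']
          apply hj
          apply ih (∑ k, alen (unarc e u hu hin hout) k) _ _ rfl
          rw [← hN]
          apply Finset.sum_lt_sum
          · intro k _
            unfold alen
            change (if k < (if k = u ∨ k = e.q u then k else e.q k) then
              (((if k = u ∨ k = e.q u then k else e.q k : Fin n) : ℕ)) - k else 0) ≤ _
            by_cases h : k = u ∨ k = e.q u
            · simp [h]
            · rw [if_neg h]
          · refine ⟨u, Finset.mem_univ _, ?_⟩
            unfold alen
            change (if u < (if u = u ∨ u = e.q u then u else e.q u) then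
              (((if u = u ∨ u = e.q u then u else e.q u : Fin n) : ℕ)) - u else 0) < _
            rw [if_pos (Or.inl rfl), if_neg (lt_irrefl _), if_pos hu]
            omega
        · push Not at c2
          have hq : ∀ k, e.q k = k := by
            intro k
            have a := c2 k
            have b := c2 (e.q k)
            rw [e.inv] at b
            omega
          have : e = sg e.Tᶜ := by
            apply ext'
            · intro k; rw [hq k]; rfl
            · change e.T = (e.T)ᶜᶜ
              rw [compl_compl]
          rw [this]
          exact sg_generated P h1 hk _
  intro e
  exact key _ e rfl

end Pool.Agent.W_MP_aeed81_al_h89
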