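import Pool.Agent.W_MP_aeed81_al_h89.MotPat

/-!
# The formula for `a_{ij} e a_{ij}`
-/

set_option linter.unusedVariables false
set_option linter.unusedSectionVars false
set_option warn.classDefReducibility false

namespace Pool.Agent.W_MP_aeed81_al_h89

open Pool.Agent.W_MP_aeed81_al Sum Pat

variable {n : ℕ}

/-- the common value at `i` and `j` -/
def CC (e : Pat n) (i j : Fin n) (s : Fin n → Prop) : Prop :=
  ((e.q i < i ∨ j < e.q i) ∧ s (e.q i)) ∨ ((e.q j < i ∨ j < e.q j) ∧ s (e.q j))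

/-- the set in the middle row -/
def UU (e : Pat n) (i j : Fin n) (s : Fin n → Prop) (k : Fin n) : Prop :=
  ((k < i ∨ j < k) ∧ s k) ∨ ((k = i ∨ k = j) ∧ CC e i j s) ∨ ((i < k ∧ k < j) ∧
    (((e.q k < i ∨ j < e.q k) ∧ s (e.q k)) ∨ ((e.q k = i ∨ e.q k = j) ∧ CC e i j s)))

theorem UU_i (e : Pat n) {i j : Fin n} (hij : i < j) (s : Fin n → Prop) :
    UU e i j s i ↔ CC e i j s := by
  have a1 : ¬ (i < i ∨ j < i) := by omega
  have a2 : ¬ (i < i ∧ i < j) := by omega
  unfold UU
  generalize CC e i j s = C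
  simp only [a1, a2, false_and, false_or, or_false, true_or, true_and]

theorem UU_j (e : Pat n) {i j : Fin n} (hij : i < j) (s : Fin n → Prop) :
    UU e i j s j ↔ CC e i j s := by
  have a1 : ¬ (j < i ∨ j < j) := by omega
  have a2 : ¬ (i < j ∧ j < j) := by omega
  unfold UU
  generalize CC e i j s = C
  simp only [a1, a2, false_and, false_or, or_false, or_true, true_and]

theorem UU_out (e : Pat n) {i j : Fin n} (hij : i < j) (s : Fin n → Prop) {k : Fin n}
    (hk : k < i ∨ j < k) : UU e i j s k ↔ s k := by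
  have a1 : ¬ (k = i ∨ k = j) := by omega
  have a2 : ¬ (i < k ∧ k < j) := by omega
  unfold UU
  simp only [a1, a2, hk, false_and, or_false, true_and]

theorem UU_in (e : Pat n) {i j : Fin n} (hij : i < j) (s : Fin n → Prop) {k : Fin n}
    (hk : i < k ∧ k < j) : UU e i j s k ↔ (((e.q k < i ∨ j < e.q k) ∧ s (e.q k)) ∨
      ((e.q k = i ∨ e.q k = j) ∧ CC e i j s)) := by
  have a1 : ¬ (k = i ∨ k = j) := by omega
  have a2 : ¬ (k < i ∨ j < k) := by omega
  unfold UU
  simp only [a1, a2, hk, false_and, false_or, true_and, and_true, and_self]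

theorem UU_closed_out (e : Pat n) {i j : Fin n} (hij : i < j) (s : Fin n → Prop)
    (hs : ∀ k, s k ↔ s (joinq e i j k)) {k : Fin n} (hk : k < i ∨ j < k) :
    UU e i j s k ↔ UU e i j s (e.q k) := by
  rw [UU_out e hij s hk]
  have h := hs k
  unfold joinq at h
  by_cases o1 : e.q k < i ∨ j < e.q k
  · rw [UU_out e hij s o1]
    rwa [if_neg (by omega), if_neg (by omega), if_neg (by omega), if_neg (by omega),
      if_neg (by omega)] at h
  by_cases o2 : e.q k = i
  · have ki : e.q i = k := by rw [← o2, e.inv]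
    rw [o2, UU_i e hij]
    unfold CC
    rw [ki]
    by_cases o3 : e.q j < i ∨ j < e.q j
    · rw [if_neg (by omega), if_neg (by omega), if_neg (by omega), if_pos o2,
        if_neg (by omega)] at h
      simp only [hk, o3, true_and, ← h, or_self]
    · simp only [hk, o3, true_and, false_and, or_false]
  by_cases o3 : e.q k = j
  · have kj : e.q j = k := by rw [← o3, e.inv]
    rw [o3, UU_j e hij]
    unfold CC
    rw [kj]
    by_cases o4 : e.q i < i ∨ j < e.q i
    · rw [if_neg (by omega), if_neg (by omega), if_neg (by omega), if_neg o2, if_pos o3,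
        if_neg (by omega)] at h
      simp only [hk, o4, true_and, ← h, or_self]
    · simp only [hk, o4, true_and, false_and, false_or]
  · have o4 : i < e.q k ∧ e.q k < j := by omega
    rw [UU_in e hij s o4, e.inv]
    have a1 : ¬ (k = i ∨ k = j) := by omega
    simp only [hk, a1, true_and, false_and, or_false]

theorem UU_closed (e : Pat n) {i j : Fin n} (hij : i < j) (s : Fin n → Prop)
    (hs : ∀ k, s k ↔ s (joinq e i j k)) (k : Fin n) :
    UU e i j s k ↔ UU e i j s (e.q k) := by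
  by_cases c1 : k < i ∨ j < k
  · exact UU_closed_out e hij s hs c1
  by_cases c2 : e.q k < i ∨ j < e.q k
  · have := UU_closed_out e hij s hs c2
    rw [e.inv] at this
    exact this.symm
  by_cases c3 : k = i
  · subst c3
    by_cases c4 : e.q k = k
    · rw [c4]
    by_cases c5 : e.q k = j
    · rw [c5, UU_i e hij, UU_j e hij]
    · have c6 : k < e.q k ∧ e.q k < j := by omega
      rw [UU_i e hij, UU_in e hij s c6, e.inv]
      have a1 : ¬ (k < k ∨ j < k) := by omega
      simp only [a1, false_and, false_or, true_or, true_and]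
  by_cases c4 : k = j
  · subst c4
    by_cases c4 : e.q k = k
    · rw [c4]
    by_cases c5 : e.q k = i
    · rw [c5, UU_i e hij, UU_j e hij]
    · have c6 : i < e.q k ∧ e.q k < k := by omega
      rw [UU_j e hij, UU_in e hij s c6, e.inv]
      have a1 : ¬ (k < i ∨ k < k) := by omega
      simp only [a1, false_and, false_or, or_true, true_and]
  · have c5 : i < k ∧ k < j := by omega
    by_cases c6 : e.q k = i
    · rw [UU_in e hij s c5, c6, UU_i e hij]
      have a1 : ¬ (i < i ∨ j < i) := by omega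
      simp only [a1, false_and, false_or, true_or, true_and]
    by_cases c7 : e.q k = j
    · rw [UU_in e hij s c5, c7, UU_j e hij]
      have a1 : ¬ (j < i ∨ j < j) := by omega
      simp only [a1, false_and, false_or, or_true, true_and]
    · have c8 : i < e.q k ∧ e.q k < j := by omega
      rw [UU_in e hij s c5, UU_in e hij s c8, e.inv]
      have a1 : ¬ (k = i ∨ k = j) := by omega
      have a2 : ¬ (e.q k = i ∨ e.q k = j) := by omega
      simp only [a1, a2, c1, c2, false_and, or_false]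

theorem mem_joinT (e : Pat n) {i j : Fin n} (k : Fin n) : k ∈ joinT e i j ↔ (k < i ∨ j < k) ∧
    (k ∈ e.T ∨ (e.q k = i ∧ j ∈ e.T) ∨ (e.q k = j ∧ i ∈ e.T)) := by
  unfold joinT
  simp

theorem UU_T (e : Pat n) {i j : Fin n} (hij : i < j) (s t : Fin n → Prop)
    (h3 : ∀ k ∈ joinT e i j, s k ↔ t k) (k : Fin n) (hk : k ∈ e.T) :
    UU e i j s k ↔ UU e i j t k := by
  have hfix := e.fix k hk
  by_cases c1 : k < i ∨ j < k
  · rw [UU_out e hij s c1, UU_out e hij t c1]
    exact h3 k ((mem_joinT e k).2 ⟨c1, Or.inl hk⟩)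
  by_cases c2 : k = i
  · subst c2
    rw [UU_i e hij, UU_i e hij]
    unfold CC
    have a1 : ¬ (e.q k < k ∨ j < e.q k) := by omega
    by_cases c3 : e.q j < k ∨ j < e.q j
    · have := h3 (e.q j) ((mem_joinT e _).2 ⟨c3, Or.inr (Or.inr ⟨e.inv j, hk⟩)⟩)
      simp only [a1, c3, this, false_and, false_or, true_and]
    · simp only [a1, c3, false_and, or_false]
  by_cases c3 : k = j
  · subst c3
    rw [UU_j e hij, UU_j e hij]
    unfold CC
    have a1 : ¬ (e.q k < i ∨ k < e.q k) := by omega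
    by_cases c3 : e.q i < i ∨ k < e.q i
    · have := h3 (e.q i) ((mem_joinT e _).2 ⟨c3, Or.inr (Or.inl ⟨e.inv i, hk⟩)⟩)
      simp only [a1, c3, this, false_and, or_false, true_and]
    · simp only [a1, c3, false_and, or_false]
  · have c4 : i < k ∧ k < j := by omega
    rw [UU_in e hij s c4, UU_in e hij t c4]
    have a1 : ¬ (e.q k < i ∨ j < e.q k) := by omega
    have a2 : ¬ (e.q k = i ∨ e.q k = j) := by omega
    simp only [a1, a2, false_and, or_false]

theorem D_join (e : Pat n) {i j : Fin n} (hij : i < j) :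
    (ap i j hij).D * e.D * (ap i j hij).D = (join e i j hij).D := by
  apply Cl_ext
  intro s t
  rw [Cl_mul]
  simp only [Cl_mul, Cl_ap]
  simp only [Cl_D]
  have hT : ∀ k, k ∈ (join e i j hij).T ↔ (k < i ∨ j < k) ∧
      (k ∈ e.T ∨ (e.q k = i ∧ j ∈ e.T) ∨ (e.q k = j ∧ i ∈ e.T)) := fun k => mem_joinT e k
  constructor
  · rintro ⟨v, ⟨u, ⟨h1, h2, h3⟩, h4, h5, h6⟩, h7, h8, h9⟩
    refine ⟨?_, ?_, ?_⟩
    · intro k
      change _ ↔ s (joinq e i j k)
      rcases joinq_cases e hij k with ⟨a1, a2⟩ | ⟨a1, a2⟩ | ⟨a1, a2, a3⟩ | ⟨a1, a2, a3, a4, a5⟩ |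
        ⟨a1, a2, a3, a4, a5⟩ | ⟨a1, a2, a3⟩
      · rw [a2, a1]; exact h1
      · rw [a2, a1]; exact h1.symm
      · rw [a3]
      · rw [a4, h3 k a1, h4 k, a2, h2, h4 j, h3 _ a5]
      · rw [a4, h3 k a1, h4 k, a2, ← h2, h4 i, h3 _ a5]
      · rw [a3, h3 k a1, h4 k, h3 _ a2]
    · intro k
      change _ ↔ t (joinq e i j k)
      rcases joinq_cases e hij k with ⟨a1, a2⟩ | ⟨a1, a2⟩ | ⟨a1, a2, a3⟩ | ⟨a1, a2, a3, a4, a5⟩ |
        ⟨a1, a2, a3, a4, a5⟩ | ⟨a1, a2, a3⟩
      · rw [a2, a1]; exact h8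
      · rw [a2, a1]; exact h8.symm
      · rw [a3]
      · rw [a4, ← h9 k a1, h5 k, a2, h7, h5 j, h9 _ a5]
      · rw [a4, ← h9 k a1, h5 k, a2, ← h7, h5 i, h9 _ a5]
      · rw [a3, ← h9 k a1, h5 k, h9 _ a2]
    · intro k hk
      rw [hT] at hk
      obtain ⟨c1, c2 | ⟨c2, c3⟩ | ⟨c2, c3⟩⟩ := hk
      · rw [h3 k c1, h6 k c2, h9 k c1]
      · rw [h3 k c1, h4 k, c2, h2, h6 j c3, ← h7, ← c2, ← h5 k, h9 k c1]
      · rw [h3 k c1, h4 k, c2, ← h2, h6 i c3, h7, ← c2, ← h5 k, h9 k c1]
  · rintro ⟨h1, h2, h3⟩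
    have s1 : s i ↔ s j := by
      have := h1 i
      change _ ↔ s (joinq e i j i) at this
      unfold joinq at this
      rwa [if_pos rfl] at this
    have t1 : t i ↔ t j := by
      have := h2 i
      change _ ↔ t (joinq e i j i) at this
      unfold joinq at this
      rwa [if_pos rfl] at this
    exact ⟨UU e i j t, ⟨UU e i j s, ⟨s1, (UU_i e hij s).trans (UU_j e hij s).symm,
      fun k hk => (UU_out e hij s hk).symm⟩, UU_closed e hij s h1, UU_closed e hij t h2,
      UU_T e hij s t h3⟩, (UU_i e hij t).trans (UU_j e hij t).symm, t1,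
      fun k hk => UU_out e hij t hk⟩

end Pool.Agent.W_MP_aeed81_al_h89
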