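import Pool.Agent.W_MP_aeed81_al_h89.MotRel

/-!
# The relations K1, K2, K3 between the basic paths
-/

set_option linter.unusedVariables false
set_option linter.unusedSectionVars false
set_option warn.classDefReducibility false

namespace Pool.Agent.W_MP_aeed81_al_h89

open Pool.Agent.W_MP_aeed81_al Sum Pat

variable {n : ℕ}

theorem jn_symm (e : Pat n) (x j : Fin n) : jn e x j = jn e j x := by
  unfold jn
  by_cases h : x < j
  · have h' : ¬ j < x := by omega
    rw [dif_pos h, dif_neg h', dif_pos h]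
  · by_cases h' : j < x
    · rw [dif_neg h, dif_pos h', dif_pos h']
    · rw [dif_neg h, dif_neg h', dif_neg h', dif_neg h]

theorem AZ_symm (x j : Fin n) (Z : Finset (Fin n)) : AZ x j Z = AZ j x Z := jn_symm _ _ _

theorem AZ_comm {i j k l : Fin n} (hij : i ≠ j) (hkl : k ≠ l)
    (h : ∀ m, ib i j m → ¬ ib k l m) :
    (AZ i j ∅).D * (AZ k l ∅).D = (AZ k l ∅).D * (AZ i j ∅).D := by
  have key : ∀ {i j k l : Fin n} (hij : i ≠ j) (hkl : k ≠ l) (h : ∀ m, ib i j m → ¬ ib k l m)
      (s t : Fin n → Prop), Cl ((AZ i j ∅).D * (AZ k l ∅).D) s t →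
      Cl ((AZ k l ∅).D * (AZ i j ∅).D) s t := by
    intro i j k l hij hkl h s t
    rw [Cl_mul, Cl_mul]
    simp only [Cl_AZ hij, Cl_AZ hkl]
    rintro ⟨u, ⟨h1, h2, h3⟩, h4, h5, h6⟩
    have ki : ib i j i := by unfold ib; omega
    have kj : ib i j j := by unfold ib; omega
    have kk : ib k l k := by unfold ib; omega
    have kl : ib k l l := by unfold ib; omega
    have nk : ¬ ib i j k := fun h' => h k h' kk
    have nl : ¬ ib i j l := fun h' => h l h' kl
    have ni := h i ki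
    have nj := h j kj
    refine ⟨fun m => if ib k l m then t m else s m, ⟨?_, ?_, ?_⟩, ?_, ?_, ?_⟩
    · rw [h3 k nk (by simp), h3 l nl (by simp)]; exact h4
    · simp [kk, kl, h5]
    · intro m hm _
      simp [hm]
    · simp [ni, nj, h1]
    · rw [← h6 i ni (by simp), ← h6 j nj (by simp)]; exact h2
    · intro m hm _
      by_cases hm2 : ib k l m
      · simp [hm2]
      · simp only [hm2, if_false]
        exact (h3 m hm (by simp)).trans (h6 m hm2 (by simp))
  apply Cl_ext
  intro s t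
  exact ⟨key hij hkl h s t, key hkl hij (fun m h1 h2 => h m h2 h1) s t⟩

theorem jnT_fix (e : Pat n) {i j : Fin n} (hij : i ≠ j) (h : ∀ k, ib i j k → k ∉ e.T) :
    (jn e i j).T = e.T := by
  ext k
  rw [mem_jnT e hij]
  have hi : i ∉ e.T := h i (by unfold ib; omega)
  have hj : j ∉ e.T := h j (by unfold ib; omega)
  constructor
  · rintro ⟨h1, h2 | h2 | h2⟩
    · exact h2
    · exact absurd h2.2 hj
    · exact absurd h2.2 hi
  · intro h1
    exact ⟨fun h2 => h k h2 h1, Or.inl h1⟩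

namespace PRep

variable {M : Type*} [Semigroup M] {X : Pat n → M}

theorem AZ_comm' (R : PRep X) {i j k l : Fin n} (hij : i ≠ j) (hkl : k ≠ l)
    (h : ∀ m, ib i j m → ¬ ib k l m) :
    X (AZ i j ∅) * X (AZ k l ∅) = X (AZ k l ∅) * X (AZ i j ∅) := by
  have h1 := AZ_comm hij hkl h
  have h2 : (AZ i j ∅).D * (AZ k l ∅).D = (jn (AZ k l ∅) i j).D := by
    rw [← D_jn _ hij, mul_assoc, ← h1, ← mul_assoc, D_idem]
  rw [R.comm_mul h2, R.comm_mul' h2]

theorem b_e_b (R : PRep X) (e : Pat n) : X (sg e.Tᶜ) * X e * X (sg e.Tᶜ) = X (sg e.Tᶜ) := by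
  apply R.conj
  rw [D_kill]
  congr 1
  apply ext'
  · intro k
    change (if k ∈ e.Tᶜ ∨ e.q k ∈ e.Tᶜ then k else e.q k) = k
    split_ifs with h
    · rfl
    · simp only [Finset.mem_compl, not_or, not_not] at h
      exact e.fix k h.1
  · change e.T \ e.Tᶜ = e.Tᶜᶜ
    ext k; simp

theorem e_b_e (R : PRep X) (e : Pat n) : X e * X (sg e.Tᶜ) * X e = X e := by
  apply R.conj
  apply e_sg_e
  intro z hz
  exact Finset.mem_compl.1 hz

theorem mu_right (R : PRep X) (T T' : Finset (Fin n)) (x j y : Fin n) :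
    mu X T T' x j y * X (sg T'ᶜ) = mu X T T' x j y := by
  unfold mu
  rw [mul_assoc, R.idem]

theorem mu_left (R : PRep X) (T T' : Finset (Fin n)) (x j y : Fin n) :
    X (sg Tᶜ) * mu X T T' x j y = mu X T T' x j y := by
  unfold mu
  simp only [← mul_assoc]
  rw [R.idem]

/-- cancel the end of a path -/
theorem cancel_end (R : PRep X) (e : Pat n) {u v : M} (hu : u * X (sg e.Tᶜ) = u)
    (hv : v * X (sg e.Tᶜ) = v) (h : u * X e = v * X e) : u = v := by
  calc u = u * (X (sg e.Tᶜ) * X e * X (sg e.Tᶜ)) := by rw [R.b_e_b, hu]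
    _ = (u * X (sg e.Tᶜ)) * X e * X (sg e.Tᶜ) := by simp only [mul_assoc]
    _ = v * X (sg e.Tᶜ) * X e * X (sg e.Tᶜ) := by rw [hu, h, hv]
    _ = v * (X (sg e.Tᶜ) * X e * X (sg e.Tᶜ)) := by simp only [mul_assoc]
    _ = v := by rw [R.b_e_b, hv]

/-- strictly monotone triple -/
def mono3 (x j y : Fin n) : Prop := (x < j ∧ j < y) ∨ (y < j ∧ j < x)

/-- path continued -/
theorem path_move (R : PRep X) (e : Pat n) {x j y : Fin n} (hx : x ∈ e.T) (hj : e.q j = y)
    (h : (x < j ∧ j < y) ∨ (y < j ∧ j < x)) (hin : ∀ k, sb x j k → k ∉ e.T) {u : M}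
    (hu : u * X (sg e.Tᶜ) = u) :
    u * X e * X (AZ x j ∅) = u * mu X e.T (jn e x j).T x j y * X (jn e x j) := by
  calc u * X e * X (AZ x j ∅) = u * (X (sg e.Tᶜ) * X e * X (AZ x j ∅)) := by
        simp only [← mul_assoc]; rw [hu]
    _ = _ := by rw [R.main_move e hx hj h hin, mul_assoc]

theorem path_fix (R : PRep X) (e : Pat n) {i j : Fin n} (hij : i ≠ j)
    (hT : ∀ k, ib i j k → k ∉ e.T) {u : M} (hu : u * X (sg e.Tᶜ) = u) :
    u * X e * X (AZ i j ∅) = u * X (jn e i j) := by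
  calc u * X e * X (AZ i j ∅) = u * (X (sg e.Tᶜ) * X e * X (AZ i j ∅)) := by
        simp only [← mul_assoc]; rw [hu]
    _ = _ := by rw [R.fix_AZ e hij hT, ← mul_assoc, hu]

/-- **K2** (and K1 by reversal). -/
theorem K2 (R : PRep X) {T : Finset (Fin n)} {x j y j' y' : Fin n}
    (h : (x < j ∧ j < y ∧ y < j' ∧ j' < y') ∨ (y' < j' ∧ j' < y ∧ y < j ∧ j < x))
    (hx : x ∈ T) (hT : ∀ k, ib x y' k → k ∈ T → k = x) :
    mu X T (insert y (T.erase x)) x j y *
      mu X (insert y (T.erase x)) (insert y' (T.erase x)) y j' y' =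
    mu X T (insert y' (T.erase x)) x j y' := by
  have hne : ∀ k, ib x y' k → k ≠ x → k ∉ T := fun k h1 h2 h3 => h2 (hT k h1 h3)
  have hjy : j ≠ y := by omega
  have hjy' : j' ≠ y' := by omega
  have hxj : x ≠ j := by omega
  have hyj' : y ≠ j' := by omega
  -- the starting pattern
  obtain ⟨e, he1, he2, he3⟩ : ∃ e : Pat n, e.T = T ∧ e.q j = y ∧ e.q j' = y' := by
    have a1 : (jn (sg Tᶜ) j y).T = T := by
      rw [jnT_fix _ hjy]
      · change Tᶜᶜ = T
        rw [compl_compl]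
      · intro k hk
        change k ∉ Tᶜᶜ
        rw [compl_compl]
        apply hne k
        · unfold ib at hk ⊢; omega
        · unfold ib at hk; omega
    refine ⟨jn (jn (sg Tᶜ) j y) j' y', ?_, ?_, ?_⟩
    · rw [jnT_fix _ hjy', a1]
      intro k hk
      rw [a1]
      apply hne k
      · unfold ib at hk ⊢; omega
      · unfold ib at hk; omega
    · rw [jnq_out _ hjy']
      · exact jnq_left _ hjy
      · unfold ib; omega
      · rw [jnq_left _ hjy]; unfold ib; omega
    · exact jnq_left _ hjy'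
  subst he1
  have he2' : e.q y = j := by rw [← he2, e.inv]
  -- first order
  have m1 : (x < j ∧ j < y) ∨ (y < j ∧ j < x) := by omega
  have hin1 : ∀ k, sb x j k → k ∉ e.T := by
    intro k hk
    apply hne k
    · unfold ib; unfold sb at hk; omega
    · unfold sb at hk; omega
  have t1 := jnT_move e hx he2 m1 hin1
  have m2 : (y < j' ∧ j' < y') ∨ (y' < j' ∧ j' < y) := by omega
  have e1q : (jn e x j).q j' = y' := by
    rw [jnq_out e hxj, he3]
    · unfold ib; omega
    · rw [he3]; unfold ib; omega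
  have hyT : y ∈ (jn e x j).T := by rw [t1]; exact Finset.mem_insert_self _ _
  have hin2 : ∀ k, sb y j' k → k ∉ (jn e x j).T := by
    intro k hk
    rw [t1, Finset.mem_insert, Finset.mem_erase]
    rintro (h1 | h1)
    · unfold sb at hk; omega
    · apply hne k _ h1.1 h1.2
      unfold ib; unfold sb at hk; omega
  have t2 := jnT_move (jn e x j) hyT e1q m2 hin2
  have yT : y ∉ e.T := hne y (by unfold ib; omega) (by omega)
  have t2' : (jn (jn e x j) y j').T = insert y' (e.T.erase x) := by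
    rw [t2, t1, Finset.erase_insert]
    rw [Finset.mem_erase]; tauto
  -- second order
  have hfix : ∀ k, ib y j' k → k ∉ e.T := by
    intro k hk
    apply hne k
    · unfold ib at hk ⊢; omega
    · unfold ib at hk; omega
  have t3 := jnT_fix e hyj' hfix
  have e2q : (jn e y j').q j = y' := by
    have := jnq_join e hyj' (by rw [he2']; unfold ib; omega) (by rw [he3]; unfold ib; omega)
    rwa [he2', he3] at this
  have m3 : (x < j ∧ j < y') ∨ (y' < j ∧ j < x) := by omega
  -- the final patterns agree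
  have hdis : ∀ m, ib x j m → ¬ ib y j' m := by
    intro m h1 h2
    unfold ib at h1 h2
    omega
  have hfin : jn (jn e y j') x j = jn (jn e x j) y j' := by
    have c := AZ_comm hxj hyj' hdis
    apply D_injective
    rw [← D_jn _ hxj, ← D_jn _ hyj', ← D_jn _ hyj', ← D_jn _ hxj]
    calc (AZ x j ∅).D * ((AZ y j' ∅).D * e.D * (AZ y j' ∅).D) * (AZ x j ∅).D
        = ((AZ x j ∅).D * (AZ y j' ∅).D) * e.D * ((AZ y j' ∅).D * (AZ x j ∅).D) := by
          simp only [mul_assoc]
      _ = ((AZ y j' ∅).D * (AZ x j ∅).D) * e.D * ((AZ x j ∅).D * (AZ y j' ∅).D) := by rw [c]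
      _ = _ := by simp only [mul_assoc]
  have p1 : X (sg e.Tᶜ) * X e * X (AZ x j ∅) * X (AZ y j' ∅) =
      mu X e.T (jn e x j).T x j y * mu X (jn e x j).T (jn (jn e x j) y j').T y j' y' *
        X (jn (jn e x j) y j') := by
    rw [R.main_move e hx he2 m1 hin1, R.path_move _ hyT e1q m2 hin2 (R.mu_right _ _ _ _ _)]
  have p2 : X (sg e.Tᶜ) * X e * X (AZ y j' ∅) * X (AZ x j ∅) =
      mu X e.T (jn (jn e x j) y j').T x j y' * X (jn (jn e x j) y j') := by
    rw [R.fix_AZ e hyj' hfix]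
    have := R.main_move (jn e y j') (x := x) (j := j) (y := y') (by rw [t3]; exact hx) e2q m3
      (by rw [t3]; exact hin1)
    rw [t3, hfin] at this
    exact this
  have p3 : X (sg e.Tᶜ) * X e * X (AZ x j ∅) * X (AZ y j' ∅) =
      X (sg e.Tᶜ) * X e * X (AZ y j' ∅) * X (AZ x j ∅) := by
    rw [mul_assoc, R.AZ_comm' hxj hyj' hdis, ← mul_assoc]
  rw [p1, p2] at p3
  have := R.cancel_end (jn (jn e x j) y j') (by rw [mul_assoc, R.mu_right]) (R.mu_right _ _ _ _ _) p3
  rw [t2', t1] at this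
  exact this

/-- **K3.** -/
theorem K3 (R : PRep X) {T : Finset (Fin n)} {x j y x' j' y' : Fin n}
    (h : x < j ∧ j < y ∧ y < x' ∧ x' < j' ∧ j' < y')
    (hx : x ∈ T) (hx' : x' ∈ T) (hT : ∀ k, ib x y k → k ∈ T → k = x)
    (hT' : ∀ k, ib x' y' k → k ∈ T → k = x') :
    mu X T (insert y (T.erase x)) x j y *
      mu X (insert y (T.erase x)) (insert y' ((insert y (T.erase x)).erase x')) x' j' y' =
    mu X T (insert y' (T.erase x')) x' j' y' *
      mu X (insert y' (T.erase x')) (insert y' ((insert y (T.erase x)).erase x')) x j y := by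
  have hne : ∀ k, ib x y k → k ≠ x → k ∉ T := fun k h1 h2 h3 => h2 (hT k h1 h3)
  have hne' : ∀ k, ib x' y' k → k ≠ x' → k ∉ T := fun k h1 h2 h3 => h2 (hT' k h1 h3)
  have hjy : j ≠ y := by omega
  have hjy' : j' ≠ y' := by omega
  have hxj : x ≠ j := by omega
  have hxj' : x' ≠ j' := by omega
  obtain ⟨e, he1, he2, he3⟩ : ∃ e : Pat n, e.T = T ∧ e.q j = y ∧ e.q j' = y' := by
    have a1 : (jn (sg Tᶜ) j y).T = T := by
      rw [jnT_fix _ hjy]
      · change Tᶜᶜ = T
        rw [compl_compl]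
      · intro k hk
        change k ∉ Tᶜᶜ
        rw [compl_compl]
        apply hne k
        · unfold ib at hk ⊢; omega
        · unfold ib at hk; omega
    refine ⟨jn (jn (sg Tᶜ) j y) j' y', ?_, ?_, ?_⟩
    · rw [jnT_fix _ hjy', a1]
      intro k hk
      rw [a1]
      apply hne' k
      · unfold ib at hk ⊢; omega
      · unfold ib at hk; omega
    · rw [jnq_out _ hjy']
      · exact jnq_left _ hjy
      · unfold ib; omega
      · rw [jnq_left _ hjy]; unfold ib; omega
    · exact jnq_left _ hjy'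
  subst he1
  have m1 : (x < j ∧ j < y) ∨ (y < j ∧ j < x) := by omega
  have m2 : (x' < j' ∧ j' < y') ∨ (y' < j' ∧ j' < x') := by omega
  have hin1 : ∀ k, sb x j k → k ∉ e.T := by
    intro k hk
    apply hne k
    · unfold ib; unfold sb at hk; omega
    · unfold sb at hk; omega
  have hin1' : ∀ k, sb x' j' k → k ∉ e.T := by
    intro k hk
    apply hne' k
    · unfold ib; unfold sb at hk; omega
    · unfold sb at hk; omega
  have t1 := jnT_move e hx he2 m1 hin1
  have t1' := jnT_move e hx' he3 m2 hin1'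
  have e1q : (jn e x j).q j' = y' := by
    rw [jnq_out e hxj, he3]
    · unfold ib; omega
    · rw [he3]; unfold ib; omega
  have e1q' : (jn e x' j').q j = y := by
    rw [jnq_out e hxj', he2]
    · unfold ib; omega
    · rw [he2]; unfold ib; omega
  have hx'T : x' ∈ (jn e x j).T := by
    rw [t1, Finset.mem_insert, Finset.mem_erase]
    exact Or.inr ⟨by omega, hx'⟩
  have hxT : x ∈ (jn e x' j').T := by
    rw [t1', Finset.mem_insert, Finset.mem_erase]
    exact Or.inr ⟨by omega, hx⟩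
  have hin2 : ∀ k, sb x' j' k → k ∉ (jn e x j).T := by
    intro k hk
    rw [t1, Finset.mem_insert, Finset.mem_erase]
    rintro (h1 | h1)
    · unfold sb at hk; omega
    · exact hin1' k hk h1.2
  have hin2' : ∀ k, sb x j k → k ∉ (jn e x' j').T := by
    intro k hk
    rw [t1', Finset.mem_insert, Finset.mem_erase]
    rintro (h1 | h1)
    · unfold sb at hk; omega
    · exact hin1 k hk h1.2
  have t2 := jnT_move (jn e x j) hx'T e1q m2 hin2
  have hdis : ∀ m, ib x j m → ¬ ib x' j' m := by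
    intro m h1 h2
    unfold ib at h1 h2
    omega
  have hfin : jn (jn e x' j') x j = jn (jn e x j) x' j' := by
    have c := AZ_comm hxj hxj' hdis
    apply D_injective
    rw [← D_jn _ hxj, ← D_jn _ hxj', ← D_jn _ hxj', ← D_jn _ hxj]
    calc (AZ x j ∅).D * ((AZ x' j' ∅).D * e.D * (AZ x' j' ∅).D) * (AZ x j ∅).D
        = ((AZ x j ∅).D * (AZ x' j' ∅).D) * e.D * ((AZ x' j' ∅).D * (AZ x j ∅).D) := by
          simp only [mul_assoc]
      _ = ((AZ x' j' ∅).D * (AZ x j ∅).D) * e.D * ((AZ x j ∅).D * (AZ x' j' ∅).D) := by rw [c]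
      _ = _ := by simp only [mul_assoc]
  have p1 : X (sg e.Tᶜ) * X e * X (AZ x j ∅) * X (AZ x' j' ∅) =
      mu X e.T (jn e x j).T x j y * mu X (jn e x j).T (jn (jn e x j) x' j').T x' j' y' *
        X (jn (jn e x j) x' j') := by
    rw [R.main_move e hx he2 m1 hin1, R.path_move _ hx'T e1q m2 hin2 (R.mu_right _ _ _ _ _)]
  have p2 : X (sg e.Tᶜ) * X e * X (AZ x' j' ∅) * X (AZ x j ∅) =
      mu X e.T (jn e x' j').T x' j' y' * mu X (jn e x' j').T (jn (jn e x j) x' j').T x j y *
        X (jn (jn e x j) x' j') := by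
    rw [R.main_move e hx' he3 m2 hin1', R.path_move _ hxT e1q' m1 hin2' (R.mu_right _ _ _ _ _),
      hfin]
  have p3 : X (sg e.Tᶜ) * X e * X (AZ x j ∅) * X (AZ x' j' ∅) =
      X (sg e.Tᶜ) * X e * X (AZ x' j' ∅) * X (AZ x j ∅) := by
    rw [mul_assoc, R.AZ_comm' hxj hxj' hdis, ← mul_assoc]
  rw [p1, p2] at p3
  have := R.cancel_end (jn (jn e x j) x' j') (by rw [mul_assoc, R.mu_right])
    (by rw [mul_assoc, R.mu_right]) p3
  rw [t2, t1, t1'] at this
  exact this

/-- the basic paths are invertible -/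
theorem mu_inv (R : PRep X) {T : Finset (Fin n)} {x j y : Fin n}
    (h : (x < j ∧ j < y) ∨ (y < j ∧ j < x)) (hx : x ∈ T)
    (hT : ∀ k, ib x y k → k ∈ T → k = x) :
    mu X T (insert y (T.erase x)) x j y * mu X (insert y (T.erase x)) T y j x = X (sg Tᶜ) := by
  have hne : ∀ k, ib x y k → k ≠ x → k ∉ T := fun k h1 h2 h3 => h2 (hT k h1 h3)
  have hxj : x ≠ j := by omega
  have hjy : j ≠ y := by omega
  have hyT : y ∉ T := hne y (by unfold ib; omega) (by omega)
  set T' := insert y (T.erase x) with hT'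
  have hyT' : y ∈ T' := Finset.mem_insert_self _ _
  -- `p b' p`
  have m1 : X (AZ x j ∅) * X (sg T'ᶜ) * X (AZ x j ∅) = X (AZ x j T'ᶜ) :=
    R.conj _ _ _ (AZ_sg_AZ hxj _)
  have m1T : (AZ x j T'ᶜ).T = T' := by
    unfold AZ
    rw [jnT_fix _ hxj]
    · change T'ᶜᶜ = T'
      rw [compl_compl]
    · intro k hk
      change k ∉ T'ᶜᶜ
      rw [compl_compl, hT', Finset.mem_insert, Finset.mem_erase]
      rintro (h1 | h1)
      · unfold ib at hk; omega
      · apply hne k _ h1.1 h1.2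
        unfold ib at hk ⊢; omega
  have m1q : (AZ x j T'ᶜ).q j = x := jnq_right _ hxj
  have m2T : (jn (AZ x j T'ᶜ) y j).T = T := by
    rw [jnT_move _ (by rw [m1T]; exact hyT') m1q (by omega), m1T, hT', Finset.erase_insert,
      Finset.insert_erase hx]
    · rw [Finset.mem_erase]; tauto
    · intro k hk
      rw [m1T, hT', Finset.mem_insert, Finset.mem_erase]
      rintro (h1 | h1)
      · unfold sb at hk; omega
      · apply hne k _ h1.1 h1.2
        unfold ib; unfold sb at hk; omega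
  have m2 : X (AZ j y ∅) * X (AZ x j T'ᶜ) * X (AZ j y ∅) = X (jn (AZ x j T'ᶜ) y j) := by
    rw [jn_symm]
    exact R.conj _ _ _ (D_jn _ hjy)
  have m3 := R.b_e_b (jn (AZ x j T'ᶜ) y j)
  rw [m2T] at m3
  unfold mu
  calc X (sg Tᶜ) * X (AZ j y ∅) * X (AZ x j ∅) * X (sg T'ᶜ) *
        (X (sg T'ᶜ) * X (AZ j x ∅) * X (AZ y j ∅) * X (sg Tᶜ))
      = X (sg Tᶜ) * X (AZ j y ∅) * X (AZ x j ∅) * (X (sg T'ᶜ) * X (sg T'ᶜ)) * X (AZ x j ∅) *
          X (AZ j y ∅) * X (sg Tᶜ) := by
        rw [AZ_symm j x, AZ_symm y j]; simp only [mul_assoc]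
    _ = X (sg Tᶜ) * (X (AZ j y ∅) * (X (AZ x j ∅) * X (sg T'ᶜ) * X (AZ x j ∅)) *
          X (AZ j y ∅)) * X (sg Tᶜ) := by rw [R.idem]; simp only [mul_assoc]
    _ = X (sg Tᶜ) := by rw [m1, m2, m3]

end PRep

end Pool.Agent.W_MP_aeed81_al_h89
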