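import Pool.Agent.W_MP_aeed81_al_h89.MotUB

set_option linter.unusedVariables false
set_option linter.unusedSectionVars false

namespace Pool.Agent.W_MP_aeed81_al_h89

open Classical

variable {r : ℕ}

/-- The labels that occur for compositions of `k`. -/
def Lab.Valid (k : ℕ) : Lab r → Prop
  | .sp _ Z => Z.card + 3 = k
  | .sg j Z => Z.card + 3 = k ∧ ∃ i ∈ Z, i ≤ j.castSucc
  | .rh _ Z => Z.card + 4 = k

/-- a move of a composition of `k` with trivial label -/
def TrivMove (k : ℕ) (κ κ' : Fin (r+1) → ℕ) : Prop :=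
  ∑ i, κ i = k ∧ ∃ (j : Fin r) (a b : ℕ), 1 ≤ a ∧ 1 ≤ b ∧ a + b ≤ κ j.succ ∧
    label κ j a b = none ∧ κ' = mv κ j (a + b)

/-- compositions connected by moves with trivial label -/
def TrivConn (k : ℕ) : (Fin (r+1) → ℕ) → (Fin (r+1) → ℕ) → Prop :=
  Relation.EqvGen (TrivMove k)

end Pool.Agent.W_MP_aeed81_al_h89
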