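import Pool.Agent.W_MP_aeed81_al_h89.MotCocycle

set_option linter.unusedVariables false
set_option linter.unusedSectionVars false

namespace Pool.Agent.W_MP_aeed81_al_h89

open Classical symmDiff

variable {r : ℕ}

/-- The labels of the essential arrows. `sp j Z`: the 3-move with arc ends after `1` and `3`
steps in the tight context `Z`; `sg j Z`: after `2` and `3` steps; `rh j Z`: the 4-move with arc
ends after `2` and `4` steps. -/
inductive Lab (r : ℕ)
  | sp (j : Fin r) (Z : Finset (Fin (r+1)))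
  | sg (j : Fin r) (Z : Finset (Fin (r+1)))
  | rh (j : Fin r) (Z : Finset (Fin (r+1)))

/-- after removing `d` points from the gap to the right of `j`, all gaps have size at most `1` -/
def Tight (κ : Fin (r+1) → ℕ) (j : Fin r) (d : ℕ) : Prop :=
  d ≤ κ j.succ ∧ κ j.succ ≤ d + 1 ∧ ∀ i, i ≠ j.succ → κ i ≤ 1

/-- the context of a move: the set of gaps of odd size after removing `d` points from the gap to
the right of `j` -/
def ctx (κ : Fin (r+1) → ℕ) (j : Fin r) (d : ℕ) : Finset (Fin (r+1)) :=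
  odd (Function.update κ j.succ (κ j.succ - d))

/-- The label of an arrow. -/
noncomputable def label (κ : Fin (r+1) → ℕ) (j : Fin r) (a b : ℕ) : Option (Lab r) :=
  if a = 1 ∧ b = 2 ∧ Tight κ j 3 then some (.sp j (ctx κ j 3))
  else if a = 2 ∧ b = 1 ∧ Tight κ j 3 ∧ ∃ i ∈ ctx κ j 3, i ≤ j.castSucc then
    some (.sg j (ctx κ j 3))
  else if a = 2 ∧ b = 2 ∧ Tight κ j 4 then some (.rh j (ctx κ j 4))
  else none

/-- the composition with a tight context -/
def tc (j : Fin r) (Z : Finset (Fin (r+1))) (d : ℕ) : Fin (r+1) → ℕ :=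
  ad (fun i => if i ∈ Z then 1 else 0) j.succ d

theorem exists_ad (κ : Fin (r+1) → ℕ) (j : Fin r) (d : ℕ) (h : d ≤ κ j.succ) :
    κ = ad (Function.update κ j.succ (κ j.succ - d)) j.succ d := by
  funext x
  rw [ad_apply]
  by_cases hx : x = j.succ
  · subst hx; simp; omega
  · simp [hx]

theorem tight_eq_tc {κ : Fin (r+1) → ℕ} {j : Fin r} {d : ℕ} (h : Tight κ j d) :
    κ = tc j (ctx κ j d) d := by
  obtain ⟨h1, h2, h3⟩ := h
  unfold tc
  funext x
  rw [ad_apply]
  unfold ctx odd
  simp only [Finset.mem_filter, Finset.mem_univ, true_and]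
  by_cases hx : x = j.succ
  · subst hx
    simp only [Function.update_self, if_true]
    split_ifs <;> omega
  · have := h3 x hx
    simp only [hx, if_false, ne_eq, not_false_eq_true, Function.update_of_ne]
    split_ifs <;> omega

theorem not_tight {κ : Fin (r+1) → ℕ} {j : Fin r} {d : ℕ} (h1 : d ≤ κ j.succ)
    (h : ¬ Tight κ j d) : ∃ i, 2 ≤ Function.update κ j.succ (κ j.succ - d) i := by
  by_contra hc
  push Not at hc
  apply h
  refine ⟨h1, ?_, ?_⟩
  · have := hc j.succ
    rw [Function.update_self] at this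
    omega
  · intro i hi
    have := hc i
    rw [Function.update_of_ne hi] at this
    omega

theorem odd_mv_odd (κ : Fin (r+1) → ℕ) (j : Fin r) (d : ℕ) (hd : d % 2 = 1) (h : d ≤ κ j.succ) :
    odd κ = ctx κ j d ∆ {j.succ} ∧ odd (mv κ j d) = ctx κ j d ∆ {j.castSucc} := by
  have e := exists_ad κ j d h
  constructor
  · conv_lhs => rw [e]
    rw [odd_ad_odd _ _ _ hd]; rfl
  · conv_lhs => rw [e]
    rw [mv_ad, odd_ad_odd _ _ _ hd]; rfl

theorem odd_mv_even (κ : Fin (r+1) → ℕ) (j : Fin r) (d : ℕ) (hd : d % 2 = 0) (h : d ≤ κ j.succ) :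
    odd (mv κ j d) = odd κ := by
  have e := exists_ad κ j d h
  conv_lhs => rw [e]
  conv_rhs => rw [e]
  rw [mv_ad, odd_ad_even _ _ _ hd, odd_ad_even _ _ _ hd]

variable {G : Type*} [Group G] {k : ℕ} {μ : (Fin (r+1) → ℕ) → Fin r → ℕ → ℕ → G}

theorem ub_tau (H : IsTauCocycle k μ) : ∃ (g : (Fin (r+1) → ℕ) → G) (ψ : Lab r → G),
    ∀ κ : Fin (r+1) → ℕ, ∑ i, κ i = k → ∀ (j : Fin r) (a b : ℕ), 1 ≤ a → 1 ≤ b →
      a + b ≤ κ j.succ → μ κ j a b = (g κ)⁻¹ * ((label κ j a b).elim 1 ψ) *
        g (mv κ j (a + b)) := by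
  set g : (Fin (r+1) → ℕ) → G := fun κ => gp (Sm k μ) (odd κ) with hg
  let ψ : Lab r → G := fun x => match x with
    | .sp j Z => g (tc j Z 3) * μ (tc j Z 3) j 1 2 * (g (mv (tc j Z 3) j 3))⁻¹
    | .sg j Z => g (tc j Z 3) * μ (tc j Z 3) j 2 1 * (g (mv (tc j Z 3) j 3))⁻¹
    | .rh j Z => g (tc j Z 4) * μ (tc j Z 4) j 2 2 * (g (mv (tc j Z 4) j 4))⁻¹
  refine ⟨g, ψ, ?_⟩
  intro κ hk j a b ha hb hle
  have hctx : ∀ d, d ≤ κ j.succ → ∑ i, Function.update κ j.succ (κ j.succ - d) i + d = k := by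
    intro d hd
    have e := exists_ad κ j d hd
    have : ∑ i, κ i = ∑ i, Function.update κ j.succ (κ j.succ - d) i + d := by
      conv_lhs => rw [e]
      rw [sum_ad]
    omega
  -- the value of the non-tight 3-move
  have hsig : 3 ≤ κ j.succ → μ κ j 2 1 = Sm k μ j (ctx κ j 3) := by
    intro h3
    have := sigma_eq H j (Function.update κ j.succ (κ j.succ - 3)) (hctx 3 h3)
    rw [← exists_ad κ j 3 h3] at this
    exact this
  have hnt : 3 ≤ κ j.succ → ¬ Tight κ j 3 → Sm k μ j (ctx κ j 3) = (g κ)⁻¹ * g (mv κ j 3) := by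
    intro h3 ht
    have h4 := card_odd_add_two_le (not_tight h3 ht)
    have h5 := odd_card_parity (Function.update κ j.succ (κ j.succ - 3))
    have h6 := hctx 3 h3
    have := gp_spec (Sm k μ) k (fun w j h1 h2 => Sm_R1 H w j h1 h2)
      (fun w j l hjl h1 h2 => Sm_R2 H w j l hjl h1 h2) (ctx κ j 3) j
      (by unfold ctx; omega) (by unfold ctx; omega)
    rw [this, hg]
    obtain ⟨e1, e2⟩ := odd_mv_odd κ j 3 rfl h3
    simp only
    rw [← e1, ← e2]
  have hsig' : 3 ≤ κ j.succ → ¬ Tight κ j 3 → μ κ j 1 2 = μ κ j 2 1 := by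
    intro h3 ht
    have := sigma'_eq H j (Function.update κ j.succ (κ j.succ - 3)) (hctx 3 h3) (not_tight h3 ht)
    rw [← exists_ad κ j 3 h3] at this
    exact this
  have hev : ∀ d, d % 2 = 0 → d ≤ κ j.succ → g (mv κ j d) = g κ := by
    intro d hd hd'
    rw [hg]
    simp only
    rw [odd_mv_even κ j d hd hd']
  have cases : (a = 1 ∧ b = 1) ∨ (a = 1 ∧ b = 2) ∨ (a = 2 ∧ b = 1) ∨ (a = 1 ∧ b = 3) ∨
      (a = 3 ∧ b = 1) ∨ (a = 2 ∧ b = 2) ∨ 5 ≤ a + b := by omega
  rcases cases with ⟨rfl, rfl⟩ | ⟨rfl, rfl⟩ | ⟨rfl, rfl⟩ | ⟨rfl, rfl⟩ | ⟨rfl, rfl⟩ | ⟨rfl, rfl⟩ | h5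
  · rw [H.tau κ hk j hle, hev (1 + 1) rfl hle]
    simp [label]
  · by_cases ht : Tight κ j 3
    · have hl : label κ j 1 2 = some (.sp j (ctx κ j 3)) := by simp [label, ht]
      rw [hl]
      change _ = (g κ)⁻¹ * (g (tc j (ctx κ j 3) 3) * μ (tc j (ctx κ j 3) 3) j 1 2 *
        (g (mv (tc j (ctx κ j 3) 3) j 3))⁻¹) * _
      rw [← tight_eq_tc ht]
      group
    · have hl : label κ j 1 2 = none := by simp [label, ht]
      rw [hl, hsig' hle ht, hsig hle, hnt hle ht]
      simp
  · by_cases ht : Tight κ j 3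
    · by_cases hi : ∃ i ∈ ctx κ j 3, i ≤ j.castSucc
      · have hl : label κ j 2 1 = some (.sg j (ctx κ j 3)) := by simp [label, ht, hi]
        rw [hl]
        change _ = (g κ)⁻¹ * (g (tc j (ctx κ j 3) 3) * μ (tc j (ctx κ j 3) 3) j 2 1 *
          (g (mv (tc j (ctx κ j 3) 3) j 3))⁻¹) * _
        rw [← tight_eq_tc ht]
        group
      · have hl : label κ j 2 1 = none := by
          unfold label
          rw [if_neg (by simp), if_neg (fun h => hi h.2.2.2), if_neg (by simp)]
        rw [hl, hsig hle]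
        push Not at hi
        obtain ⟨e1, e2⟩ := odd_mv_odd κ j 3 rfl hle
        have hf : IsFirst (odd (mv κ j 3)) j := by
          rw [e2]
          refine ⟨mem_symmDiff_singleton.2 (Or.inr ⟨rfl, fun h => absurd le_rfl (not_le.2 (hi _ h))⟩),
            ?_⟩
          intro x hx hc
          rcases mem_symmDiff_singleton.1 hc with ⟨h1, _⟩ | ⟨h1, _⟩
          · exact absurd hx.le (not_le.2 (hi _ h1))
          · rw [h1] at hx; exact absurd hx (lt_irrefl _)
        have e := gp_eq (Sm k μ) hf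
        rw [e2, sd_sd] at e
        rw [hg]
        simp only [Option.elim_none, mul_one]
        rw [e1, show (2 + 1 : ℕ) = 3 from rfl, e2, e]
        group
    · have hl : label κ j 2 1 = none := by simp [label, ht]
      rw [hl, hsig hle, hnt hle ht]
      simp
  · have hl : label κ j 1 3 = none := by simp [label]
    rw [hl, (G2 H hk hle).2, hev (1 + 3) rfl hle]
    simp
  · have hl : label κ j 3 1 = none := by simp [label]
    rw [hl, (G2 H hk hle).1, hev (3 + 1) rfl hle]
    simp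
  · by_cases ht : Tight κ j 4
    · have hl : label κ j 2 2 = some (.rh j (ctx κ j 4)) := by simp [label, ht]
      rw [hl]
      change _ = (g κ)⁻¹ * (g (tc j (ctx κ j 4) 4) * μ (tc j (ctx κ j 4) 4) j 2 2 *
        (g (mv (tc j (ctx κ j 4) 4) j 4))⁻¹) * _
      rw [← tight_eq_tc ht]
      group
    · have hl : label κ j 2 2 = none := by simp [label, ht]
      have := rho_eq H j (Function.update κ j.succ (κ j.succ - 4)) (hctx 4 hle)
        (not_tight hle ht)
      rw [← exists_ad κ j 4 hle] at this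
      rw [hl, this, hev (2 + 2) rfl hle]
      simp
  · have hl : label κ j a b = none := by
      unfold label
      rw [if_neg (by omega), if_neg (by omega), if_neg (by omega)]
    have h3 : 3 ≤ κ j.succ := by omega
    have ht : ¬ Tight κ j 3 := by
      intro ht
      have := ht.2.1
      omega
    rw [hl, G4 H (a + b) h5 κ j a b hk ha hb rfl hle]
    by_cases hp : (a + b) % 2 = 0
    · rw [if_pos hp, hev _ hp hle]
      simp
    · rw [if_neg hp, hsig h3, hnt h3 ht]
      simp only [Option.elim_none, mul_one]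
      congr 1
      rw [hg]
      simp only
      have hp' : (a + b) % 2 = 1 := by omega
      rw [(odd_mv_odd κ j 3 rfl h3).2, (odd_mv_odd κ j (a + b) hp' hle).2]
      have : ctx κ j 3 = ctx κ j (a + b) := by
        unfold ctx odd
        apply Finset.filter_congr
        intro x _
        by_cases hx : x = j.succ
        · subst hx
          rw [Function.update_self, Function.update_self]
          omega
        · rw [Function.update_of_ne hx, Function.update_of_ne hx]
      rw [this]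

/-- **Upper bound, combinatorial part**: every cocycle on the groupoid of compositions is, up to
a gauge, the image of the universal labelling. -/
theorem ub_comb (H : IsCocycle k μ) : ∃ (g : (Fin (r+1) → ℕ) → G) (ψ : Lab r → G),
    ∀ κ : Fin (r+1) → ℕ, ∑ i, κ i = k → ∀ (j : Fin r) (a b : ℕ), 1 ≤ a → 1 ≤ b →
      a + b ≤ κ j.succ → μ κ j a b = (g κ)⁻¹ * ((label κ j a b).elim 1 ψ) *
        g (mv κ j (a + b)) := by
  obtain ⟨g, ψ, h⟩ := ub_tau (gauge_nfp H)
  refine ⟨fun κ => g κ * (nfp μ κ)⁻¹, ψ, ?_⟩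
  intro κ hk j a b ha hb hle
  have := h κ hk j a b ha hb hle
  unfold gauge at this
  simp only [inv_inv] at this
  calc μ κ j a b = nfp μ κ * ((nfp μ κ)⁻¹ * μ κ j a b * nfp μ (mv κ j (a + b))) *
        (nfp μ (mv κ j (a + b)))⁻¹ := by group
    _ = _ := by rw [this]; group

end Pool.Agent.W_MP_aeed81_al_h89
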