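import Pool.Agent.W_MP_aeed81_al_h89.MotX
import Pool.Agent.W_MP_aeed81_al_h89.MotUB

/-!
# Positions of transversals, essential moves, and the labelling of pairs of patterns
-/

set_option linter.unusedVariables false
set_option linter.unusedSectionVars false
set_option warn.classDefReducibility false

namespace Pool.Agent.W_MP_aeed81_al_h89

open Pool.Agent.W_MP_aeed81_al Sum Pat

variable {n r : ℕ}

/-- the position of transversal `j` of a composition `κ` (gap sizes `κ 0, ..., κ r`) -/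
def posN (κ : Fin (r+1) → ℕ) (j : Fin r) : ℕ :=
  (∑ i : Fin (r+1), if (i : ℕ) ≤ (j : ℕ) then κ i else 0) + j

/-- the set of transversals of a composition -/
def Tof (n : ℕ) (κ : Fin (r+1) → ℕ) : Finset (Fin n) :=
  Finset.univ.filter fun x => ∃ j, posN κ j = (x : ℕ)

/-- all pairs of neighbouring non-transversals lie in the window of a move from `x` to `y` -/
def TightT (T : Finset (Fin n)) (x y : Fin n) : Prop :=
  ∀ u v : Fin n, (v : ℕ) = u + 1 → u ∉ T → v ∉ T → x < u ∧ u ≤ y

/-- an essential move `e → f`: the transversal `x` moves to `y` over the arcs `(x,z)` of `f` and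
`(z,y)` of `e` -/
def Ess (e f : Pat n) (x z y : Fin n) : Prop :=
  x ∈ e.T ∧ f.q x = z ∧ e.q z = y ∧ y ∈ f.T ∧ f.T = insert y (e.T.erase x) ∧ TightT e.T x y ∧
  (((z : ℕ) = x + 1 ∧ (y : ℕ) = z + 2) ∨ ((z : ℕ) = x + 2 ∧ (y : ℕ) = z + 1) ∨
    ((z : ℕ) = x + 2 ∧ (y : ℕ) = z + 2))

open Classical in
/-- the label of a pair of patterns -/
noncomputable def cc {F : Type*} [Group F] (χ : Finset (Fin n) → Fin n → Fin n → Fin n → F)
    (e f : Pat n) : F :=
  if h : ∃ p : Fin n × Fin n × Fin n, Ess e f p.1 p.2.1 p.2.2 then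
    χ e.T h.choose.1 h.choose.2.1 h.choose.2.2
  else if h : ∃ p : Fin n × Fin n × Fin n, Ess f e p.1 p.2.1 p.2.2 then
    (χ f.T h.choose.1 h.choose.2.1 h.choose.2.2)⁻¹
  else 1

end Pool.Agent.W_MP_aeed81_al_h89
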