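import Pool.Agent.W_MP_aeed81_al_h89.MotLabDef

/-!
# The square relations for the labelling of pairs of patterns
-/

set_option linter.unusedVariables false
set_option linter.unusedSectionVars false
set_option warn.classDefReducibility false

namespace Pool.Agent.W_MP_aeed81_al_h89

open Pool.Agent.W_MP_aeed81_al Sum Pat

variable {n r : ℕ}

theorem Ess.lt {e f : Pat n} {x z y : Fin n} (h : Ess e f x z y) : x < z ∧ z < y := by
  obtain ⟨_, _, _, _, _, _, h⟩ := h
  omega

theorem Ess.not_mem {e f : Pat n} {x z y : Fin n} (h : Ess e f x z y) : x ∉ f.T := by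
  have := h.lt
  obtain ⟨_, _, _, _, h, _, _⟩ := h
  rw [h, Finset.mem_insert, Finset.mem_erase]
  rintro (h1 | h1)
  · omega
  · exact h1.1 rfl

theorem Ess.not_mem' {e f : Pat n} {x z y : Fin n} (h : Ess e f x z y) : y ∉ e.T := by
  have h2 := h.lt
  obtain ⟨_, _, h3, _, _, _, _⟩ := h
  intro h4
  have := e.fix y h4
  rw [← h3, e.inv] at this
  omega

theorem Ess.unique {e f : Pat n} {x z y x' z' y' : Fin n} (h : Ess e f x z y)
    (h' : Ess e f x' z' y') : x = x' ∧ z = z' ∧ y = y' := by
  have h1 : x = x' := by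
    by_contra hne
    apply h'.not_mem
    rw [h.2.2.2.2.1, Finset.mem_insert, Finset.mem_erase]
    exact Or.inr ⟨Ne.symm hne, h'.1⟩
  subst h1
  have h2 : z = z' := h.2.1.symm.trans h'.2.1
  subst h2
  exact ⟨rfl, rfl, h.2.2.1.symm.trans h'.2.2.1⟩

theorem Ess.asymm {e f : Pat n} {x z y x' z' y' : Fin n} (h : Ess e f x z y)
    (h' : Ess f e x' z' y') : False := by
  have h1 : x' = y := by
    have h2 := h'.1
    have h3 := h'.not_mem
    rw [h.2.2.2.2.1, Finset.mem_insert, Finset.mem_erase] at h2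
    rcases h2 with h2 | h2
    · exact h2
    · exact absurd h2.2 h3
  have h2 : x = y' := by
    have h2 := h.1
    have h3 := h.not_mem
    rw [h'.2.2.2.2.1, Finset.mem_insert, Finset.mem_erase] at h2
    rcases h2 with h2 | h2
    · exact h2
    · exact absurd h2.2 h3
  have := h.lt
  have := h'.lt
  omega

variable {F : Type*} [Group F] (χ : Finset (Fin n) → Fin n → Fin n → Fin n → F)

theorem cc_of_ess {e f : Pat n} {x z y : Fin n} (h : Ess e f x z y) :
    cc χ e f = χ e.T x z y := by
  have hex : ∃ p : Fin n × Fin n × Fin n, Ess e f p.1 p.2.1 p.2.2 := ⟨(x, z, y), h⟩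
  unfold cc
  rw [dif_pos hex]
  obtain ⟨h1, h2, h3⟩ := hex.choose_spec.unique h
  rw [h1, h2, h3]

theorem cc_of_ess' {e f : Pat n} {x z y : Fin n} (h : Ess f e x z y) :
    cc χ e f = (χ f.T x z y)⁻¹ := by
  have hex : ∃ p : Fin n × Fin n × Fin n, Ess f e p.1 p.2.1 p.2.2 := ⟨(x, z, y), h⟩
  have hno : ¬ ∃ p : Fin n × Fin n × Fin n, Ess e f p.1 p.2.1 p.2.2 := by
    rintro ⟨p, hp⟩
    exact hp.asymm h
  unfold cc
  rw [dif_neg hno, dif_pos hex]
  obtain ⟨h1, h2, h3⟩ := hex.choose_spec.unique h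
  rw [h1, h2, h3]

theorem cc_of_not {e f : Pat n} (h : ∀ x z y, ¬ Ess e f x z y) (h' : ∀ x z y, ¬ Ess f e x z y) :
    cc χ e f = 1 := by
  unfold cc
  rw [dif_neg, dif_neg]
  · rintro ⟨p, hp⟩; exact h' _ _ _ hp
  · rintro ⟨p, hp⟩; exact h _ _ _ hp

theorem cc_of_T {e f : Pat n} (h : e.T = f.T) : cc χ e f = 1 := by
  apply cc_of_not
  · intro x z y h1
    exact h1.not_mem (h ▸ h1.1)
  · intro x z y h1
    exact h1.not_mem (h ▸ h1.1)

theorem cc_self (e : Pat n) : cc χ e e = 1 := cc_of_T χ rfl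

theorem cc_inv (e f : Pat n) : cc χ e f * cc χ f e = 1 := by
  by_cases h : ∃ p : Fin n × Fin n × Fin n, Ess e f p.1 p.2.1 p.2.2
  · obtain ⟨p, hp⟩ := h
    rw [cc_of_ess χ hp, cc_of_ess' χ hp, mul_inv_cancel]
  · by_cases h' : ∃ p : Fin n × Fin n × Fin n, Ess f e p.1 p.2.1 p.2.2
    · obtain ⟨p, hp⟩ := h'
      rw [cc_of_ess χ hp, cc_of_ess' χ hp, inv_mul_cancel]
    · rw [cc_of_not, cc_of_not, mul_one]
      · intro x z y h1; exact h' ⟨(x, z, y), h1⟩
      · intro x z y h1; exact h ⟨(x, z, y), h1⟩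
      · intro x z y h1; exact h ⟨(x, z, y), h1⟩
      · intro x z y h1; exact h' ⟨(x, z, y), h1⟩

theorem cc_congr {e f e' f' : Pat n} (h : ∀ x z y, Ess e f x z y ↔ Ess e' f' x z y)
    (h' : ∀ x z y, Ess f e x z y ↔ Ess f' e' x z y)
    (hT : ∀ x z y, Ess e f x z y → e.T = e'.T)
    (hT' : ∀ x z y, Ess f e x z y → f.T = f'.T) : cc χ e f = cc χ e' f' := by
  by_cases c : ∃ p : Fin n × Fin n × Fin n, Ess e f p.1 p.2.1 p.2.2
  · obtain ⟨p, hp⟩ := c
    rw [cc_of_ess χ hp, cc_of_ess χ ((h _ _ _).1 hp), hT _ _ _ hp]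
  · by_cases c' : ∃ p : Fin n × Fin n × Fin n, Ess f e p.1 p.2.1 p.2.2
    · obtain ⟨p, hp⟩ := c'
      rw [cc_of_ess' χ hp, cc_of_ess' χ ((h' _ _ _).1 hp), hT' _ _ _ hp]
    · rw [cc_of_not, cc_of_not]
      · intro x z y h1; exact c ⟨(x, z, y), (h _ _ _).2 h1⟩
      · intro x z y h1; exact c' ⟨(x, z, y), (h' _ _ _).2 h1⟩
      · intro x z y h1; exact c ⟨(x, z, y), h1⟩
      · intro x z y h1; exact c' ⟨(x, z, y), h1⟩

/-- transversals survive -/
theorem survive {e b : Pat n} (h : e.D * b.D * e.D = e.D) (U : Fin n → Prop)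
    (h1 : ∀ k, U k ↔ U (e.q k)) (h2 : ∀ k, U k ↔ U (b.q k)) {t : Fin n} (ht : t ∈ e.T)
    (hU : U t) : ∃ t' ∈ b.T, U t' := by
  by_contra hc
  push Not at hc
  have c1 : Cl e.D U U := (Cl_D _ _ _).2 ⟨h1, h1, fun _ _ => Iff.rfl⟩
  have c2 : Cl b.D U (fun _ => False) := (Cl_D _ _ _).2
    ⟨h2, fun _ => Iff.rfl, fun i hi => ⟨fun h => hc i hi h, fun h => h.elim⟩⟩
  have c3 : Cl e.D (fun _ => False) (fun _ => False) := (Cl_D _ _ _).2
    ⟨fun _ => Iff.rfl, fun _ => Iff.rfl, fun _ _ => Iff.rfl⟩
  have c4 : Cl (e.D * b.D * e.D) U (fun _ => False) :=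
    (Cl_mul _ _ _ _).2 ⟨_, (Cl_mul _ _ _ _).2 ⟨_, c1, c2⟩, c3⟩
  rw [h, Cl_D] at c4
  exact (c4.2.2 t ht).1 hU

theorem killq {e : Pat n} {i k : Fin n} : (kill e {i}).q k = if k = i ∨ e.q k = i then k else e.q k := by
  change (if k ∈ ({i} : Finset (Fin n)) ∨ e.q k ∈ ({i} : Finset (Fin n)) then k else e.q k) = _
  simp only [Finset.mem_singleton]

theorem ess_kill {e f : Pat n} {i : Fin n} (hi : i ∉ e.T) (hi' : i ∉ f.T) (x z y : Fin n) :
    Ess (kill e {i}) f x z y ↔ Ess e (kill f {i}) x z y := by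
  have t1 : (kill e {i}).T = e.T := PRep.kill_T e (by
    intro z hz; rw [Finset.mem_singleton] at hz; subst hz; exact hi)
  have t2 : (kill f {i}).T = f.T := PRep.kill_T f (by
    intro z hz; rw [Finset.mem_singleton] at hz; subst hz; exact hi')
  constructor
  · intro h
    have hlt := h.lt
    obtain ⟨h1, h2, h3, h4, h5, h6, h7⟩ := h
    rw [t1] at h1 h5 h6
    rw [killq] at h3
    split_ifs at h3 with hc
    · omega
    · push Not at hc
      refine ⟨h1, ?_, h3, by rwa [t2], by rwa [t2], h6, h7⟩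
      rw [killq, if_neg, h2]
      rintro (h8 | h8)
      · exact hi (h8 ▸ h1)
      · exact hc.1 (h2.symm.trans h8)
  · intro h
    have hlt := h.lt
    obtain ⟨h1, h2, h3, h4, h5, h6, h7⟩ := h
    rw [t2] at h4 h5
    rw [killq] at h2
    split_ifs at h2 with hc
    · omega
    · push Not at hc
      refine ⟨by rwa [t1], h2, ?_, h4, by rwa [t1], by rwa [t1], h7⟩
      rw [killq, if_neg, h3]
      rintro (h8 | h8)
      · exact hc.2 (h2.trans h8)
      · exact hi' (h8 ▸ (h3 ▸ h4))

theorem Sq_sg (i : Fin n) : Sq (cc χ) (sg {i}) := by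
  intro e f a b ha hb he hf
  have ha' : a = kill e {i} := D_injective (ha.symm.trans (D_kill e {i}))
  have hb' : b = kill f {i} := D_injective (hb.symm.trans (D_kill f {i}))
  have key : ∀ {e b : Pat n}, e.D * b.D * e.D = e.D → b.q i = i → i ∉ b.T → i ∉ e.T := by
    intro e b h h1 h2 h3
    obtain ⟨t', ht', hU⟩ := survive h (fun k => k = i) (by
      intro k
      constructor
      · rintro rfl; exact e.fix _ h3
      · intro h'
        have := e.fix i h3
        rw [← e.inv k, h', this]) (by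
      intro k
      constructor
      · rintro rfl; exact h1
      · intro h'
        rw [← b.inv k, h', h1]) h3 rfl
    exact h2 (hU ▸ ht')
  have nT : ∀ g : Pat n, i ∉ (kill g {i}).T := by
    intro g h
    change i ∈ g.T \ {i} at h
    simp at h
  have nq : ∀ g : Pat n, (kill g {i}).q i = i := by
    intro g; rw [killq, if_pos (Or.inl rfl)]
  subst ha' hb'
  have hie : i ∉ e.T := key he (nq f) (nT f)
  have hif : i ∉ f.T := key hf (nq e) (nT e)
  have t1 : (kill e {i}).T = e.T := PRep.kill_T e (by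
    intro z hz; rw [Finset.mem_singleton] at hz; subst hz; exact hie)
  have t2 : (kill f {i}).T = f.T := PRep.kill_T f (by
    intro z hz; rw [Finset.mem_singleton] at hz; subst hz; exact hif)
  rw [cc_of_T χ t1.symm, cc_of_T χ t2, one_mul, mul_one]
  apply cc_congr
  · exact ess_kill hie hif
  · intro x z y
    exact (ess_kill hif hie x z y).symm
  · intro _ _ _ _; exact t1
  · intro _ _ _ _; exact t2.symm

/-- arcs lie in the window -/
theorem win1 {e : Pat n} {x y : Fin n} (h : TightT e.T x y) {u : Fin n} (hu : u < e.q u) :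
    x < u ∧ ((e.q u : Fin n) : ℕ) ≤ y + 1 := by
  have h0 : u ∉ e.T := fun h' => by have := e.fix u h'; omega
  have h1 : e.q u ∉ e.T := by rwa [q_mem]
  constructor
  · have hlt : (u : ℕ) + 1 < n := by omega
    refine (h u ⟨u + 1, hlt⟩ rfl h0 ?_).1
    by_cases h2 : (⟨u + 1, hlt⟩ : Fin n) = e.q u
    · rw [h2]; exact h1
    · apply e.nt u
      · simp [Fin.lt_def]
      · rw [Fin.lt_def]
        have : (e.q u : ℕ) ≠ u + 1 := fun h3 => h2 (Fin.ext h3.symm)
        simp only
        omega
  · have hlt : (e.q u : ℕ) - 1 < n := by omega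
    have := (h ⟨(e.q u : ℕ) - 1, hlt⟩ (e.q u) (by simp only; omega) ?_ h1).2
    · rw [Fin.le_def] at this
      simp only at this
      omega
    · by_cases h2 : (⟨(e.q u : ℕ) - 1, hlt⟩ : Fin n) = u
      · rw [h2]; exact h0
      · apply e.nt u
        · rw [Fin.lt_def]
          have : (e.q u : ℕ) - 1 ≠ u := fun h3 => h2 (Fin.ext h3)
          simp only
          omega
        · rw [Fin.lt_def]
          simp only
          omega

/-- arcs lie in the window, after the move -/
theorem win2 {e a : Pat n} {x y : Fin n} (h : TightT e.T x y) (hxy : x < y)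
    (ha : a.T = insert y (e.T.erase x)) {u : Fin n} (hu : u < a.q u) :
    (x : ℕ) ≤ u + 1 ∧ a.q u < y := by
  have h0 : u ∉ a.T := fun h' => by have := a.fix u h'; omega
  have h1 : a.q u ∉ a.T := by rwa [q_mem]
  have hy : y ∈ a.T := by rw [ha]; exact Finset.mem_insert_self _ _
  have conv : ∀ k, k ∉ a.T → k ≠ x → k ∉ e.T := by
    intro k h2 h3 h4
    apply h2
    rw [ha, Finset.mem_insert, Finset.mem_erase]
    exact Or.inr ⟨h3, h4⟩
  have uy : u ≠ y := fun h2 => h0 (h2 ▸ hy)
  have vy : a.q u ≠ y := fun h2 => h1 (h2 ▸ hy)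
  constructor
  · have hlt : (u : ℕ) + 1 < n := by omega
    have h3 : (⟨u + 1, hlt⟩ : Fin n) ∉ a.T := by
      by_cases h2 : (⟨u + 1, hlt⟩ : Fin n) = a.q u
      · rw [h2]; exact h1
      · apply a.nt u
        · simp [Fin.lt_def]
        · rw [Fin.lt_def]
          have : (a.q u : ℕ) ≠ u + 1 := fun h3 => h2 (Fin.ext h3.symm)
          simp only
          omega
    by_cases c1 : u = x
    · subst c1; omega
    by_cases c2 : (⟨u + 1, hlt⟩ : Fin n) = x
    · rw [← c2]
    · have := (h u ⟨u + 1, hlt⟩ rfl (conv _ h0 c1) (conv _ h3 c2)).1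
      omega
  · have hlt : (a.q u : ℕ) - 1 < n := by omega
    have h3 : (⟨(a.q u : ℕ) - 1, hlt⟩ : Fin n) ∉ a.T := by
      by_cases h2 : (⟨(a.q u : ℕ) - 1, hlt⟩ : Fin n) = u
      · rw [h2]; exact h0
      · apply a.nt u
        · rw [Fin.lt_def]
          have : (a.q u : ℕ) - 1 ≠ u := fun h3 => h2 (Fin.ext h3)
          simp only
          omega
        · rw [Fin.lt_def]
          simp only
          omega
    have h4 : (⟨(a.q u : ℕ) - 1, hlt⟩ : Fin n) ≠ y := fun h2 => h3 (h2 ▸ hy)
    have h4' : (a.q u : ℕ) - 1 ≠ y := fun h2 => h4 (Fin.ext h2)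
    by_cases c1 : a.q u = x
    · rw [c1]; exact hxy
    by_cases c2 : (⟨(a.q u : ℕ) - 1, hlt⟩ : Fin n) = x
    · have : (a.q u : ℕ) - 1 = x := congrArg Fin.val c2
      omega
    · have := (h ⟨(a.q u : ℕ) - 1, hlt⟩ (a.q u) (by simp only; omega) (conv _ h3 c2)
        (conv _ h1 c1)).2
      rw [Fin.le_def] at this
      simp only at this
      omega

/-- Lemma W, first part -/
theorem W1 {a f : Pat n} {i j x z y : Fin n} (hij : i < j) (ha : a.q i = j)
    (hin : ∀ k, sb i j k → a.q k = k) (h : Ess a f x z y) : z = i ∧ y = j := by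
  have hlt := h.lt
  obtain ⟨h1, h2, h3, h4, h5, h6, h7⟩ := h
  have w := win1 h6 (u := i) (by rw [ha]; exact hij)
  rw [ha] at w
  have hz : a.q y = z := by rw [← h3, a.inv]
  have n1 : ¬ sb i j z := fun hs => by have := hin z hs; omega
  have n2 : ¬ sb i j y := fun hs => by have := hin y hs; omega
  have aj : a.q j = i := by rw [← ha, a.inv]
  have m1 : z = i → y = j := fun h => by rw [← h3, h, ha]
  have m2 : z = j → y = i := fun h => by rw [← h3, h, aj]
  have m3 : y = i → z = j := fun h => by rw [← hz, h, ha]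
  have m4 : y = j → z = i := fun h => by rw [← hz, h, aj]
  unfold sb at n1 n2
  omega

/-- Lemma W, second part -/
theorem W2 {a f : Pat n} {i j x z y : Fin n} (hij : i < j) (ha : a.q i = j)
    (hin : ∀ k, sb i j k → a.q k = k) (h : Ess f a x z y) : x = i ∧ z = j := by
  have hlt := h.lt
  obtain ⟨h1, h2, h3, h4, h5, h6, h7⟩ := h
  have w := win2 h6 (hlt.1.trans hlt.2) h5 (u := i) (by rw [ha]; exact hij)
  rw [ha] at w
  have hz : a.q z = x := by rw [← h2, a.inv]
  have n1 : ¬ sb i j z := fun hs => by have := hin z hs; omega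
  have n2 : ¬ sb i j x := fun hs => by have := hin x hs; omega
  have aj : a.q j = i := by rw [← ha, a.inv]
  have m1 : x = i → z = j := fun h => by rw [← h2, h, ha]
  have m2 : x = j → z = i := fun h => by rw [← h2, h, aj]
  have m3 : z = i → x = j := fun h => by rw [← hz, h, ha]
  have m4 : z = j → x = i := fun h => by rw [← hz, h, aj]
  unfold sb at n1 n2
  omega

/-- Lemma V: the transversals of `b`. -/
theorem V_general {e b : Pat n} {i j y : Fin n} (hij : i ≠ j) (hjy : j ≠ y) (hiT : i ∈ e.T)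
    (hj : e.q j = y) (hb : b.q i = j) (hin : ∀ k, sb i j k → b.q k = k)
    (h1 : e.D * b.D * e.D = e.D) (h2 : b.D * e.D * b.D = b.D)
    (H : ∀ u, e.q u ≠ u → u ≠ j → u ≠ y → sb i j u ∨ sb i j (e.q u)) :
    b.T = insert y (e.T.erase i) := by
  have ey : e.q y = j := by rw [← hj, e.inv]
  have bj : b.q j = i := by rw [← hb, b.inv]
  have ei : e.q i = i := e.fix i hiT
  have iT : i ∉ b.T := fun h => hij (by rw [← hb, b.fix i h])
  have jT : j ∉ b.T := fun h => hij (by rw [← bj, b.fix j h])
  have inT : ∀ k, sb i j k → k ∉ b.T := by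
    intro k hk hkT
    unfold sb at hk
    rcases hk with hk | hk
    · exact b.nt i k hk.1 (by rw [hb]; exact hk.2) hkT
    · exact b.nt' i k (by rw [hb]; exact hk.1) hk.2 hkT
  have yi : y ≠ i := fun h => by rw [h] at ey; rw [ei] at ey; exact hij ey
  have jeT : j ∉ e.T := fun h => hjy (by rw [← hj, e.fix j h])
  have yeT : y ∉ e.T := fun h => hjy (by rw [← ey, e.fix y h])
  -- first inclusion
  have sub1 : ∀ t ∈ b.T, t ∈ insert y (e.T.erase i) := by
    intro t ht
    by_contra hc
    rw [Finset.mem_insert, Finset.mem_erase] at hc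
    push Not at hc
    have ti : t ≠ i := fun h => iT (h ▸ ht)
    have tj : t ≠ j := fun h => jT (h ▸ ht)
    have teT : t ∉ e.T := hc.2 ti
    have bt := b.fix t ht
    have hU : ∀ k, (k = t ∨ k = e.q t) ↔ (e.q k = t ∨ e.q k = e.q t) := by
      intro k
      constructor
      · rintro (h | h)
        · right; rw [h]
        · left; rw [h, e.inv]
      · rintro (h | h)
        · right; rw [← h, e.inv]
        · left; rw [← e.inv k, h, e.inv]
    have hfix : b.q (e.q t) = e.q t := by
      by_cases c : e.q t = t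
      · rw [c]; exact bt
      · rcases H t c tj hc.1 with h | h
        · exact absurd ht (inT t h)
        · exact hin _ h
    have hU2 : ∀ k, (k = t ∨ k = e.q t) ↔ (b.q k = t ∨ b.q k = e.q t) := by
      intro k
      constructor
      · rintro (h | h)
        · left; rw [h]; exact bt
        · right; rw [h]; exact hfix
      · rintro (h | h)
        · left; rw [← b.inv k, h, bt]
        · right; rw [← b.inv k, h, hfix]
    obtain ⟨t', ht', hU'⟩ := survive h2 (fun k => k = t ∨ k = e.q t) hU2 hU ht (Or.inl rfl)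
    rcases hU' with rfl | rfl
    · exact teT ht'
    · exact teT ((q_mem e t).1 ht')
  -- the set used for the second inclusion
  have aux : ∀ w, w ≠ j → w ≠ y → (b.q w = w → e.q w = w) → b.q (e.q w) = e.q w ∨ e.q w = w := by
    intro w h3 h4 h5
    by_cases c : e.q w = w
    · exact Or.inr c
    · rcases H w c h3 h4 with h | h
      · exact absurd (h5 (hin w h)) c
      · exact Or.inl (hin _ h)
  have hyb : y ∈ b.T := by
    by_contra hc
    set w := b.q y with hw
    have bw : b.q w = y := by rw [hw, b.inv]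
    have wi : w ≠ i := fun h => by rw [h, hb] at bw; exact hjy bw
    have wj : w ≠ j := fun h => by rw [h, bj] at bw; exact yi bw.symm
    have hew : b.q (e.q w) = e.q w ∨ e.q w = w ∨ w = y := by
      by_cases c : w = y
      · exact Or.inr (Or.inr c)
      · rcases aux w wj c (fun h => absurd (h.symm.trans bw) c) with h | h
        · exact Or.inl h
        · exact Or.inr (Or.inl h)
    let U : Fin n → Prop := fun k => k = i ∨ k = j ∨ k = y ∨ k = w ∨ k = e.q w
    have U1 : ∀ k, U k → U (e.q k) := by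
      rintro k (h | h | h | h | h)
      · left; rw [h]; exact ei
      · right; right; left; rw [h]; exact hj
      · right; left; rw [h]; exact ey
      · right; right; right; right; rw [h]
      · right; right; right; left; rw [h, e.inv]
    have U2 : ∀ k, U k → U (b.q k) := by
      rintro k (h | h | h | h | h)
      · right; left; rw [h]; exact hb
      · left; rw [h]; exact bj
      · right; right; right; left; rw [h]
      · right; right; left; rw [h]; exact bw
      · rcases hew with h' | h' | h'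
        · right; right; right; right; rw [h]; exact h'
        · right; right; left; rw [h, h']; exact bw
        · left; rw [h, h', ey, bj]
    obtain ⟨t', ht', hU'⟩ := survive h1 U
      (fun k => ⟨U1 k, fun h => by have := U1 _ h; rwa [e.inv] at this⟩)
      (fun k => ⟨U2 k, fun h => by have := U2 _ h; rwa [b.inv] at this⟩) hiT (Or.inl rfl)
    rcases hU' with h | h | h | h | h
    · exact iT (h ▸ ht')
    · exact jT (h ▸ ht')
    · exact hc (h ▸ ht')
    · apply hc
      rw [h, hw] at ht'
      exact (q_mem b y).1 ht'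
    · rw [h] at ht'
      rcases hew with h' | h' | h'
      · by_cases c : e.q w = w
        · rw [c, hw] at ht'
          exact hc ((q_mem b y).1 ht')
        · by_cases c2 : w = y
          · rw [c2, ey] at ht'; exact jT ht'
          · rcases H w c wj c2 with h3 | h3
            · have := hin w h3
              exact c2 (this.symm.trans bw)
            · exact inT _ h3 ht'
      · rw [h', hw] at ht'
        exact hc ((q_mem b y).1 ht')
      · rw [h', ey] at ht'; exact jT ht'
  have sub2 : ∀ t ∈ insert y (e.T.erase i), t ∈ b.T := by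
    intro t ht
    rw [Finset.mem_insert, Finset.mem_erase] at ht
    rcases ht with rfl | ⟨ti, hteT⟩
    · exact hyb
    by_contra hc
    have et := e.fix t hteT
    set w := b.q t with hw
    have bw : b.q w = t := by rw [hw, b.inv]
    have tj : t ≠ j := fun h => jeT (h ▸ hteT)
    have wi : w ≠ i := fun h => by rw [h, hb] at bw; exact tj bw.symm
    have wj : w ≠ j := fun h => by rw [h, bj] at bw; exact ti bw.symm
    have wy : w ≠ y := fun h => by
      rw [h, b.fix y hyb] at bw
      exact hc (bw ▸ hyb)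
    have hew := aux w wj wy (fun h => by
      have : w = t := h.symm.trans bw
      rw [this]; exact et)
    let U : Fin n → Prop := fun k => k = t ∨ k = w ∨ k = e.q w
    have U1 : ∀ k, U k → U (e.q k) := by
      rintro k (h | h | h)
      · left; rw [h]; exact et
      · right; right; rw [h]
      · right; left; rw [h, e.inv]
    have U2 : ∀ k, U k → U (b.q k) := by
      rintro k (h | h | h)
      · right; left; rw [h]
      · left; rw [h]; exact bw
      · rcases hew with h' | h'
        · right; right; rw [h]; exact h'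
        · left; rw [h, h']; exact bw
    obtain ⟨t', ht', hU'⟩ := survive h1 U
      (fun k => ⟨U1 k, fun h => by have := U1 _ h; rwa [e.inv] at this⟩)
      (fun k => ⟨U2 k, fun h => by have := U2 _ h; rwa [b.inv] at this⟩) hteT (Or.inl rfl)
    rcases hU' with h | h | h
    · exact hc (h ▸ ht')
    · rw [h, hw] at ht'
      exact hc ((q_mem b t).1 ht')
    · rw [h] at ht'
      by_cases c : e.q w = w
      · rw [c, hw] at ht'
        exact hc ((q_mem b t).1 ht')
      · rcases H w c wj wy with h3 | h3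
        · have := hin w h3
          have hwt : w = t := this.symm.trans bw
          rw [hwt, et] at c
          exact c rfl
        · exact inT _ h3 ht'
  ext t
  exact ⟨sub1 t, sub2 t⟩

theorem V_right {e b : Pat n} {i j y : Fin n} (hiT : i ∈ e.T) (hj : e.q j = y) (hb : b.q i = j)
    (hin : ∀ k, sb i j k → b.q k = k)
    (h1 : e.D * b.D * e.D = e.D) (h2 : b.D * e.D * b.D = b.D) (ht : TightT e.T i y)
    (hs : ((j : ℕ) = i + 1 ∧ (y : ℕ) = j + 2) ∨ ((j : ℕ) = i + 2 ∧ (y : ℕ) = j + 1) ∨
      ((j : ℕ) = i + 2 ∧ (y : ℕ) = j + 2)) : b.T = insert y (e.T.erase i) := by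
  have key : ∀ u, u < e.q u → u ≠ j → sb i j u := by
    intro u hu huj
    have w := win1 ht hu
    have n1 := e.nc j u
    rw [hj] at n1
    have m : e.q u = y → u = j := fun h => by rw [← e.inv u, h, ← hj, e.inv]
    have m2 : u = y → e.q u = j := fun h => by rw [h, ← hj, e.inv]
    unfold sb
    omega
  apply V_general (by omega) (by omega) hiT hj hb hin h1 h2
  intro u hu huj huy
  rcases lt_or_gt_of_ne hu with h | h
  · right
    apply key
    · rw [e.inv]; exact h
    · intro h'
      apply huy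
      rw [← e.inv u, h', hj]
  · left
    exact key u h huj

theorem V_left {e b a : Pat n} {i j x : Fin n} (hjT : j ∈ e.T) (hi : e.q i = x) (hb : b.q j = i)
    (hin : ∀ k, sb j i k → b.q k = k)
    (h1 : e.D * b.D * e.D = e.D) (h2 : b.D * e.D * b.D = b.D) (ht : TightT a.T x j)
    (ha : e.T = insert j (a.T.erase x))
    (hs : ((i : ℕ) = x + 1 ∧ (j : ℕ) = i + 2) ∨ ((i : ℕ) = x + 2 ∧ (j : ℕ) = i + 1) ∨
      ((i : ℕ) = x + 2 ∧ (j : ℕ) = i + 2)) : b.T = insert x (e.T.erase j) := by
  have hx : e.q x = i := by rw [← hi, e.inv]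
  have key : ∀ u, u < e.q u → u ≠ x → sb j i (e.q u) := by
    intro u hu hux
    have w := win2 ht (by omega) ha hu
    have n1 := e.nc x (e.q u)
    rw [hx, e.inv] at n1
    have m : e.q u = i → u = x := fun h => by rw [← e.inv u, h, hi]
    have m2 : e.q u = x → u = i := fun h => by rw [← e.inv u, h, hx]
    unfold sb
    omega
  apply V_general (by omega) (by omega) hjT hi hb hin h1 h2
  intro u hu hui hux
  rcases lt_or_gt_of_ne hu with h | h
  · left
    have := key (e.q u) (by rw [e.inv]; exact h) (by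
      intro h'
      apply hui
      rw [← e.inv u, h', hx])
    rwa [e.inv] at this
  · right
    exact key u h hux

/-- the two labels at `e` agree -/
theorem cc_AZ {e b : Pat n} {i j : Fin n} (hij : i < j) (hb : b.q i = j)
    (hin : ∀ k, sb i j k → b.q k = k) (h1 : e.D * b.D * e.D = e.D)
    (h2 : b.D * e.D * b.D = b.D) : cc χ e (jn e i j) = cc χ e b := by
  have hne : i ≠ j := by omega
  have hbj : b.q j = i := by rw [← hb, b.inv]
  have ha : (jn e i j).q i = j := jnq_left e hne
  have hain : ∀ k, sb i j k → (jn e i j).q k = k := fun k hk => jnq_in e hk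
  have inT : ∀ k, sb i j k → k ∉ b.T := by
    intro k hk hkT
    unfold sb at hk
    rcases hk with hk | hk
    · exact b.nt i k hk.1 (by rw [hb]; exact hk.2) hkT
    · exact b.nt' i k (by rw [hb]; exact hk.1) hk.2 hkT
  -- right moves
  have R1 : ∀ x z y, Ess e (jn e i j) x z y → x = i ∧ z = j ∧ b.T = (jn e i j).T := by
    intro x z y h
    obtain ⟨rfl, rfl⟩ := W2 hij ha hain h
    obtain ⟨k1, k2, k3, k4, k5, k6, k7⟩ := h
    refine ⟨rfl, rfl, ?_⟩
    rw [k5]
    exact V_right k1 k3 hb hin h1 h2 k6 k7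
  have R2 : ∀ x z y, Ess e b x z y → x = i ∧ z = j ∧ b.T = (jn e i j).T := by
    intro x z y h
    obtain ⟨rfl, rfl⟩ := W2 hij hb hin h
    have hlt := h.lt
    obtain ⟨k1, k2, k3, k4, k5, k6, k7⟩ := h
    refine ⟨rfl, rfl, ?_⟩
    rw [k5, PRep.jnT_move e k1 k3 (Or.inl hlt)]
    intro k hk hkT
    apply inT k hk
    rw [k5, Finset.mem_insert, Finset.mem_erase]
    right
    refine ⟨?_, hkT⟩
    rintro rfl
    unfold sb at hk
    omega
  have L1 : ∀ x z y, Ess (jn e i j) e x z y → z = i ∧ y = j ∧ b.T = (jn e i j).T := by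
    intro x z y h
    obtain ⟨rfl, rfl⟩ := W1 hij ha hain h
    have hnm := h.not_mem'
    have hlt := h.lt
    obtain ⟨k1, k2, k3, k4, k5, k6, k7⟩ := h
    refine ⟨rfl, rfl, ?_⟩
    have hz : e.q z = x := by rw [← k2, e.inv]
    rw [V_left k4 hz hbj (fun k hk => hin k (by unfold sb at hk ⊢; omega)) h1 h2 k6 k5 k7,
      k5, Finset.erase_insert, Finset.insert_erase k1]
    rw [Finset.mem_erase]
    tauto
  have L2 : ∀ x z y, Ess b e x z y → z = i ∧ y = j ∧ b.T = (jn e i j).T := by
    intro x z y h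
    obtain ⟨rfl, rfl⟩ := W1 hij hb hin h
    have hnm := h.not_mem'
    have hlt := h.lt
    obtain ⟨k1, k2, k3, k4, k5, k6, k7⟩ := h
    refine ⟨rfl, rfl, ?_⟩
    have hz : e.q z = x := by rw [← k2, e.inv]
    rw [jn_symm, PRep.jnT_move e k4 hz (by omega), k5, Finset.erase_insert, Finset.insert_erase k1]
    · rw [Finset.mem_erase]; tauto
    · intro k hk
      rw [k5, Finset.mem_insert, Finset.mem_erase]
      rintro (h' | h')
      · unfold sb at hk; omega
      · exact inT k (by unfold sb at hk ⊢; omega) h'.2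
  apply cc_congr
  · intro x z y
    constructor
    · intro h
      obtain ⟨rfl, rfl, hT⟩ := R1 x z y h
      obtain ⟨k1, k2, k3, k4, k5, k6, k7⟩ := h
      exact ⟨k1, hb, k3, by rwa [hT], by rwa [hT], k6, k7⟩
    · intro h
      obtain ⟨rfl, rfl, hT⟩ := R2 x z y h
      obtain ⟨k1, k2, k3, k4, k5, k6, k7⟩ := h
      exact ⟨k1, ha, k3, by rwa [← hT], by rwa [← hT], k6, k7⟩
  · intro x z y
    constructor
    · intro h
      obtain ⟨rfl, rfl, hT⟩ := L1 x z y h
      obtain ⟨k1, k2, k3, k4, k5, k6, k7⟩ := h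
      exact ⟨by rwa [hT], k2, hb, k4, by rwa [hT], by rwa [hT], k7⟩
    · intro h
      obtain ⟨rfl, rfl, hT⟩ := L2 x z y h
      obtain ⟨k1, k2, k3, k4, k5, k6, k7⟩ := h
      exact ⟨by rwa [← hT], k2, ha, k4, by rwa [← hT], by rwa [← hT], k7⟩
  · intro _ _ _ _; rfl
  · intro x z y h
    exact (L1 x z y h).2.2.symm

theorem Sq_AZ {i j : Fin n} (hij : i ≠ j) : Sq (cc χ) (AZ i j ∅) := by
  have key : ∀ {i j : Fin n}, i < j → Sq (cc χ) (AZ i j ∅) := by
    intro i j hlt e f a b ha hb he hf
    have hij : i ≠ j := by omega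
    have ha' : a = jn e i j := D_injective (ha.symm.trans (D_jn e hij))
    have hb' : b = jn f i j := D_injective (hb.symm.trans (D_jn f hij))
    have hbe : b.D * e.D * b.D = b.D := by
      calc b.D * e.D * b.D = ((AZ i j ∅).D * f.D * (AZ i j ∅).D) * e.D *
            ((AZ i j ∅).D * f.D * (AZ i j ∅).D) := by rw [hb]
        _ = (AZ i j ∅).D * (f.D * ((AZ i j ∅).D * e.D * (AZ i j ∅).D) * f.D) *
            (AZ i j ∅).D := by simp only [mul_assoc]
        _ = b.D := by rw [ha, hf, hb]
    have haf : a.D * f.D * a.D = a.D := by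
      calc a.D * f.D * a.D = ((AZ i j ∅).D * e.D * (AZ i j ∅).D) * f.D *
            ((AZ i j ∅).D * e.D * (AZ i j ∅).D) := by rw [ha]
        _ = (AZ i j ∅).D * (e.D * ((AZ i j ∅).D * f.D * (AZ i j ∅).D) * e.D) *
            (AZ i j ∅).D := by simp only [mul_assoc]
        _ = a.D := by rw [hb, he, ha]
    subst ha' hb'
    have e1 := cc_AZ χ hlt (jnq_left f hij) (fun k hk => jnq_in f hk) he hbe
    have e2 := cc_AZ χ hlt (jnq_left e hij) (fun k hk => jnq_in e hk) hf haf
    have i1 : cc χ (jn e i j) f = (cc χ f (jn e i j))⁻¹ := eq_inv_of_mul_eq_one_left (cc_inv χ _ _)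
    have i2 : cc χ (jn f i j) f = (cc χ f (jn f i j))⁻¹ := eq_inv_of_mul_eq_one_left (cc_inv χ _ _)
    rw [e1, i1, i2, e2]
  rcases lt_or_gt_of_ne hij with h | h
  · exact key h
  · rw [AZ_symm]; exact key h

end Pool.Agent.W_MP_aeed81_al_h89
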