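import Pool.Agent.W_MP_aeed81_al_h89.MotPos
import Pool.Agent.W_MP_aeed81_al_h89.MotCover
import Pool.Agent.W_MP_aeed81_al_h89.MotConn

/-!
# The upper bound in `PG(P(M_n))`
-/

set_option linter.unusedVariables false
set_option linter.unusedSectionVars false
set_option warn.classDefReducibility false

namespace Pool.Agent.W_MP_aeed81_al_h89

open Pool.Agent.W_MP_aeed81_al Sum Pat

variable {n r : ℕ} {M : Type*} [Semigroup M] {X : Pat n → M}

theorem IsoP.unique {S : Type*} [Semigroup S] {e f u v u' : S} (h : IsoP e f u v)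
    (h' : IsoP e f u' v) : u = u' := by
  calc u = u * (v * u') := by rw [h'.vu, h.uf]
    _ = u' := by rw [← mul_assoc, h.uv, h'.eu]

/-- the base idempotent of a composition -/
def BB (X : Pat n → M) (κ : Fin (r+1) → ℕ) : M := X (sg (Tof n κ)ᶜ)

/-- the arrow of the groupoid -/
def muk (X : Pat n → M) (κ : Fin (r+1) → ℕ) (j : Fin r) (a b : ℕ) : M :=
  if h : posN κ j + a + b < n then
    PRep.mu X (Tof n κ) (Tof n (mv κ j (a + b))) ⟨posN κ j, by omega⟩ ⟨posN κ j + a, by omega⟩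
      ⟨posN κ j + a + b, h⟩
  else X (sg ∅)

/-- the inverse arrow -/
def nuk (X : Pat n → M) (κ : Fin (r+1) → ℕ) (j : Fin r) (a b : ℕ) : M :=
  if h : posN κ j + a + b < n then
    PRep.mu X (Tof n (mv κ j (a + b))) (Tof n κ) ⟨posN κ j + a + b, h⟩ ⟨posN κ j + a, by omega⟩
      ⟨posN κ j, by omega⟩
  else X (sg ∅)

theorem muk_eq {κ : Fin (r+1) → ℕ} {j : Fin r} {a b : ℕ} {x z y : Fin n}
    (hx : (x : ℕ) = posN κ j) (hz : (z : ℕ) = x + a) (hy : (y : ℕ) = z + b) :
    muk X κ j a b = PRep.mu X (Tof n κ) (Tof n (mv κ j (a + b))) x z y := by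
  unfold muk
  have h : posN κ j + a + b < n := by omega
  rw [dif_pos h]
  have e1 : (⟨posN κ j, by omega⟩ : Fin n) = x := Fin.ext hx.symm
  have e2 : (⟨posN κ j + a, by omega⟩ : Fin n) = z := Fin.ext (by simp only; omega)
  have e3 : (⟨posN κ j + a + b, h⟩ : Fin n) = y := Fin.ext (by simp only; omega)
  rw [e1, e2, e3]

theorem nuk_eq {κ : Fin (r+1) → ℕ} {j : Fin r} {a b : ℕ} {x z y : Fin n}
    (hx : (x : ℕ) = posN κ j) (hz : (z : ℕ) = x + a) (hy : (y : ℕ) = z + b) :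
    nuk X κ j a b = PRep.mu X (Tof n (mv κ j (a + b))) (Tof n κ) y z x := by
  unfold nuk
  have h : posN κ j + a + b < n := by omega
  rw [dif_pos h]
  have e1 : (⟨posN κ j, by omega⟩ : Fin n) = x := Fin.ext hx.symm
  have e2 : (⟨posN κ j + a, by omega⟩ : Fin n) = z := Fin.ext (by simp only; omega)
  have e3 : (⟨posN κ j + a + b, h⟩ : Fin n) = y := Fin.ext (by simp only; omega)
  rw [e1, e2, e3]

theorem mem_Tof_pos {κ : Fin (r+1) → ℕ} {j : Fin r} {x : Fin n} (hx : (x : ℕ) = posN κ j) :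
    x ∈ Tof n κ := by
  unfold Tof
  simp only [Finset.mem_filter, Finset.mem_univ, true_and]
  exact ⟨j, hx.symm⟩

/-- there is only one transversal in the range of a move -/
theorem range_T {κ : Fin (r+1) → ℕ} (h : ∑ i, κ i + r = n) {j : Fin r} {d : ℕ}
    (hd : d ≤ κ j.succ) {x y : Fin n} (hx : (x : ℕ) = posN κ j) (hy : (y : ℕ) = x + d) :
    ∀ k, ib x y k → k ∈ Tof n κ → k = x := by
  intro k hk hkT
  by_contra hne
  unfold ib at hk
  exact not_mem_Tof h j (by omega) (by omega) hkT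

theorem exists_xzy {κ : Fin (r+1) → ℕ} (h : ∑ i, κ i + r = n) {j : Fin r} {a b : ℕ}
    (hd : a + b ≤ κ j.succ) : ∃ x z y : Fin n, (x : ℕ) = posN κ j ∧ (z : ℕ) = x + a ∧
      (y : ℕ) = z + b := by
  have := posN_add_lt h j
  exact ⟨⟨posN κ j, by omega⟩, ⟨posN κ j + a, by omega⟩, ⟨posN κ j + a + b, by omega⟩, rfl, rfl, rfl⟩

theorem iso_muk (R : PRep X) {κ : Fin (r+1) → ℕ} (h : ∑ i, κ i + r = n) {j : Fin r} {a b : ℕ}
    (ha : 1 ≤ a) (hb : 1 ≤ b) (hd : a + b ≤ κ j.succ) :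
    IsoP (BB X κ) (BB X (mv κ j (a + b))) (muk X κ j a b) (nuk X κ j a b) := by
  obtain ⟨x, z, y, hx, hz, hy⟩ := exists_xzy (n := n) h hd
  rw [muk_eq hx hz hy, nuk_eq hx hz hy]
  have hT := Tof_mv h j hd hx (y := y) (by omega)
  have hr := range_T h hd hx (y := y) (by omega)
  have hxT := mem_Tof_pos (n := n) hx
  have hyT : y ∉ Tof n κ := fun h' => by
    have := hr y (by unfold ib; omega) h'
    omega
  have hxy : x ≠ y := by omega
  have hT2 : insert x ((Tof n (mv κ j (a + b))).erase y) = Tof n κ := by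
    rw [hT, Finset.erase_insert, Finset.insert_erase hxT]
    rw [Finset.mem_erase]; tauto
  unfold BB
  refine ⟨R.mu_left _ _ _ _ _, R.mu_right _ _ _ _ _, R.mu_left _ _ _ _ _, R.mu_right _ _ _ _ _, ?_, ?_⟩
  · have := R.mu_inv (x := x) (j := z) (y := y) (by omega) hxT hr
    rw [← hT] at this
    exact this
  · have := R.mu_inv (T := Tof n (mv κ j (a + b))) (x := y) (j := z) (y := x) (by omega)
      (by rw [hT]; exact Finset.mem_insert_self _ _) (by
        intro k hk hkT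
        rw [hT, Finset.mem_insert, Finset.mem_erase] at hkT
        rcases hkT with h' | h'
        · exact h'
        · exact absurd (hr k (by unfold ib at hk ⊢; omega) h'.2) h'.1)
    rw [hT2] at this
    exact this

theorem muk_K2 (R : PRep X) {κ : Fin (r+1) → ℕ} (h : ∑ i, κ i + r = n) {j : Fin r}
    {a b a' b' : ℕ} (ha : 1 ≤ a) (hb : 1 ≤ b) (ha' : 1 ≤ a') (hb' : 1 ≤ b')
    (hd : a + b + a' + b' ≤ κ j.succ) :
    muk X κ j a b * muk X (mv κ j (a + b)) j a' b' = muk X κ j a (b + a' + b') := by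
  obtain ⟨x, z, y, hx, hz, hy⟩ := exists_xzy (n := n) h (a := a) (b := b) (j := j) (by omega)
  obtain ⟨_, z', y', hx', hz', hy'⟩ := exists_xzy (n := n) h (a := a + b + a') (b := b')
    (j := j) (by omega)
  have hp : posN (mv κ j (a + b)) j = posN κ j + (a + b) := by
    rw [posN_mv κ j (by omega), if_pos rfl]
  rw [muk_eq hx hz hy, muk_eq (x := y) (z := z') (y := y') (by omega) (by omega) (by omega),
    muk_eq hx hz (y := y') (by omega), mv_mv]
  have e1 : a + (b + a' + b') = a + b + (a' + b') := by omega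
  rw [e1, Tof_mv h j (d := a + b) (by omega) hx (y := y) (by omega),
    Tof_mv h j (d := a + b + (a' + b')) (by omega) hx (y := y') (by omega)]
  apply R.K2
  · left; omega
  · exact mem_Tof_pos hx
  · exact range_T h (d := a + b + a' + b') (by omega) hx (by omega)

theorem muk_K1 (R : PRep X) {κ : Fin (r+1) → ℕ} (h : ∑ i, κ i + r = n) {j : Fin r}
    {a b a' b' : ℕ} (ha : 1 ≤ a) (hb : 1 ≤ b) (ha' : 1 ≤ a') (hb' : 1 ≤ b')
    (hd : a + b + a' + b' ≤ κ j.succ) :
    muk X κ j a b * muk X (mv κ j (a + b)) j a' b' = muk X κ j (a + b + a') b' := by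
  obtain ⟨x, z, y, hx, hz, hy⟩ := exists_xzy (n := n) h (a := a) (b := b) (j := j) (by omega)
  obtain ⟨_, z', y', hx', hz', hy'⟩ := exists_xzy (n := n) h (a := a + b + a') (b := b')
    (j := j) (by omega)
  have hp : posN (mv κ j (a + b)) j = posN κ j + (a + b) := by
    rw [posN_mv κ j (by omega), if_pos rfl]
  have hs : ∑ i, mv κ j (a + b) i + r = n := by rw [sum_mv κ j _ (by omega)]; exact h
  have h2 : mv κ j (a + b) j.succ = κ j.succ - (a + b) := mv_succ _ _ _
  have e1 : a + b + a' + b' = a + b + (a' + b') := by omega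
  -- the composite and the long arrow have the same inverse
  have i1 := (iso_muk R h ha hb (j := j) (by omega)).trans (iso_muk R hs ha' hb' (j := j)
    (by rw [h2]; omega))
  have i2 := iso_muk R h (a := a + b + a') (b := b') (by omega) hb' (j := j) (by omega)
  rw [mv_mv] at i1
  rw [e1] at i2
  apply i1.unique
  have : nuk X (mv κ j (a + b)) j a' b' * nuk X κ j a b = nuk X κ j (a + b + a') b' := by
    rw [nuk_eq hx hz hy, nuk_eq (x := y) (z := z') (y := y') (by omega) (by omega) (by omega),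
      nuk_eq hx (z := z') (y := y') (by omega) (by omega), mv_mv, e1]
    have hT1 := Tof_mv h j (d := a + b) (by omega) hx (y := y) (by omega)
    have hT2 := Tof_mv h j (d := a + b + (a' + b')) (by omega) hx (y := y') (by omega)
    have hr := range_T h (d := a + b + a' + b') (by omega) hx (y := y') (by omega)
    have hxT := mem_Tof_pos (n := n) hx
    have hyT : y ∉ Tof n κ := fun h' => by
      have := hr y (by unfold ib; omega) h'
      omega
    have hyT' : y' ∉ Tof n κ := fun h' => by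
      have := hr y' (by unfold ib; omega) h'
      omega
    have k1 : insert y ((Tof n (mv κ j (a + b + (a' + b')))).erase y') = Tof n (mv κ j (a + b)) := by
      rw [hT1, hT2, Finset.erase_insert]
      rw [Finset.mem_erase]; tauto
    have k2 : insert x ((Tof n (mv κ j (a + b + (a' + b')))).erase y') = Tof n κ := by
      rw [hT2, Finset.erase_insert, Finset.insert_erase hxT]
      rw [Finset.mem_erase]; tauto
    have := R.K2 (T := Tof n (mv κ j (a + b + (a' + b')))) (x := y') (j := z') (y := y) (j' := z)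
      (y' := x) (by omega) (by rw [hT2]; exact Finset.mem_insert_self _ _) (by
        intro k hk hkT
        rw [hT2, Finset.mem_insert, Finset.mem_erase] at hkT
        rcases hkT with h' | h'
        · exact h'
        · exact absurd (hr k (by unfold ib at hk ⊢; omega) h'.2) h'.1)
    rw [k1, k2] at this
    exact this
  rw [this]
  exact i2

theorem muk_K3_lt (R : PRep X) {κ : Fin (r+1) → ℕ} (h : ∑ i, κ i + r = n) {j l : Fin r}
    (hjl : j < l) {a b a' b' : ℕ} (ha : 1 ≤ a) (hb : 1 ≤ b) (ha' : 1 ≤ a') (hb' : 1 ≤ b')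
    (hd : a + b ≤ κ j.succ) (hd' : a' + b' ≤ κ l.succ) :
    muk X κ j a b * muk X (mv κ j (a + b)) l a' b' =
      muk X κ l a' b' * muk X (mv κ l (a' + b')) j a b := by
  obtain ⟨x, z, y, hx, hz, hy⟩ := exists_xzy (n := n) h hd
  obtain ⟨x', z', y', hx', hz', hy'⟩ := exists_xzy (n := n) h hd'
  have hne : j ≠ l := hjl.ne
  have hp : posN (mv κ j (a + b)) l = posN κ l := by
    rw [posN_mv κ j hd, if_neg hne.symm]
  have hp' : posN (mv κ l (a' + b')) j = posN κ j := by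
    rw [posN_mv κ l hd', if_neg hne]
  have hxx : (x : ℕ) < x' := by rw [hx, hx']; exact posN_strictMono κ hjl
  have hyx : y < x' := by
    by_contra hc
    exact not_mem_Tof h j (k := x') (by omega) (by omega) (mem_Tof_pos hx')
  have hs : ∑ i, mv κ j (a + b) i + r = n := by rw [sum_mv κ j _ hd]; exact h
  have h2 : a' + b' ≤ mv κ j (a + b) l.succ := by
    rw [mv_apply]
    have : l.succ ≠ j.succ := fun h' => hne.symm (Fin.succ_injective _ h')
    split_ifs <;> omega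
  rw [muk_eq hx hz hy, muk_eq (x := x') (z := z') (y := y') (by omega) hz' hy',
    muk_eq hx' hz' hy', muk_eq (x := x) (z := z) (y := y) (by omega) hz hy,
    ← mv_comm κ hne _ _ hd hd',
    Tof_mv hs l h2 (x := x') (y := y') (by omega) (by omega),
    Tof_mv h j hd hx (y := y) (by omega), Tof_mv h l hd' hx' (y := y') (by omega)]
  apply R.K3
  · omega
  · exact mem_Tof_pos hx
  · exact mem_Tof_pos hx'
  · exact range_T h hd hx (by omega)
  · exact range_T h hd' hx' (by omega)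

theorem muk_K3 (R : PRep X) {κ : Fin (r+1) → ℕ} (h : ∑ i, κ i + r = n) {j l : Fin r}
    (hjl : j ≠ l) {a b a' b' : ℕ} (ha : 1 ≤ a) (hb : 1 ≤ b) (ha' : 1 ≤ a') (hb' : 1 ≤ b')
    (hd : a + b ≤ κ j.succ) (hd' : a' + b' ≤ κ l.succ) :
    muk X κ j a b * muk X (mv κ j (a + b)) l a' b' =
      muk X κ l a' b' * muk X (mv κ l (a' + b')) j a b := by
  rcases lt_or_gt_of_ne hjl with h' | h'
  · exact muk_K3_lt R h h' ha hb ha' hb' hd hd'
  · exact (muk_K3_lt R h h' ha' hb' ha hb hd' hd).symm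

theorem iso_pb (R : PRep X) (p : Pat n) {κ : Fin (r+1) → ℕ} (hT : Tof n κ = p.T) :
    IsoP (X p) (BB X κ) (X p * BB X κ) (BB X κ * X p) := by
  unfold BB
  rw [hT]
  refine ⟨by rw [← mul_assoc, R.idem], by rw [mul_assoc, R.idem], by rw [← mul_assoc, R.idem],
    by rw [mul_assoc, R.idem], ?_, ?_⟩
  · calc X p * X (sg p.Tᶜ) * (X (sg p.Tᶜ) * X p) = X p * (X (sg p.Tᶜ) * X (sg p.Tᶜ)) * X p := by
          simp only [mul_assoc]
      _ = X p := by rw [R.idem, R.e_b_e]
  · calc X (sg p.Tᶜ) * X p * (X p * X (sg p.Tᶜ)) = X (sg p.Tᶜ) * (X p * X p) * X (sg p.Tᶜ) := by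
          simp only [mul_assoc]
      _ = X (sg p.Tᶜ) := by rw [R.idem, R.b_e_b]

theorem exists_iso (R : PRep X) {κ κ' : Fin (r+1) → ℕ} {k : ℕ} (hk : k + r = n)
    (h : TrivConn k κ κ') : ∃ u v, IsoP (BB X κ) (BB X κ') u v := by
  induction h with
  | rel κ κ' h =>
    obtain ⟨hs, j, a, b, ha, hb, hd, _, rfl⟩ := h
    exact ⟨_, _, iso_muk R (by omega) ha hb hd⟩
  | refl κ => exact ⟨_, _, IsoP.refl (R.idem _)⟩
  | symm _ _ _ ih =>
    obtain ⟨u, v, h⟩ := ih
    exact ⟨v, u, h.symm⟩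
  | trans _ _ _ _ _ ih1 ih2 =>
    obtain ⟨u, v, h⟩ := ih1
    obtain ⟨u', v', h'⟩ := ih2
    exact ⟨_, _, h.trans h'⟩

theorem two_le_mv {κ : Fin (r+1) → ℕ} {j : Fin r} {d : ℕ} (hd : 2 ≤ d) :
    ∃ i, 2 ≤ mv κ j d i := ⟨j.castSucc, by rw [mv_castSucc]; omega⟩

/-- **Upper bound.** -/
theorem ub_pg (R : PRep X) (p : Pat n) {κ0 : Fin (r+1) → ℕ} (h0 : ∑ i, κ0 i + r = n)
    (hT : Tof n κ0 = p.T) (h2 : ∃ i, 2 ≤ κ0 i) :
    ∃ (C C' : (Fin (r+1) → ℕ) → M) (ψ : Lab r → HG (X p) (R.idem p)),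
      C κ0 = X p * BB X κ0 ∧
      (∀ κ : Fin (r+1) → ℕ, ∑ i, κ i + r = n → (∃ i, 2 ≤ κ i) →
        IsoP (X p) (BB X κ) (C κ) (C' κ)) ∧
      ∀ (κ : Fin (r+1) → ℕ) (j : Fin r) (a b : ℕ), ∑ i, κ i + r = n → 1 ≤ a → 1 ≤ b →
        a + b ≤ κ j.succ → C κ * muk X κ j a b =
          ((label κ j a b).elim 1 ψ).1.1 * C (mv κ j (a + b)) := by
  classical
  obtain ⟨k, hk⟩ : ∃ k, k + r = n := ⟨_, h0⟩
  -- a first choice of the connecting paths
  have ex : ∀ κ : Fin (r+1) → ℕ, ∃ u v, (∑ i, κ i + r = n → (∃ i, 2 ≤ κ i) →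
      IsoP (X p) (BB X κ) u v) ∧ (κ = κ0 → u = X p * BB X κ0) := by
    intro κ
    by_cases c : κ = κ0
    · subst c
      exact ⟨_, _, fun _ _ => iso_pb R p hT, fun _ => rfl⟩
    · by_cases c1 : ∑ i, κ i + r = n ∧ ∃ i, 2 ≤ κ i
      · obtain ⟨u, v, h⟩ := exists_iso R hk (trivConn_of (k := k) (by omega) (by omega) h2 c1.2)
        exact ⟨_, _, fun _ _ => (iso_pb R p hT).trans h, fun h => absurd h c⟩
      · exact ⟨X p, X p, fun h1 h2 => absurd ⟨h1, h2⟩ c1, fun h => absurd h c⟩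
  choose C C' hC hC0 using ex
  have hC1 : ∀ κ : Fin (r+1) → ℕ, ∑ i, κ i + r = n → (∃ i, 2 ≤ κ i) →
    IsoP (X p) (BB X κ) (C κ) (C' κ) := fun κ => hC κ
  have he := R.idem p
  have nis : ∀ {κ : Fin (r+1) → ℕ} {j : Fin r} {a b : ℕ}, 1 ≤ a → 1 ≤ b → a + b ≤ κ j.succ →
      ∃ i, 2 ≤ κ i := fun {κ j a b} ha hb hd => ⟨j.succ, by omega⟩
  have smv : ∀ {κ : Fin (r+1) → ℕ} {j : Fin r} {d : ℕ}, ∑ i, κ i + r = n → d ≤ κ j.succ →
      ∑ i, mv κ j d i + r = n := fun h hd => by rw [sum_mv _ _ _ hd]; exact h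
  have iso0 : ∀ (κ : Fin (r+1) → ℕ) (j : Fin r) (a b : ℕ), (∑ i, κ i + r = n ∧ 1 ≤ a ∧ 1 ≤ b ∧
      a + b ≤ κ j.succ) → IsoP (X p) (X p) (C κ * muk X κ j a b * C' (mv κ j (a + b)))
        (C (mv κ j (a + b)) * (nuk X κ j a b * C' κ)) := by
    rintro κ j a b ⟨h, ha, hb, hd⟩
    exact ((hC1 κ h (nis ha hb hd)).trans (iso_muk R h ha hb hd)).trans
      (hC1 _ (smv h hd) (two_le_mv (by omega))).symm
  let μ : (Fin (r+1) → ℕ) → Fin r → ℕ → ℕ → HG (X p) he := fun κ j a b =>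
    if h : ∑ i, κ i + r = n ∧ 1 ≤ a ∧ 1 ≤ b ∧ a + b ≤ κ j.succ then
      IsoP.toHG he (iso0 κ j a b h) else 1
  have μv : ∀ (κ : Fin (r+1) → ℕ) (j : Fin r) (a b : ℕ), (∑ i, κ i + r = n ∧ 1 ≤ a ∧ 1 ≤ b ∧
      a + b ≤ κ j.succ) → (μ κ j a b).1.1 = C κ * muk X κ j a b * C' (mv κ j (a + b)) := by
    intro κ j a b h
    simp only [μ]
    rw [dif_pos h]
    rfl
  -- composition of two arrows
  have comp : ∀ (κ : Fin (r+1) → ℕ) (j l : Fin r) (a b a' b' : ℕ), ∑ i, κ i + r = n → 1 ≤ a →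
      1 ≤ b → 1 ≤ a' → 1 ≤ b' → a + b ≤ κ j.succ → a' + b' ≤ mv κ j (a + b) l.succ →
      (μ κ j a b * μ (mv κ j (a + b)) l a' b').1.1 =
        C κ * (muk X κ j a b * muk X (mv κ j (a + b)) l a' b') *
          C' (mv (mv κ j (a + b)) l (a' + b')) := by
    intro κ j l a b a' b' h ha hb ha' hb' hd hd'
    rw [HG_mul, μv κ j a b ⟨h, ha, hb, hd⟩, μv _ l a' b' ⟨smv h hd, ha', hb', hd'⟩]
    have i1 := hC1 (mv κ j (a + b)) (smv h hd) (two_le_mv (by omega))
    have i2 := iso_muk R h ha hb hd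
    calc C κ * muk X κ j a b * C' (mv κ j (a + b)) * (C (mv κ j (a + b)) *
          muk X (mv κ j (a + b)) l a' b' * C' (mv (mv κ j (a + b)) l (a' + b')))
        = C κ * (muk X κ j a b * (C' (mv κ j (a + b)) * C (mv κ j (a + b)))) *
          muk X (mv κ j (a + b)) l a' b' * C' (mv (mv κ j (a + b)) l (a' + b')) := by
          simp only [mul_assoc]
      _ = _ := by rw [i1.vu, i2.uf]; simp only [mul_assoc]
  have H : IsCocycle k μ := by
    constructor
    · intro κ j a b a' b' hs ha hb ha' hb' hd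
      have h : ∑ i, κ i + r = n := by omega
      apply HG_ext
      rw [comp κ j j a b a' b' h ha hb ha' hb' (by omega) (by rw [mv_succ]; omega),
        μv κ j (a + b + a') b' ⟨h, by omega, hb', by omega⟩, muk_K1 R h ha hb ha' hb' hd, mv_mv]
      have e1 : a + b + a' + b' = a + b + (a' + b') := by omega
      rw [e1]
    · intro κ j a b a' b' hs ha hb ha' hb' hd
      have h : ∑ i, κ i + r = n := by omega
      apply HG_ext
      rw [comp κ j j a b a' b' h ha hb ha' hb' (by omega) (by rw [mv_succ]; omega),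
        μv κ j a (b + a' + b') ⟨h, ha, by omega, by omega⟩, muk_K2 R h ha hb ha' hb' hd, mv_mv]
      have e1 : a + (b + a' + b') = a + b + (a' + b') := by omega
      rw [e1]
    · intro κ j l a b a' b' hs hjl ha hb ha' hb' hd hd'
      have h : ∑ i, κ i + r = n := by omega
      have g1 : a' + b' ≤ mv κ j (a + b) l.succ := by
        rw [mv_apply]
        have : l.succ ≠ j.succ := fun h' => hjl.symm (Fin.succ_injective _ h')
        split_ifs <;> omega
      have g2 : a + b ≤ mv κ l (a' + b') j.succ := by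
        rw [mv_apply]
        have : j.succ ≠ l.succ := fun h' => hjl (Fin.succ_injective _ h')
        split_ifs <;> omega
      apply HG_ext
      rw [comp κ j l a b a' b' h ha hb ha' hb' hd g1, comp κ l j a' b' a b h ha' hb' ha hb hd' g2,
        muk_K3 R h hjl ha hb ha' hb' hd hd', mv_comm κ hjl _ _ hd hd']
  obtain ⟨g, ψ, hg⟩ := ub_comb H
  -- normalize
  refine ⟨fun κ => ((g κ0)⁻¹ * g κ).1.1 * C κ, fun κ => C' κ * ((g κ0)⁻¹ * g κ).1.2,
    fun l => (g κ0)⁻¹ * ψ l * g κ0, ?_, ?_, ?_⟩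
  · simp only
    rw [inv_mul_cancel, HG_one, hC0 κ0 rfl, ← mul_assoc, R.idem]
  · intro κ h h2
    exact (IsoP.ofHG _).trans (hC1 κ h h2)
  · intro κ j a b h ha hb hd
    have h1 := hg κ (by omega) j a b ha hb hd
    have h3 := μv κ j a b ⟨h, ha, hb, hd⟩
    have i1 := hC1 (mv κ j (a + b)) (smv h hd) (two_le_mv (by omega))
    have i2 := iso_muk R h ha hb hd
    -- `C κ μ = μ⁰ C κ'`
    have h4 : C κ * muk X κ j a b = (μ κ j a b).1.1 * C (mv κ j (a + b)) := by
      rw [h3]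
      calc C κ * muk X κ j a b = C κ * (muk X κ j a b * (C' (mv κ j (a + b)) *
            C (mv κ j (a + b)))) := by rw [i1.vu, i2.uf]
        _ = _ := by simp only [mul_assoc]
    have h5 : (g κ0)⁻¹ * g κ * μ κ j a b =
        ((label κ j a b).elim 1 fun l => (g κ0)⁻¹ * ψ l * g κ0) *
          ((g κ0)⁻¹ * g (mv κ j (a + b))) := by
      rw [h1]
      rcases label κ j a b with _ | l
      · simp
      · simp only [Option.elim_some]
        group
    have h6 := congrArg (fun x : HG (X p) he => x.1.1) h5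
    simp only [HG_mul] at h6 ⊢
    rw [mul_assoc, h4, ← mul_assoc, h6, mul_assoc]

end Pool.Agent.W_MP_aeed81_al_h89
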