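import Pool.Agent.W_MP_aeed81_al_h89.MotPos
import Pool.Agent.W_MP_aeed81_al_h89.MotSq
import Pool.Agent.W_MP_aeed81_al_h89.MotAct
import Pool.Agent.W_MP_aeed81_al_h89.MotCount
import Pool.Agent.W_MP_aeed81_al_h89.MotUpper

/-!
# The action of `PG(P(M_n))` with values in the free group on the labels
-/

set_option linter.unusedVariables false
set_option linter.unusedSectionVars false
set_option warn.classDefReducibility false

namespace Pool.Agent.W_MP_aeed81_al_h89

open Pool.Agent.W_MP_aeed81_al Sum Pat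

variable {n r : ℕ}

theorem AZ_q_other {i j : Fin n} (hij : i ≠ j) {k : Fin n} (h1 : k ≠ i) (h2 : k ≠ j) :
    (AZ i j ∅).q k = k := by
  by_cases h : sb i j k
  · exact jnq_in _ h
  · have : ¬ ib i j k := by rw [ib_iff]; tauto
    exact jnq_out (sg ∅) hij this this

theorem mem_AZ_T {i j : Fin n} (hij : i ≠ j) {k : Fin n} :
    k ∈ (AZ i j ∅).T ↔ ¬ ib i j k := by
  unfold AZ
  rw [mem_jnT _ hij]
  constructor
  · exact fun h => h.1
  · intro h
    refine ⟨h, Or.inl ?_⟩
    change k ∈ (∅ : Finset (Fin n))ᶜ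
    simp

/-- conjugation by a cluster-fixing arc -/
theorem e_AZ_e_fix (e : Pat n) {i j : Fin n} (hij : i ≠ j) (h : ∀ k, ib i j k → k ∉ e.T) :
    e.D * (AZ i j ∅).D * e.D = e.D := by
  apply Cl_ext
  intro s t
  rw [Cl_mul]
  simp only [Cl_mul, Cl_AZ hij]
  simp only [Cl_D]
  have hi : i ∉ e.T := h i (by unfold ib; omega)
  have hj : j ∉ e.T := h j (by unfold ib; omega)
  constructor
  · rintro ⟨v, ⟨u, ⟨h1, h2, h3⟩, h4, h5, h6⟩, h7, h8, h9⟩
    refine ⟨h1, h8, fun k hk => ?_⟩
    have : ¬ ib i j k := fun h' => h k h' hk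
    rw [h3 k hk, h6 k this (by simp), h9 k hk]
  · rintro ⟨h1, h2, h3⟩
    have hu : ∀ k, (k ∈ e.T ∧ s k) ↔ (e.q k ∈ e.T ∧ s (e.q k)) := by
      intro k
      rw [q_mem, ← h1 k]
    have huij : (i ∈ e.T ∧ s i) ↔ (j ∈ e.T ∧ s j) := by tauto
    refine ⟨fun k => k ∈ e.T ∧ s k, ⟨fun k => k ∈ e.T ∧ s k, ⟨h1, hu, ?_⟩, huij, huij,
      fun _ _ _ => Iff.rfl⟩, hu, h2, ?_⟩
    · intro k hk; simp [hk]
    · intro k hk
      have := h3 k hk
      simp [hk, this]

/-- conjugation by a cluster-changing arc -/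
theorem e_AZ_e_move (e : Pat n) {x j y : Fin n} (hx : x ∈ e.T) (hj : e.q j = y)
    (h : (x < j ∧ j < y) ∨ (y < j ∧ j < x)) (hin : ∀ k, sb x j k → k ∉ e.T) :
    e.D * (AZ x j ∅).D * e.D = e.D := by
  have hxj : x ≠ j := by omega
  have hjy : j ≠ y := by omega
  have hy : e.q y = j := by rw [← hj, e.inv]
  have hjT : j ∉ e.T := fun h => hjy (by rw [← hj, e.fix j h])
  have hyT : y ∉ e.T := fun h => hjy (by rw [← hy, e.fix y h])
  apply Cl_ext
  intro s t
  rw [Cl_mul]
  simp only [Cl_mul, Cl_AZ hxj]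
  simp only [Cl_D]
  constructor
  · rintro ⟨v, ⟨u, ⟨h1, h2, h3⟩, h4, h5, h6⟩, h7, h8, h9⟩
    refine ⟨h1, h8, fun k hk => ?_⟩
    by_cases hkx : k = x
    · subst hkx
      have c : u y ↔ v y := h6 y (by unfold ib; omega) (by simp)
      have d := h2 j
      have f := h7 j
      rw [hj] at d f
      rw [h3 k hk, h4, d, c, ← f, ← h5, h9 k hk]
    · have : ¬ ib x j k := by
        rw [ib_iff]
        rintro (h | h | h)
        · exact hkx h
        · exact hjT (h ▸ hk)
        · exact hin k h hk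
      rw [h3 k hk, h6 k this (by simp), h9 k hk]
  · rintro ⟨h1, h2, h3⟩
    have hu : ∀ i, (if i = j ∨ i = y then s x else s i) ↔
        (if e.q i = j ∨ e.q i = y then s x else s (e.q i)) := by
      intro i
      by_cases hi : i = j ∨ i = y
      · have : e.q i = j ∨ e.q i = y := by
          rcases hi with rfl | rfl
          · right; exact hj
          · left; exact hy
        simp [hi, this]
      · have : ¬ (e.q i = j ∨ e.q i = y) := by
          rintro (h | h)
          · apply hi; right; rw [← hj, ← h, e.inv]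
          · apply hi; left; rw [← hy, ← h, e.inv]
        simp only [hi, this, if_false]
        exact h1 i
    have hTu : ∀ i ∈ e.T, s i ↔ (if i = j ∨ i = y then s x else s i) := by
      intro i hi
      have : ¬ (i = j ∨ i = y) := by
        rintro (h | h)
        · exact hjT (h ▸ hi)
        · exact hyT (h ▸ hi)
      simp [this]
    have hxx : (if x = j ∨ x = y then s x else s x) ↔ (if j = j ∨ j = y then s x else s j) := by
      simp
    exact ⟨fun i => if i = j ∨ i = y then s x else s i,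
      ⟨fun i => if i = j ∨ i = y then s x else s i, ⟨h1, hu, hTu⟩, hxx, hxx,
        fun _ _ _ => Iff.rfl⟩, hu, h2, fun i hi => (hTu i hi).symm.trans (h3 i hi)⟩

theorem closed_single {e : Pat n} {t : Fin n} (h : e.q t = t) :
    ∀ k, k = t ↔ e.q k = t := by
  intro k
  constructor
  · rintro rfl; exact h
  · intro h'; rw [← e.inv k, h', h]

/-- when does `a_{ij}` act on `e` -/
theorem AZ_cases (e : Pat n) {i j : Fin n} (hij : i ≠ j)
    (h : e.D * (AZ i j ∅).D * e.D = e.D) :
    (∀ k, ib i j k → k ∉ e.T) ∨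
    (i ∈ e.T ∧ (∀ k, sb i j k → k ∉ e.T) ∧ ((i < j ∧ j < e.q j) ∨ (e.q j < j ∧ j < i))) ∨
    (j ∈ e.T ∧ (∀ k, sb i j k → k ∉ e.T) ∧ ((j < i ∧ i < e.q i) ∨ (e.q i < i ∧ i < j))) := by
  have qi : (AZ i j ∅).q i = j := jnq_left _ hij
  have qj : (AZ i j ∅).q j = i := jnq_right _ hij
  have ibi : ib i j i := by unfold ib; omega
  have ibj : ib i j j := by unfold ib; omega
  have A : ∀ t, sb i j t → t ∉ e.T := by
    intro t ht htT
    have hti : t ≠ i := by rintro rfl; unfold sb at ht; omega
    have htj : t ≠ j := by rintro rfl; unfold sb at ht; omega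
    obtain ⟨t', h1, h2⟩ := survive h (fun k => k = t) (closed_single (e.fix t htT))
      (closed_single (AZ_q_other hij hti htj)) htT rfl
    subst h2
    exact (mem_AZ_T hij).1 h1 (ib_iff.2 (Or.inr (Or.inr ht)))
  have B : ∀ {i j : Fin n}, i ≠ j → (AZ i j ∅).q i = j → (AZ i j ∅).q j = i →
      e.D * (AZ i j ∅).D * e.D = e.D → i ∈ e.T → ¬ ib i j (e.q j) := by
    intro i j hij qi qj h hi hib
    have ei := e.fix i hi
    have hy : e.q j = j ∨ (AZ i j ∅).q (e.q j) = e.q j ∨ e.q j = i := by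
      by_cases c1 : e.q j = i
      · exact Or.inr (Or.inr c1)
      by_cases c2 : e.q j = j
      · exact Or.inl c2
      · exact Or.inr (Or.inl (AZ_q_other hij c1 c2))
    let U : Fin n → Prop := fun k => k = i ∨ k = j ∨ k = e.q j
    have U1 : ∀ k, U k → U (e.q k) := by
      rintro k (h | h | h)
      · left; rw [h]; exact ei
      · right; right; rw [h]
      · right; left; rw [h, e.inv]
    have U2 : ∀ k, U k → U ((AZ i j ∅).q k) := by
      rintro k (h | h | h)
      · right; left; rw [h]; exact qi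
      · left; rw [h]; exact qj
      · rcases hy with h' | h' | h'
        · left; rw [h, h']; exact qj
        · right; right; rw [h]; exact h'
        · right; left; rw [h, h']; exact qi
    obtain ⟨t', h1, h2⟩ := survive h U
      (fun k => ⟨U1 k, fun h => by have := U1 _ h; rwa [e.inv] at this⟩)
      (fun k => ⟨U2 k, fun h => by have := U2 _ h; rwa [(AZ i j ∅).inv] at this⟩) hi (Or.inl rfl)
    have h3 := (mem_AZ_T hij).1 h1
    apply h3
    rcases h2 with h2 | h2 | h2
    · rw [h2]; unfold ib; omega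
    · rw [h2]; unfold ib; omega
    · rw [h2]; exact hib
  by_cases hi : i ∈ e.T
  · right; left
    refine ⟨hi, A, ?_⟩
    have hB := B hij qi qj h hi
    have hjj : e.q j ≠ j := by intro h'; apply hB; rw [h']; exact ibj
    have e1 : ¬ (e.q j < i ∧ i < j) := fun h' => e.nt (e.q j) i h'.1 (by rw [e.inv]; exact h'.2) hi
    have e2 : ¬ (j < i ∧ i < e.q j) := fun h' => e.nt j i h'.1 h'.2 hi
    unfold ib at hB
    omega
  · by_cases hj : j ∈ e.T
    · right; right
      refine ⟨hj, A, ?_⟩
      have h' : e.D * (AZ j i ∅).D * e.D = e.D := by rw [AZ_symm]; exact h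
      have hB := B (Ne.symm hij) (by rw [AZ_symm]; exact qj) (by rw [AZ_symm]; exact qi) h' hj
      have hii : e.q i ≠ i := by intro h'; apply hB; rw [h']; unfold ib; omega
      have e1 : ¬ (e.q i < j ∧ j < i) := fun h' => e.nt (e.q i) j h'.1 (by rw [e.inv]; exact h'.2) hj
      have e2 : ¬ (i < j ∧ j < e.q i) := fun h' => e.nt i j h'.1 h'.2 hj
      unfold ib at hB
      omega
    · left
      intro k hk
      rcases ib_iff.1 hk with h' | h' | h'
      · rw [h']; exact hi
      · rw [h']; exact hj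
      · exact A k h'

/-- when do singletons act on `e` -/
theorem sg_cases (e : Pat n) {Z : Finset (Fin n)} (h : e.D * (sg Z).D * e.D = e.D) :
    ∀ z ∈ Z, z ∉ e.T := by
  intro z hz hzT
  obtain ⟨t', h1, h2⟩ := survive h (fun k => k = z) (closed_single (e.fix z hzT))
    (closed_single (e := sg Z) rfl) hzT rfl
  subst h2
  change t' ∈ Zᶜ at h1
  rw [Finset.mem_compl] at h1
  exact h1 hz

/-- the free group on the valid labels -/
abbrev FL (r k : ℕ) : Type := FreeGroup {l : Lab r // l.Valid k}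

open Classical in
/-- the value of a label -/
noncomputable def toF (k : ℕ) : Option (Lab r) → FL r k
  | none => 1
  | some l => if h : l.Valid k then FreeGroup.of ⟨l, h⟩ else 1

theorem toF_some {k : ℕ} {l : Lab r} (h : l.Valid k) :
    toF k (some l) = FreeGroup.of ⟨l, h⟩ := dif_pos h

open Classical in
/-- the label of a move, in terms of the transversals -/
noncomputable def chi (r k : ℕ) (T : Finset (Fin n)) (x z y : Fin n) : FL r k :=
  if h : ∃ p : (Fin (r+1) → ℕ) × Fin r, ∑ i, p.1 i + r = n ∧ Tof n p.1 = T ∧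
      (x : ℕ) = posN p.1 p.2 then
    toF k (label h.choose.1 h.choose.2 ((z : ℕ) - x) ((y : ℕ) - z))
  else 1

theorem chi_eq {κ : Fin (r+1) → ℕ} (h : ∑ i, κ i + r = n) {j : Fin r} (k : ℕ) {x z y : Fin n}
    (hx : (x : ℕ) = posN κ j) :
    chi r k (Tof n κ) x z y = toF k (label κ j ((z : ℕ) - x) ((y : ℕ) - z)) := by
  have hex : ∃ p : (Fin (r+1) → ℕ) × Fin r, ∑ i, p.1 i + r = n ∧ Tof n p.1 = Tof n κ ∧
      (x : ℕ) = posN p.1 p.2 := ⟨(κ, j), h, rfl, hx⟩
  unfold chi
  rw [dif_pos hex]
  have hs := hex.choose_spec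
  generalize hex.choose = p at hs
  obtain ⟨κ', j'⟩ := p
  obtain ⟨h1, h2, h3⟩ := hs
  simp only at h1 h2 h3 ⊢
  have e1 : κ' = κ := Tof_inj h1 h h2
  subst e1
  have e2 : j' = j := (posN_strictMono κ').injective (h3.symm.trans hx)
  rw [e2]

theorem label_some {κ : Fin (r+1) → ℕ} {j : Fin r} {a b : ℕ} {l : Lab r}
    (h : label κ j a b = some l) : ((a = 1 ∧ b = 2) ∨ (a = 2 ∧ b = 1) ∨ (a = 2 ∧ b = 2)) ∧
      Tight κ j (a + b) := by
  unfold label at h
  split_ifs at h with h1 h2 h3
  · obtain ⟨rfl, rfl, h1⟩ := h1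
    exact ⟨Or.inl ⟨rfl, rfl⟩, h1⟩
  · obtain ⟨rfl, rfl, h1, _⟩ := h2
    exact ⟨Or.inr (Or.inl ⟨rfl, rfl⟩), h1⟩
  · obtain ⟨rfl, rfl, h4⟩ := h3
    exact ⟨Or.inr (Or.inr ⟨rfl, rfl⟩), h4⟩

theorem cc_eq_label {κ : Fin (r+1) → ℕ} (h : ∑ i, κ i + r = n) {j : Fin r} (k : ℕ) {a b : ℕ}
    {e f : Pat n} {x z y : Fin n} (ha : 1 ≤ a) (hb : 1 ≤ b)
    (hx : (x : ℕ) = posN κ j) (hz : (z : ℕ) = x + a) (hy : (y : ℕ) = z + b)
    (he : e.T = Tof n κ) (hf : f.T = insert y (e.T.erase x)) (hq : f.q x = z) (hq' : e.q z = y) :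
    cc (chi r k) e f = toF k (label κ j a b) := by
  have hxT : x ∈ e.T := by rw [he]; exact mem_Tof_pos hx
  have hyT : y ∉ e.T := by
    intro h'
    have := e.fix y h'
    rw [← hq', e.inv] at this
    omega
  have hyF : y ∈ f.T := by rw [hf]; exact Finset.mem_insert_self _ _
  have hxF : x ∉ f.T := by
    rw [hf, Finset.mem_insert, Finset.mem_erase]
    rintro (h' | h')
    · omega
    · exact h'.1 rfl
  by_cases c : Ess e f x z y
  · rw [cc_of_ess _ c, he, chi_eq h k hx]
    have e1 : (z : ℕ) - x = a := by omega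
    have e2 : (y : ℕ) - z = b := by omega
    rw [e1, e2]
  · rw [cc_of_not]
    · -- the label is trivial
      rcases hl : label κ j a b with _ | l
      · rfl
      · exfalso
        obtain ⟨h1, h2⟩ := label_some hl
        apply c
        refine ⟨hxT, hq, hq', hyF, hf, ?_, ?_⟩
        · rw [he]
          exact tightT_of h j h2 hx (by omega)
        · omega
    · intro x' z' y' h'
      have e1 : x' = x := by
        by_contra hne
        apply h'.not_mem
        rw [hf, Finset.mem_insert, Finset.mem_erase]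
        exact Or.inr ⟨hne, h'.1⟩
      subst e1
      have e2 : z' = z := h'.2.1.symm.trans hq
      subst e2
      have e3 : y' = y := h'.2.2.1.symm.trans hq'
      subst e3
      exact c h'
    · intro x' z' y' h'
      have e1 : x' = y := by
        have h1 := h'.1
        have h2 := h'.not_mem
        rw [hf, Finset.mem_insert, Finset.mem_erase] at h1
        rcases h1 with h1 | h1
        · exact h1
        · exact absurd h1.2 h2
      have e2 : y' = x := by
        have h1 := h'.not_mem'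
        have h2 := h'.2.2.2.1
        by_contra hne
        apply h1
        rw [hf, Finset.mem_insert, Finset.mem_erase]
        exact Or.inr ⟨hne, h2⟩
      have := h'.lt
      omega

open Classical in
/-- the action -/
theorem exists_action (n r k : ℕ) : ∃ Φ : PG (Motzkin n) → ROp (Pat n × FL r k),
    (∀ a b, Φ (a * b) = Φ a * Φ b) ∧
    ∀ p e g, (Φ (xm p)).1 (some (e, g)) =
      if e.D * p.D * e.D = e.D then some (cj p e, g * cc (chi r k) e (cj p e)) else none :=
  action_of_sq (cc_self _) (cc_inv _) (Sq_all (cc_self _) (cc_inv _) (Sq_sg _)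
    (fun i j hij => Sq_AZ _ hij))

end Pool.Agent.W_MP_aeed81_al_h89
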