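import Pool.Agent.W_MP_aeed81_al_h89.MotTau

set_option linter.unusedVariables false
set_option linter.unusedSectionVars false

namespace Pool.Agent.W_MP_aeed81_al_h89

open Classical symmDiff

variable {r : ℕ} {G : Type*} [Group G]

/-- weight of a parity set, for the recursion -/
def pw (O : Finset (Fin (r+1))) : ℕ := ∑ i ∈ O, (r + 1 - (i : ℕ))

theorem mem_symmDiff_singleton {O : Finset (Fin (r+1))} {i j : Fin (r+1)} :
    i ∈ O ∆ {j} ↔ (i ∈ O ∧ i ≠ j) ∨ (i = j ∧ i ∉ O) := by
  rw [Finset.mem_symmDiff, Finset.mem_singleton]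

theorem symmDiff_singleton_of_mem {O : Finset (Fin (r+1))} {j : Fin (r+1)} (h : j ∈ O) :
    O ∆ {j} = O.erase j := by
  ext i
  rw [mem_symmDiff_singleton, Finset.mem_erase]
  constructor
  · rintro (⟨a, b⟩ | ⟨a, b⟩)
    · exact ⟨b, a⟩
    · exact absurd (a ▸ h) b
  · rintro ⟨a, b⟩; exact Or.inl ⟨b, a⟩

theorem symmDiff_singleton_of_notMem {O : Finset (Fin (r+1))} {j : Fin (r+1)} (h : j ∉ O) :
    O ∆ {j} = insert j O := by
  ext i
  rw [mem_symmDiff_singleton, Finset.mem_insert]
  constructor
  · rintro (⟨a, b⟩ | ⟨a, b⟩)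
    · exact Or.inr a
    · exact Or.inl a
  · rintro (a | a)
    · exact Or.inr ⟨a, a ▸ h⟩
    · exact Or.inl ⟨a, fun hc => h (hc ▸ a)⟩

theorem sd_sd (O : Finset (Fin (r+1))) (j : Fin (r+1)) : O ∆ {j} ∆ {j} = O := by
  rw [symmDiff_assoc, symmDiff_self, Finset.bot_eq_empty, ← Finset.bot_eq_empty, symmDiff_bot]

theorem sd_comm (O : Finset (Fin (r+1))) (i j : Fin (r+1)) : O ∆ {i} ∆ {j} = O ∆ {j} ∆ {i} :=
  symmDiff_right_comm _ _ _

theorem pw_lt {O : Finset (Fin (r+1))} {i : Fin r} (h : i.castSucc ∈ O) :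
    pw (O ∆ {i.castSucc} ∆ {i.succ}) < pw O := by
  rw [symmDiff_singleton_of_mem h]
  have h1 : pw (O.erase i.castSucc) + (r + 1 - (i : ℕ)) = pw O := by
    unfold pw
    have := Finset.sum_erase_add O (fun i : Fin (r+1) => (r + 1 - (i : ℕ))) h
    simpa using this
  have h2 := i.2
  by_cases h3 : i.succ ∈ O.erase i.castSucc
  · rw [symmDiff_singleton_of_mem h3]
    have : pw ((O.erase i.castSucc).erase i.succ) + (r + 1 - ((i.succ : Fin (r+1)) : ℕ)) =
        pw (O.erase i.castSucc) :=
      Finset.sum_erase_add _ (fun i : Fin (r+1) => (r + 1 - (i : ℕ))) h3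
    omega
  · rw [symmDiff_singleton_of_notMem h3]
    have : pw (insert i.succ (O.erase i.castSucc)) = (r + 1 - ((i.succ : Fin (r+1)) : ℕ)) +
        pw (O.erase i.castSucc) := Finset.sum_insert h3
    rw [Fin.val_succ] at this
    omega

/-- `i` is the first gap of odd size, and not the last gap -/
def IsFirst (O : Finset (Fin (r+1))) (i : Fin r) : Prop :=
  i.castSucc ∈ O ∧ ∀ x : Fin (r+1), x < i.castSucc → x ∉ O

theorem IsFirst.unique {O : Finset (Fin (r+1))} {i j : Fin r} (hi : IsFirst O i)
    (hj : IsFirst O j) : i = j := by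
  rcases lt_trichotomy i j with h | h | h
  · exact absurd hi.1 (hj.2 _ (Fin.castSucc_lt_castSucc_iff.2 h))
  · exact h
  · exact absurd hj.1 (hi.2 _ (Fin.castSucc_lt_castSucc_iff.2 h))

/-- the gauge on parity sets -/
noncomputable def gp (S : Fin r → Finset (Fin (r+1)) → G) (O : Finset (Fin (r+1))) : G :=
  if h : ∃ i : Fin r, IsFirst O i then
    gp S (O ∆ {h.choose.castSucc} ∆ {h.choose.succ}) * S h.choose (O ∆ {h.choose.castSucc})
  else 1
termination_by pw O
decreasing_by exact pw_lt h.choose_spec.1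

theorem gp_eq (S : Fin r → Finset (Fin (r+1)) → G) {O : Finset (Fin (r+1))} {i : Fin r}
    (h : IsFirst O i) : gp S O = gp S (O ∆ {i.castSucc} ∆ {i.succ}) * S i (O ∆ {i.castSucc}) := by
  have hex : ∃ i : Fin r, IsFirst O i := ⟨i, h⟩
  have e : hex.choose = i := hex.choose_spec.unique h
  rw [gp]
  simp only [hex, dif_pos]
  rw [e]

theorem gp_spec (S : Fin r → Finset (Fin (r+1)) → G) (k : ℕ)
    (R1 : ∀ (w : Finset (Fin (r+1))) (j : Fin r), w.card + 6 ≤ k → w.card % 2 = k % 2 →
      S j (w ∆ {j.succ}) * S j (w ∆ {j.castSucc}) = 1)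
    (R2 : ∀ (w : Finset (Fin (r+1))) (j l : Fin r), j ≠ l → w.card + 6 ≤ k → w.card % 2 = k % 2 →
      S j (w ∆ {l.succ}) * S l (w ∆ {j.castSucc}) = S l (w ∆ {j.succ}) * S j (w ∆ {l.castSucc})) :
    ∀ (Z : Finset (Fin (r+1))) (j : Fin r), Z.card + 5 ≤ k → (Z.card + 1) % 2 = k % 2 →
      S j Z = (gp S (Z ∆ {j.succ}))⁻¹ * gp S (Z ∆ {j.castSucc}) := by
  have main : ∀ m : ℕ, ∀ (Z : Finset (Fin (r+1))) (j : Fin r), pw Z = m → Z.card + 5 ≤ k →
      (Z.card + 1) % 2 = k % 2 →
      S j Z = (gp S (Z ∆ {j.succ}))⁻¹ * gp S (Z ∆ {j.castSucc}) := by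
    intro m
    induction m using Nat.strong_induction_on with
    | _ m ih =>
      intro Z j hm hk hp
      have hne := castSucc_ne_succ' j
      by_cases hA : ∀ x : Fin (r+1), x < j.castSucc → x ∉ Z
      · by_cases hj : j.castSucc ∈ Z
        · -- A2
          have hf : IsFirst (Z ∆ {j.succ}) j := by
            refine ⟨mem_symmDiff_singleton.2 (Or.inl ⟨hj, hne⟩), ?_⟩
            intro x hx hc
            rcases mem_symmDiff_singleton.1 hc with ⟨h1, _⟩ | ⟨h1, _⟩
            · exact hA x hx h1
            · have := Fin.castSucc_lt_succ (i := j)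
              rw [h1] at hx
              exact absurd hx (not_lt.2 this.le)
          have e := gp_eq S hf
          rw [sd_comm Z j.succ j.castSucc, sd_sd] at e
          have e1 : (Z ∆ {j.castSucc}).card + 1 = Z.card := by
            rw [symmDiff_singleton_of_mem hj, Finset.card_erase_of_mem hj]
            have := Finset.card_pos.2 ⟨_, hj⟩
            omega
          have e2 := R1 (Z ∆ {j.castSucc}) j (by omega) (by omega)
          rw [sd_sd] at e2
          rw [eq_inv_of_mul_eq_one_right e2, e]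
          group
        · -- A1
          have hf : IsFirst (Z ∆ {j.castSucc}) j := by
            refine ⟨mem_symmDiff_singleton.2 (Or.inr ⟨rfl, hj⟩), ?_⟩
            intro x hx hc
            rcases mem_symmDiff_singleton.1 hc with ⟨h1, _⟩ | ⟨h1, _⟩
            · exact hA x hx h1
            · exact absurd hx (by rw [h1]; exact lt_irrefl _)
          have e := gp_eq S hf
          rw [sd_sd] at e
          rw [e]; group
      · -- B
        push Not at hA
        obtain ⟨x, hx, hxZ⟩ := hA
        obtain ⟨y, hy, hmin⟩ := Finset.exists_min_image (Z.filter (fun x => x < j.castSucc)) id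
          ⟨x, Finset.mem_filter.2 ⟨hxZ, hx⟩⟩
        rw [Finset.mem_filter] at hy
        have hylt : (y : ℕ) < r := by
          have := hy.2
          rw [Fin.lt_def] at this
          have := j.2
          simp at *
          omega
        obtain ⟨i, rfl⟩ : ∃ i : Fin r, y = i.castSucc := ⟨⟨y, hylt⟩, rfl⟩
        have hij : i < j := Fin.castSucc_lt_castSucc_iff.1 hy.2
        have hiZ := hy.1
        have hfirst : ∀ x : Fin (r+1), x < i.castSucc → x ∉ Z := by
          intro x hx hxZ
          have := hmin x (Finset.mem_filter.2 ⟨hxZ, hx.trans hy.2⟩)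
          exact absurd hx (not_lt.2 this)
        have n1 : i.castSucc ≠ j.succ := by
          intro h
          have := congrArg Fin.val h
          simp at this
          have := Fin.lt_def.1 hij
          omega
        have n2 : i.castSucc ≠ j.castSucc := fun h => hij.ne (Fin.castSucc_injective _ h)
        have hf1 : IsFirst (Z ∆ {j.succ}) i := by
          refine ⟨mem_symmDiff_singleton.2 (Or.inl ⟨hiZ, n1⟩), ?_⟩
          intro x hx hc
          rcases mem_symmDiff_singleton.1 hc with ⟨h1, _⟩ | ⟨h1, _⟩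
          · exact hfirst x hx h1
          · rw [h1, Fin.lt_def] at hx
            simp at hx
            have := Fin.lt_def.1 hij
            omega
        have hf2 : IsFirst (Z ∆ {j.castSucc}) i := by
          refine ⟨mem_symmDiff_singleton.2 (Or.inl ⟨hiZ, n2⟩), ?_⟩
          intro x hx hc
          rcases mem_symmDiff_singleton.1 hc with ⟨h1, _⟩ | ⟨h1, _⟩
          · exact hfirst x hx h1
          · rw [h1] at hx
            exact absurd hx (not_lt.2 (Fin.castSucc_le_castSucc_iff.2 hij.le))
        have e1 := gp_eq S hf1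
        have e2 := gp_eq S hf2
        have hc : (Z ∆ {i.castSucc}).card + 1 = Z.card := by
          rw [symmDiff_singleton_of_mem hiZ, Finset.card_erase_of_mem hiZ]
          have := Finset.card_pos.2 ⟨_, hiZ⟩
          omega
        have e3 := R2 (Z ∆ {i.castSucc}) i j hij.ne (by omega) (by omega)
        rw [sd_sd] at e3
        set Zm := Z ∆ {i.castSucc} ∆ {i.succ} with hZm
        have hpw : pw Zm < pw Z := pw_lt hiZ
        have hcard : Zm.card ≤ Z.card ∧ (Zm.card % 2 = Z.card % 2) := by
          rw [hZm]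
          by_cases hs : i.succ ∈ Z ∆ {i.castSucc}
          · rw [symmDiff_singleton_of_mem hs, Finset.card_erase_of_mem hs]
            have := Finset.card_pos.2 ⟨_, hs⟩
            omega
          · rw [symmDiff_singleton_of_notMem hs, Finset.card_insert_of_notMem hs]
            omega
        have e4 := ih (pw Zm) (by omega) Zm j rfl (by omega) (by omega)
        -- rewrite everything
        have s1 : Z ∆ {j.succ} ∆ {i.castSucc} ∆ {i.succ} = Zm ∆ {j.succ} := by
          rw [hZm, sd_comm Z j.succ i.castSucc, sd_comm _ j.succ i.succ]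
        have s2 : Z ∆ {j.castSucc} ∆ {i.castSucc} ∆ {i.succ} = Zm ∆ {j.castSucc} := by
          rw [hZm, sd_comm Z j.castSucc i.castSucc, sd_comm _ j.castSucc i.succ]
        have s3 : Z ∆ {j.succ} ∆ {i.castSucc} = Z ∆ {i.castSucc} ∆ {j.succ} := sd_comm _ _ _
        have s4 : Z ∆ {j.castSucc} ∆ {i.castSucc} = Z ∆ {i.castSucc} ∆ {j.castSucc} := sd_comm _ _ _
        rw [s1, s3] at e1
        rw [s2, s4] at e2
        -- e3 : S i (Z∆i∆jsucc) * S j Z = S j (Z∆i∆isucc) * S i (Z∆i∆jcast)
        rw [e4] at e3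
        have e5 : S j Z = (S i (Z ∆ {i.castSucc} ∆ {j.succ}))⁻¹ *
            ((gp S (Zm ∆ {j.succ}))⁻¹ * gp S (Zm ∆ {j.castSucc}) *
              S i (Z ∆ {i.castSucc} ∆ {j.castSucc})) := by
          rw [← e3]; group
        rw [e5, e1, e2]
        group
  intro Z j h1 h2
  exact main _ Z j rfl h1 h2

end Pool.Agent.W_MP_aeed81_al_h89
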