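import Pool.Agent.W_MP_aeed81_al.BDiag

/-!
# Patterns: the projections of the Motzkin monoid
-/

set_option linter.unusedVariables false
set_option linter.unusedSectionVars false
set_option warn.classDefReducibility false

namespace Pool.Agent.W_MP_aeed81_al_h89

open Pool.Agent.W_MP_aeed81_al Sum

variable {n : ℕ}

/-- A pattern: a noncrossing partial matching `q` and a set `T` of transversals, none of them
under an arc. -/
structure Pat (n : ℕ) where
  q : Fin n → Fin n
  T : Finset (Fin n)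
  inv : ∀ i, q (q i) = i
  fix : ∀ i ∈ T, q i = i
  nc : ∀ u x, u < x → x < q u → u < q x ∧ q x < q u
  nt : ∀ u x, u < x → x < q u → x ∉ T

namespace Pat

theorem ext' {e f : Pat n} (h1 : ∀ i, e.q i = f.q i) (h2 : e.T = f.T) : e = f := by
  obtain ⟨q, T, _, _, _, _⟩ := e
  obtain ⟨q', T', _, _, _, _⟩ := f
  have : q = q' := funext h1
  subst this
  have : T = T' := h2
  subst this
  rfl

theorem nc' (e : Pat n) : ∀ u x, e.q u < x → x < u → e.q u < e.q x ∧ e.q x < u := by
  intro u x h1 h2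
  have := e.nc (e.q u) x h1 (by rw [e.inv]; exact h2)
  rwa [e.inv] at this

theorem nt' (e : Pat n) : ∀ u x, e.q u < x → x < u → x ∉ e.T := by
  intro u x h1 h2
  exact e.nt (e.q u) x h1 (by rw [e.inv]; exact h2)

/-- the involution on the two rows -/
def w (e : Pat n) : Fin n ⊕ Fin n → Fin n ⊕ Fin n
  | inl i => if i ∈ e.T then inr i else inl (e.q i)
  | inr i => if i ∈ e.T then inl i else inr (e.q i)

theorem q_mem (e : Pat n) (i : Fin n) : e.q i ∈ e.T ↔ i ∈ e.T := by
  constructor
  · intro h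
    have := e.fix _ h
    rw [e.inv] at this
    rw [this]; exact h
  · intro h
    rw [e.fix _ h]; exact h

theorem w_inv (e : Pat n) : ∀ x, e.w (e.w x) = x := by
  rintro (i | i)
  · by_cases h : i ∈ e.T
    · simp [w, h]
    · have h2 : e.q i ∉ e.T := by rwa [q_mem]
      simp [w, h, h2, e.inv]
  · by_cases h : i ∈ e.T
    · simp [w, h]
    · have h2 : e.q i ∉ e.T := by rwa [q_mem]
      simp [w, h, h2, e.inv]

/-- the diagram of a pattern, as an element of the semigroup of all diagrams -/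
def D (e : Pat n) : Dg n := relOf e.w e.w_inv

/-- the closed pairs of sets -/
def Cl (a : Dg n) (s t : Fin n → Prop) : Prop := Closed (α := Fin n ⊕ Fin n) a (two s t)

end Pat

open Pat

theorem Cl_mul (a b : Dg n) (s t : Fin n → Prop) : Cl (a * b) s t ↔ ∃ u, Cl a s u ∧ Cl b u t :=
  closed_dmul _ _ _ _

theorem Cl_ext {a b : Dg n} (h : ∀ s t, Cl a s t ↔ Cl b s t) : a = b := by
  apply closed_ext
  intro S
  rw [← two_eta S]
  exact h _ _

theorem Cl_D (e : Pat n) (s t : Fin n → Prop) : Cl e.D s t ↔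
    (∀ i, s i ↔ s (e.q i)) ∧ (∀ i, t i ↔ t (e.q i)) ∧ ∀ i ∈ e.T, s i ↔ t i := by
  unfold Cl D
  rw [closed_relOf]
  constructor
  · intro h
    refine ⟨?_, ?_, ?_⟩
    · intro i
      by_cases hi : i ∈ e.T
      · rw [e.fix i hi]
      · have := h (inl i)
        simpa [w, hi] using this
    · intro i
      by_cases hi : i ∈ e.T
      · rw [e.fix i hi]
      · have := h (inr i)
        simpa [w, hi] using this
    · intro i hi
      have := h (inl i)
      simpa [w, hi] using this
  · rintro ⟨h1, h2, h3⟩ (i | i)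
    · by_cases hi : i ∈ e.T
      · simpa [w, hi] using h3 i hi
      · simpa [w, hi] using h1 i
    · by_cases hi : i ∈ e.T
      · simpa [w, hi] using (h3 i hi).symm
      · simpa [w, hi] using h2 i

theorem D_injective {e f : Pat n} (h : e.D = f.D) : e = f := by
  have h1 : e.w = f.w := relOf_injective h
  have hT : e.T = f.T := by
    ext i
    have := congrFun h1 (inl i)
    by_cases h2 : i ∈ e.T <;> by_cases h3 : i ∈ f.T <;> simp [w, h2, h3] at this ⊢
  apply ext' _ hT
  intro i
  by_cases h2 : i ∈ e.T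
  · rw [e.fix i h2, f.fix i (hT ▸ h2)]
  · have h3 : i ∉ f.T := hT ▸ h2
    have := congrFun h1 (inl i)
    simpa [w, h2, h3] using this

/-- singletons on `Z`, transversals elsewhere -/
def sg (Z : Finset (Fin n)) : Pat n where
  q := id
  T := Zᶜ
  inv _ := rfl
  fix _ _ := rfl
  nc u x h1 h2 := absurd (h1.trans h2) (lt_irrefl _)
  nt u x h1 h2 := absurd (h1.trans h2) (lt_irrefl _)

/-- turn the points of `Z` and their partners into singletons -/
def kill (e : Pat n) (Z : Finset (Fin n)) : Pat n where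
  q k := if k ∈ Z ∨ e.q k ∈ Z then k else e.q k
  T := e.T \ Z
  inv i := by
    by_cases h : i ∈ Z ∨ e.q i ∈ Z
    · simp [h]
    · have : ¬ (e.q i ∈ Z ∨ e.q (e.q i) ∈ Z) := by rw [e.inv]; tauto
      rw [if_neg h, if_neg this, e.inv]
  fix i h := by
    rw [Finset.mem_sdiff] at h
    rw [e.fix i h.1]; simp
  nc u x h1 h2 := by
    by_cases h : u ∈ Z ∨ e.q u ∈ Z
    · rw [if_pos h] at h2; exact absurd (h1.trans h2) (lt_irrefl _)
    · rw [if_neg h] at h2 ⊢
      by_cases h' : x ∈ Z ∨ e.q x ∈ Z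
      · rw [if_pos h']; exact ⟨h1, h2⟩
      · rw [if_neg h']; exact e.nc u x h1 h2
  nt u x h1 h2 := by
    by_cases h : u ∈ Z ∨ e.q u ∈ Z
    · rw [if_pos h] at h2; exact absurd (h1.trans h2) (lt_irrefl _)
    · rw [if_neg h] at h2
      intro h3
      exact e.nt u x h1 h2 (Finset.mem_sdiff.1 h3).1

theorem Cl_sg (Z : Finset (Fin n)) (s t : Fin n → Prop) :
    Cl (sg Z).D s t ↔ ∀ i, i ∉ Z → (s i ↔ t i) := by
  rw [Cl_D]
  simp [sg]

theorem D_kill (e : Pat n) (Z : Finset (Fin n)) :
    (sg Z).D * e.D * (sg Z).D = (kill e Z).D := by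
  apply Cl_ext
  intro s t
  simp only [Cl_mul, Cl_sg]
  simp only [Cl_D]
  constructor
  · rintro ⟨v, ⟨u, h1, h2, h3, h4⟩, h5⟩
    refine ⟨?_, ?_, ?_⟩
    · intro i
      change _ ↔ s (if i ∈ Z ∨ e.q i ∈ Z then i else e.q i)
      split_ifs with h
      · rfl
      · push Not at h
        rw [h1 i h.1, h2 i, h1 _ h.2]
    · intro i
      change _ ↔ t (if i ∈ Z ∨ e.q i ∈ Z then i else e.q i)
      split_ifs with h
      · rfl
      · push Not at h
        rw [← h5 i h.1, h3 i, h5 _ h.2]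
    · intro i hi
      have hi' := Finset.mem_sdiff.1 hi
      rw [h1 i hi'.2, h4 i hi'.1, h5 i hi'.2]
  · rintro ⟨h1, h2, h3⟩
    have h1' : ∀ i, i ∉ Z → e.q i ∉ Z → (s i ↔ s (e.q i)) := by
      intro i a b
      have := h1 i
      change _ ↔ s (if i ∈ Z ∨ e.q i ∈ Z then i else e.q i) at this
      rwa [if_neg (by tauto)] at this
    have h2' : ∀ i, i ∉ Z → e.q i ∉ Z → (t i ↔ t (e.q i)) := by
      intro i a b
      have := h2 i
      change _ ↔ t (if i ∈ Z ∨ e.q i ∈ Z then i else e.q i) at this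
      rwa [if_neg (by tauto)] at this
    refine ⟨fun k => (k ∉ Z ∧ t k) ∨ (k ∈ Z ∧ e.q k ∉ Z ∧ t (e.q k)),
      ⟨fun k => (k ∉ Z ∧ s k) ∨ (k ∈ Z ∧ e.q k ∉ Z ∧ s (e.q k)), ?_, ?_, ?_, ?_⟩, ?_⟩
    · intro i hi
      simp [hi]
    · intro i
      have := h1' i
      simp only [e.inv]
      tauto
    · intro i
      have := h2' i
      simp only [e.inv]
      tauto
    · intro i hi
      have := h3 i
      have h5 : i ∈ (kill e Z).T ↔ i ∉ Z := by
        change i ∈ e.T \ Z ↔ _
        rw [Finset.mem_sdiff]; tauto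
      rw [h5] at this
      simp only [e.fix i hi]
      tauto
    · intro i hi
      simp [hi]

/-- the involution of `a_{ij} e a_{ij}` -/
def joinq (e : Pat n) (i j : Fin n) (k : Fin n) : Fin n :=
  if k = i then j else if k = j then i
  else if (i < k ∧ k < j) ∨ (i < e.q k ∧ e.q k < j) then k
  else if e.q k = i then (if e.q j = j ∨ (i < e.q j ∧ e.q j < j) then k else e.q j)
  else if e.q k = j then (if e.q i = i ∨ (i < e.q i ∧ e.q i < j) then k else e.q i)
  else e.q k

/-- the transversals of `a_{ij} e a_{ij}` -/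
def joinT (e : Pat n) (i j : Fin n) : Finset (Fin n) :=
  Finset.univ.filter fun k => (k < i ∨ j < k) ∧
    (k ∈ e.T ∨ (e.q k = i ∧ j ∈ e.T) ∨ (e.q k = j ∧ i ∈ e.T))

theorem joinq_inv (e : Pat n) {i j : Fin n} (hij : i < j) (k : Fin n) :
    joinq e i j (joinq e i j k) = k := by
  have h1 := e.inv k
  have h2 := e.inv i
  have h3 := e.inv j
  by_cases k1 : k = i
  · subst k1; simp [joinq, hij.ne']
  by_cases k2 : k = j
  · subst k2; simp [joinq, hij.ne']
  by_cases k3 : (i < k ∧ k < j) ∨ (i < e.q k ∧ e.q k < j)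
  · have : joinq e i j k = k := by simp only [joinq, k1, k2, k3, if_true, if_false]
    rw [this, this]
  by_cases k4 : e.q k = i
  · by_cases k5 : e.q j = j ∨ (i < e.q j ∧ e.q j < j)
    · have : joinq e i j k = k := by
        unfold joinq
        rw [if_neg k1, if_neg k2, if_neg k3, if_pos k4, if_pos k5]
      rw [this, this]
    · have : joinq e i j k = e.q j := by
        unfold joinq
        rw [if_neg k1, if_neg k2, if_neg k3, if_pos k4, if_neg k5]
      rw [this]
      have ki : e.q i = k := by rw [← k4, h1]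
      unfold joinq
      rw [if_neg, if_neg, if_neg, if_neg, if_pos h3, if_neg, ki]
      · rw [ki]; omega
      · rw [h3]; exact hij.ne'
      · rw [h3]; omega
      · omega
      · intro h; apply k2; rw [← ki, ← h, h3]
  by_cases k6 : e.q k = j
  · by_cases k5 : e.q i = i ∨ (i < e.q i ∧ e.q i < j)
    · have : joinq e i j k = k := by
        unfold joinq
        rw [if_neg k1, if_neg k2, if_neg k3, if_neg k4, if_pos k6, if_pos k5]
      rw [this, this]
    · have : joinq e i j k = e.q i := by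
        unfold joinq
        rw [if_neg k1, if_neg k2, if_neg k3, if_neg k4, if_pos k6, if_neg k5]
      rw [this]
      have kj : e.q j = k := by rw [← k6, h1]
      unfold joinq
      rw [if_neg, if_neg, if_neg, if_pos h2, if_neg, kj]
      · rw [kj]; omega
      · rw [h2]; omega
      · intro h; apply k1; rw [← kj, ← h, h2]
      · omega
  · have : joinq e i j k = e.q k := by
      unfold joinq
      rw [if_neg k1, if_neg k2, if_neg k3, if_neg k4, if_neg k6]
    rw [this]
    unfold joinq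
    rw [if_neg k4, if_neg k6, h1, if_neg (by tauto), if_neg k1, if_neg k2]

theorem joinq_cases (e : Pat n) {i j : Fin n} (hij : i < j) (k : Fin n) :
    (k = i ∧ joinq e i j k = j) ∨ (k = j ∧ joinq e i j k = i) ∨
    (k ≠ i ∧ k ≠ j ∧ joinq e i j k = k) ∨
    ((k < i ∨ j < k) ∧ e.q k = i ∧ e.q i = k ∧ joinq e i j k = e.q j ∧ (e.q j < i ∨ j < e.q j)) ∨
    ((k < i ∨ j < k) ∧ e.q k = j ∧ e.q j = k ∧ joinq e i j k = e.q i ∧ (e.q i < i ∨ j < e.q i)) ∨
    ((k < i ∨ j < k) ∧ (e.q k < i ∨ j < e.q k) ∧ joinq e i j k = e.q k) := by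
  have h1 := e.inv k
  by_cases k1 : k = i
  · left; subst k1; simp [joinq]
  by_cases k2 : k = j
  · right; left; subst k2; simp [joinq, hij.ne']
  by_cases k3 : (i < k ∧ k < j) ∨ (i < e.q k ∧ e.q k < j)
  · right; right; left
    refine ⟨k1, k2, ?_⟩
    unfold joinq
    rw [if_neg k1, if_neg k2, if_pos k3]
  by_cases k4 : e.q k = i
  · by_cases k5 : e.q j = j ∨ (i < e.q j ∧ e.q j < j)
    · right; right; left
      refine ⟨k1, k2, ?_⟩
      unfold joinq
      rw [if_neg k1, if_neg k2, if_neg k3, if_pos k4, if_pos k5]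
    · right; right; right; left
      have ki : e.q i = k := by rw [← k4, h1]
      refine ⟨by omega, k4, ki, ?_, ?_⟩
      · unfold joinq
        rw [if_neg k1, if_neg k2, if_neg k3, if_pos k4, if_neg k5]
      · have : e.q j ≠ i := by
          intro h
          apply k2
          rw [← ki, ← h, e.inv]
        omega
  by_cases k6 : e.q k = j
  · by_cases k5 : e.q i = i ∨ (i < e.q i ∧ e.q i < j)
    · right; right; left
      refine ⟨k1, k2, ?_⟩
      unfold joinq
      rw [if_neg k1, if_neg k2, if_neg k3, if_neg k4, if_pos k6, if_pos k5]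
    · right; right; right; right; left
      have kj : e.q j = k := by rw [← k6, h1]
      refine ⟨by omega, k6, kj, ?_, ?_⟩
      · unfold joinq
        rw [if_neg k1, if_neg k2, if_neg k3, if_neg k4, if_pos k6, if_neg k5]
      · have : e.q i ≠ j := by
          intro h
          apply k1
          rw [← kj, ← h, e.inv]
        omega
  · right; right; right; right; right
    refine ⟨by omega, by omega, ?_⟩
    unfold joinq
    rw [if_neg k1, if_neg k2, if_neg k3, if_neg k4, if_neg k6]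

theorem join_nc (e : Pat n) {i j : Fin n} (hij : i < j) (u x : Fin n) (h1 : u < x)
    (h2 : x < joinq e i j u) : u < joinq e i j x ∧ joinq e i j x < joinq e i j u := by
  have eu := e.inv u
  have ex := e.inv x
  rcases joinq_cases e hij u with ⟨a1, a2⟩ | ⟨a1, a2⟩ | ⟨a1, a2, a3⟩ | ⟨a1, a2, a3, a4, a5⟩ |
    ⟨a1, a2, a3, a4, a5⟩ | ⟨a1, a2, a3⟩
  · -- `u = i`
    have : joinq e i j x = x := by
      unfold joinq
      rw [if_neg (by omega), if_neg (by omega), if_pos (by omega)]
    omega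
  · omega
  · omega
  · -- `u - i`, `j - y`
    have n1 := e.nc u (e.q j)
    have n2 := e.nc' u j
    rw [e.inv] at n1
    have n3 := e.nc u x
    have n4 := e.nc i x
    have n5 := e.nc j x
    rcases joinq_cases e hij x with ⟨b1, b2⟩ | ⟨b1, b2⟩ | ⟨b1, b2, b3⟩ | ⟨b1, b2, b3, b4, b5⟩ |
      ⟨b1, b2, b3, b4, b5⟩ | ⟨b1, b2, b3⟩
    · omega
    · omega
    · omega
    · omega
    · omega
    · omega
  · have n1 := e.nc u (e.q i)
    have n2 := e.nc' u i
    rw [e.inv] at n1
    have n3 := e.nc u x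
    have n4 := e.nc i x
    have n5 := e.nc j x
    have n6 := e.nc' i x
    have n7 := e.nc' j x
    have f1 : e.q x ≠ u := fun h => by
      have := e.inv x
      rw [h, a2] at this
      omega
    have f2 : e.q x = e.q i → x = i := fun h => by rw [← ex, h, e.inv]
    have n8 := e.nc i (e.q x)
    have n9 := e.nc j (e.q x)
    have n10 := e.nc' i (e.q x)
    have n11 := e.nc' j (e.q x)
    rw [e.inv] at n8 n9 n10 n11
    rcases joinq_cases e hij x with ⟨b1, b2⟩ | ⟨b1, b2⟩ | ⟨b1, b2, b3⟩ | ⟨b1, b2, b3, b4, b5⟩ |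
      ⟨b1, b2, b3, b4, b5⟩ | ⟨b1, b2, b3⟩
    · omega
    · omega
    · omega
    · omega
    · omega
    · omega
  · have n1 := e.nc u x
    have n2 := e.nc u i
    have n3 := e.nc u j
    rcases joinq_cases e hij x with ⟨b1, b2⟩ | ⟨b1, b2⟩ | ⟨b1, b2, b3⟩ | ⟨b1, b2, b3, b4, b5⟩ |
      ⟨b1, b2, b3, b4, b5⟩ | ⟨b1, b2, b3⟩
    · omega
    · omega
    · omega
    · omega
    · omega
    · omega

theorem join_nt (e : Pat n) {i j : Fin n} (hij : i < j) (u x : Fin n) (h1 : u < x)
    (h2 : x < joinq e i j u) : x ∉ joinT e i j := by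
  intro hx
  unfold joinT at hx
  rw [Finset.mem_filter] at hx
  obtain ⟨_, c1, c2⟩ := hx
  have ex := e.inv x
  have eu := e.inv u
  rcases joinq_cases e hij u with ⟨a1, a2⟩ | ⟨a1, a2⟩ | ⟨a1, a2, a3⟩ | ⟨a1, a2, a3, a4, a5⟩ |
    ⟨a1, a2, a3, a4, a5⟩ | ⟨a1, a2, a3⟩
  · omega
  · omega
  · omega
  · have n1 := e.nc u (e.q j)
    have n2 := e.nc' u j
    rw [e.inv] at n1
    have ti : i ∉ e.T := fun h => by
      have := e.fix i h
      omega
    have tj : j ∉ e.T := fun h => by
      have := e.fix j h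
      omega
    rcases c2 with c | ⟨_, c⟩ | ⟨_, c⟩
    · have m1 : ¬ (u < x ∧ x < e.q u) := fun h => e.nt u x h.1 h.2 c
      have m2 : ¬ (e.q u < x ∧ x < u) := fun h => e.nt' u x h.1 h.2 c
      have m3 : ¬ (j < x ∧ x < e.q j) := fun h => e.nt j x h.1 h.2 c
      have m4 : ¬ (e.q j < x ∧ x < j) := fun h => e.nt' j x h.1 h.2 c
      have : x ≠ i := fun h => ti (h ▸ c)
      have : x ≠ j := fun h => tj (h ▸ c)
      omega
    · exact tj c
    · exact ti c
  · have n1 := e.nc u (e.q i)
    have n2 := e.nc' u i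
    rw [e.inv] at n1
    have ti : i ∉ e.T := fun h => by
      have := e.fix i h
      omega
    have tj : j ∉ e.T := fun h => by
      have := e.fix j h
      omega
    rcases c2 with c | ⟨_, c⟩ | ⟨_, c⟩
    · have m1 : ¬ (u < x ∧ x < e.q u) := fun h => e.nt u x h.1 h.2 c
      have m2 : ¬ (e.q u < x ∧ x < u) := fun h => e.nt' u x h.1 h.2 c
      have m3 : ¬ (i < x ∧ x < e.q i) := fun h => e.nt i x h.1 h.2 c
      have m4 : ¬ (e.q i < x ∧ x < i) := fun h => e.nt' i x h.1 h.2 c
      have : x ≠ i := fun h => ti (h ▸ c)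
      have : x ≠ j := fun h => tj (h ▸ c)
      omega
    · exact tj c
    · exact ti c
  · have n1 := e.nc u x
    rcases c2 with c | ⟨c0, c⟩ | ⟨c0, c⟩
    · exact e.nt u x h1 (by omega) c
    · have m1 : ¬ (u < j ∧ j < e.q u) := fun h => e.nt u j h.1 h.2 c
      omega
    · have m1 : ¬ (u < i ∧ i < e.q u) := fun h => e.nt u i h.1 h.2 c
      omega

/-- the pattern `a_{ij} e a_{ij}` -/
def join (e : Pat n) (i j : Fin n) (hij : i < j) : Pat n where
  q := joinq e i j
  T := joinT e i j
  inv := joinq_inv e hij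
  fix k hk := by
    unfold joinT at hk
    rw [Finset.mem_filter] at hk
    obtain ⟨_, h1, h2⟩ := hk
    have k1 : k ≠ i := by omega
    have k2 : k ≠ j := by omega
    unfold joinq
    rw [if_neg k1, if_neg k2]
    split_ifs with h3 h4 h5 h5 h6
    · rfl
    · rfl
    · rcases h2 with h | ⟨_, h⟩ | ⟨h, _⟩
      · rw [e.fix k h] at h4; exact absurd h4 k1
      · exact absurd (Or.inl (e.fix j h)) h5
      · omega
    · rfl
    · rcases h2 with h | ⟨h, _⟩ | ⟨_, h⟩
      · rw [e.fix k h] at h5; exact absurd h5 k2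
      · omega
      · exact absurd (Or.inl (e.fix i h)) h6
    · rcases h2 with h | ⟨h, _⟩ | ⟨h, _⟩
      · exact e.fix k h
      · exact absurd h h4
      · exact absurd h h5
  nc u x h1 h2 := join_nc e hij u x h1 h2
  nt u x h1 h2 := join_nt e hij u x h1 h2

/-- the pattern with one arc `(i,j)`, singletons inside and transversals outside -/
def ap (i j : Fin n) (hij : i < j) : Pat n := join (sg ∅) i j hij

theorem Cl_ap {i j : Fin n} (hij : i < j) (s t : Fin n → Prop) :
    Cl (ap i j hij).D s t ↔ (s i ↔ s j) ∧ (t i ↔ t j) ∧ ∀ k, (k < i ∨ j < k) → (s k ↔ t k) := by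
  rw [Cl_D]
  have hT : ∀ k, k ∈ (ap i j hij).T ↔ (k < i ∨ j < k) := by
    intro k
    change k ∈ joinT (sg ∅) i j ↔ _
    unfold joinT
    simp [sg]
  have hq : ∀ k, (k = i ∧ (ap i j hij).q k = j) ∨ (k = j ∧ (ap i j hij).q k = i) ∨
      (k ≠ i ∧ k ≠ j ∧ (ap i j hij).q k = k) := by
    intro k
    rcases joinq_cases (sg ∅) hij k with h | h | h | ⟨h1, h2, _⟩ | ⟨h1, h2, _⟩ | ⟨h1, h2, h3⟩
    · exact Or.inl h
    · exact Or.inr (Or.inl h)
    · exact Or.inr (Or.inr h)
    · change k = i at h2; omega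
    · change k = j at h2; omega
    · exact Or.inr (Or.inr ⟨by omega, by omega, h3⟩)
  constructor
  · rintro ⟨h1, h2, h3⟩
    refine ⟨?_, ?_, fun k hk => h3 k ((hT k).2 hk)⟩
    · have := h1 i
      rcases hq i with ⟨_, h⟩ | ⟨h, _⟩ | ⟨h, _⟩
      · rwa [h] at this
      · omega
      · omega
    · have := h2 i
      rcases hq i with ⟨_, h⟩ | ⟨h, _⟩ | ⟨h, _⟩
      · rwa [h] at this
      · omega
      · omega
  · rintro ⟨h1, h2, h3⟩
    refine ⟨?_, ?_, fun k hk => h3 k ((hT k).1 hk)⟩
    · intro k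
      rcases hq k with ⟨h, h'⟩ | ⟨h, h'⟩ | ⟨_, _, h⟩
      · rw [h', h]; exact h1
      · rw [h', h]; exact h1.symm
      · rw [h]
    · intro k
      rcases hq k with ⟨h, h'⟩ | ⟨h, h'⟩ | ⟨_, _, h⟩
      · rw [h', h]; exact h2
      · rw [h', h]; exact h2.symm
      · rw [h]

end Pool.Agent.W_MP_aeed81_al_h89
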