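import Pool.Agent.W_MP_aeed81_al_h89.MotLabDef

/-!
# Positions of transversals
-/

set_option linter.unusedVariables false
set_option linter.unusedSectionVars false
set_option warn.classDefReducibility false

namespace Pool.Agent.W_MP_aeed81_al_h89

open Pool.Agent.W_MP_aeed81_al Sum Pat

variable {n r : ℕ} {κ κ' : Fin (r+1) → ℕ}

/-- sums of the first gaps -/
def psum (κ : Fin (r+1) → ℕ) (m : ℕ) : ℕ := ∑ i : Fin (r+1), if (i : ℕ) ≤ m then κ i else 0

/-- end of the gap `m` -/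
def PP (κ : Fin (r+1) → ℕ) (m : ℕ) : ℕ := psum κ m + m

theorem posN_eq (κ : Fin (r+1) → ℕ) (j : Fin r) : posN κ j = PP κ j := rfl

theorem psum_zero (κ : Fin (r+1) → ℕ) : psum κ 0 = κ 0 := by
  unfold psum
  rw [Finset.sum_eq_single (0 : Fin (r+1))]
  · simp
  · intro i _ hi
    rw [if_neg]
    intro h
    exact hi (Fin.ext (by simpa using h))
  · intro h; exact absurd (Finset.mem_univ _) h

theorem psum_succ (κ : Fin (r+1) → ℕ) {m : ℕ} (hm : m + 1 < r + 1) :
    psum κ (m+1) = psum κ m + κ ⟨m+1, hm⟩ := by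
  unfold psum
  have h1 : κ ⟨m+1, hm⟩ = ∑ i : Fin (r+1), if i = ⟨m+1, hm⟩ then κ i else 0 := by simp
  rw [h1, ← Finset.sum_add_distrib]
  apply Finset.sum_congr rfl
  intro i _
  by_cases h : (i : ℕ) ≤ m
  · have h2 : i ≠ ⟨m+1, hm⟩ := by
      intro h3; rw [h3] at h; simp at h
    rw [if_pos (by omega), if_pos h, if_neg h2]; rfl
  · by_cases h2 : i = ⟨m+1, hm⟩
    · rw [if_neg h, if_pos h2, if_pos (by rw [h2])]; simp
    · have h3 : ¬ (i : ℕ) ≤ m + 1 := by
        intro h3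
        apply h2
        apply Fin.ext
        show (i : ℕ) = m + 1
        omega
      rw [if_neg h3, if_neg h, if_neg h2]

theorem psum_last (κ : Fin (r+1) → ℕ) : psum κ r = ∑ i, κ i := by
  unfold psum
  apply Finset.sum_congr rfl
  intro i _
  rw [if_pos (by omega)]

theorem psum_mono (κ : Fin (r+1) → ℕ) {a b : ℕ} (h : a ≤ b) : psum κ a ≤ psum κ b := by
  unfold psum
  apply Finset.sum_le_sum
  intro i _
  split_ifs <;> omega

theorem PP_lt (κ : Fin (r+1) → ℕ) {a b : ℕ} (h : a < b) : PP κ a < PP κ b := by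
  have := psum_mono κ h.le
  unfold PP
  omega

theorem PP_le (κ : Fin (r+1) → ℕ) {a b : ℕ} (h : a ≤ b) : PP κ a ≤ PP κ b := by
  have := psum_mono κ h
  unfold PP
  omega

theorem lt_of_PP_lt {a b : ℕ} (h : PP κ a < PP κ b) : a < b := by
  by_contra hc
  have := PP_le κ (not_lt.1 hc)
  omega

theorem PP_inj {a b : ℕ} (h : PP κ a = PP κ b) : a = b := by
  rcases lt_trichotomy a b with h1 | h1 | h1
  · have := PP_lt κ h1; omega
  · exact h1
  · have := PP_lt κ h1; omega

theorem PP_zero (κ : Fin (r+1) → ℕ) : PP κ 0 = κ 0 := psum_zero κ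

theorem PP_succ (κ : Fin (r+1) → ℕ) {m : ℕ} (hm : m + 1 < r + 1) :
    PP κ (m+1) = PP κ m + κ ⟨m+1, hm⟩ + 1 := by
  unfold PP
  rw [psum_succ κ hm]
  omega

theorem PP_last (h : ∑ i, κ i + r = n) : PP κ r = n := by
  unfold PP
  rw [psum_last, h]

theorem posN_next (κ : Fin (r+1) → ℕ) (j : Fin r) : PP κ (j+1) = posN κ j + κ j.succ + 1 := by
  rw [posN_eq, PP_succ κ (by omega)]
  rfl

theorem posN_lt (h : ∑ i, κ i + r = n) (j : Fin r) : posN κ j < n := by
  rw [posN_eq, ← PP_last h]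
  exact PP_lt κ j.2

theorem posN_strictMono (κ : Fin (r+1) → ℕ) : StrictMono (posN κ) := by
  intro a b h
  exact PP_lt κ h

theorem mem_Tof {x : Fin n} : x ∈ Tof n κ ↔ ∃ j, posN κ j = (x : ℕ) := by
  unfold Tof
  simp

theorem Tof_card (h : ∑ i, κ i + r = n) : (Tof n κ).card = r := by
  have h1 : Tof n κ = Finset.univ.image (fun j : Fin r => (⟨posN κ j, posN_lt h j⟩ : Fin n)) := by
    ext x
    rw [mem_Tof]
    simp only [Finset.mem_image, Finset.mem_univ, true_and]
    constructor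
    · rintro ⟨j, hj⟩; exact ⟨j, Fin.ext hj⟩
    · rintro ⟨j, hj⟩; exact ⟨j, congrArg Fin.val hj⟩
  rw [h1, Finset.card_image_of_injective]
  · simp
  · intro a b hab
    exact (posN_strictMono κ).injective (congrArg Fin.val hab)

theorem psum_mv (κ : Fin (r+1) → ℕ) (j : Fin r) {d : ℕ} (hd : d ≤ κ j.succ) (m : ℕ) :
    psum (mv κ j d) m + (if (j : ℕ) + 1 ≤ m then d else 0) =
      psum κ m + (if (j : ℕ) ≤ m then d else 0) := by
  unfold psum
  have h1 : (if (j : ℕ) + 1 ≤ m then d else 0) =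
      ∑ i : Fin (r+1), if i = j.succ then (if (i : ℕ) ≤ m then d else 0) else 0 := by simp
  have h2 : (if (j : ℕ) ≤ m then d else 0) =
      ∑ i : Fin (r+1), if i = j.castSucc then (if (i : ℕ) ≤ m then d else 0) else 0 := by simp
  rw [h1, h2, ← Finset.sum_add_distrib, ← Finset.sum_add_distrib]
  apply Finset.sum_congr rfl
  intro i _
  have h0 := castSucc_ne_succ' j
  rw [mv_apply]
  by_cases a : i = j.castSucc
  · subst a
    simp only [h0, if_true, if_false]
    split_ifs <;> omega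
  · by_cases b : i = j.succ
    · subst b
      simp only [h0.symm, if_true, if_false]
      split_ifs <;> omega
    · simp only [a, b, if_false]

theorem posN_mv (κ : Fin (r+1) → ℕ) (j : Fin r) {d : ℕ} (hd : d ≤ κ j.succ) (l : Fin r) :
    posN (mv κ j d) l = if l = j then posN κ l + d else posN κ l := by
  rw [posN_eq, posN_eq]
  unfold PP
  have := psum_mv κ j hd (l : ℕ)
  by_cases h : l = j
  · subst h
    rw [if_pos rfl]
    rw [if_neg (by omega), if_pos le_rfl] at this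
    omega
  · rw [if_neg h]
    have hne : (l : ℕ) ≠ (j : ℕ) := fun h' => h (Fin.ext h')
    by_cases h1 : (j : ℕ) + 1 ≤ l
    · rw [if_pos h1, if_pos (by omega)] at this
      omega
    · rw [if_neg h1, if_neg (by omega)] at this
      omega

theorem Tof_mv (h : ∑ i, κ i + r = n) (j : Fin r) {d : ℕ} (hd : d ≤ κ j.succ) {x y : Fin n}
    (hx : (x : ℕ) = posN κ j) (hy : (y : ℕ) = x + d) :
    Tof n (mv κ j d) = insert y ((Tof n κ).erase x) := by
  ext z
  rw [mem_Tof, Finset.mem_insert, Finset.mem_erase, mem_Tof]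
  constructor
  · rintro ⟨l, hl⟩
    rw [posN_mv κ j hd] at hl
    by_cases h1 : l = j
    · rw [if_pos h1, h1] at hl
      left; apply Fin.ext; omega
    · rw [if_neg h1] at hl
      right
      refine ⟨?_, l, hl⟩
      rintro rfl
      exact h1 ((posN_strictMono κ).injective (hl.trans hx))
  · rintro (rfl | ⟨h1, l, hl⟩)
    · refine ⟨j, ?_⟩
      rw [posN_mv κ j hd, if_pos rfl]; omega
    · refine ⟨l, ?_⟩
      rw [posN_mv κ j hd, if_neg, hl]
      rintro rfl
      exact h1 (Fin.ext (hl.symm.trans hx.symm))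

theorem posN_add_lt (h : ∑ i, κ i + r = n) (j : Fin r) : posN κ j + κ j.succ < n := by
  have h1 := posN_next κ j
  have h2 := PP_le κ (show (j : ℕ) + 1 ≤ r by omega)
  rw [PP_last h] at h2
  omega

theorem not_mem_Tof (h : ∑ i, κ i + r = n) (j : Fin r) {k : Fin n} (h1 : posN κ j < k)
    (h2 : (k : ℕ) ≤ posN κ j + κ j.succ) : k ∉ Tof n κ := by
  rw [mem_Tof]
  rintro ⟨l, hl⟩
  have h3 := posN_next κ j
  rw [posN_eq] at hl h1 h2 h3
  have h4 : (j : ℕ) < l := lt_of_PP_lt (κ := κ) (by omega)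
  have h5 := PP_le κ (show (j : ℕ) + 1 ≤ l by omega)
  omega

theorem le_gap (h : ∑ i, κ i + r = n) (j : Fin r) {y : Fin n} (h1 : posN κ j < y)
    (h2 : ∀ k : Fin n, posN κ j < k → k ≤ y → k ∉ Tof n κ) :
    (y : ℕ) ≤ posN κ j + κ j.succ := by
  by_contra hc
  have h3 := posN_next κ j
  by_cases hj : (j : ℕ) + 1 < r
  · have h4 := posN_lt h ⟨j+1, hj⟩
    have h5 : posN κ ⟨j+1, hj⟩ = PP κ (j+1) := rfl
    refine h2 ⟨posN κ ⟨j+1, hj⟩, h4⟩ ?_ ?_ (mem_Tof.2 ⟨_, rfl⟩)
    · show posN κ j < posN κ ⟨j+1, hj⟩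
      omega
    · show posN κ ⟨j+1, hj⟩ ≤ (y : ℕ)
      omega
  · have h4 : (j : ℕ) + 1 = r := by omega
    rw [h4, PP_last h] at h3
    have := y.2
    omega

theorem Tof_inj (h : ∑ i, κ i + r = n) (h' : ∑ i, κ' i + r = n) (he : Tof n κ = Tof n κ') :
    κ = κ' := by
  have h1 : posN κ = posN κ' := by
    rw [← StrictMono.range_inj (posN_strictMono κ) (posN_strictMono κ')]
    ext x
    constructor
    · rintro ⟨j, rfl⟩
      have : (⟨posN κ j, posN_lt h j⟩ : Fin n) ∈ Tof n κ := mem_Tof.2 ⟨j, rfl⟩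
      rw [he, mem_Tof] at this
      exact this
    · rintro ⟨j, rfl⟩
      have : (⟨posN κ' j, posN_lt h' j⟩ : Fin n) ∈ Tof n κ' := mem_Tof.2 ⟨j, rfl⟩
      rw [← he, mem_Tof] at this
      exact this
  have h2 : ∀ m, m ≤ r → PP κ m = PP κ' m := by
    intro m hm
    rcases hm.lt_or_eq with hm | rfl
    · exact congrFun h1 ⟨m, hm⟩
    · rw [PP_last h, PP_last h']
  funext i
  obtain ⟨m, hm⟩ := i
  rcases m with _ | m
  · have := h2 0 (by omega)
    rw [PP_zero, PP_zero] at this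
    exact this
  · have a := h2 (m+1) (by omega)
    have b := h2 m (by omega)
    rw [PP_succ κ hm, PP_succ κ' hm] at a
    omega

theorem Tof_surj (T : Finset (Fin n)) (hT : T.card = r) :
    ∃ κ : Fin (r+1) → ℕ, ∑ i, κ i + r = n ∧ Tof n κ = T := by
  let t := T.orderEmbOfFin hT
  let E : ℕ → ℕ := fun m => if h : m < r then (t ⟨m, h⟩ : ℕ) else n
  have hE : ∀ m, m < r → E m < E (m+1) := by
    intro m hm
    have e1 : E m = (t ⟨m, hm⟩ : ℕ) := dif_pos hm
    by_cases h1 : m + 1 < r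
    · have e2 : E (m+1) = (t ⟨m+1, h1⟩ : ℕ) := dif_pos h1
      rw [e1, e2]
      have : t ⟨m, hm⟩ < t ⟨m+1, h1⟩ := t.strictMono (by simp)
      exact this
    · have e2 : E (m+1) = n := dif_neg h1
      rw [e1, e2]
      exact (t ⟨m, hm⟩).2
  let κ : Fin (r+1) → ℕ := fun i => if (i : ℕ) = 0 then E 0 else E i - (E (i - 1) + 1)
  have hP : ∀ m, m ≤ r → PP κ m = E m := by
    intro m
    induction m with
    | zero => intro _; rw [PP_zero]; rfl
    | succ m ih =>
      intro hm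
      rw [PP_succ κ (show m + 1 < r + 1 by omega), ih (by omega)]
      have e1 : κ ⟨m+1, by omega⟩ = E (m+1) - (E m + 1) := rfl
      rw [e1]
      have := hE m (by omega)
      omega
  have hEr : E r = n := dif_neg (lt_irrefl r)
  refine ⟨κ, ?_, ?_⟩
  · have := hP r le_rfl
    unfold PP at this
    rw [psum_last, hEr] at this
    exact this
  · ext x
    rw [mem_Tof]
    have hr : ∀ x, x ∈ T ↔ ∃ j, t j = x := by
      intro x
      have := Finset.range_orderEmbOfFin T hT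
      rw [← Finset.mem_coe, ← this]
      rfl
    rw [hr]
    constructor
    · rintro ⟨j, hj⟩
      refine ⟨j, Fin.ext ?_⟩
      rw [posN_eq, hP _ (by omega)] at hj
      have : E j = (t j : ℕ) := dif_pos j.2
      rw [this] at hj
      exact hj
    · rintro ⟨j, rfl⟩
      refine ⟨j, ?_⟩
      rw [posN_eq, hP _ (by omega)]
      exact dif_pos j.2

theorem gap_of (h : ∑ i, κ i + r = n) {u : Fin n} (hu : u ∉ Tof n κ) :
    ∃ m, m < r + 1 ∧ (u : ℕ) < PP κ m ∧ (m = 0 ∨ PP κ (m - 1) < u) := by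
  have hex : ∃ m, (u : ℕ) < PP κ m := ⟨r, by rw [PP_last h]; exact u.2⟩
  have h1 : Nat.find hex ≤ r := Nat.find_min' hex (by rw [PP_last h]; exact u.2)
  refine ⟨Nat.find hex, by omega, Nat.find_spec hex, ?_⟩
  by_cases h0 : Nat.find hex = 0
  · exact Or.inl h0
  · right
    have h2 := Nat.find_min hex (show Nat.find hex - 1 < Nat.find hex by omega)
    rcases (not_lt.1 h2).lt_or_eq with h3 | h3
    · exact h3
    · exfalso
      apply hu
      exact mem_Tof.2 ⟨⟨Nat.find hex - 1, by omega⟩, h3⟩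

theorem pair_gap (h : ∑ i, κ i + r = n) {u v : Fin n} (huv : (v : ℕ) = u + 1)
    (hu : u ∉ Tof n κ) (hv : v ∉ Tof n κ) :
    ∃ m, ∃ hm : m < r + 1, (v : ℕ) < PP κ m ∧ (m = 0 ∨ PP κ (m - 1) < u) ∧ 2 ≤ κ ⟨m, hm⟩ := by
  obtain ⟨m, hm, h1, h2⟩ := gap_of h hu
  have h3 : (v : ℕ) < PP κ m := by
    rcases (show (v : ℕ) ≤ PP κ m by omega).lt_or_eq with h3 | h3
    · exact h3
    · exfalso
      by_cases hr : m < r
      · exact hv (mem_Tof.2 ⟨⟨m, hr⟩, h3.symm⟩)
      · have : m = r := by omega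
        rw [this, PP_last h] at h3
        have := v.2
        omega
  refine ⟨m, hm, h3, h2, ?_⟩
  rcases m with _ | m
  · rw [PP_zero] at h3
    have : κ ⟨0, hm⟩ = κ 0 := rfl
    omega
  · rw [PP_succ κ hm] at h3
    rcases h2 with h2 | h2
    · omega
    · rw [Nat.add_sub_cancel] at h2
      omega

theorem tightT_of (h : ∑ i, κ i + r = n) (j : Fin r) {d : ℕ} (ht : Tight κ j d) {x y : Fin n}
    (hx : (x : ℕ) = posN κ j) (hy : (y : ℕ) = x + d) : TightT (Tof n κ) x y := by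
  intro u v huv hu hv
  obtain ⟨m, hm, h1, h2, h3⟩ := pair_gap h huv hu hv
  obtain ⟨t1, t2, t3⟩ := ht
  have h4 : (⟨m, hm⟩ : Fin (r+1)) = j.succ := by
    by_contra hc
    have := t3 _ hc
    omega
  have h5 : m = j + 1 := by
    have := congrArg Fin.val h4
    simpa using this
  subst h5
  rw [posN_next κ j] at h1
  rcases h2 with h2 | h2
  · omega
  · have h6 : PP κ ((j : ℕ) + 1 - 1) = posN κ j := rfl
    rw [h6] at h2
    constructor
    · show (x : ℕ) < u
      omega
    · show (u : ℕ) ≤ y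
      omega

theorem two_le_iff (h : ∑ i, κ i + r = n) :
    (∃ i, 2 ≤ κ i) ↔ ∃ u v : Fin n, (v : ℕ) = u + 1 ∧ u ∉ Tof n κ ∧ v ∉ Tof n κ := by
  constructor
  · rintro ⟨⟨m, hm⟩, h2⟩
    have hle := PP_le κ (show m ≤ r by omega)
    rw [PP_last h] at hle
    have key : ∀ (lo : ℕ), (lo + κ ⟨m, hm⟩ = PP κ m) → (∀ l, PP κ l < PP κ m → PP κ l < lo) →
        ∃ u v : Fin n, (v : ℕ) = u + 1 ∧ u ∉ Tof n κ ∧ v ∉ Tof n κ := by
      intro lo h3 h4
      refine ⟨⟨lo, by omega⟩, ⟨lo + 1, by omega⟩, rfl, ?_, ?_⟩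
      · rw [mem_Tof]
        rintro ⟨l, hl⟩
        have hl' : PP κ l = lo := hl
        have := h4 l (by omega)
        omega
      · rw [mem_Tof]
        rintro ⟨l, hl⟩
        have hl' : PP κ l = lo + 1 := hl
        have := h4 l (by omega)
        omega
    rcases m with _ | m
    · apply key 0
      · rw [PP_zero, zero_add]; rfl
      · intro l hl
        have := lt_of_PP_lt hl
        omega
    · apply key (PP κ m + 1)
      · rw [PP_succ κ hm]; omega
      · intro l hl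
        have := lt_of_PP_lt hl
        have := PP_le κ (show l ≤ m by omega)
        omega
  · rintro ⟨u, v, huv, hu, hv⟩
    obtain ⟨m, hm, _, _, h3⟩ := pair_gap h huv hu hv
    exact ⟨_, h3⟩

end Pool.Agent.W_MP_aeed81_al_h89
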