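import Pool.Agent.W_MP_aeed81_al_h89.MotAlg

/-!
# Relations in `PG(P(M_n))`
-/

set_option linter.unusedVariables false
set_option linter.unusedSectionVars false
set_option warn.classDefReducibility false

namespace Pool.Agent.W_MP_aeed81_al_h89

open Pool.Agent.W_MP_aeed81_al Sum Pat

variable {n : ℕ}

/-- elements that satisfy the relations of `PG` -/
structure PRep {M : Type*} [Semigroup M] (X : Pat n → M) : Prop where
  idem : ∀ p, X p * X p = X p
  sq : ∀ p q, X p * X q * (X p * X q) = X p * X q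
  conj : ∀ p q f : Pat n, p.D * q.D * p.D = f.D → X p * X q * X p = X f

namespace PRep

variable {M : Type*} [Semigroup M] {X : Pat n → M}

theorem mul_right (R : PRep X) {p e f : Pat n} (h : p.D * e.D * p.D = f.D) :
    X e * X p = X e * X f := by
  calc X e * X p = X e * X p * (X e * X p) := (R.sq e p).symm
    _ = X e * (X p * X e * X p) := by simp only [mul_assoc]
    _ = X e * X f := by rw [R.conj p e f h]

theorem mul_left (R : PRep X) {p e f : Pat n} (h : p.D * e.D * p.D = f.D) :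
    X p * X e = X f * X e := by
  calc X p * X e = X p * X e * (X p * X e) := (R.sq p e).symm
    _ = X p * X e * X p * X e := by simp only [mul_assoc]
    _ = X f * X e := by rw [R.conj p e f h]

theorem comm_aux {p q m : Pat n} (h : p.D * q.D = m.D) : q.D * p.D = m.D := by
  have := congrArg st h
  rwa [st_mul, st_D, st_D, st_D] at this

theorem comm_mul (R : PRep X) {p q m : Pat n} (h : p.D * q.D = m.D) : X p * X q = X m := by
  have h' := comm_aux h
  have e1 : p.D * q.D * p.D = m.D := by rw [h, ← h', mul_assoc, D_idem, h']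
  have e2 : q.D * p.D * q.D = m.D := by rw [h', ← h, mul_assoc, D_idem, h]
  calc X p * X q = X p * X q * X p * X q := by rw [mul_assoc (X p * X q), R.sq]
    _ = X m * X q := by rw [R.conj _ _ _ e1]
    _ = X q * X p * (X q * X q) := by rw [← R.conj _ _ _ e2]; simp only [mul_assoc]
    _ = X m := by rw [R.idem, R.conj _ _ _ e2]

theorem comm_mul' (R : PRep X) {p q m : Pat n} (h : p.D * q.D = m.D) : X q * X p = X m :=
  R.comm_mul (comm_aux h)

/-- base of transversal set `T` absorbs singletons outside `T` -/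
theorem b_sg (R : PRep X) {T Z : Finset (Fin n)} (h : ∀ z ∈ Z, z ∉ T) :
    X (sg Tᶜ) * X (sg Z) = X (sg Tᶜ) := by
  apply R.comm_mul
  rw [sg_mul_sg]
  congr 2
  ext k
  simp only [Finset.mem_union, Finset.mem_compl]
  constructor
  · rintro (h1 | h1)
    · exact h1
    · exact h k h1
  · exact Or.inl

theorem star_a (R : PRep X) (e : Pat n) {i j : Fin n} (hij : i ≠ j)
    (hT : ∀ k, ib i j k → k ∉ e.T) (z : Fin n) (hz : z = i ∨ z = j) (hq : e.q z = z) :
    X (sg e.Tᶜ) * X (AZ i j ∅) * X e = X (sg e.Tᶜ) * X e := by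
  have hzi : ib i j z := by rcases hz with rfl | rfl <;> (unfold ib; omega)
  have hzT : z ∉ e.T := hT z hzi
  have h1 : X (sg {z}) * X e = X e := R.comm_mul (sg_mul e {z} (by
    intro y hy; rw [Finset.mem_singleton] at hy; subst hy; exact ⟨hq, hzT⟩))
  have h2 : X (AZ i j ∅) * X (sg {z}) = X (AZ i j ∅) * X (sg (ibF i j)) := by
    apply R.mul_right
    rw [sg_AZ_sg hij {z} (by rcases hz with rfl | rfl <;> simp)]
    congr 2
    ext k
    simp only [Finset.mem_union, Finset.mem_singleton, mem_ibF]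
    constructor
    · rintro (rfl | h)
      · exact hzi
      · exact h
    · exact Or.inr
  have h3 : X (sg (ibF i j)) * X (AZ i j ∅) * X (sg (ibF i j)) = X (sg (ibF i j)) := by
    apply R.conj
    rw [sg_AZ_sg hij _ (Or.inl (by rw [mem_ibF]; unfold ib; omega)), Finset.union_self]
  have h4 : X (sg e.Tᶜ) * X (sg (ibF i j)) = X (sg e.Tᶜ) := R.b_sg (by
    intro k hk; exact hT k (mem_ibF.1 hk))
  calc X (sg e.Tᶜ) * X (AZ i j ∅) * X e
      = X (sg e.Tᶜ) * (X (AZ i j ∅) * X (sg {z})) * X e := by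
        rw [← mul_assoc, mul_assoc _ (X (sg {z})), h1]
    _ = X (sg e.Tᶜ) * X (sg (ibF i j)) * (X (AZ i j ∅) * X (sg (ibF i j))) * X e := by
        rw [h2, h4]
    _ = X (sg e.Tᶜ) * (X (sg (ibF i j)) * X (AZ i j ∅) * X (sg (ibF i j))) * X e := by
        simp only [mul_assoc]
    _ = X (sg e.Tᶜ) * X e := by rw [h3, h4]

theorem kill_T (e : Pat n) {Z : Finset (Fin n)} (h : ∀ z ∈ Z, z ∉ e.T) : (kill e Z).T = e.T := by
  change e.T \ Z = e.T
  rw [Finset.sdiff_eq_self_iff_disjoint, Finset.disjoint_left]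
  intro a h1 h2
  exact h a h2 h1

/-- **Star lemma.** -/
theorem star (R : PRep X) (e : Pat n) {i j : Fin n} (hij : i ≠ j)
    (hT : ∀ k, ib i j k → k ∉ e.T) :
    X (sg e.Tᶜ) * X (AZ i j ∅) * X e = X (sg e.Tᶜ) * X e := by
  by_cases h1 : e.q i = i
  · exact R.star_a e hij hT i (Or.inl rfl) h1
  by_cases h2 : e.q i = j
  · -- `(i,j)` is an arc
    have e1 : X (AZ i j ∅) * X e = X (sg (sbF i j)) * X e := by
      rw [R.mul_left (D_jn e hij), jn_arc e hij h2, ← R.mul_left (D_kill e (sbF i j))]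
    rw [mul_assoc, e1, ← mul_assoc, R.b_sg]
    intro z hz
    rw [mem_sbF] at hz
    exact hT z (ib_iff.2 (Or.inr (Or.inr hz)))
  · -- `(i,x)` is an arc, `x ≠ j`
    have hx : e.q (e.q i) = i := e.inv i
    set x := e.q i with hxd
    have hxT : x ∉ e.T := by
      intro h
      exact h1 (by rw [← hx, e.fix x h])
    have hk : (kill e {x}).T = e.T := kill_T e (by
      intro z hz; rw [Finset.mem_singleton] at hz; subst hz; exact hxT)
    have hki : (kill e {x}).q i = i := by
      change (if i ∈ ({x} : Finset (Fin n)) ∨ e.q i ∈ ({x} : Finset (Fin n)) then i else e.q i) = i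
      rw [if_pos (Or.inr (by rw [← hxd]; simp))]
    have a1 := R.star_a (kill e {x}) hij (by rw [hk]; exact hT) i (Or.inl rfl) hki
    rw [hk, ← R.conj _ _ _ (D_kill e {x})] at a1
    -- commute `a_{ij}` with `s_x`
    have c1 : X (AZ i j ∅) * X (sg {x}) = X (sg {x}) * X (AZ i j ∅) := by
      have := AZ_mul_sg hij ∅ {x} (by simpa using Ne.symm h1) (by simpa using Ne.symm h2)
      rw [R.comm_mul this, R.comm_mul' this]
    have c2 : X (sg e.Tᶜ) * X (sg {x}) = X (sg e.Tᶜ) := R.b_sg (by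
      intro z hz; rw [Finset.mem_singleton] at hz; subst hz; exact hxT)
    have c3 : X e * X (sg {x}) * X e = X e := R.conj _ _ _ (e_sg_e e {x} (by
      intro z hz; rw [Finset.mem_singleton] at hz; subst hz; exact hxT))
    have a2 : X (sg e.Tᶜ) * X (AZ i j ∅) * X e * X (sg {x}) = X (sg e.Tᶜ) * X e * X (sg {x}) := by
      calc X (sg e.Tᶜ) * X (AZ i j ∅) * X e * X (sg {x})
          = X (sg e.Tᶜ) * X (sg {x}) * X (AZ i j ∅) * X e * X (sg {x}) := by rw [c2]
        _ = X (sg e.Tᶜ) * (X (sg {x}) * X (AZ i j ∅)) * X e * X (sg {x}) := by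
            simp only [mul_assoc]
        _ = X (sg e.Tᶜ) * X (AZ i j ∅) * (X (sg {x}) * X e * X (sg {x})) := by
            rw [← c1]; simp only [mul_assoc]
        _ = X (sg e.Tᶜ) * X (sg {x}) * X e * X (sg {x}) := by rw [a1]; simp only [mul_assoc]
        _ = _ := by rw [c2]
    calc X (sg e.Tᶜ) * X (AZ i j ∅) * X e
        = X (sg e.Tᶜ) * X (AZ i j ∅) * (X e * X (sg {x}) * X e) := by rw [c3]
      _ = (X (sg e.Tᶜ) * X (AZ i j ∅) * X e * X (sg {x})) * X e := by simp only [mul_assoc]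
      _ = X (sg e.Tᶜ) * (X e * X (sg {x}) * X e) := by rw [a2]; simp only [mul_assoc]
      _ = _ := by rw [c3]

/-- cluster-fixing moves, singletons -/
theorem fix_sg (R : PRep X) (e : Pat n) {Z : Finset (Fin n)} (h : ∀ z ∈ Z, z ∉ e.T) :
    X (sg e.Tᶜ) * X e * X (sg Z) = X (sg e.Tᶜ) * X (kill e Z) := by
  rw [← R.conj _ _ _ (D_kill e Z), ← mul_assoc, ← mul_assoc, R.b_sg h]

/-- cluster-fixing moves, arcs -/
theorem fix_AZ (R : PRep X) (e : Pat n) {i j : Fin n} (hij : i ≠ j)
    (hT : ∀ k, ib i j k → k ∉ e.T) :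
    X (sg e.Tᶜ) * X e * X (AZ i j ∅) = X (sg e.Tᶜ) * X (jn e i j) := by
  rw [← R.conj _ _ _ (D_jn e hij), ← mul_assoc, ← mul_assoc, R.star e hij hT]

/-- the basic path between two transversal sets -/
def mu (X : Pat n → M) (T T' : Finset (Fin n)) (x j y : Fin n) : M :=
  X (sg Tᶜ) * X (AZ j y ∅) * X (AZ x j ∅) * X (sg T'ᶜ)

/-- an arc joined with a transversal -/
theorem jnT_move (e : Pat n) {x j y : Fin n} (hx : x ∈ e.T) (hj : e.q j = y)
    (h : (x < j ∧ j < y) ∨ (y < j ∧ j < x)) (hin : ∀ k, sb x j k → k ∉ e.T) :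
    (jn e x j).T = insert y (e.T.erase x) := by
  have hxj : x ≠ j := by omega
  have hjy : j ≠ y := by omega
  have hjT : j ∉ e.T := fun h => hjy (by rw [← hj, e.fix j h])
  ext k
  rw [mem_jnT e hxj, Finset.mem_insert, Finset.mem_erase]
  constructor
  · rintro ⟨h1, h2 | h2 | h2⟩
    · right
      refine ⟨?_, h2⟩
      rintro rfl
      apply h1; unfold ib; omega
    · exact absurd h2.2 hjT
    · left
      rw [← hj, ← h2.1, e.inv]
  · rintro (h1 | h1)
    · subst h1
      refine ⟨by unfold ib; omega, Or.inr (Or.inr ⟨by rw [← hj, e.inv], hx⟩)⟩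
    · refine ⟨?_, Or.inl h1.2⟩
      rw [ib_iff]
      rintro (h2 | h2 | h2)
      · exact h1.1 h2
      · exact hjT (h2 ▸ h1.2)
      · exact hin k h2 h1.2

theorem not_mem_of_arc (e : Pat n) {j y : Fin n} (hjy : j ≠ y) (hj : e.q j = y) :
    ∀ k, ib j y k → k ∉ e.T := by
  have hy : e.q y = j := by rw [← hj, e.inv]
  intro k hk hkT
  rw [ib_iff] at hk
  rcases hk with rfl | rfl | hk
  · exact hjy (by rw [← hj, e.fix k hkT])
  · exact hjy (by rw [← hy, e.fix k hkT])
  · unfold sb at hk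
    rcases hk with hk | hk
    · exact e.nt j k hk.1 (by rw [hj]; exact hk.2) hkT
    · exact e.nt' j k (by rw [hj]; exact hk.1) hk.2 hkT

theorem main_move_aux (R : PRep X) (e : Pat n) {x j y : Fin n} (hx : x ∈ e.T) (hj : e.q j = y)
    (h : (x < j ∧ j < y) ∨ (y < j ∧ j < x)) (hin : ∀ k, sb x j k → k ∉ e.T)
    (hflat : ∀ k, sb j y k → e.q k = k) :
    X (sg e.Tᶜ) * X e * X (AZ x j ∅) = mu X e.T (jn e x j).T x j y * X (jn e x j) := by
  have hxj : x ≠ j := by omega
  have hjy : j ≠ y := by omega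
  have hT := not_mem_of_arc e hjy hj
  have hT' := jnT_move e hx hj h hin
  set e' := jn e x j with he'
  set B := X (sg e.Tᶜ) with hB
  set B' := X (sg e'.Tᶜ) with hB'
  set Q := X (AZ j y ∅) with hQ
  set P := X (AZ x j ∅) with hP
  have q1 : Q * X e = X e := R.comm_mul (AZ_mul e hjy hj hflat)
  have q2 : Q * P * Q = X (sg (sbF x j)) * Q := by
    rw [hQ, hP, R.conj _ _ _ (AZ_AZ_AZ h)]
    have := AZ_mul_sg hjy ∅ (sbF x j) (by rw [mem_sbF]; unfold sb; omega)
      (by rw [mem_sbF]; unfold sb; omega)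
    rw [Finset.empty_union] at this
    exact (R.comm_mul' this).symm
  have q3 : B * X (sg (sbF x j)) = B := R.b_sg (fun z hz => hin z (mem_sbF.1 hz))
  have q4 : B * Q * P * X e = B * X e := by
    calc B * Q * P * X e = B * (Q * P * Q) * X e := by
          rw [← q1]; simp only [mul_assoc]; rw [← mul_assoc Q Q, hQ, R.idem]
      _ = (B * X (sg (sbF x j))) * (Q * X e) := by rw [q2]; simp only [mul_assoc]
      _ = B * X e := by rw [q3, q1]
  have q5 : B * X e * P = B * Q * X e' := by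
    rw [← q4, mul_assoc (B * Q) P, mul_assoc (B * Q), R.conj _ _ _ (D_jn e hxj)]
  -- the other side
  have s1 : B' * P * X e' = B' * X e' := R.star e' hxj (by
    intro k hk hk'
    rw [he', mem_jnT e hxj] at hk'
    exact hk'.1 hk)
  have s2 : P * X e' = X e' := R.comm_mul (AZ_mul e' hxj (jnq_left e hxj)
    (fun k hk => jnq_in e hk))
  have yT' : y ∈ e'.T := by rw [hT']; exact Finset.mem_insert_self _ _
  have s3 : (AZ x j ∅).D * (sg (e'.Tᶜ \ {x, j})).D = (AZ x j e'.Tᶜ).D := by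
    rw [AZ_mul_sg hxj ∅ _ (by simp) (by simp)]
    apply Cl_ext
    intro s t
    rw [Cl_AZ hxj, Cl_AZ hxj]
    have : ∀ k, ¬ ib x j k → (k ∉ ∅ ∪ (e'.Tᶜ \ {x, j}) ↔ k ∉ e'.Tᶜ) := by
      intro k hk
      have k1 : k ≠ x := by rintro rfl; apply hk; unfold ib; omega
      have k2 : k ≠ j := by rintro rfl; apply hk; unfold ib; omega
      simp [k1, k2]
    constructor
    · rintro ⟨h1, h2, h3⟩
      exact ⟨h1, h2, fun k hk hk' => h3 k hk ((this k hk).2 hk')⟩
    · rintro ⟨h1, h2, h3⟩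
      exact ⟨h1, h2, fun k hk hk' => h3 k hk ((this k hk).1 hk')⟩
  have s4 : P * B' * P = X (sg (e'.Tᶜ \ {x, j})) * P := by
    rw [hP, hB', R.conj _ _ _ (AZ_sg_AZ hxj e'.Tᶜ), R.comm_mul' s3]
  have s5 : Q * X (sg (e'.Tᶜ \ {x, j})) = X (sg (e'.Tᶜ \ {x, j})) * Q := by
    have := AZ_mul_sg hjy ∅ (e'.Tᶜ \ {x, j}) (by simp) (by simp [yT'])
    rw [hQ, R.comm_mul this, R.comm_mul' this]
  have s6 : B * X (sg (e'.Tᶜ \ {x, j})) = B := R.b_sg (by
    intro z hz hzT
    simp only [Finset.mem_sdiff, Finset.mem_compl, Finset.mem_insert, Finset.mem_singleton,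
      not_or, hT', Finset.mem_erase] at hz
    tauto)
  unfold mu
  calc B * X e * P = B * Q * X e' := q5
    _ = B * Q * (P * X e') := by rw [s2]
    _ = (B * X (sg (e'.Tᶜ \ {x, j}))) * Q * (P * X e') := by rw [s6]
    _ = B * (Q * X (sg (e'.Tᶜ \ {x, j}))) * (P * X e') := by rw [s5]; simp only [mul_assoc]
    _ = B * Q * (P * B' * P) * X e' := by rw [s4]; simp only [mul_assoc]
    _ = B * Q * P * (B' * P * X e') := by simp only [mul_assoc]
    _ = B * Q * P * B' * X e' := by rw [s1]; simp only [mul_assoc]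

theorem main_move (R : PRep X) (e : Pat n) {x j y : Fin n} (hx : x ∈ e.T) (hj : e.q j = y)
    (h : (x < j ∧ j < y) ∨ (y < j ∧ j < x)) (hin : ∀ k, sb x j k → k ∉ e.T) :
    X (sg e.Tᶜ) * X e * X (AZ x j ∅) = mu X e.T (jn e x j).T x j y * X (jn e x j) := by
  have hxj : x ≠ j := by omega
  have hjy : j ≠ y := by omega
  have hT := not_mem_of_arc e hjy hj
  have hT' := jnT_move e hx hj h hin
  have hTs : ∀ z ∈ sbF j y, z ∉ e.T := fun z hz => hT z (ib_iff.2 (Or.inr (Or.inr (mem_sbF.1 hz))))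
  have k1 : (kill e (sbF j y)).T = e.T := kill_T e hTs
  have hyj : e.q y = j := by rw [← hj, e.inv]
  have k2 : (kill e (sbF j y)).q j = y := by
    change (if j ∈ sbF j y ∨ e.q j ∈ sbF j y then j else e.q j) = y
    rw [if_neg, hj]
    simp only [mem_sbF, hj]
    unfold sb; omega
  have k3 : ∀ k, sb j y k → (kill e (sbF j y)).q k = k := by
    intro k hk
    change (if k ∈ sbF j y ∨ e.q k ∈ sbF j y then k else e.q k) = k
    rw [if_pos (Or.inl (mem_sbF.2 hk))]
  have a := R.main_move_aux (kill e (sbF j y)) (by rw [k1]; exact hx) k2 h (by rw [k1]; exact hin) k3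
  have hT1' := jnT_move (kill e (sbF j y)) (by rw [k1]; exact hx) k2 h (by rw [k1]; exact hin)
  rw [hT1', k1, ← hT'] at a
  -- `jn (kill e σ) = kill (jn e) σ`
  have c0 : (AZ x j ∅).D * (sg (sbF j y)).D = (AZ x j (sbF j y)).D := by
    rw [AZ_mul_sg hxj ∅ _ (by rw [mem_sbF]; unfold sb; omega) (by rw [mem_sbF]; unfold sb; omega),
      Finset.empty_union]
  have c1 := comm_aux c0
  have c2 : jn (kill e (sbF j y)) x j = kill (jn e x j) (sbF j y) := by
    apply D_injective
    rw [← D_jn _ hxj, ← D_kill, ← D_kill, ← D_jn _ hxj]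
    calc (AZ x j ∅).D * ((sg (sbF j y)).D * e.D * (sg (sbF j y)).D) * (AZ x j ∅).D
        = ((AZ x j ∅).D * (sg (sbF j y)).D) * e.D * ((sg (sbF j y)).D * (AZ x j ∅).D) := by
          simp only [mul_assoc]
      _ = ((sg (sbF j y)).D * (AZ x j ∅).D) * e.D * ((AZ x j ∅).D * (sg (sbF j y)).D) := by
          rw [c0, c1]
      _ = _ := by simp only [mul_assoc]
  rw [c2] at a
  set e' := jn e x j with he'
  set B := X (sg e.Tᶜ) with hB
  set P := X (AZ x j ∅) with hP
  set S := X (sg (sbF j y)) with hS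
  have r1 : X (kill e' (sbF j y)) * X e' = S * X e' := (R.mul_left (D_kill e' (sbF j y))).symm
  have r2 : mu X e.T e'.T x j y * S = mu X e.T e'.T x j y := by
    unfold mu
    rw [mul_assoc _ _ S, hS, R.b_sg]
    intro z hz hzT
    rw [hT', Finset.mem_insert, Finset.mem_erase] at hzT
    rcases hzT with rfl | h1
    · rw [mem_sbF] at hz; unfold sb at hz; omega
    · exact hTs z hz h1.2
  have r3 : B * X (kill e (sbF j y)) = B * X e * S := by
    rw [hB, hS, R.fix_sg e hTs]
  have r4 : X e * (S * P) * X e = X e := by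
    rw [hS, hP, R.comm_mul' c0]
    exact R.conj _ _ _ (e_AZ_e e hx hj h hin)
  have r5 : P * X e' = P * X e * P := by
    rw [he', ← R.conj _ _ _ (D_jn e hxj), ← mul_assoc, ← mul_assoc, hP, R.idem]
  calc B * X e * P = B * (X e * (S * P) * X e) * P := by rw [r4]
    _ = (B * X e * S) * (P * X e * P) := by simp only [mul_assoc]
    _ = B * X (kill e (sbF j y)) * P * X e' := by rw [← r5, ← r3]; simp only [mul_assoc]
    _ = mu X e.T e'.T x j y * (X (kill e' (sbF j y)) * X e') := by rw [a]; simp only [mul_assoc]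
    _ = mu X e.T e'.T x j y * X e' := by rw [r1, ← mul_assoc, r2]

end PRep

end Pool.Agent.W_MP_aeed81_al_h89
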