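import Pool.Agent.W_MP_aeed81_al_h89.MotGauge

set_option linter.unusedVariables false
set_option linter.unusedSectionVars false

namespace Pool.Agent.W_MP_aeed81_al_h89

variable {r : ℕ} {G : Type*} [Group G] {k : ℕ} {μ : (Fin (r+1) → ℕ) → Fin r → ℕ → ℕ → G}

section
variable (H : IsTauCocycle k μ)
include H

theorem F1 {κ : Fin (r+1) → ℕ} {j : Fin r} {a b : ℕ} (hk : ∑ i, κ i = k) (ha : 1 ≤ a)
    (hb : 1 ≤ b) (h : a + b + 2 ≤ κ j.succ) : μ (mv κ j 2) j a b = μ κ j (a + 2) b := by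
  have := H.K1 κ j 1 1 a b hk le_rfl le_rfl ha hb (by omega)
  rw [H.tau κ hk j (by omega), one_mul] at this
  rw [show a + 2 = 1 + 1 + a by ring, ← this]

theorem F2 {κ : Fin (r+1) → ℕ} {j : Fin r} {a b : ℕ} (hk : ∑ i, κ i = k) (ha : 1 ≤ a)
    (hb : 1 ≤ b) (h : a + b + 2 ≤ κ j.succ) : μ (mv κ j 2) j a b = μ κ j 1 (a + b + 1) := by
  have := H.K2 κ j 1 1 a b hk le_rfl le_rfl ha hb (by omega)
  rw [H.tau κ hk j (by omega), one_mul] at this
  rw [show a + b + 1 = 1 + a + b by ring, ← this]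

theorem F3 {κ : Fin (r+1) → ℕ} {j : Fin r} {a b : ℕ} (hk : ∑ i, κ i = k) (ha : 1 ≤ a)
    (hb : 1 ≤ b) (h : a + b + 2 ≤ κ j.succ) : μ κ j a b = μ κ j (a + b + 1) 1 := by
  have := H.K1 κ j a b 1 1 hk ha hb le_rfl le_rfl (by omega)
  rw [H.tau (mv κ j (a + b)) (by rw [sum_mv _ _ _ (by omega)]; exact hk) j
    (by rw [mv_succ]; omega), mul_one] at this
  exact this

theorem F4 {κ : Fin (r+1) → ℕ} {j : Fin r} {a b : ℕ} (hk : ∑ i, κ i = k) (ha : 1 ≤ a)
    (hb : 1 ≤ b) (h : a + b + 2 ≤ κ j.succ) : μ κ j a b = μ κ j a (b + 2) := by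
  have := H.K2 κ j a b 1 1 hk ha hb le_rfl le_rfl (by omega)
  rw [H.tau (mv κ j (a + b)) (by rw [sum_mv _ _ _ (by omega)]; exact hk) j
    (by rw [mv_succ]; omega), mul_one] at this
  exact this

/-- invariance under distant 2-moves -/
theorem inv_tau {κ : Fin (r+1) → ℕ} {j l : Fin r} {a b : ℕ} (hk : ∑ i, κ i = k) (hjl : j ≠ l)
    (ha : 1 ≤ a) (hb : 1 ≤ b) (h : a + b ≤ κ j.succ) (hl : 2 ≤ κ l.succ) :
    μ κ j a b = μ (mv κ l 2) j a b := by
  have := H.K3 κ j l a b 1 1 hk hjl ha hb le_rfl le_rfl h hl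
  rw [H.tau κ hk l hl, one_mul, show (1 + 1 : ℕ) = 2 from rfl,
    H.tau (mv κ j (a + b)) (by rw [sum_mv _ _ _ h]; exact hk) l ?_, mul_one] at this
  · exact this
  · rw [mv_apply]
    have : l.succ ≠ j.succ := fun h => hjl (Fin.succ_injective _ h).symm
    split_ifs <;> omega

theorem G1 {κ : Fin (r+1) → ℕ} {j : Fin r} (hk : ∑ i, κ i = k) (h : 5 ≤ κ j.succ) :
    μ κ j 1 2 = μ κ j 2 1 ∧ μ (mv κ j 2) j 2 1 = μ κ j 2 1 ∧ μ (mv κ j 2) j 1 2 = μ κ j 2 1 := by
  have a1 := F1 H (a := 2) (b := 1) hk (by norm_num) le_rfl h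
  have a2 := F2 H (a := 2) (b := 1) hk (by norm_num) le_rfl h
  have a3 := F1 H (a := 1) (b := 2) hk le_rfl (by norm_num) h
  have a4 := F2 H (a := 1) (b := 2) hk le_rfl (by norm_num) h
  have a5 := F3 H (a := 2) (b := 1) hk (by norm_num) le_rfl h
  have a6 := F3 H (a := 1) (b := 2) hk le_rfl (by norm_num) h
  simp only [Nat.reduceAdd] at a1 a2 a3 a4 a5 a6
  refine ⟨by rw [a6, a5], by rw [a1, a5], ?_⟩
  rw [a4, ← a2, a1, a5]

theorem G2 {κ : Fin (r+1) → ℕ} {j : Fin r} (hk : ∑ i, κ i = k) (h : 4 ≤ κ j.succ) :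
    μ κ j 3 1 = 1 ∧ μ κ j 1 3 = 1 := by
  have a1 := F3 H (a := 1) (b := 1) hk le_rfl le_rfl h
  have a2 := F4 H (a := 1) (b := 1) hk le_rfl le_rfl h
  rw [H.tau κ hk j (by omega)] at a1 a2
  exact ⟨a1.symm, a2.symm⟩

theorem G3 {κ : Fin (r+1) → ℕ} {j : Fin r} (hk : ∑ i, κ i = k) (h : 6 ≤ κ j.succ) :
    μ κ j 2 2 = 1 ∧ μ (mv κ j 2) j 2 2 = 1 := by
  have a1 := F3 H (a := 2) (b := 2) hk (by norm_num) (by norm_num) h
  have a2 := F3 H (a := 1) (b := 3) hk (by norm_num) (by norm_num) h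
  have a3 := F2 H (a := 2) (b := 2) hk (by norm_num) (by norm_num) h
  have a4 := F2 H (a := 1) (b := 3) hk (by norm_num) (by norm_num) h
  have a5 := (G2 H (κ := κ) (j := j) hk (by omega)).2
  have a6 := (G2 H (κ := mv κ j 2) (j := j) (by rw [sum_mv _ _ _ (by omega)]; exact hk)
    (by rw [mv_succ]; omega)).2
  simp only [Nat.reduceAdd] at a1 a2 a3 a4
  constructor
  · rw [a1, ← a2, a5]
  · rw [a3, ← a4, a6]

theorem G4 : ∀ d : ℕ, 5 ≤ d → ∀ (κ : Fin (r+1) → ℕ) (j : Fin r) (a b : ℕ), ∑ i, κ i = k →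
    1 ≤ a → 1 ≤ b → a + b = d → d ≤ κ j.succ →
    μ κ j a b = if d % 2 = 0 then 1 else μ κ j 2 1 := by
  intro d
  induction d using Nat.strong_induction_on with
  | _ d ih =>
    intro hd κ j a b hk ha hb hab hle
    by_cases h3 : 3 ≤ b
    · obtain ⟨c, rfl⟩ : ∃ c, b = c + 2 := ⟨b - 2, by omega⟩
      rw [← F4 H hk ha (by omega) (by omega)]
      by_cases h7 : 7 ≤ d
      · rw [ih (d - 2) (by omega) (by omega) κ j a c hk ha (by omega) (by omega) (by omega)]
        congr 1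
        apply propext
        omega
      · have : d = 5 ∨ d = 6 := by omega
        rcases this with h | h
        · subst h
          simp only [show ¬ (5 % 2 = 0) by norm_num, if_false]
          have hac : (a = 1 ∧ c = 2) ∨ (a = 2 ∧ c = 1) := by omega
          rcases hac with ⟨rfl, rfl⟩ | ⟨rfl, rfl⟩
          · exact (G1 H hk hle).1
          · rfl
        · subst h
          simp only [show (6 % 2 = 0) by norm_num, if_true]
          have hac : (a = 1 ∧ c = 3) ∨ (a = 2 ∧ c = 2) ∨ (a = 3 ∧ c = 1) := by omega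
          rcases hac with ⟨rfl, rfl⟩ | ⟨rfl, rfl⟩ | ⟨rfl, rfl⟩
          · exact (G2 H hk (by omega)).2
          · exact (G3 H hk hle).1
          · exact (G2 H hk (by omega)).1
    · obtain ⟨c, rfl⟩ : ∃ c, a = c + 2 := ⟨a - 2, by omega⟩
      rw [← F1 H hk (by omega) hb (by omega)]
      have hk' : ∑ i, mv κ j 2 i = k := by rw [sum_mv _ _ _ (by omega)]; exact hk
      have hs := mv_succ κ j 2
      by_cases h7 : 7 ≤ d
      · rw [ih (d - 2) (by omega) (by omega) (mv κ j 2) j c b hk' (by omega) hb (by omega)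
          (by omega), (G1 H hk (by omega)).2.1]
        congr 1
        apply propext
        omega
      · have : d = 5 ∨ d = 6 := by omega
        rcases this with h | h
        · subst h
          simp only [show ¬ (5 % 2 = 0) by norm_num, if_false]
          have hac : (c = 1 ∧ b = 2) ∨ (c = 2 ∧ b = 1) := by omega
          rcases hac with ⟨rfl, rfl⟩ | ⟨rfl, rfl⟩
          · exact (G1 H hk hle).2.2
          · exact (G1 H hk hle).2.1
        · subst h
          simp only [show (6 % 2 = 0) by norm_num, if_true]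
          have hac : (c = 2 ∧ b = 2) ∨ (c = 3 ∧ b = 1) := by omega
          rcases hac with ⟨rfl, rfl⟩ | ⟨rfl, rfl⟩
          · exact (G3 H hk hle).2
          · exact (G2 H hk' (by omega)).1

end

/-! ### Functions invariant under moving blocks of two -/

/-- the gaps of odd size -/
def odd (η : Fin (r+1) → ℕ) : Finset (Fin (r+1)) := Finset.univ.filter fun i => η i % 2 = 1

theorem odd_mv_two (η : Fin (r+1) → ℕ) (j : Fin r) (h : 2 ≤ η j.succ) :
    odd (mv η j 2) = odd η := by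
  unfold odd
  apply Finset.filter_congr
  intro i _
  rw [mv_apply]
  split_ifs with h1 h2
  · omega
  · subst h2; omega
  · rfl

theorem eq_of_odd_eq {η η' : Fin (r+1) → ℕ} (h : ∀ l : Fin r, η l.succ < 2)
    (h' : ∀ l : Fin r, η' l.succ < 2) (ho : odd η = odd η') (hs : ∑ i, η i = ∑ i, η' i) :
    η = η' := by
  have e1 : ∀ l : Fin r, η l.succ = η' l.succ := by
    intro l
    have a := h l
    have b := h' l
    have c : (l.succ ∈ odd η ↔ l.succ ∈ odd η') := by rw [ho]
    unfold odd at c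
    simp only [Finset.mem_filter, Finset.mem_univ, true_and] at c
    omega
  rw [Fin.sum_univ_succ, Fin.sum_univ_succ, Finset.sum_congr rfl (fun l _ => e1 l)] at hs
  funext i
  refine Fin.cases ?_ (fun l => e1 l) i
  omega

theorem block_inv {α : Type*} (F : (Fin (r+1) → ℕ) → α) (K : ℕ)
    (hF : ∀ η : Fin (r+1) → ℕ, ∑ i, η i = K → ∀ l : Fin r, 2 ≤ η l.succ → F η = F (mv η l 2)) :
    ∀ η η' : Fin (r+1) → ℕ, ∑ i, η i = K → ∑ i, η' i = K → odd η = odd η' → F η = F η' := by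
  have main : ∀ m : ℕ, ∀ η η' : Fin (r+1) → ℕ, pot η + pot η' = m → ∑ i, η i = K →
      ∑ i, η' i = K → odd η = odd η' → F η = F η' := by
    intro m
    induction m using Nat.strong_induction_on with
    | _ m ih =>
      intro η η' hm h1 h2 ho
      by_cases hl : ∃ l : Fin r, 2 ≤ η l.succ
      · obtain ⟨l, hl⟩ := hl
        have := pot_mv η l 2 hl
        rw [hF η h1 l hl]
        exact ih (pot (mv η l 2) + pot η') (by omega) _ _ rfl (by rw [sum_mv _ _ _ hl]; exact h1)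
          h2 (by rw [odd_mv_two _ _ hl, ho])
      · by_cases hl' : ∃ l : Fin r, 2 ≤ η' l.succ
        · obtain ⟨l, hl'⟩ := hl'
          have := pot_mv η' l 2 hl'
          rw [hF η' h2 l hl']
          exact ih (pot η + pot (mv η' l 2)) (by omega) _ _ rfl h1
            (by rw [sum_mv _ _ _ hl']; exact h2) (by rw [odd_mv_two _ _ hl', ho])
        · have : η = η' := by
            apply eq_of_odd_eq
            · intro l; by_contra hc; exact hl ⟨l, by omega⟩
            · intro l; by_contra hc; exact hl' ⟨l, by omega⟩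
            · exact ho
            · rw [h1, h2]
          rw [this]
  intro η η' h1 h2 ho
  exact main _ η η' rfl h1 h2 ho

end Pool.Agent.W_MP_aeed81_al_h89
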