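import Pool.Agent.W_MP_aeed81_al_h89.MotFinal
import Pool.Agent.W_MP_aeed81_al.BThm

/-!
# The maximal subgroups of `PG(P(M_n))`: final statement
-/

set_option linter.unusedVariables false
set_option linter.unusedSectionVars false
set_option warn.classDefReducibility false

namespace Pool.Agent.W_MP_aeed81_al_h89

open Pool.Agent.W_MP_aeed81_al Sum Pat

variable {n r : ℕ}

theorem noarc {p : Pat n} (hiso : ¬ ∃ u v : Fin n, (v : ℕ) = u + 1 ∧ u ∉ p.T ∧ v ∉ p.T)
    (k : Fin n) : p.q k = k := by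
  have key : ∀ k, ¬ k < p.q k := by
    intro k hk
    have h : TightT p.T k k := fun u v h1 h2 h3 => absurd ⟨u, v, h1, h2, h3⟩ hiso
    exact absurd (win1 h hk).1 (lt_irrefl k)
  by_contra hne
  rcases lt_or_gt_of_ne hne with h | h
  · apply key (p.q k)
    rw [p.inv]; exact h
  · exact key k h

theorem main_isolated (p : Pat n)
    (hiso : ¬ ∃ u v : Fin n, (v : ℕ) = u + 1 ∧ u ∉ p.T ∧ v ∉ p.T) :
    HClassIso (xm p) PUnit.{1} := by
  classical
  have R := prep_xm (n := n)
  have hq := noarc hiso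
  obtain ⟨Φ, Φm, Φx⟩ := action_of_sq (F := PUnit.{1}) (c := fun _ _ : Pat n => 1)
    (fun _ => rfl) (fun _ _ => rfl) (fun _ _ _ _ _ _ _ _ _ => rfl)
  have Φp : (Φ (xm p)).1 (some (p, 1)) = some (p, 1) := by
    rw [Φx, if_pos (by rw [D_idem, D_idem]), cj_eq (by rw [D_idem, D_idem])]
  have step_sg : ∀ (Z : Finset (Fin n)) (d d' : Pat n) (h : PUnit.{1}), d = p →
      (Φ (xm (sg Z))).1 (some (d, 1)) = some (d', h) → d' = p ∧ xm p * xm (sg Z) = xm p * xm p := by
    rintro Z d d' h rfl hΦ
    rw [Φx] at hΦ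
    split_ifs at hΦ with c
    have hZ := sg_cases d c
    have e0 : kill d Z = d := by
      apply ext'
      · intro k
        change (if k ∈ Z ∨ d.q k ∈ Z then k else d.q k) = d.q k
        rw [hq k]; simp
      · exact PRep.kill_T d hZ
    have e1 : cj (sg Z) d = d := by rw [cj_eq (D_kill d Z), e0]
    have hp := Option.some.inj hΦ
    have e2 : cj (sg Z) d = d' := congrArg Prod.fst hp
    refine ⟨e2.symm.trans e1, ?_⟩
    rw [R.mul_right (D_kill d Z), e0]
  apply hclass_of_cover' Φ Φm
    ({a | a = xm (sg ∅) ∨ (∃ i, a = xm (sg {i})) ∨ ∃ i j, i ≠ j ∧ a = xm (AZ i j ∅)})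
    (fun P h1 h2 => xm_generated (h1 _ (Or.inl rfl)) (fun i => h1 _ (Or.inr (Or.inl ⟨i, rfl⟩)))
      (fun i j hij => h1 _ (Or.inr (Or.inr ⟨i, j, hij, rfl⟩))) h2)
    ?_ (xm p) (R.idem p) p Φp (fun d => d = p) rfl (fun d g h _ => h) (fun _ => xm p)
    (fun _ => xm p) rfl (fun _ _ => (R.idem p).symm) rfl ?_ ?_
  · rintro a ha g d h
    rcases ha with rfl | ⟨i, rfl⟩ | ⟨i, j, hij, rfl⟩ <;>
    · rw [Φx]
      split_ifs <;> rfl
  · intro g
    exact Φp
  · rintro a (rfl | ⟨i, rfl⟩ | ⟨i, j, hij, rfl⟩) d d' h hd hΦ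
    · exact step_sg ∅ d d' h hd hΦ
    · exact step_sg {i} d d' h hd hΦ
    · exfalso
      have hd' : d = p := hd
      subst hd'
      rw [Φx] at hΦ
      split_ifs at hΦ with c
      rcases AZ_cases d hij c with c1 | ⟨_, _, c3⟩ | ⟨_, _, c3⟩
      · apply hiso
        rcases lt_or_gt_of_ne hij with h' | h'
        · exact ⟨i, ⟨i + 1, by omega⟩, rfl, c1 i (by unfold ib; omega),
            c1 _ (by unfold ib; simp only [Fin.le_def]; omega)⟩
        · exact ⟨j, ⟨j + 1, by omega⟩, rfl, c1 j (by unfold ib; omega),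
            c1 _ (by unfold ib; simp only [Fin.le_def]; omega)⟩
      · rw [hq j] at c3; omega
      · rw [hq i] at c3; omega

theorem MP_T (e : Pat n) (i : Fin n) : (MP e).1 (inl i) (inr i) ↔ i ∈ e.T := by
  constructor
  · rintro (h | h)
    · simp at h
    · by_contra hc
      rw [w_inl e hc] at h
      simp at h
  · intro h
    right
    rw [w_inl_T e h]

/-- **The maximal subgroups of `PG(P(M_n))`.** -/
theorem motzkin_main (n : ℕ) (p : Proj (Motzkin n)) (r : ℕ) (hr : drank p.1 = r) :
    ((∀ i j : Fin n, (j : ℕ) = i + 1 → p.1 (inl i) (inr i) ∨ p.1 (inl j) (inr j)) ∧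
      HClassIso (gen p) PUnit.{1}) ∨
    ((∃ i j : Fin n, (j : ℕ) = i + 1 ∧ ¬ p.1 (inl i) (inr i) ∧ ¬ p.1 (inl j) (inr j)) ∧
      ((r + 2 = n ∧ HClassIso (gen p) PUnit.{1}) ∨
       (r + 3 = n ∧ HClassIso (gen p) (FreeGroup (Fin r))) ∨
       (r + 4 ≤ n ∧ HClassIso (gen p) (FreeGroup (Fin
         (2 * r * (r + 1).choose (n - r - 3) + r * (r + 1).choose (n - r - 4) -
           (r + 1).choose (n - r - 2))))))) := by
  obtain ⟨e, rfl⟩ := exists_MP p
  have hr' : e.T.card = r := by rw [← hr]; exact (drank_D e).symm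
  by_cases hiso : ∃ u v : Fin n, (v : ℕ) = u + 1 ∧ u ∉ e.T ∧ v ∉ e.T
  · right
    refine ⟨?_, ?_⟩
    · obtain ⟨u, v, h1, h2, h3⟩ := hiso
      exact ⟨u, v, h1, by rwa [MP_T], by rwa [MP_T]⟩
    · have hrn : r + 2 ≤ n := by
        obtain ⟨u, v, h1, h2, h3⟩ := hiso
        have : (insert u (insert v e.T)).card ≤ n := by
          have := Finset.card_le_univ (insert u (insert v e.T))
          rwa [Fintype.card_fin] at this
        rw [Finset.card_insert_of_notMem, Finset.card_insert_of_notMem h3] at this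
        · omega
        · rw [Finset.mem_insert]
          rintro (h | h)
          · subst h; omega
          · exact h2 h
      have key := main_nonisolated e (k := n - r) hr' (by omega) hiso
      by_cases c2 : r + 2 = n
      · left
        refine ⟨c2, ?_⟩
        have e2 : n - r = 2 := by omega
        rw [e2] at key
        have : IsEmpty {l : Lab r // l.Valid 2} := empty_valid le_rfl
        exact key.congr MulEquiv.ofUnique
      by_cases c3 : r + 3 = n
      · right; left
        refine ⟨c3, ?_⟩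
        have e3 : n - r = 3 := by omega
        rw [e3] at key
        have := finite_valid (r := r) 3
        exact HClassIso.free key card_valid_three
      · right; right
        refine ⟨by omega, ?_⟩
        have := finite_valid (r := r) (n - r)
        exact HClassIso.free key (card_valid (by omega))
  · left
    refine ⟨?_, main_isolated e hiso⟩
    intro i j hij
    rw [MP_T, MP_T]
    by_contra hc
    push Not at hc
    exact hiso ⟨i, j, hij, hc.1, hc.2⟩

end Pool.Agent.W_MP_aeed81_al_h89
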