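import Pool.Agent.W_MP_aeed81_al_h89.MotK
import Pool.Agent.W_MP_aeed81_al_h89.MotGen
import Pool.Agent.W_MP_aeed81_al.PGbase
import Pool.Agent.W_MP_aeed81_al.FreeThm

/-!
# The generators of `PG(P(M_n))` and the statement of the square relations
-/

set_option linter.unusedVariables false
set_option linter.unusedSectionVars false
set_option warn.classDefReducibility false

namespace Pool.Agent.W_MP_aeed81_al_h89

open Pool.Agent.W_MP_aeed81_al Sum Pat

variable {n : ℕ}

theorem join_eq_jn (e : Pat n) (i j : Fin n) (hij : i < j) : join e i j hij = jn e i j := by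
  unfold jn; rw [dif_pos hij]

theorem exists_cj (p e : Pat n) : ∃ f : Pat n, p.D * e.D * p.D = f.D := by
  revert e
  refine pat_induction (fun p => ∀ e : Pat n, ∃ f : Pat n, p.D * e.D * p.D = f.D) ?_ ?_ ?_ p
  · intro e; exact ⟨_, D_kill e ∅⟩
  · intro p i ih e
    obtain ⟨f, hf⟩ := ih (kill e {i})
    refine ⟨kill f {i}, ?_⟩
    rw [← D_kill, ← D_kill, ← hf, ← D_kill]
    simp only [mul_assoc]
  · intro p i j hij ih e
    have hne : i ≠ j := by omega
    obtain ⟨f, hf⟩ := ih (jn e i j)
    refine ⟨jn f i j, ?_⟩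
    rw [join_eq_jn, ← D_jn _ hne, ← D_jn _ hne, ← hf, ← D_jn _ hne]
    simp only [mul_assoc]

/-- the pattern `p e p` -/
noncomputable def cj (p e : Pat n) : Pat n := (exists_cj p e).choose

theorem cj_spec (p e : Pat n) : p.D * e.D * p.D = (cj p e).D := (exists_cj p e).choose_spec

theorem cj_eq {p e f : Pat n} (h : p.D * e.D * p.D = f.D) : cj p e = f :=
  D_injective ((cj_spec p e).symm.trans h)

/-- the projection of a pattern -/
def MP (e : Pat n) : Proj (Motzkin n) := ⟨e.D, D_mem e, D_idem e, st_D e⟩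

theorem exists_MP (p : Proj (Motzkin n)) : ∃ e, p = MP e := by
  obtain ⟨e, he⟩ := exists_pat p.2.1 p.2.2.1 p.2.2.2
  exact ⟨e, Subtype.ext he⟩

theorem MP_injective {e f : Pat n} (h : MP e = MP f) : e = f :=
  D_injective (congrArg Subtype.val h)

/-- generator of `PG(P(M_n))` for the pattern `e` -/
def xm (e : Pat n) : PG (Motzkin n) := gen (MP e)

theorem prep_xm : PRep (xm (n := n)) := by
  constructor
  · intro p; exact gen_idem _
  · intro p q; exact gen_sq _ _
  · intro p q s h; exact gen_conj _ _ _ h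

theorem xm_induction {P : PG (Motzkin n) → Prop} (h1 : ∀ e, P (xm e))
    (h2 : ∀ a b, P a → P b → P (a * b)) : ∀ a, P a := by
  apply PG_induction _ h2
  intro p
  obtain ⟨e, rfl⟩ := exists_MP p
  exact h1 e

/-- `PG(P(M_n))` is generated by the simplest projections. -/
theorem xm_generated {P : PG (Motzkin n) → Prop} (h0 : P (xm (sg ∅)))
    (h1 : ∀ i, P (xm (sg {i}))) (h2 : ∀ i j, i ≠ j → P (xm (AZ i j ∅)))
    (h3 : ∀ a b, P a → P b → P (a * b)) : ∀ a, P a := by
  apply xm_induction _ h3
  apply pat_induction (fun e => P (xm e)) h0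
  · intro e i he
    have : xm (kill e {i}) = xm (sg {i}) * xm e * xm (sg {i}) :=
      (prep_xm.conj _ _ _ (D_kill e {i})).symm
    rw [this]
    exact h3 _ _ (h3 _ _ (h1 i) he) (h1 i)
  · intro e i j hij he
    have hne : i ≠ j := by omega
    have : xm (join e i j hij) = xm (AZ i j ∅) * xm e * xm (AZ i j ∅) := by
      rw [join_eq_jn]
      exact (prep_xm.conj _ _ _ (D_jn e hne)).symm
    rw [this]
    exact h3 _ _ (h3 _ _ (h2 i j hne) he) (h2 i j hne)

/-- universal property of `PG(P(M_n))` -/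
theorem lift_xm {T : Type*} [Semigroup T] (Y : Pat n → T) (R : PRep Y) :
    ∃ Φ : PG (Motzkin n) → T, (∀ a b, Φ (a * b) = Φ a * Φ b) ∧ ∀ e, Φ (xm e) = Y e := by
  choose f hf using exists_MP (n := n)
  obtain ⟨Φ, h1, h2⟩ := PG_lift (S := Motzkin n) (fun p => Y (f p)) (fun p => R.idem _)
    (fun p q => R.sq _ _) (by
      intro p q s h
      apply R.conj
      have e5 : ∀ p : Proj (Motzkin n), p.1 = (MP (f p)).1 := fun p => congrArg Subtype.val (hf p)
      have : dmul (dmul (MP (f p)).1 (MP (f q)).1) (MP (f p)).1 = (MP (f s)).1 := by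
        rw [← e5, ← e5, ← e5, h]
      exact this)
  refine ⟨Φ, h1, fun e => ?_⟩
  rw [xm, h2]
  rw [MP_injective (hf (MP e)).symm]

/-- The square relation for `p`, for a labelling `c` of pairs of patterns. -/
def Sq {F : Type*} [Mul F] (c : Pat n → Pat n → F) (p : Pat n) : Prop :=
  ∀ e f a b : Pat n, p.D * e.D * p.D = a.D → p.D * f.D * p.D = b.D → e.D * b.D * e.D = e.D →
    f.D * a.D * f.D = f.D → c e a * c a f = c e b * c b f

end Pool.Agent.W_MP_aeed81_al_h89
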